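import Mathlib
import Pool.Agent.Lib.P0c8ca5.MainB

/-!
# Definitions for the equivalence of Navarro's conjecture and the blockwise weight conjecture

`A` is the ambient finite group, all groups of the problem are subgroups of `A`.

* `Preg p x`: `x` is p-regular; `pr p x` is the p-regular part of `x`, a power of `x`.
* `conv c f x = f (c x)` for a function `f` on `A` extended linearly.
* `chi ρ` the character (trace) of a representation, extended by zero; `IrrCh k H` the set of the
  irreducible characters of `H`; `XH p k H` the space of the class functions of `H` that are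
  constant on p-sections.
* `Cl M P` the classes of `M`-conjugacy on `{x | P x}`; `EM p M P c` the matrix of the action of
  `c` on functions on these classes.
* `mult1 E` the algebraic multiplicity of the eigenvalue 1 of the matrix `E`.
* `Pdef p H F`: p-regular elements of `H` with a defect group in the family `F`.
* `PD p M T`: p-regular elements of `C_M(T)` such that `T` is a Sylow subgroup of their centralizer.
-/

namespace Pool.Agent.Lib.P0c8ca5

open MonoidAlgebra

/-- p-regular elements -/
def Preg (p : ℕ) {A : Type*} [Group A] (x : A) : Prop := ¬ p ∣ orderOf x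

/-- the exponent, a power of `p`, that is `1` modulo the p'-part of `|A|` and `0` modulo the
p-part of `|A|` -/
noncomputable def uexp (p : ℕ) (A : Type*) [Group A] : ℕ :=
  p ^ (Nat.card A * Nat.totient (ordCompl[p] (Nat.card A)))

/-- the p-regular part of `x` -/
noncomputable def pr (p : ℕ) {A : Type*} [Group A] (x : A) : A := x ^ uexp p A

section
variable {k : Type*} [Field k] {A : Type*} [Group A]

/-- `conv c f x = f (c x)` -/
noncomputable def conv [Fintype A] (c : MonoidAlgebra k A) (f : A → k) : A → k :=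
  fun x => ∑ h : A, c.coeff h * f (h * x)

open Classical in
/-- the character of a representation of the subgroup `H`, extended by zero -/
noncomputable def chi {H : Subgroup A} {n : ℕ} (ρ : Rp k H n) : A → k := fun x =>
  if h : x ∈ H then LinearMap.trace k (Fin n → k) (ρ ⟨x, h⟩) else 0

/-- the set of the irreducible characters of `H` -/
def IrrCh (k : Type*) [Field k] {A : Type*} [Group A] (H : Subgroup A) : Set (A → k) :=
  {f | ∃ (n : ℕ) (ρ : Rp k H n), ρ.IsIrreducible ∧ f = chi ρ}

/-- class functions of `H`, extended by zero, that are constant on p-sections -/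
def XH (p : ℕ) (k : Type*) [Field k] {A : Type*} [Group A] (H : Subgroup A) :
    Submodule k (A → k) where
  carrier := {f | (∀ x, x ∉ H → f x = 0) ∧ (∀ h ∈ H, ∀ x, f (h * x * h⁻¹) = f x) ∧
    ∀ x ∈ H, f (pr p x) = f x}
  add_mem' := by
    rintro f g ⟨h1, h2, h3⟩ ⟨h1', h2', h3'⟩
    refine ⟨fun x hx => ?_, fun h hh x => ?_, fun x hx => ?_⟩
    · rw [Pi.add_apply, h1 x hx, h1' x hx, add_zero]
    · rw [Pi.add_apply, Pi.add_apply, h2 h hh x, h2' h hh x]
    · rw [Pi.add_apply, Pi.add_apply, h3 x hx, h3' x hx]
  zero_mem' := ⟨fun _ _ => rfl, fun _ _ _ => rfl, fun _ _ => rfl⟩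
  smul_mem' := by
    rintro c f ⟨h1, h2, h3⟩
    refine ⟨fun x hx => ?_, fun h hh x => ?_, fun x hx => ?_⟩
    · rw [Pi.smul_apply, h1 x hx, smul_zero]
    · rw [Pi.smul_apply, Pi.smul_apply, h2 h hh x]
    · rw [Pi.smul_apply, Pi.smul_apply, h3 x hx]

theorem mem_XH {p : ℕ} {H : Subgroup A} {f : A → k} : f ∈ XH p k H ↔
    (∀ x, x ∉ H → f x = 0) ∧ (∀ h ∈ H, ∀ x, f (h * x * h⁻¹) = f x) ∧
    ∀ x ∈ H, f (pr p x) = f x := Iff.rfl

/-- `M`-conjugacy on the set `{x | P x}` -/
def clSetoid (M : Subgroup A) (P : A → Prop) : Setoid {x : A // P x} where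
  r x y := ∃ h ∈ M, (y : A) = h * x * h⁻¹
  iseqv :=
    { refl := fun x => ⟨1, M.one_mem, by simp⟩
      symm := fun {x y} ⟨h, hh, e⟩ => ⟨h⁻¹, M.inv_mem hh, by rw [e]; group⟩
      trans := fun {x y z} ⟨h, hh, e⟩ ⟨h', hh', e'⟩ => ⟨h' * h, M.mul_mem hh' hh, by
        rw [e', e]; group⟩ }

/-- the classes of `M`-conjugacy on the set `{x | P x}` -/
abbrev Cl (M : Subgroup A) (P : A → Prop) : Type _ := Quotient (clSetoid M P)

/-- `a` is an element of the class `Y` -/
def InCl (M : Subgroup A) (P : A → Prop) (Y : Cl M P) (a : A) : Prop :=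
  ∃ h : P a, Quotient.mk (clSetoid M P) ⟨a, h⟩ = Y

open Classical in
/-- the matrix of the action of `c` on the functions on the classes -/
noncomputable def EM [Fintype A] (p : ℕ) (M : Subgroup A) (P : A → Prop) (c : MonoidAlgebra k A) :
    Matrix (Cl M P) (Cl M P) k :=
  fun X Y => ∑ h : A, if InCl M P Y (pr p (h * (X.out : A))) then c.coeff h else 0

open Classical in
/-- the algebraic multiplicity of the eigenvalue 1 -/
noncomputable def mult1 {ι : Type*} [Finite ι] (E : Matrix ι ι k) : ℕ :=
  letI := Fintype.ofFinite ι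
  E.charpoly.rootMultiplicity 1

/-- p-regular elements of `H` with a defect group in `F` -/
def Pdef (p : ℕ) (H : Subgroup A) (F : Set (Subgroup A)) (x : A) : Prop :=
  x ∈ H ∧ Preg p x ∧ ∃ T ∈ F, IsSyl p (H ⊓ Subgroup.centralizer ({x} : Set A)) T

/-- p-regular elements of `C_M(T)` such that `T` is a Sylow subgroup of their centralizer in `M` -/
def PD (p : ℕ) (M T : Subgroup A) (x : A) : Prop :=
  x ∈ M ∧ x ∈ Subgroup.centralizer (T : Set A) ∧ Preg p x ∧
    IsSyl p (M ⊓ Subgroup.centralizer ({x} : Set A)) T

/-- the local multiplicity attached to `(M, T, S)` -/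
noncomputable def mD [Fintype A] (p : ℕ) (M T S : Subgroup A) (e : MonoidAlgebra k A) : ℕ :=
  mult1 (EM p M (PD p M T) (resS (Subgroup.centralizer (S : Set A) : Set A) e))

/-- the number of defect zero blocks of `M/R` (`R` normal in `M`) under the image of the part of
`e` supported in the centralizer of `S` -/
noncomputable def wD (p : ℕ) (M R S : Subgroup A) (e : MonoidAlgebra k A) : ℕ :=
  Nat.card {f : MonoidAlgebra k (NQ R) | IsDZ p (sec M R) f ∧
    f * proj R (resS (Subgroup.centralizer (S : Set A) : Set A) e) = f}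

/-- the p-subgroups `Q` of `X` with `G Q = X` -/
def Supp (p : ℕ) (G X : Subgroup A) : Set (Subgroup A) :=
  {Q | Q ≤ X ∧ IsPGroup p Q ∧ G ⊔ Q = X}

/-- the stabilizer in `X` of all members of `σ` -/
def stab (X : Subgroup A) (σ : Finset (Subgroup A)) : Subgroup A :=
  X ⊓ ⨅ Q ∈ σ, Subgroup.normalizer (Q : Set A)

end

end Pool.Agent.Lib.P0c8ca5
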