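import Mathlib
import Pool.Agent.Lib.P0c8ca5N.Defs

/-!
# Module Crep: representatives of conjugacy classes of subgroups, weighted sums

`crep H T` is the chosen representative of the class of `T` under conjugation by `H`.
`sum_crep`: group the left side by the value of `crep H T`; each class of `T₀` contributes
`w T₀ * ∑_{T in the class} |H ⊓ N(T)| = w T₀ * |H|` (`sum_class` in P0c8ca5.WeightsC).  Compare the
proof of `sum_transversal` in P0c8ca5.Equiv.

`IsSyl` facts, from the definition of `IsSyl` in P0c8ca5.GroupLem: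
* `IsSyl.conj_eq`: two Sylow subgroups are conjugate (`conj` and equal cardinalities, which
  follow by applying `conj` both ways, `card_cg`).
* `IsSyl.cg`: conjugate everything.
* `IsSyl.of_card`: a p-subgroup `D` of `C` with `|T| ≤ |D|`, `T` Sylow, is Sylow.
* `isSyl_of_normalizer`: `T` is Sylow in `C` iff it is Sylow in `C ⊓ N(T)` (a p-group `T < S` has
  `T < N_S(T)`, `exists_norm_growth` in WeightsC or `normalizerCondition`).
-/

namespace Pool.Agent.Lib.P0c8ca5

set_option linter.unusedSectionVars false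

variable {p : ℕ} {A : Type*} [Group A]

/-- conjugacy of subgroups under `H` -/
def sgSetoid (H : Subgroup A) : Setoid (Subgroup A) where
  r Q Q' := ∃ h ∈ H, Q' = cg h Q
  iseqv :=
    { refl := fun Q => ⟨1, H.one_mem, (cg_one Q).symm⟩
      symm := fun {Q Q'} ⟨h, hh, hQ⟩ => ⟨h⁻¹, H.inv_mem hh, by
        rw [hQ, cg_cg, inv_mul_cancel, cg_one]⟩
      trans := fun {Q Q' Q''} ⟨h, hh, hQ⟩ ⟨h', hh', hQ'⟩ => ⟨h' * h, H.mul_mem hh' hh, by
        rw [hQ', hQ, cg_cg]⟩ }

/-- the chosen representative -/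
noncomputable def crep (H T : Subgroup A) : Subgroup A := (Quotient.mk (sgSetoid H) T).out

theorem crep_spec (H T : Subgroup A) : ∃ h ∈ H, crep H T = cg h T := by
  have h1 : (sgSetoid H).r (crep H T) T := Quotient.mk_out (s := sgSetoid H) T
  exact (sgSetoid H).iseqv.symm h1

theorem crep_cg {H T : Subgroup A} {h : A} (hh : h ∈ H) : crep H (cg h T) = crep H T := by
  unfold crep
  have h1 : Quotient.mk (sgSetoid H) (cg h T) = Quotient.mk (sgSetoid H) T := by
    apply Quotient.sound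
    exact ⟨h⁻¹, H.inv_mem hh, by rw [cg_cg, inv_mul_cancel, cg_one]⟩
  rw [h1]

theorem crep_crep (H T : Subgroup A) : crep H (crep H T) = crep H T := by
  obtain ⟨h, hh, e⟩ := crep_spec H T
  rw [e, crep_cg hh, e]

open Classical in
theorem sum_crep [Finite A] (H : Subgroup A) (F : Finset (Subgroup A))
    (hF : ∀ T ∈ F, ∀ h ∈ H, cg h T ∈ F) (w : Subgroup A → ℕ)
    (hw : ∀ T ∈ F, ∀ h ∈ H, w (cg h T) = w T) :
    ∑ T ∈ F, Nat.card ↥(H ⊓ Subgroup.normalizer (T : Set A)) * w T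
      = Nat.card H * ∑ T ∈ (F.filter (fun T => crep H T = T)), w T := by
  have hmaps : ∀ T ∈ F, crep H T ∈ F.filter (fun T => crep H T = T) := by
    intro T hT
    rw [Finset.mem_filter]
    obtain ⟨h, hh, e⟩ := crep_spec H T
    refine ⟨?_, crep_crep H T⟩
    rw [e]
    exact hF T hT h hh
  rw [← Finset.sum_fiberwise_of_maps_to hmaps, Finset.mul_sum]
  refine Finset.sum_congr rfl (fun T₀ hT₀ => ?_)
  rw [Finset.mem_filter] at hT₀
  obtain ⟨hT₀F, hT₀⟩ := hT₀
  have hS : ∀ Q, Q ∈ F.filter (fun T => crep H T = T₀) ↔ ∃ m ∈ H, Q = cg m T₀ := by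
    intro Q
    rw [Finset.mem_filter]
    constructor
    · rintro ⟨_, hQ⟩
      obtain ⟨h, hh, e⟩ := crep_spec H Q
      refine ⟨h⁻¹, H.inv_mem hh, ?_⟩
      rw [← hQ, e, cg_cg, inv_mul_cancel, cg_one]
    · rintro ⟨m, hm, rfl⟩
      exact ⟨hF T₀ hT₀F m hm, by rw [crep_cg hm, hT₀]⟩
  rw [← sum_class H T₀ _ hS, Finset.sum_mul]
  refine Finset.sum_congr rfl (fun Q hQ => ?_)
  obtain ⟨m, hm, rfl⟩ := (hS Q).1 hQ
  rw [hw T₀ hT₀F m hm]

section
variable [Fact p.Prime] [Finite A]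

theorem IsSyl.card_le {C P D : Subgroup A} (h : IsSyl p C P) (hD : D ≤ C)
    (hpD : IsPGroup p D) : Nat.card D ≤ Nat.card P := by
  obtain ⟨g, _, hg⟩ := h.conj D hD hpD
  rw [← card_cg g P]
  exact Nat.card_mono (Set.toFinite _) hg

theorem IsSyl.conj_eq {C P P' : Subgroup A} (h : IsSyl p C P) (h' : IsSyl p C P') :
    ∃ g ∈ C, P' = cg g P := by
  obtain ⟨g, hg, hle⟩ := h.conj P' h'.le h'.isPGroup
  refine ⟨g, hg, eq_of_le_of_card hle ?_⟩
  rw [card_cg]
  exact h'.card_le h.le h.isPGroup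

theorem IsSyl.cg {C P : Subgroup A} (h : IsSyl p C P) (g : A) :
    IsSyl p (Pool.Agent.Lib.P0c8ca5.cg g C) (Pool.Agent.Lib.P0c8ca5.cg g P) := by
  refine ⟨cg_le_cg h.le, isPGroup_cg h.isPGroup, ?_, ?_⟩
  · intro D hD hpD
    have h1 : Pool.Agent.Lib.P0c8ca5.cg g⁻¹ D ≤ C := by
      rw [cg_le_iff, inv_inv]
      exact hD
    obtain ⟨x, hx, hle⟩ := h.conj _ h1 (isPGroup_cg hpD)
    refine ⟨g * x * g⁻¹, ?_, ?_⟩
    · rw [mem_cg]
      have e : g⁻¹ * (g * x * g⁻¹) * g = x := by group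
      rw [e]
      exact hx
    · rw [cg_le_iff, inv_inv, cg_cg] at hle
      rw [cg_cg]
      have e : g * x * g⁻¹ * g = g * x := by group
      rw [e]
      exact hle
  · have e : (Pool.Agent.Lib.P0c8ca5.cg g P).relIndex (Pool.Agent.Lib.P0c8ca5.cg g C)
        = P.relIndex C :=
      Subgroup.relIndex_map_map_of_injective P C (MulAut.conj g).injective
    rw [e]
    exact h.ndvd

theorem IsSyl.cg_self {C P : Subgroup A} (h : IsSyl p C P) {g : A} (hg : g ∈ C) :
    IsSyl p C (Pool.Agent.Lib.P0c8ca5.cg g P) := by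
  have h1 := h.cg g
  rwa [cg_of_mem hg] at h1

theorem IsSyl.of_card {C P D : Subgroup A} (h : IsSyl p C P) (hD : D ≤ C) (hpD : IsPGroup p D)
    (hc : Nat.card P ≤ Nat.card D) : IsSyl p C D := by
  obtain ⟨g, hg, hle⟩ := h.conj D hD hpD
  have e : D = Pool.Agent.Lib.P0c8ca5.cg g P :=
    eq_of_le_of_card hle (by rw [card_cg]; exact hc)
  rw [e]
  exact h.cg_self hg

theorem isSyl_inf_normalizer {C T : Subgroup A} :
    IsSyl p (C ⊓ Subgroup.normalizer (T : Set A)) T ↔ IsSyl p C T := by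
  constructor
  · intro h
    have hTC : T ≤ C := le_trans h.le inf_le_left
    obtain ⟨P₀, hP₀⟩ := exists_isSyl (p := p) C
    obtain ⟨g, hg, hle⟩ := hP₀.conj T hTC h.isPGroup
    have hP := hP₀.cg_self hg
    by_cases hne : T = Pool.Agent.Lib.P0c8ca5.cg g P₀
    · rw [hne]
      exact hP
    · exfalso
      obtain ⟨x, hx, hxN, hxT⟩ := exists_norm_growth hP.isPGroup hle hne
      apply hxT
      have h1 : T ≤ Pool.Agent.Lib.P0c8ca5.cg g P₀ ⊓ Subgroup.normalizer (T : Set A) :=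
        le_inf hle Subgroup.le_normalizer
      have h2 : IsPGroup p ↥(Pool.Agent.Lib.P0c8ca5.cg g P₀ ⊓ Subgroup.normalizer (T : Set A)) :=
        hP.isPGroup.to_le inf_le_left
      have h3 := h.card_le (inf_le_inf_right _ hP.le) h2
      have h4 := eq_of_le_of_card h1 h3
      rw [h4]
      exact ⟨hx, hxN⟩
  · intro h
    refine ⟨le_inf h.le Subgroup.le_normalizer, h.isPGroup, ?_, ?_⟩
    · intro D hD hpD
      refine ⟨1, Subgroup.one_mem _, ?_⟩
      rw [cg_one]
      have h1 : IsPGroup p ↥(D ⊔ T) :=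
        hpD.to_sup_of_normal_right' h.isPGroup (le_trans hD inf_le_right)
      have h2 : D ⊔ T ≤ C := sup_le (le_trans hD inf_le_left) h.le
      have h3 := eq_of_le_of_card (le_sup_right : T ≤ D ⊔ T) (h.card_le h2 h1)
      rw [h3]
      exact le_sup_left
    · intro hdvd
      apply h.ndvd
      refine dvd_trans hdvd ?_
      rw [← Subgroup.relIndex_mul_relIndex T (C ⊓ Subgroup.normalizer (T : Set A)) C
        (le_inf h.le Subgroup.le_normalizer) inf_le_left]
      exact dvd_mul_right _ _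

end

end Pool.Agent.Lib.P0c8ca5
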