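import Mathlib
import Pool.Agent.Lib.P0c8ca5N.Defs

/-!
# Module RegP: the p-regular part

`uexp p A = p ^ (n * φ(m))`, `n = |A|`, `m` the p'-part of `n`.  It is congruent to 1 modulo `m`
(Euler, `Nat.ModEq.pow_totient`) and divisible by the p-part `p ^ a` of `n` (`a <= n`,
`φ(m) >= 1`).  So `x ^ uexp` is the p-regular part of `x`.
* `pr_eq_self`: the order of `x` divides `n` and is prime to `p`, hence divides `m`.
* `preg_pr`: `(x ^ uexp) ^ m = (x ^ (m * p ^ a)) ^ _ = 1`, so the order of `pr x` divides `m`.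
* `pr_of_pow`: the order of `x` is a power of `p` dividing `n`, hence divides `p ^ a`.
* `exists_pow_mul_inv_pr`: `x * (pr x)⁻¹ = x ^ (1 - uexp)` (an integer power), and
  `m` divides `uexp - 1`, so its `p ^ a`-th power is a power of `x ^ n = 1`.
* `mem_of_preg`: some power `x ^ p ^ n` lies in `G` and `p ^ n` is invertible modulo the order.
-/

namespace Pool.Agent.Lib.P0c8ca5

set_option linter.unusedSectionVars false

variable {p : ℕ} {A : Type*} [Group A]

theorem uexp_eq (p : ℕ) (A : Type*) [Group A] : ∃ r : ℕ, uexp p A = p ^ r := ⟨_, rfl⟩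

theorem pr_conj (g x : A) : pr p (g * x * g⁻¹) = g * pr p x * g⁻¹ := by
  unfold pr
  exact conj_pow

theorem pr_mem {H : Subgroup A} {x : A} (hx : x ∈ H) : pr p x ∈ H := H.pow_mem hx _

theorem preg_conj (g x : A) : Preg p (g * x * g⁻¹) ↔ Preg p x := by
  unfold Preg
  have h := (MulAut.conj g).orderOf_eq x
  rw [MulAut.conj_apply] at h
  rw [h]

theorem commute_pr {x y : A} (h : Commute y x) : Commute y (pr p x) := h.pow_right _

theorem pr_mul {x y : A} (h : Commute x y) : pr p (x * y) = pr p x * pr p y := h.mul_pow _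

section
variable [Fact p.Prime] [Finite A]

theorem uexp_dvd_ordProj : ordProj[p] (Nat.card A) ∣ uexp p A := by
  have hp : p.Prime := Fact.out
  have hn : Nat.card A ≠ 0 := Nat.card_pos.ne'
  unfold uexp
  apply pow_dvd_pow
  have h1 : (Nat.card A).factorization p < p ^ (Nat.card A).factorization p :=
    Nat.lt_pow_self hp.one_lt
  have h2 : p ^ (Nat.card A).factorization p ≤ Nat.card A :=
    Nat.le_of_dvd (Nat.pos_of_ne_zero hn) (Nat.ordProj_dvd _ _)
  have h3 : 0 < Nat.totient (ordCompl[p] (Nat.card A)) :=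
    Nat.totient_pos.mpr (Nat.ordCompl_pos p hn)
  calc (Nat.card A).factorization p ≤ Nat.card A * 1 := by omega
    _ ≤ Nat.card A * Nat.totient (ordCompl[p] (Nat.card A)) := Nat.mul_le_mul_left _ h3

theorem uexp_modEq : uexp p A ≡ 1 [MOD ordCompl[p] (Nat.card A)] := by
  have hp : p.Prime := Fact.out
  have hn : Nat.card A ≠ 0 := Nat.card_pos.ne'
  have hc : Nat.Coprime p (ordCompl[p] (Nat.card A)) := Nat.coprime_ordCompl hp hn
  have h := (Nat.ModEq.pow_totient hc).pow (Nat.card A)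
  rw [one_pow, ← pow_mul] at h
  unfold uexp
  rwa [mul_comm (Nat.card A)]

theorem orderOf_dvd_ordCompl {x : A} (hx : Preg p x) :
    orderOf x ∣ ordCompl[p] (Nat.card A) := by
  have hp : p.Prime := Fact.out
  have h1 : orderOf x ∣ ordProj[p] (Nat.card A) * ordCompl[p] (Nat.card A) := by
    rw [Nat.ordProj_mul_ordCompl_eq_self]
    exact orderOf_dvd_natCard x
  refine Nat.Coprime.dvd_of_dvd_mul_left ?_ h1
  exact Nat.Coprime.pow_right _ ((Nat.Prime.coprime_iff_not_dvd hp).mpr hx).symm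

theorem preg_pr (x : A) : Preg p (pr p x) := by
  have hp : p.Prime := Fact.out
  have hn : Nat.card A ≠ 0 := Nat.card_pos.ne'
  have h1 : (pr p x) ^ (ordCompl[p] (Nat.card A)) = 1 := by
    unfold pr
    rw [← pow_mul]
    apply orderOf_dvd_iff_pow_eq_one.mp
    refine (orderOf_dvd_natCard x).trans ?_
    conv_lhs => rw [← Nat.ordProj_mul_ordCompl_eq_self (Nat.card A) p]
    exact Nat.mul_dvd_mul uexp_dvd_ordProj dvd_rfl
  intro hd
  exact Nat.not_dvd_ordCompl hp hn (hd.trans (orderOf_dvd_of_pow_eq_one h1))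

theorem pr_eq_self {x : A} (hx : Preg p x) : pr p x = x := by
  unfold pr
  conv_rhs => rw [← pow_one x]
  rw [pow_eq_pow_iff_modEq]
  exact uexp_modEq.of_dvd (orderOf_dvd_ordCompl hx)

theorem pr_pr (x : A) : pr p (pr p x) = pr p x := pr_eq_self (preg_pr x)

theorem pr_of_pow {x : A} {n : ℕ} (h : x ^ p ^ n = 1) : pr p x = 1 := by
  have hp : p.Prime := Fact.out
  have hn : Nat.card A ≠ 0 := Nat.card_pos.ne'
  unfold pr
  apply orderOf_dvd_iff_pow_eq_one.mp
  refine dvd_trans ?_ (uexp_dvd_ordProj (p := p) (A := A))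
  obtain ⟨j, -, hj⟩ := (Nat.dvd_prime_pow hp).mp (orderOf_dvd_of_pow_eq_one h)
  rw [hj]
  apply pow_dvd_pow
  rw [← Nat.Prime.pow_dvd_iff_le_factorization hp hn, ← hj]
  exact orderOf_dvd_natCard x

theorem exists_pow_mul_inv_pr (x : A) : ∃ n : ℕ, (x * (pr p x)⁻¹) ^ p ^ n = 1 := by
  have hn : Nat.card A ≠ 0 := Nat.card_pos.ne'
  refine ⟨(Nat.card A).factorization p, ?_⟩
  have hc : Commute x (pr p x)⁻¹ := ((Commute.refl x).pow_right _).inv_right
  rw [hc.mul_pow, inv_pow, mul_inv_eq_one]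
  unfold pr
  rw [← pow_mul, pow_eq_pow_iff_modEq]
  have h1 : ordProj[p] (Nat.card A) * 1 ≡ ordProj[p] (Nat.card A) * uexp p A
      [MOD ordProj[p] (Nat.card A) * ordCompl[p] (Nat.card A)] :=
    (uexp_modEq (p := p) (A := A)).symm.mul_left' _
  rw [Nat.ordProj_mul_ordCompl_eq_self, mul_one, mul_comm (ordProj[p] (Nat.card A))] at h1
  exact h1.of_dvd (orderOf_dvd_natCard x)

theorem mem_of_preg {G : Subgroup A} {x : A} (hx : Preg p x) {n : ℕ} (h : x ^ p ^ n ∈ G) :
    x ∈ G := by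
  have hp : p.Prime := Fact.out
  have hc : (p ^ n).Coprime (orderOf x) :=
    Nat.Coprime.pow_left _ ((Nat.Prime.coprime_iff_not_dvd hp).mpr hx)
  obtain ⟨m, hm⟩ := exists_pow_eq_self_of_coprime hc
  rw [← hm]
  exact G.pow_mem h m

end

end Pool.Agent.Lib.P0c8ca5
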