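import Mathlib
import Pool.Agent.Lib.P0c8ca5N.RegP

/-!
# Module ChA: characters

Elementary facts about `chi ρ`.
* `chi_mem_XH`: zero outside `H` by definition; class function: `trace_conj`/`trace_mul_comm`;
  for `x ∈ H` write `x = y z` with `y = pr p x`, `z = x y⁻¹`, a p-element commuting with `y`
  (`exists_pow_mul_inv_pr`).  In characteristic `p`, `(ρ z - 1) ^ p ^ n = ρ z ^ p ^ n - 1 = 0`
  (`sub_pow_char_pow_of_commute`), so `N = ρ y (ρ z - 1)` is nilpotent (commuting factors) and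
  `ρ x = ρ y + N`; the trace of a nilpotent endomorphism is nilpotent, hence zero in `k`
  (`LinearMap.isNilpotent_trace_of_isNilpotent`).
* `conv_chi_of_inBlock`, `conv_chi_of_not`: for `x ∈ H`,
  `conv c (chi ρ) x = ∑ h ∈ H, c h * trace (ρ h * ρ x) = trace (act ρ c * ρ x)` (`act_apply`,
  `act_iff`, `act_zero_or_one` of the files Cliff*, `irr_iff` in Rep); for `x ∉ H` both sides
  are zero, since `h x ∉ H` for `h ∈ H` and `c h = 0` for `h ∉ H`.
* `chi_conj`: `IsConjRep h ρ σ` says `σ (h x h⁻¹) = ρ x`.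
* `chi_equiv`: `LinearMap.trace_conj'`.
-/

namespace Pool.Agent.Lib.P0c8ca5

open MonoidAlgebra

set_option linter.unusedSectionVars false

variable {p : ℕ} {k : Type*} [Field k] {A : Type*} [Group A]

theorem chi_of_mem {H : Subgroup A} {n : ℕ} (ρ : Rp k H n) {x : A} (hx : x ∈ H) :
    chi ρ x = LinearMap.trace k (Fin n → k) (ρ ⟨x, hx⟩) := dif_pos hx

theorem chi_of_notMem {H : Subgroup A} {n : ℕ} (ρ : Rp k H n) {x : A} (hx : x ∉ H) :
    chi ρ x = 0 := dif_neg hx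

theorem chi_conj_mem {H : Subgroup A} {n : ℕ} (ρ : Rp k H n) {h : A} (hh : h ∈ H) (x : A) :
    chi ρ (h * x * h⁻¹) = chi ρ x := by
  by_cases hx : x ∈ H
  · have hx' : h * x * h⁻¹ ∈ H := H.mul_mem (H.mul_mem hh hx) (H.inv_mem hh)
    rw [chi_of_mem ρ hx', chi_of_mem ρ hx]
    have e1 : (⟨h * x * h⁻¹, hx'⟩ : H) = ⟨h, hh⟩ * ⟨x, hx⟩ * ⟨h, hh⟩⁻¹ := rfl
    have e2 : ρ (⟨h, hh⟩ * ⟨x, hx⟩ * ⟨h, hh⟩⁻¹) = (ρ ⟨h, hh⟩ * ρ ⟨x, hx⟩) * ρ ⟨h, hh⟩⁻¹ := by
      rw [map_mul ρ, map_mul ρ]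
    rw [e1, e2, LinearMap.trace_mul_comm, ← mul_assoc, ← map_mul ρ, inv_mul_cancel,
      map_one, one_mul]
  · have hx' : h * x * h⁻¹ ∉ H := by
      intro h1
      apply hx
      have h2 := H.mul_mem (H.mul_mem (H.inv_mem hh) h1) hh
      have e1 : h⁻¹ * (h * x * h⁻¹) * h = x := by group
      rwa [e1] at h2
    rw [chi_of_notMem ρ hx', chi_of_notMem ρ hx]

theorem trace_add_nilp {V : Type*} [AddCommGroup V] [Module k V] [Module.Finite k V]
    [Module.Free k V] {f g : Module.End k V} (h : IsNilpotent (f - g)) :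
    LinearMap.trace k V f = LinearMap.trace k V g := by
  have h1 := LinearMap.isNilpotent_trace_of_isNilpotent h
  have h2 := h1.eq_zero
  rw [map_sub, sub_eq_zero] at h2
  exact h2

theorem chi_mem_XH [Fact p.Prime] [CharP k p] [Finite A] {H : Subgroup A} {n : ℕ}
    (ρ : Rp k H n) : chi ρ ∈ XH p k H := by
  rw [mem_XH]
  refine ⟨fun x hx => chi_of_notMem ρ hx, fun h hh x => chi_conj_mem ρ hh x, ?_⟩
  intro x hx
  have hy : pr p x ∈ H := pr_mem hx
  rw [chi_of_mem ρ hy, chi_of_mem ρ hx]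
  rcases Nat.eq_zero_or_pos n with hn | hn
  · subst hn
    congr 1
    ext v i
    exact i.elim0
  · have hne : Nonempty (Fin n) := ⟨⟨0, hn⟩⟩
    have hnt : Nontrivial (Fin n → k) := inferInstance
    have hnt2 : Nontrivial (Module.End k (Fin n → k)) := inferInstance
    have hchar : CharP (Module.End k (Fin n → k)) p :=
      charP_of_injective_algebraMap (algebraMap k (Module.End k (Fin n → k))).injective p
    symm
    apply trace_add_nilp
    obtain ⟨m, hm⟩ := exists_pow_mul_inv_pr (p := p) x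
    have hz : x * (pr p x)⁻¹ ∈ H := H.mul_mem hx (H.inv_mem hy)
    have e1 : (⟨x, hx⟩ : H) = ⟨x * (pr p x)⁻¹, hz⟩ * ⟨pr p x, hy⟩ := by
      apply Subtype.ext
      change x = x * (pr p x)⁻¹ * pr p x
      group
    have e2 : ρ ⟨x, hx⟩ - ρ ⟨pr p x, hy⟩
        = (ρ ⟨x * (pr p x)⁻¹, hz⟩ - 1) * ρ ⟨pr p x, hy⟩ := by
      rw [sub_mul, one_mul, ← map_mul, ← e1]
    rw [e2]
    have hcomm : Commute (x * (pr p x)⁻¹) (pr p x) := by
      apply Commute.mul_left
      · exact commute_pr (Commute.refl x)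
      · exact (Commute.refl (pr p x)).inv_left
    have hcomm' : Commute (ρ ⟨x * (pr p x)⁻¹, hz⟩ - 1) (ρ ⟨pr p x, hy⟩) := by
      apply Commute.sub_left
      · change ρ _ * ρ _ = ρ _ * ρ _
        rw [← map_mul, ← map_mul]
        congr 1
        exact Subtype.ext hcomm
      · exact Commute.one_left _
    refine hcomm'.isNilpotent_mul_right ⟨p ^ m, ?_⟩
    rw [sub_pow_char_pow_of_commute p m (Commute.one_right _), one_pow, ← map_pow]
    have e3 : (⟨x * (pr p x)⁻¹, hz⟩ : H) ^ p ^ m = 1 := Subtype.ext hm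
    rw [e3, map_one, sub_self]

theorem conv_chi_eq [Fintype A] {H : Subgroup A} {n : ℕ} (ρ : Rp k H n)
    {c : MonoidAlgebra k A} (hc : SuppIn H c) {x : A} (hx : x ∈ H) :
    conv c (chi ρ) x = LinearMap.trace k (Fin n → k) (act ρ c * ρ ⟨x, hx⟩) := by
  classical
  have hF : Fintype H := Fintype.ofFinite H
  have h1 : act ρ c = ∑ h : H, c.coeff (h : A) • ρ h := by
    rw [act, finsum_eq_sum_of_fintype]
  rw [h1, Finset.sum_mul, map_sum]
  unfold conv
  symm
  apply Fintype.sum_of_injective (fun y : H => (y : A)) Subtype.val_injective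
  · intro y hy
    have : c.coeff y = 0 := by
      by_contra h
      exact hy ⟨⟨y, hc y h⟩, rfl⟩
    rw [this, zero_mul]
  · intro y
    have hyx : (y : A) * x ∈ H := H.mul_mem y.2 hx
    rw [chi_of_mem ρ hyx, smul_mul_assoc, map_smul, smul_eq_mul]
    congr 2
    rw [← map_mul]
    rfl

theorem conv_chi_of_notMem [Fintype A] {H : Subgroup A} {n : ℕ} (ρ : Rp k H n)
    {c : MonoidAlgebra k A} (hc : SuppIn H c) {x : A} (hx : x ∉ H) :
    conv c (chi ρ) x = 0 := by
  unfold conv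
  apply Finset.sum_eq_zero
  intro h _
  by_cases hh : h ∈ H
  · have : h * x ∉ H := by
      intro h1
      exact hx ((H.mul_mem_cancel_left hh).1 h1)
    rw [chi_of_notMem ρ this, mul_zero]
  · have : c.coeff h = 0 := by
      by_contra h1
      exact hh (hc h h1)
    rw [this, zero_mul]

theorem conv_chi_of_inBlock [Fintype A] {H : Subgroup A} {n : ℕ} {ρ : Rp k H n}
    {c : MonoidAlgebra k A} (hc : SuppIn H c) (hb : InBlock c ρ) :
    conv c (chi ρ) = chi ρ := by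
  funext x
  by_cases hx : x ∈ H
  · rw [conv_chi_eq ρ hc hx, act_iff.2 hb, one_mul, chi_of_mem ρ hx]
  · rw [conv_chi_of_notMem ρ hc hx, chi_of_notMem ρ hx]

theorem conv_chi_of_not [Fintype A] {H : Subgroup A} {n : ℕ} {ρ : Rp k H n}
    (hρ : ρ.IsIrreducible) {c : MonoidAlgebra k A} (hc : SuppIn H c) (hc' : InvBy H c)
    (hcc : c * c = c) (hb : ¬ InBlock c ρ) : conv c (chi ρ) = 0 := by
  funext x
  by_cases hx : x ∈ H
  · have h0 : act ρ c = 0 := by
      rcases act_zero_or_one (irr_iff.1 hρ) hc hc' hcc with h | h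
      · exact h
      · exact absurd (act_iff.1 h) hb
    rw [conv_chi_eq ρ hc hx, h0, zero_mul, map_zero, Pi.zero_apply]
  · rw [conv_chi_of_notMem ρ hc hx, Pi.zero_apply]

theorem chi_conj {N : Subgroup A} {n : ℕ} {g : A}
    (hg : g ∈ Subgroup.normalizer (N : Set A)) {ρ σ : Rp k N n} (h : IsConjRep g ρ σ) (x : A) :
    chi σ (g * x * g⁻¹) = chi ρ x := by
  by_cases hx : x ∈ N
  · have hx' : g * x * g⁻¹ ∈ N := (Subgroup.mem_normalizer_iff.1 hg x).1 hx
    rw [chi_of_mem σ hx', chi_of_mem ρ hx]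
    congr 1
    apply LinearMap.ext
    intro v
    exact h ⟨x, hx⟩ ⟨g * x * g⁻¹, hx'⟩ v rfl
  · have hx' : g * x * g⁻¹ ∉ N := fun h1 => hx ((Subgroup.mem_normalizer_iff.1 hg x).2 h1)
    rw [chi_of_notMem σ hx', chi_of_notMem ρ hx]

theorem chi_equiv {N : Subgroup A} {n m : ℕ} {ρ : Rp k N n} {σ : Rp k N m}
    (h : Nonempty (ρ.Equiv σ)) : chi ρ = chi σ := by
  obtain ⟨P, hP⟩ := iso_iff.2 h
  funext x
  by_cases hx : x ∈ N
  · rw [chi_of_mem ρ hx, chi_of_mem σ hx]
    have e1 : σ ⟨x, hx⟩ = P.conj (ρ ⟨x, hx⟩) := by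
      apply LinearMap.ext
      intro v
      rw [LinearEquiv.conj_apply_apply, hP, LinearEquiv.apply_symm_apply]
    rw [e1, LinearMap.trace_conj']
  · rw [chi_of_notMem ρ hx, chi_of_notMem σ hx]

/-- the conjugate of an irreducible character is an irreducible character -/
theorem IrrCh_conj {N : Subgroup A} {g : A} (hg : g ∈ Subgroup.normalizer (N : Set A))
    {f : A → k} (hf : f ∈ IrrCh k N) : (fun x => f (g * x * g⁻¹)) ∈ IrrCh k N := by
  obtain ⟨n, ρ, hρ, rfl⟩ := hf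
  have hg' : g⁻¹ ∈ Subgroup.normalizer (N : Set A) := (Subgroup.normalizer (N : Set A)).inv_mem hg
  refine ⟨n, tw hg' ρ, irr_iff.2 ((irr_iff.1 hρ).tw hg'), ?_⟩
  funext x
  symm
  by_cases hx : x ∈ N
  · have hx' : g * x * g⁻¹ ∈ N := (Subgroup.mem_normalizer_iff.1 hg x).1 hx
    rw [chi_of_mem _ hx, chi_of_mem ρ hx', tw_apply]
    congr 2
    apply Subtype.ext
    rw [coe_cjN, inv_inv]
  · have hx' : g * x * g⁻¹ ∉ N := fun h1 => hx ((Subgroup.mem_normalizer_iff.1 hg x).2 h1)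
    rw [chi_of_notMem _ hx, chi_of_notMem ρ hx']

end Pool.Agent.Lib.P0c8ca5
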