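import Mathlib
import Pool.Agent.Lib.P0c8ca5N.Defs

/-!
# Module Lin: the multiplicity of the eigenvalue 1

* `mult1_reindex`: `Matrix.charpoly_reindex`.
* `mult1_isEmpty`: the characteristic polynomial is 1.
* `mult1_blocks`: choose an injection `idx : τ → ℕ` with values `< N` and put
  `b i = r (t i) * N + idx (t i)`; then `E` is block triangular for `b` (`Matrix.BlockTriangular`),
  so is `E.charmatrix` (`Matrix.BlockTriangular.charmatrix`, or prove it directly), and its
  determinant is the product of the determinants of the diagonal blocks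
  (`Matrix.BlockTriangular.det`).  Root multiplicities add up
  (`Polynomial.rootMultiplicity_mul`, `Multiset` version `roots_multiset_prod`; charpolys are monic,
  so nonzero).  The labels `a` that do not occur give empty blocks.
* `mult1_eigen`: `v` is a basis; the matrix of `Matrix.toLin' E` in this basis is
  `Matrix.diagonal ω`; `LinearMap.charpoly_toMatrix`, `Matrix.charpoly` of a diagonal matrix is
  `∏ (X - C (ω j))`; the root multiplicity of 1 is the number of `j` with `ω j = 1`.
-/

namespace Pool.Agent.Lib.P0c8ca5

set_option linter.unusedSectionVars false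

variable {k : Type*} [Field k]

namespace LinAux

open Polynomial

theorem mult1_eq {ι : Type*} [Finite ι] [inst : Fintype ι] [dec : DecidableEq ι]
    (E : Matrix ι ι k) :
    mult1 E = E.charpoly.rootMultiplicity 1 := by
  obtain rfl : inst = Fintype.ofFinite ι := Subsingleton.elim _ _
  obtain rfl : dec = fun a b => Classical.propDecidable (a = b) := Subsingleton.elim _ _
  rfl

theorem rootMultiplicity_prod_monic {κ : Type*} (s : Finset κ) (f : κ → k[X])
    (hf : ∀ i ∈ s, (f i).Monic) (x : k) :
    (∏ i ∈ s, f i).rootMultiplicity x = ∑ i ∈ s, (f i).rootMultiplicity x := by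
  classical
  induction s using Finset.induction_on with
  | empty =>
    rw [Finset.prod_empty, Finset.sum_empty]
    exact rootMultiplicity_eq_zero (by simp [IsRoot])
  | insert a s ha ih =>
    rw [Finset.prod_insert ha, Finset.sum_insert ha,
      rootMultiplicity_mul, ih (fun i hi => hf i (Finset.mem_insert_of_mem hi))]
    have h1 : (∏ i ∈ s, f i).Monic :=
      monic_prod_of_monic _ _ (fun i hi => hf i (Finset.mem_insert_of_mem hi))
    exact ((hf a (Finset.mem_insert_self a s)).mul h1).ne_zero

end LinAux

open LinAux in
theorem mult1_reindex {ι κ : Type*} [Finite ι] [Finite κ] (f : ι ≃ κ) (M : Matrix ι ι k)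
    (N : Matrix κ κ k) (h : ∀ i j, M i j = N (f i) (f j)) : mult1 M = mult1 N := by
  classical
  let := Fintype.ofFinite ι
  let := Fintype.ofFinite κ
  have e : N = Matrix.reindex f f M := by
    ext a b
    rw [Matrix.reindex_apply, Matrix.submatrix_apply, h, Equiv.apply_symm_apply,
      Equiv.apply_symm_apply]
  rw [mult1_eq, mult1_eq, e, Matrix.charpoly_reindex]

open LinAux in
theorem mult1_isEmpty {ι : Type*} [Finite ι] [IsEmpty ι] (M : Matrix ι ι k) : mult1 M = 0 := by
  classical
  let := Fintype.ofFinite ι
  rw [mult1_eq, Matrix.charpoly_isEmpty]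
  exact Polynomial.rootMultiplicity_eq_zero (by simp [Polynomial.IsRoot])

open LinAux in
theorem mult1_blocks {ι τ : Type*} [Finite ι] [Fintype τ] (t : ι → τ) (r : τ → ℕ)
    (E : Matrix ι ι k) (h : ∀ i j, E i j ≠ 0 → r (t i) < r (t j) ∨ t i = t j) :
    mult1 E = ∑ a : τ, mult1 (fun i j : {i : ι // t i = a} => E i.1 j.1) := by
  classical
  let := Fintype.ofFinite ι
  let idx : τ → ℕ := fun a => (Fintype.equivFin τ a : ℕ)
  have hidx : ∀ a, idx a < Fintype.card τ := fun a => (Fintype.equivFin τ a).2
  have hinj : Function.Injective idx := fun a b hab =>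
    (Fintype.equivFin τ).injective (Fin.ext hab)
  let enc : τ → ℕ := fun a => r a * Fintype.card τ + idx a
  have hlt : ∀ a a', r a < r a' → enc a < enc a' := by
    intro a a' haa
    have h1 : (r a + 1) * Fintype.card τ ≤ r a' * Fintype.card τ := Nat.mul_le_mul_right _ haa
    have h2 := hidx a
    show r a * Fintype.card τ + idx a < r a' * Fintype.card τ + idx a'
    rw [Nat.add_mul, one_mul] at h1
    omega
  have henc : Function.Injective enc := by
    intro a a' haa
    rcases lt_trichotomy (r a) (r a') with h1 | h1 | h1
    · exact absurd haa (hlt _ _ h1).ne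
    · apply hinj
      have h2 : r a * Fintype.card τ + idx a = r a' * Fintype.card τ + idx a' := haa
      rw [h1] at h2
      omega
    · exact absurd haa (hlt _ _ h1).ne'
  let b : ι → ℕ := fun i => enc (t i)
  have hb : E.BlockTriangular b := by
    intro i j hij
    by_contra hne
    rcases h i j hne with h1 | h1
    · exact absurd (hlt _ _ h1) (not_lt.2 (le_of_lt hij))
    · have hij' : enc (t j) < enc (t i) := hij
      rw [h1] at hij'
      exact lt_irrefl _ hij'
  rw [mult1_eq, hb.charpoly, rootMultiplicity_prod_monic _ _ (fun c _ => Matrix.charpoly_monic _)]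
  have e1 : Finset.image b Finset.univ = (Finset.image t Finset.univ).image enc := by
    rw [Finset.image_image]; rfl
  rw [e1, Finset.sum_image (fun a _ a' _ haa => henc haa)]
  have e2 : ∑ a : τ, mult1 (fun i j : {i : ι // t i = a} => E i.1 j.1) =
      ∑ a ∈ Finset.image t Finset.univ, mult1 (fun i j : {i : ι // t i = a} => E i.1 j.1) := by
    symm
    apply Finset.sum_subset (Finset.subset_univ _)
    intro a _ ha
    have : IsEmpty {i : ι // t i = a} :=
      ⟨fun i => ha (Finset.mem_image.2 ⟨i.1, Finset.mem_univ _, i.2⟩)⟩
    exact mult1_isEmpty _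
  rw [e2]
  refine Finset.sum_congr rfl fun a _ => ?_
  rw [← mult1_eq]
  refine mult1_reindex (Equiv.subtypeEquivRight fun i => ?_) _ _ fun i j => rfl
  exact henc.eq_iff

open LinAux in
theorem mult1_eigen {ι J : Type*} [Fintype ι] [Finite J] (E : Matrix ι ι k) (v : J → ι → k)
    (hli : LinearIndependent k v) (hsp : ⊤ ≤ Submodule.span k (Set.range v)) (ω : J → k)
    (hv : ∀ j, E.mulVec (v j) = ω j • v j) : mult1 E = Nat.card {j : J // ω j = 1} := by
  classical
  let := Fintype.ofFinite J
  let b := Module.Basis.mk hli hsp
  have h1 : LinearMap.toMatrix b b (Matrix.toLin' E) = Matrix.diagonal ω := by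
    ext i j
    rw [LinearMap.toMatrix_apply, Module.Basis.mk_apply, Matrix.toLin'_apply, hv, map_smul,
      Finsupp.smul_apply]
    have : v j = b j := (Module.Basis.mk_apply hli hsp j).symm
    rw [this, Module.Basis.repr_self, Matrix.diagonal_apply, Finsupp.single_apply]
    by_cases hij : i = j
    · subst hij; simp
    · rw [if_neg (fun h => hij h.symm), if_neg hij]; simp
  have h2 : E.charpoly = (Matrix.diagonal ω).charpoly := by
    rw [← h1, LinearMap.charpoly_toMatrix, Matrix.charpoly_toLin']
  rw [mult1_eq, h2, Matrix.charpoly_diagonal,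
    rootMultiplicity_prod_monic _ _ (fun j _ => Polynomial.monic_X_sub_C _)]
  simp only [Polynomial.rootMultiplicity_X_sub_C]
  rw [Finset.sum_boole, Nat.cast_id, Nat.card_eq_fintype_card, Fintype.card_subtype]
  congr 1
  ext j
  simp [eq_comm]

end Pool.Agent.Lib.P0c8ca5
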