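import Mathlib
import Pool.Agent.Lib.P0c8ca5N.ChA
import Pool.Agent.Lib.P0c8ca5N.Lin

/-!
# Module Mv: the matrix `EM` as an operator on functions on classes

* `InCl_iff`: `a` and `b` in the same class iff conjugate.
* `EM_mulVec`: interchange the sums; for given `h` with `P (pr (h x))` exactly one class `Y` contains
  `pr (h x)`, and `f` has the same value at `Y.out`; otherwise no class contains it.
* `EM_apply_of_mem`: the row of a class can be computed at any element `x` of the class, if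
  `c` is invariant under `M`: substitute `h ↦ g h g⁻¹`; `pr (g h g⁻¹ * g x g⁻¹) = g (pr (h x)) g⁻¹`.
* `EM_cong`: conjugation of all data by `g` (the predicate `P'` is the transported one) does not
  change `mult1`.
-/

namespace Pool.Agent.Lib.P0c8ca5

open MonoidAlgebra

set_option linter.unusedSectionVars false

variable {p : ℕ} {k : Type*} [Field k] {A : Type*} [Group A]

theorem InCl_mk {M : Subgroup A} {P : A → Prop} {x : A} (hx : P x) {a : A} :
    InCl M P (Quotient.mk (clSetoid M P) ⟨x, hx⟩) a ↔ P a ∧ ∃ h ∈ M, a = h * x * h⁻¹ := by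
  constructor
  · rintro ⟨ha, he⟩
    refine ⟨ha, ?_⟩
    obtain ⟨h, hh, e⟩ := Quotient.exact he
    refine ⟨h⁻¹, M.inv_mem hh, ?_⟩
    change x = h * a * h⁻¹ at e
    rw [e]
    group
  · rintro ⟨ha, h, hh, e⟩
    refine ⟨ha, Quotient.sound ?_⟩
    refine ⟨h⁻¹, M.inv_mem hh, ?_⟩
    change x = h⁻¹ * a * h⁻¹⁻¹
    rw [e]
    group

theorem InCl_out {M : Subgroup A} {P : A → Prop} (Y : Cl M P) : InCl M P Y (Y.out : A) :=
  ⟨Y.out.2, Quotient.out_eq Y⟩

theorem InCl_unique {M : Subgroup A} {P : A → Prop} {Y Y' : Cl M P} {a : A} (h : InCl M P Y a)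
    (h' : InCl M P Y' a) : Y = Y' := by
  obtain ⟨h1, h2⟩ := h
  obtain ⟨h3, h4⟩ := h'
  rw [← h2, ← h4]

/-- two elements of one class are conjugate -/
theorem InCl_out_conj {M : Subgroup A} {P : A → Prop} {Y : Cl M P} {a : A} (h : InCl M P Y a) :
    ∃ g ∈ M, (Y.out : A) = g * a * g⁻¹ := by
  obtain ⟨ha, he⟩ := h
  have h1 : Quotient.mk (clSetoid M P) ⟨a, ha⟩ = Quotient.mk (clSetoid M P) Y.out := by
    rw [he, Quotient.out_eq]
  exact Quotient.exact h1

theorem InCl_conj {M : Subgroup A} {P : A → Prop} (hP : ∀ g ∈ M, ∀ x, P x → P (g * x * g⁻¹))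
    {Y : Cl M P} {a g : A} (hg : g ∈ M) : InCl M P Y (g * a * g⁻¹) ↔ InCl M P Y a := by
  have key : ∀ (a g : A), g ∈ M → InCl M P Y a → InCl M P Y (g * a * g⁻¹) := by
    rintro a g hg ⟨ha, he⟩
    refine ⟨hP g hg a ha, ?_⟩
    rw [← he]
    apply Quotient.sound
    refine ⟨g⁻¹, M.inv_mem hg, ?_⟩
    change a = g⁻¹ * (g * a * g⁻¹) * g⁻¹⁻¹
    group
  constructor
  · intro h
    have := key _ g⁻¹ (M.inv_mem hg) h
    have e : g⁻¹ * (g * a * g⁻¹) * g⁻¹⁻¹ = a := by group
    rwa [e] at this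
  · exact key a g hg

section
variable [Fintype A]

open Classical in
theorem EM_mulVec {M : Subgroup A} {P : A → Prop} [Fintype (Cl M P)] {c : MonoidAlgebra k A}
    {f : A → k} (hf : ∀ h ∈ M, ∀ x, f (h * x * h⁻¹) = f x) (X : Cl M P) :
    (EM p M P c).mulVec (fun Y => f (Y.out : A)) X
      = ∑ h : A, if P (pr p (h * (X.out : A))) then c.coeff h * f (pr p (h * (X.out : A)))
          else 0 := by
  unfold Matrix.mulVec dotProduct
  simp only [EM, Finset.sum_mul]
  rw [Finset.sum_comm]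
  refine Finset.sum_congr rfl fun h _ => ?_
  set a := pr p (h * (X.out : A)) with ha
  by_cases hPa : P a
  · rw [if_pos hPa]
    have h1 : InCl M P (Quotient.mk (clSetoid M P) ⟨a, hPa⟩) a := ⟨hPa, rfl⟩
    rw [Finset.sum_eq_single (Quotient.mk (clSetoid M P) ⟨a, hPa⟩)]
    · rw [if_pos h1]
      obtain ⟨g, hg, e⟩ := InCl_out_conj h1
      rw [e, hf g hg]
    · intro Y _ hY
      rw [if_neg, zero_mul]
      intro h2
      exact hY (InCl_unique h2 h1)
    · intro h2
      exact absurd (Finset.mem_univ _) h2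
  · rw [if_neg hPa]
    refine Finset.sum_eq_zero fun Y _ => ?_
    rw [if_neg, zero_mul]
    rintro ⟨h1, _⟩
    exact hPa h1

open Classical in
theorem EM_apply_of_mem {M : Subgroup A} {P : A → Prop}
    (hP : ∀ g ∈ M, ∀ x, P x → P (g * x * g⁻¹)) {c : MonoidAlgebra k A} (hc : InvBy M c)
    {X Y : Cl M P} {x : A} (hx : InCl M P X x) :
    EM p M P c X Y = ∑ h : A, if InCl M P Y (pr p (h * x)) then c.coeff h else 0 := by
  obtain ⟨g, hg, e⟩ := InCl_out_conj hx
  unfold EM
  rw [e]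
  rw [← Equiv.sum_comp (MulAut.conj g).toEquiv]
  refine Finset.sum_congr rfl fun h _ => ?_
  have e1 : (MulAut.conj g).toEquiv h = g * h * g⁻¹ := rfl
  have e2 : g * h * g⁻¹ * (g * x * g⁻¹) = g * (h * x) * g⁻¹ := by group
  rw [e1, e2, pr_conj, hc g hg h]
  simp only [InCl_conj hP hg]

theorem EM_cong {M : Subgroup A} {P P' : A → Prop}
    (hP : ∀ g ∈ M, ∀ x, P x → P (g * x * g⁻¹)) {c : MonoidAlgebra k A} (hc : InvBy M c) (g : A)
    (hPP : ∀ x, P' (g * x * g⁻¹) ↔ P x) :
    mult1 (EM p (cg g M) P' (cj g c)) = mult1 (EM p M P c) := by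
  classical
  have hPP' : ∀ x, P' x ↔ P (g⁻¹ * x * g) := by
    intro x
    rw [← hPP]
    have : g * (g⁻¹ * x * g) * g⁻¹ = x := by group
    rw [this]
  let e : {x : A // P' x} ≃ {x : A // P x} :=
    { toFun := fun x => ⟨g⁻¹ * x * g, (hPP' _).1 x.2⟩
      invFun := fun x => ⟨g * x * g⁻¹, (hPP _).2 x.2⟩
      left_inv := fun x => Subtype.ext (by
        change g * (g⁻¹ * x * g) * g⁻¹ = x
        group)
      right_inv := fun x => Subtype.ext (by
        change g⁻¹ * (g * x * g⁻¹) * g = x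
        group) }
  have hr : ∀ a b : {x : A // P' x}, (clSetoid (cg g M) P') a b ↔ (clSetoid M P) (e a) (e b) := by
    intro a b
    constructor
    · rintro ⟨h, hh, e1⟩
      refine ⟨g⁻¹ * h * g, mem_cg.1 hh, ?_⟩
      change g⁻¹ * b * g = g⁻¹ * h * g * (g⁻¹ * a * g) * (g⁻¹ * h * g)⁻¹
      rw [e1]
      group
    · rintro ⟨h, hh, e1⟩
      refine ⟨g * h * g⁻¹, mem_cg.2 (by
        have : g⁻¹ * (g * h * g⁻¹) * g = h := by group
        rwa [this]), ?_⟩
      change g⁻¹ * b * g = h * (g⁻¹ * a * g) * h⁻¹ at e1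
      have e2 : (b : A) = g * (g⁻¹ * b * g) * g⁻¹ := by group
      rw [e2, e1]
      group
  let E : Cl (cg g M) P' ≃ Cl M P := Quotient.congr e hr
  have hE : ∀ (Y : Cl (cg g M) P') (a : A),
      InCl (cg g M) P' Y (g * a * g⁻¹) ↔ InCl M P (E Y) a := by
    intro Y a
    induction Y using Quotient.inductionOn with
    | h y =>
      have e1 : E (Quotient.mk (clSetoid (cg g M) P') y) = Quotient.mk (clSetoid M P) (e y) := rfl
      rw [e1]
      constructor
      · rintro ⟨h1, h2⟩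
        refine ⟨(hPP a).1 h1, Quotient.sound ?_⟩
        have h3 := (hr _ _).1 (Quotient.exact h2)
        have h4 : e ⟨g * a * g⁻¹, h1⟩ = ⟨a, (hPP a).1 h1⟩ := Subtype.ext (by
          change g⁻¹ * (g * a * g⁻¹) * g = a
          group)
        rw [h4] at h3
        exact h3
      · rintro ⟨h1, h2⟩
        refine ⟨(hPP a).2 h1, Quotient.sound ?_⟩
        refine (hr _ _).2 ?_
        have h4 : e ⟨g * a * g⁻¹, (hPP a).2 h1⟩ = ⟨a, h1⟩ := Subtype.ext (by
          change g⁻¹ * (g * a * g⁻¹) * g = a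
          group)
        rw [h4]
        exact Quotient.exact h2
  refine mult1_reindex E _ _ ?_
  intro X Y
  have hx : InCl M P (E X) (g⁻¹ * (X.out : A) * g) := by
    rw [← hE]
    have : g * (g⁻¹ * (X.out : A) * g) * g⁻¹ = X.out := by group
    rw [this]
    exact InCl_out X
  rw [EM_apply_of_mem hP hc hx]
  unfold EM
  rw [← Equiv.sum_comp (MulAut.conj g).toEquiv]
  refine Finset.sum_congr rfl fun h _ => ?_
  have e1 : (MulAut.conj g).toEquiv h = g * h * g⁻¹ := rfl
  have e2 : g * h * g⁻¹ * (X.out : A) = g * (h * (g⁻¹ * (X.out : A) * g)) * g⁻¹ := by group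
  have e3 : g⁻¹ * (g * h * g⁻¹) * g = h := by group
  rw [e1, e2, pr_conj, coeff_cj, e3]
  simp only [hE]

/-- the matrix depends only on the conjugacy relation on `{x | P x}` -/
theorem mult1_EM_eq {M M' : Subgroup A} {P : A → Prop} (c : MonoidAlgebra k A)
    (h : ∀ x y, P x → P y → ((∃ g ∈ M, y = g * x * g⁻¹) ↔ ∃ g ∈ M', y = g * x * g⁻¹)) :
    mult1 (EM p M P c) = mult1 (EM p M' P c) := by
  have hs : clSetoid M P = clSetoid M' P := by
    ext x y
    exact h x y x.2 y.2
  classical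
  let φ : Setoid {x : A // P x} → ℕ := fun s => mult1 (fun X Y : Quotient s =>
    ∑ h : A, if (∃ h' : P (pr p (h * (X.out : A))),
      Quotient.mk s ⟨pr p (h * (X.out : A)), h'⟩ = Y) then c.coeff h else 0)
  have h1 : mult1 (EM p M P c) = φ (clSetoid M P) := by
    unfold EM InCl
    congr!
  have h2 : mult1 (EM p M' P c) = φ (clSetoid M' P) := by
    unfold EM InCl
    congr!
  rw [h1, h2, hs]

end

end Pool.Agent.Lib.P0c8ca5
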