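import Mathlib
import Pool.Agent.Lib.P0c8ca5N.Mv
import Pool.Agent.Lib.P0c8ca5N.Crep

/-!
# Module Blk0: the defect label of a class, and reduction of sums to centralizers

`Ctx p X H S e`: the standing assumptions.  `S` is a p-subgroup, `H ≤ X` normalizes `S` and
contains `X ⊓ C(S)`; `e` is supported in `X` and `X`-invariant; `F` an `H`-invariant family.
`cS S e` is the part of `e` supported in the centralizer of `S`; it is supported in `H` and
`H`-invariant (`resS_invBy` in P0c8ca5.DGN or direct).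

`row_eq`: for `x ∈ H ⊓ C(T)`, `T ≤ H` a p-subgroup, `Q` a predicate invariant under conjugation by
`H`: in `∑_h [Q (pr (h x))] (cS S e) h` only `h ∈ C(T)` contribute (`sum_conj_eq`; `T`
centralizes `x`, `pr_conj`), and for `h ∈ C(T)` the coefficient is the one of `cS (S ⊔ T) e`
(`centralizer (S ⊔ T) = centralizer S ⊓ centralizer T`).

`lab p H F Y`: the representative of the class of the chosen defect group in `F` of `Y.out`.
`lab_spec`: for every `x` in the class `Y` there is `T ∈ F` with `crep H T = lab Y` and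
`IsSyl p (H ⊓ C(x)) T`; moreover every `T` with `IsSyl p (H ⊓ C(x)) T` has `crep H T = lab Y`
(`IsSyl.conj_eq`, `IsSyl.cg`, `crep_cg`).
-/

namespace Pool.Agent.Lib.P0c8ca5

open MonoidAlgebra

set_option linter.unusedSectionVars false

variable {p : ℕ} {k : Type*} [Field k] {A : Type*} [Group A]

/-- the part of `e` supported in the centralizer of `S` -/
noncomputable abbrev cS (S : Subgroup A) (e : MonoidAlgebra k A) : MonoidAlgebra k A :=
  resS (Subgroup.centralizer (S : Set A) : Set A) e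

/-- standing assumptions -/
structure Ctx (p : ℕ) (X H S : Subgroup A) (e : MonoidAlgebra k A) : Prop where
  hHX : H ≤ X
  hS : IsPGroup p S
  hHS : H ≤ Subgroup.normalizer (S : Set A)
  hCS : X ⊓ Subgroup.centralizer (S : Set A) ≤ H
  supp : SuppIn X e
  inv : InvBy X e

namespace Blk0Aux

theorem normalizer_le_normalizer_centralizer (S : Subgroup A) :
    Subgroup.normalizer (S : Set A)
      ≤ Subgroup.normalizer ((Subgroup.centralizer (S : Set A) : Subgroup A) : Set A) := by
  intro g hg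
  rw [Subgroup.mem_normalizer_iff] at hg ⊢
  intro x
  rw [Subgroup.mem_centralizer_iff, Subgroup.mem_centralizer_iff]
  constructor
  · intro hx s hs
    have h1 : g⁻¹ * s * g ∈ S := by
      rw [SetLike.mem_coe] at hs
      rw [hg]
      have e1 : g * (g⁻¹ * s * g) * g⁻¹ = s := by group
      rw [e1]; exact hs
    have h2 := hx _ h1
    calc s * (g * x * g⁻¹) = g * (g⁻¹ * s * g * x) * g⁻¹ := by group
      _ = g * (x * (g⁻¹ * s * g)) * g⁻¹ := by rw [h2]
      _ = g * x * g⁻¹ * s := by group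
  · intro hx s hs
    have h1 : g * s * g⁻¹ ∈ S := (hg s).1 hs
    have h2 := hx _ h1
    calc s * x = g⁻¹ * (g * s * g⁻¹ * (g * x * g⁻¹)) * g := by group
      _ = g⁻¹ * (g * x * g⁻¹ * (g * s * g⁻¹)) * g := by rw [h2]
      _ = x * s := by group

theorem mem_centralizer_sup {S T : Subgroup A} {a : A} :
    a ∈ Subgroup.centralizer ((S ⊔ T : Subgroup A) : Set A)
      ↔ a ∈ Subgroup.centralizer (S : Set A) ∧ a ∈ Subgroup.centralizer (T : Set A) := by
  constructor
  · intro h
    rw [Subgroup.mem_centralizer_iff] at h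
    refine ⟨Subgroup.mem_centralizer_iff.2 fun s hs => ?_,
      Subgroup.mem_centralizer_iff.2 fun s hs => ?_⟩
    · exact h s ((le_sup_left : S ≤ S ⊔ T) hs)
    · exact h s ((le_sup_right : T ≤ S ⊔ T) hs)
  · rintro ⟨h1, h2⟩
    have h3 : S ⊔ T ≤ Subgroup.centralizer ({a} : Set A) := by
      refine sup_le (fun s hs => ?_) (fun s hs => ?_)
      · rw [Subgroup.mem_centralizer_iff]
        intro b hb
        rw [Set.mem_singleton_iff] at hb
        subst hb
        exact (Subgroup.mem_centralizer_iff.1 h1 s hs).symm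
      · rw [Subgroup.mem_centralizer_iff]
        intro b hb
        rw [Set.mem_singleton_iff] at hb
        subst hb
        exact (Subgroup.mem_centralizer_iff.1 h2 s hs).symm
    rw [Subgroup.mem_centralizer_iff]
    intro s hs
    exact (Subgroup.mem_centralizer_iff.1 (h3 hs) a rfl).symm

theorem cg_inf_centralizer {H : Subgroup A} {g : A} (hg : g ∈ H) (x : A) :
    cg g (H ⊓ Subgroup.centralizer ({x} : Set A))
      = H ⊓ Subgroup.centralizer ({g * x * g⁻¹} : Set A) := by
  ext y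
  rw [mem_cg, Subgroup.mem_inf, Subgroup.mem_inf]
  have h1 : g⁻¹ * y * g ∈ H ↔ y ∈ H := by
    constructor
    · intro h
      have := H.mul_mem (H.mul_mem hg h) (H.inv_mem hg)
      have e1 : g * (g⁻¹ * y * g) * g⁻¹ = y := by group
      rwa [e1] at this
    · intro h
      exact H.mul_mem (H.mul_mem (H.inv_mem hg) h) hg
  have h2 : g⁻¹ * y * g ∈ Subgroup.centralizer ({x} : Set A)
      ↔ y ∈ Subgroup.centralizer ({g * x * g⁻¹} : Set A) := by
    rw [Subgroup.mem_centralizer_iff, Subgroup.mem_centralizer_iff]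
    constructor
    · intro h z hz
      rw [Set.mem_singleton_iff] at hz
      subst hz
      have h3 := h x rfl
      calc g * x * g⁻¹ * y = g * (x * (g⁻¹ * y * g)) * g⁻¹ := by group
        _ = g * (g⁻¹ * y * g * x) * g⁻¹ := by rw [h3]
        _ = y * (g * x * g⁻¹) := by group
    · intro h z hz
      rw [Set.mem_singleton_iff] at hz
      subst hz
      have h3 := h (g * z * g⁻¹) rfl
      calc z * (g⁻¹ * y * g) = g⁻¹ * (g * z * g⁻¹ * y) * g := by group
        _ = g⁻¹ * (y * (g * z * g⁻¹)) * g := by rw [h3]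
        _ = g⁻¹ * y * g * z := by group
  rw [h1, h2]

end Blk0Aux

theorem Ctx.cS_supp {X H S : Subgroup A} {e : MonoidAlgebra k A} (h : Ctx p X H S e) :
    SuppIn H (cS S e) := by
  intro x hx
  exact h.hCS (resS_suppIn' h.supp x hx)

theorem Ctx.cS_inv {X H S : Subgroup A} {e : MonoidAlgebra k A} (h : Ctx p X H S e) :
    InvBy H (cS S e) :=
  resS_invBy (h.hHS.trans (Blk0Aux.normalizer_le_normalizer_centralizer S)) (h.inv.mono h.hHX)

theorem Ctx.cS_idem [Fact p.Prime] [CharP k p] [Finite A] {X H S : Subgroup A}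
    {e : MonoidAlgebra k A} (h : Ctx p X H S e) (hSX : S ≤ X) (hee : e * e = e) :
    cS S e * cS S e = cS S e := by
  have h1 := resS_mul h.hS (h.inv.mono hSX) (h.inv.mono hSX)
  rw [hee] at h1
  exact h1.symm

section
variable [Fintype A]

open Classical in
theorem row_eq [Fact p.Prime] [CharP k p] {X H S : Subgroup A} {e : MonoidAlgebra k A}
    (h : Ctx p X H S e) {T : Subgroup A} (hT : T ≤ H) (hpT : IsPGroup p T) {x : A} (hx : x ∈ H)
    (hxT : x ∈ Subgroup.centralizer (T : Set A)) (Q : A → Prop)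
    (hQ : ∀ g ∈ H, ∀ a, Q (g * a * g⁻¹) ↔ Q a) :
    ∑ a : A, (if Q (pr p (a * x)) then (cS S e).coeff a else 0)
      = ∑ a : A, if Q (pr p (a * x)) then (cS (S ⊔ T) e).coeff a else 0 := by
  rw [sum_conj_eq (p := p) hpT
    (fun a => if Q (pr p (a * x)) then (cS S e).coeff a else 0) ?_
    (Finset.univ.filter (fun y => y ∈ Subgroup.centralizer (T : Set A))) ?_]
  · rw [Finset.sum_filter]
    refine Finset.sum_congr rfl (fun a _ => ?_)
    by_cases ha : a ∈ Subgroup.centralizer (T : Set A)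
    · rw [if_pos ha]
      congr 1
      by_cases haS : a ∈ Subgroup.centralizer (S : Set A)
      · rw [coeff_resS_of_mem _ (SetLike.mem_coe.2 haS),
          coeff_resS_of_mem _ (SetLike.mem_coe.2 (Blk0Aux.mem_centralizer_sup.2 ⟨haS, ha⟩))]
      · rw [coeff_resS_of_notMem _ (fun h' => haS (SetLike.mem_coe.1 h')),
          coeff_resS_of_notMem _
            (fun h' => haS (Blk0Aux.mem_centralizer_sup.1 (SetLike.mem_coe.1 h')).1)]
    · rw [if_neg ha, coeff_resS_of_notMem _
        (fun h' => ha (Blk0Aux.mem_centralizer_sup.1 (SetLike.mem_coe.1 h')).2), ite_self]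
  · intro d hd a
    have h1 : d * x = x * d := Subgroup.mem_centralizer_iff.1 hxT d hd
    have h2 : d * a * d⁻¹ * x = d * (a * x) * d⁻¹ := by
      have h3 : d⁻¹ * x = x * d⁻¹ := by
        calc d⁻¹ * x = d⁻¹ * (x * d) * d⁻¹ := by group
          _ = d⁻¹ * (d * x) * d⁻¹ := by rw [h1]
          _ = x * d⁻¹ := by group
      calc d * a * d⁻¹ * x = d * a * (d⁻¹ * x) := by group
        _ = d * a * (x * d⁻¹) := by rw [h3]
        _ = d * (a * x) * d⁻¹ := by group
    have h4 : (cS S e).coeff (d * a * d⁻¹) = (cS S e).coeff a := h.cS_inv d (hT hd) a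
    have h5 : Q (pr p (d * a * d⁻¹ * x)) ↔ Q (pr p (a * x)) := by
      rw [h2, pr_conj]
      exact hQ d (hT hd) _
    change (if Q (pr p (d * a * d⁻¹ * x)) then (cS S e).coeff (d * a * d⁻¹) else 0)
      = if Q (pr p (a * x)) then (cS S e).coeff a else 0
    rw [h4]
    simp only [h5]
  · intro y
    rw [Finset.mem_filter]
    simp

end

/-- the defect label of a class -/
noncomputable def lab (p : ℕ) (H : Subgroup A) (F : Set (Subgroup A)) (Y : Cl H (Pdef p H F)) :
    Subgroup A := crep H (Classical.choose (Y.out.2).2.2)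

theorem Pdef_conj [Fact p.Prime] [Finite A] {H : Subgroup A} {F : Set (Subgroup A)}
    (hF : ∀ T ∈ F, ∀ h ∈ H, cg h T ∈ F) {g : A} (hg : g ∈ H) {x : A} (hx : Pdef p H F x) :
    Pdef p H F (g * x * g⁻¹) := by
  obtain ⟨h1, h2, T, hT, h3⟩ := hx
  refine ⟨H.mul_mem (H.mul_mem hg h1) (H.inv_mem hg), (preg_conj g x).2 h2,
    cg g T, hF T hT g hg, ?_⟩
  have h4 := h3.cg g
  rwa [Blk0Aux.cg_inf_centralizer hg] at h4

theorem lab_spec [Fact p.Prime] [Finite A] {H : Subgroup A} {F : Set (Subgroup A)}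
    (hF : ∀ T ∈ F, ∀ h ∈ H, cg h T ∈ F) {Y : Cl H (Pdef p H F)} {x : A}
    (hx : InCl H (Pdef p H F) Y x) {T : Subgroup A}
    (hT : IsSyl p (H ⊓ Subgroup.centralizer ({x} : Set A)) T) :
    T ∈ F ∧ crep H T = lab p H F Y := by
  obtain ⟨hPx, hY⟩ := hx
  obtain ⟨h, hh, hxh⟩ : ∃ h ∈ H, (Y.out : A) = h * x * h⁻¹ := by
    have h1 : Quotient.mk (clSetoid H (Pdef p H F)) ⟨x, hPx⟩
        = Quotient.mk (clSetoid H (Pdef p H F)) Y.out := by
      rw [Quotient.out_eq]; exact hY
    exact Quotient.exact h1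
  have hT0 := Classical.choose_spec (Y.out.2).2.2
  have h2 := hT.cg h
  rw [Blk0Aux.cg_inf_centralizer hh, ← hxh] at h2
  obtain ⟨g, hg, hgT⟩ := h2.conj_eq hT0.2
  have hgH : g ∈ H := (Subgroup.mem_inf.1 hg).1
  rw [cg_cg] at hgT
  have hghH : g * h ∈ H := H.mul_mem hgH hh
  constructor
  · have h3 : T = cg (g * h)⁻¹ (Classical.choose (Y.out.2).2.2) := by
      rw [hgT, cg_cg, inv_mul_cancel, cg_one]
    rw [h3]
    exact hF _ hT0.1 _ (H.inv_mem hghH)
  · unfold lab
    rw [hgT, crep_cg hghH]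

theorem lab_le [Fact p.Prime] [Finite A] {H : Subgroup A} {F : Set (Subgroup A)}
    (hF : ∀ T ∈ F, ∀ h ∈ H, cg h T ∈ F) (Y : Cl H (Pdef p H F)) :
    lab p H F Y ≤ H ∧ IsPGroup p (lab p H F Y) ∧ lab p H F Y ∈ F ∧
      crep H (lab p H F Y) = lab p H F Y := by
  have hT0 := Classical.choose_spec (Y.out.2).2.2
  obtain ⟨h, hh, hc⟩ := crep_spec H (Classical.choose (Y.out.2).2.2)
  have hlab : lab p H F Y = cg h (Classical.choose (Y.out.2).2.2) := hc
  refine ⟨?_, ?_, ?_, ?_⟩
  · rw [hlab]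
    intro y hy
    rw [mem_cg] at hy
    have h1 : h⁻¹ * y * h ∈ H := (Subgroup.mem_inf.1 (hT0.2.le hy)).1
    have h2 := H.mul_mem (H.mul_mem hh h1) (H.inv_mem hh)
    have e1 : h * (h⁻¹ * y * h) * h⁻¹ = y := by group
    rwa [e1] at h2
  · rw [hlab]
    exact isPGroup_cg hT0.2.isPGroup
  · rw [hlab]
    exact hF _ hT0.1 h hh
  · unfold lab
    exact crep_crep _ _

end Pool.Agent.Lib.P0c8ca5
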