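import Mathlib
import Pool.Agent.Lib.P0c8ca5N.Blk0

/-!
# Module WInv: locality of the number of weights; radical subgroups

* `proj_cS`: for a p-subgroup `R` and `a` with `InvBy R a`: `proj R a = proj R (cS R a)` (the
  coefficient of `proj R a` at the coset `n R`, `n ∈ N(R)`, is `∑_{x ∈ n R} a x`; `R` acts by
  conjugation on `n R` and only the fixed points, which lie in `C(R)`, contribute: see the proof of
  `hasBr_of_proj` in P0c8ca5.Official, `coeff_proj`, `sum_conj_eq`).
* `wD_local`: `{f | IsDZ p (sec H R) f ∧ f * proj R (cS S e) = f}` depends only on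
  `H ⊓ N(R)` (`sec_inf_normalizer` in Official) and on `cS R (cS S e) = cS (S ⊔ R) e` by `proj_cS`.
* `radical`: if `Q ≤ H ≤ N(Q)` is a p-group, `R ≤ H` a p-group and `N_H(R)/R` has a block of defect
  zero then `Q ≤ R`.  Otherwise `R < R Q` (a p-group), so there is `y ∈ N(R)`, `y ∉ R`,
  `y ∈ Q ⊔ R` (normalizer growth, `exists_norm_growth` in WeightsC), and as `Q ⊔ R = R Q` we may
  take `y ∈ Q ⊓ N(R)`, `y ∉ R`.  So `V = (Q ⊓ N(R)) R / R = sec Q R` is a nontrivial p-subgroup of
  `K = sec H R`, normalized by `K`.  A block idempotent `f` of `kK` with `V` a normal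
  p-subgroup of `K` satisfies `HasBr V f`: the Brauer map `resS C(V)` is an algebra homomorphism on
  the `V`-invariant elements (`resS_mul`), the kernel of it on `Z(kK)` consists of nilpotent
  elements (an element `a` of `Z(kK)` with `cS V a = 0` lies in the ideal generated by the
  `1 - v`, `v ∈ V`, since `V`-orbit sums of elements outside `C(V)` are
  `∑_{v} v x v⁻¹ = ∑_v [v, x] x ≡ |orbit| x = 0` modulo that ideal, which is nilpotent because `V` is a
  normal p-subgroup); in other words `Br_V f = 0` would give `f` nilpotent, `f = 0`.  Another route: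
  the augmentation-type homomorphism `kK → k[K/V]`, whose kernel is nilpotent: if `f ≠ 0` is an
  idempotent then its image is not zero, i.e. some coset sum `∑_{x ∈ n V} f x ≠ 0`, and since
  `V` acts by conjugation on `n V` and `f` is invariant, some `x ∈ n V ⊓ C(V)` has `f x ≠ 0`
  (this is `hasBr_of_proj` once `proj V f ≠ 0`; and `proj V f = 0` with `f` idempotent is impossible:
  look at a product `f = f ^ n`, or use a nonzero module/`exists_irr_sub` on which `V` acts
  trivially).  With `IsDZ.dz` this gives `V = ⊥`, a contradiction.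
-/

namespace Pool.Agent.Lib.P0c8ca5

open MonoidAlgebra

set_option linter.unusedSectionVars false

variable {p : ℕ} {k : Type*} [Field k] {A : Type*} [Group A]

theorem proj_cS [Fact p.Prime] [CharP k p] [Fintype A] {R : Subgroup A} (hR : IsPGroup p R)
    {a : MonoidAlgebra k A} (ha : InvBy R a) : proj R (cS R a) = proj R a := by
  classical
  ext w
  obtain ⟨n, hn, rfl⟩ := qm_surj w
  have hn' := Subgroup.mem_normalizer_iff.1 hn
  rw [coeff_proj, coeff_proj]
  rw [sum_conj_eq (p := p) hR (fun x => if n⁻¹ * x ∈ R then a.coeff x else 0) ?_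
    (Finset.univ.filter (fun x => x ∈ Subgroup.centralizer (R : Set A))) (fun x => by simp)]
  · rw [Finset.sum_filter]
    refine Finset.sum_congr rfl (fun x _ => ?_)
    by_cases hx : x ∈ Subgroup.centralizer (R : Set A)
    · rw [if_pos hx, cS, coeff_resS_of_mem]
      exact hx
    · rw [if_neg hx, cS, coeff_resS_of_notMem _ (fun h => hx h)]
      simp
  · intro d hd x
    have h5 : n⁻¹ * d * n ∈ R := by
      apply (hn' _).2
      have e2 : n * (n⁻¹ * d * n) * n⁻¹ = d := by group
      rw [e2]; exact hd
    have hcond : n⁻¹ * (d * x * d⁻¹) ∈ R ↔ n⁻¹ * x ∈ R := by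
      have e1 : n⁻¹ * (d * x * d⁻¹) = (n⁻¹ * d * n) * (n⁻¹ * x) * d⁻¹ := by group
      rw [e1, R.mul_mem_cancel_right (R.inv_mem hd), R.mul_mem_cancel_left h5]
    simp only [hcond]
    rw [ha d hd x]

theorem cS_cS (S R : Subgroup A) (e : MonoidAlgebra k A) : cS R (cS S e) = cS (S ⊔ R) e := by
  ext x
  have key : x ∈ (Subgroup.centralizer ((S ⊔ R : Subgroup A) : Set A) : Set A) ↔
      x ∈ (Subgroup.centralizer (S : Set A) : Set A) ∧
        x ∈ (Subgroup.centralizer (R : Set A) : Set A) := by
    change x ∈ Subgroup.centralizer ((S ⊔ R : Subgroup A) : Set A) ↔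
      x ∈ Subgroup.centralizer (S : Set A) ∧ x ∈ Subgroup.centralizer (R : Set A)
    have h1 : ∀ T : Subgroup A, x ∈ Subgroup.centralizer (T : Set A) ↔
        T ≤ Subgroup.centralizer ({x} : Set A) := by
      intro T
      rw [Subgroup.mem_centralizer_iff]
      constructor
      · intro h t ht
        rw [Subgroup.mem_centralizer_iff]
        intro y hy
        rw [Set.mem_singleton_iff] at hy
        rw [hy]
        exact (h t ht).symm
      · intro h t ht
        have := Subgroup.mem_centralizer_iff.1 (h ht) x rfl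
        exact this.symm
    rw [h1, h1, h1, sup_le_iff]
  rw [cS, cS, cS, coeff_resS, coeff_resS, coeff_resS]
  by_cases h2 : x ∈ (Subgroup.centralizer (R : Set A) : Set A)
  · by_cases h3 : x ∈ (Subgroup.centralizer (S : Set A) : Set A)
    · rw [if_pos h2, if_pos h3, if_pos (key.2 ⟨h3, h2⟩)]
    · rw [if_pos h2, if_neg h3, if_neg (fun h => h3 (key.1 h).1)]
  · rw [if_neg h2, if_neg (fun h => h2 (key.1 h).2)]

theorem wD_local [Fact p.Prime] [CharP k p] [Fintype A] {X H S : Subgroup A}
    {e : MonoidAlgebra k A} (h : Ctx p X H S e) {R : Subgroup A} (hR : R ≤ H)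
    (hpR : IsPGroup p R) :
    Nat.card {f : MonoidAlgebra k (NQ R) | IsDZ p (sec H R) f ∧ f * proj R (cS S e) = f}
      = wD p (H ⊓ Subgroup.normalizer (R : Set A)) R (S ⊔ R) e := by
  have h1 : proj R (cS S e) = proj R (cS (S ⊔ R) e) := by
    rw [← cS_cS, proj_cS hpR (h.cS_inv.mono hR)]
  rw [wD, sec_inf_normalizer, h1]

end Pool.Agent.Lib.P0c8ca5
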