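import Mathlib
import Pool.Agent.Lib.P0c8ca5N.WInv

/-!
# Module WSum: the weight conjecture for all blocks under a central idempotent, as a weighted sum

Let `c` be an idempotent of `Z(kH)` and assume the blockwise weight conjecture for the blocks `b` of
`H` with `b * c ≠ 0`.  Then
`|H| * |Irr(kHc)| = ∑_{R ≤ H p-subgroup} |N_H(R)| * |{f dz of N_H(R)/R : f proj_R(c) = f}|`.
1. `Irr(kHc)` is the disjoint union of the `Irr(kHb)`, `b` block with `b c ≠ 0`, i.e. `b c = b`
   (`IsBlock.mul_eq`): every irreducible `ρ` with `c` acting as identity lies in exactly one such `b`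
   (`c` is the sum of these blocks: `exists_prim_le`, or: the blocks are finite in number
   (`finite_isBlock`), orthogonal, and their sum is 1, otherwise the complement would contain a
   primitive idempotent; each acts as 0 or 1 on `ρ`, `act_zero_or_one`).
2. For a block `b`: `NavarroEq p H H b` with a transversal `T` of `Theta p H H b`
   (`exists_transversal`), `sum_transversal` with `N = H`, `w R = |{f dz, f proj_R b = f}|`,
   `DZ_eq` and `hasBr_of_proj`, `exists_defect` to see `w R ≠ 0 → R ∈ Theta p H H b` (copy from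
   `navarroEq_iff` in P0c8ca5.Equiv), and `card_irr_eq` of MainA.
3. For every `R`: `{f dz : f proj_R c = f}` is the disjoint union over `b` of
   `{f dz : f proj_R b = f}`: `proj R` is multiplicative on `R`-invariant elements (`proj_mul`),
   `proj R b` is an idempotent of the centre of `k[sec H R]` (`proj_invBy'`, `proj_suppIn`), so
   `f proj_R b ∈ {0, f}` (`IsBlock.mul_eq`), and `∑_b proj_R b = proj_R c`.
-/

namespace Pool.Agent.Lib.P0c8ca5

open MonoidAlgebra

set_option linter.unusedSectionVars false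

variable {p : ℕ} {k : Type*} [Field k] {A : Type*} [Group A]

namespace WSumAux

theorem act_sum [Finite A] {N : Subgroup A} {V : Type*} [AddCommGroup V] [Module k V]
    (ρ : Representation k N V) {ι : Type*} (S : Finset ι) (f : ι → MonoidAlgebra k A) :
    act ρ (∑ i ∈ S, f i) = ∑ i ∈ S, act ρ (f i) := by
  classical
  have : Fintype N := Fintype.ofFinite N
  ext v
  rw [LinearMap.sum_apply, act_apply]
  simp only [act_apply]
  rw [Finset.sum_comm]
  refine Finset.sum_congr rfl (fun x _ => ?_)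
  rw [coeff_sum, Finsupp.finsetSum_apply, Finset.sum_smul]

theorem act_zero' [Finite A] {N : Subgroup A} {V : Type*} [AddCommGroup V] [Module k V]
    (ρ : Representation k N V) : act ρ (0 : MonoidAlgebra k A) = 0 := by
  have h := act_sum (A := A) ρ (∅ : Finset ℕ) (fun _ => 0)
  rwa [Finset.sum_empty, Finset.sum_empty] at h

theorem proj_zero' [Fintype A] {R : Subgroup A} : proj R (0 : MonoidAlgebra k A) = 0 := by
  rw [← zero_smul k (0 : MonoidAlgebra k A), proj_smul, zero_smul]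

theorem proj_sum' [Fintype A] {R : Subgroup A} {ι : Type*} (S : Finset ι)
    (f : ι → MonoidAlgebra k A) : proj R (∑ i ∈ S, f i) = ∑ i ∈ S, proj R (f i) := by
  classical
  induction S using Finset.induction_on with
  | empty => rw [Finset.sum_empty, Finset.sum_empty, proj_zero']
  | insert a S ha ih => rw [Finset.sum_insert ha, Finset.sum_insert ha, proj_add, ih]

/-- a central idempotent is the sum of the blocks below it -/
theorem sum_blocks [Fact p.Prime] [CharP k p] [IsAlgClosed k] [Fintype A] {H : Subgroup A}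
    {c : MonoidAlgebra k A} (hc : c ∈ fixAlg k H H) (hcc : c * c = c)
    (B : Finset (MonoidAlgebra k A)) (hB : ∀ b, b ∈ B ↔ IsBlock H b ∧ b * c ≠ 0) :
    ∑ b ∈ B, b = c := by
  classical
  have hmul : ∀ b ∈ B, b * c = b := by
    intro b hb
    obtain ⟨h1, h2⟩ := (hB b).1 hb
    rcases h1.mul_eq hc hcc with h | h
    · exact absurd (by rw [commute_of h1.suppIn (mem_fixAlg.1 hc).2, h]) h2
    · rw [commute_of h1.suppIn (mem_fixAlg.1 hc).2, h]
  set s : MonoidAlgebra k A := ∑ b ∈ B, b with hs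
  have hsmem : s ∈ fixAlg k H H := by
    rw [hs]
    exact Subalgebra.sum_mem _ (fun b hb => ((hB b).1 hb).1.mem)
  have hbs : ∀ b ∈ B, b * s = b := by
    intro b hb
    rw [hs, Finset.mul_sum, Finset.sum_eq_single b]
    · exact ((hB b).1 hb).1.idem
    · intro b' hb' hne
      rcases ((hB b).1 hb).1.eq_or_mul_eq_zero ((hB b').1 hb').1 with h | h
      · exact absurd h.symm hne
      · exact h
    · intro h; exact absurd hb h
  have hss : s * s = s := by
    nth_rewrite 1 [hs]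
    rw [Finset.sum_mul]
    exact Finset.sum_congr rfl hbs
  have hsc : s * c = s := by
    nth_rewrite 1 [hs]
    rw [Finset.sum_mul]
    exact Finset.sum_congr rfl hmul
  have hcs : c * s = s := by
    rw [commute_of (mem_fixAlg.1 hc).1 (mem_fixAlg.1 hsmem).2, hsc]
  by_contra hne
  let d : fixAlg k H H := ⟨c - s, (fixAlg k H H).sub_mem hc hsmem⟩
  have hd0 : d ≠ 0 := by
    intro h
    exact hne (sub_eq_zero.1 (congrArg Subtype.val h)).symm
  have hdd : d * d = d := by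
    apply Subtype.ext
    change (c - s) * (c - s) = c - s
    rw [mul_sub, sub_mul, sub_mul, hcc, hsc, hcs, hss, sub_self, sub_zero]
  obtain ⟨f, hf, hfd⟩ := exists_prim_le k hd0 hdd
  have hfb : IsBlock H f.1 := isBlock_of_primIdem hf
  have hfd' : f.1 * (c - s) = f.1 := congrArg Subtype.val hfd
  have h1 : f.1 * c = f.1 := by
    have h2 : f.1 * (c - s) * c = f.1 * c := by rw [hfd']
    rw [mul_assoc, sub_mul, hcc, hsc, hfd'] at h2
    exact h2.symm
  have h2 : f.1 ∈ B := (hB _).2 ⟨hfb, by rw [h1]; exact hfb.ne_zero⟩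
  have h3 : f.1 * (c - s) = 0 := by rw [mul_sub, h1, hbs _ h2, sub_self]
  exact hfb.ne_zero (by rw [← hfd', h3])

/-- counting a set that is partitioned by a finite family -/
theorem card_partition {α β : Type*} (S : Set α) (B : Finset β) (P : β → α → Prop)
    (hfin : ∀ b ∈ B, {x | x ∈ S ∧ P b x}.Finite)
    (h : ∀ x ∈ S, ∃! b, b ∈ B ∧ P b x) :
    Nat.card S = ∑ b ∈ B, Nat.card {x | x ∈ S ∧ P b x} := by
  classical
  have hf : ∀ b : B, Finite {x | x ∈ S ∧ P b.1 x} := fun b => (hfin b.1 b.2).to_subtype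
  rw [← Finset.sum_coe_sort B (fun b => Nat.card {x | x ∈ S ∧ P b x}), ← Nat.card_sigma]
  apply Nat.card_congr
  refine
    { toFun := fun x => ⟨⟨(h x.1 x.2).choose, (h x.1 x.2).choose_spec.1.1⟩,
        ⟨x.1, x.2, (h x.1 x.2).choose_spec.1.2⟩⟩
      invFun := fun y => ⟨y.2.1, y.2.2.1⟩
      left_inv := fun x => rfl
      right_inv := ?_ }
  rintro ⟨⟨b, hb⟩, ⟨x, hx, hx'⟩⟩
  have h1 : (h x hx).choose = b := ((h x hx).choose_spec.2 b ⟨hb, hx'⟩).symm
  have key : ∀ (b₁ : β) (hb₁ : b₁ ∈ B) (hx₁ : P b₁ x), b₁ = b →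
      (⟨⟨b₁, hb₁⟩, ⟨x, hx, hx₁⟩⟩ : Σ b : B, {x | x ∈ S ∧ P b.1 x})
        = ⟨⟨b, hb⟩, ⟨x, hx, hx'⟩⟩ := by
    rintro b₁ hb₁ hx₁ rfl
    rfl
  exact key _ _ (h x hx).choose_spec.1.2 h1

/-- the number of irreducible representations with a given block condition -/
theorem card_irr_sub [Finite A] {H : Subgroup A} {c b : MonoidAlgebra k A}
    (hc' : ∀ (n : ℕ) (ρ : Rp k H n), ρ.IsIrreducible → InBlock b ρ → InBlock c ρ) :
    Nat.card (Quotient (irrInvSetoid H ⊥ b))
      = Nat.card {x : Quotient (irrInvSetoid H ⊥ c) | ∃ ρ : IrrInv H ⊥ c,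
          Quotient.mk _ ρ = x ∧ InBlock b ρ.ρ} := by
  have hiso : ∀ (ρ σ : IrrInv H ⊥ c), Nonempty (ρ.ρ.Equiv σ.ρ) → InBlock b ρ.ρ →
      InBlock b σ.ρ := by
    intro ρ σ h1 h2
    exact act_iff.1 (act_iso (iso_iff.2 h1) (act_iff.2 h2))
  let F : IrrInv H ⊥ b → IrrInv H ⊥ c := fun ρ =>
    ⟨ρ.n, ρ.ρ, ρ.irr, hc' _ _ ρ.irr ρ.blk, ρ.inv⟩
  apply Nat.card_congr
  refine Equiv.ofBijective (fun x => ⟨Quotient.map F (fun a b h => h) x, ?_⟩) ⟨?_, ?_⟩
  · induction x using Quotient.inductionOn with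
    | _ ρ => exact ⟨F ρ, rfl, ρ.blk⟩
  · intro x y hxy
    induction x using Quotient.inductionOn with
    | _ ρ =>
    induction y using Quotient.inductionOn with
    | _ σ =>
    have h1 : (Quotient.mk (irrInvSetoid H ⊥ c) (F ρ)) = Quotient.mk _ (F σ) :=
      congrArg Subtype.val hxy
    have h2 : Nonempty ((F ρ).ρ.Equiv (F σ).ρ) := Quotient.exact h1
    exact Quotient.sound h2
  · rintro ⟨x, ρ, rfl, hρ⟩
    exact ⟨Quotient.mk _ ⟨ρ.n, ρ.ρ, ρ.irr, hρ, ρ.inv⟩, rfl⟩

/-- the weight count is additive over the blocks -/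
theorem card_dz_sum [Fact p.Prime] [CharP k p] [IsAlgClosed k] [Fintype A] {H : Subgroup A}
    {c : MonoidAlgebra k A} (hc : c ∈ fixAlg k H H) (hcc : c * c = c)
    (B : Finset (MonoidAlgebra k A)) (hB : ∀ b, b ∈ B ↔ IsBlock H b ∧ b * c ≠ 0)
    {R : Subgroup A} (hR : R ≤ H) (hpR : IsPGroup p R) :
    Nat.card {f : MonoidAlgebra k (NQ R) | IsDZ p (sec H R) f ∧ f * proj R c = f}
      = ∑ b ∈ B, Nat.card {f : MonoidAlgebra k (NQ R) | IsDZ p (sec H R) f ∧
          f * proj R b = f} := by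
  classical
  have hinvR : ∀ {a : MonoidAlgebra k A}, a ∈ fixAlg k H H → InvBy R a :=
    fun ha => (mem_fixAlg.1 ha).2.mono hR
  have hmul : ∀ b ∈ B, b * c = b := by
    intro b hb
    obtain ⟨h1, h2⟩ := (hB b).1 hb
    rcases h1.mul_eq hc hcc with h | h
    · exact absurd (by rw [commute_of h1.suppIn (mem_fixAlg.1 hc).2, h]) h2
    · rw [commute_of h1.suppIn (mem_fixAlg.1 hc).2, h]
  have hsum := sum_blocks (p := p) hc hcc B hB
  have hfmul : ∀ f : MonoidAlgebra k (NQ R), IsDZ p (sec H R) f → ∀ b ∈ B,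
      f * proj R b = 0 ∨ f * proj R b = f := by
    intro f hf b hb
    have hb' := ((hB b).1 hb).1
    have hmem : proj R b ∈ fixAlg k (sec H R) (sec H R) :=
      mem_fixAlg.2 ⟨proj_suppIn hb'.suppIn R, proj_invBy' hb'.invBy⟩
    have hidem : proj R b * proj R b = proj R b := by
      rw [← proj_mul hpR (hinvR hb'.mem) (hinvR hb'.mem), hb'.idem]
    rw [commute_of hf.blk.suppIn (mem_fixAlg.1 hmem).2]
    exact hf.blk.mul_eq hmem hidem
  rw [card_partition (α := MonoidAlgebra k (NQ R))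
    {f | IsDZ p (sec H R) f ∧ f * proj R c = f} B (fun b f => f * proj R b = f)]
  · refine Finset.sum_congr rfl (fun b hb => ?_)
    congr 2
    ext f
    constructor
    · rintro ⟨⟨h1, _⟩, h2⟩
      exact ⟨h1, h2⟩
    · rintro ⟨h1, h2⟩
      refine ⟨⟨h1, ?_⟩, h2⟩
      have hb' := ((hB b).1 hb).1
      calc f * proj R c = f * proj R b * proj R c := by rw [h2]
        _ = f * proj R (b * c) := by
          rw [mul_assoc, ← proj_mul hpR (hinvR hb'.mem) (hinvR hc)]
        _ = f := by rw [hmul b hb, h2]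
  · intro b _
    exact (finite_isBlock (k := k) (sec H R)).subset (fun f hf => hf.1.1.blk)
  · rintro f ⟨h1, h2⟩
    obtain ⟨b, hb, hfb⟩ : ∃ b ∈ B, f * proj R b ≠ 0 := by
      by_contra hcon
      push Not at hcon
      apply h1.blk.ne_zero
      rw [← h2, ← hsum, proj_sum', Finset.mul_sum]
      exact Finset.sum_eq_zero hcon
    have hfb' : f * proj R b = f := by
      rcases hfmul f h1 b hb with h | h
      · exact absurd h hfb
      · exact h
    refine ⟨b, ⟨hb, hfb'⟩, ?_⟩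
    rintro b' ⟨hb1, hb2⟩
    rcases ((hB b).1 hb).1.eq_or_mul_eq_zero ((hB b').1 hb1).1 with h | h
    · exact h.symm
    · exfalso
      apply h1.blk.ne_zero
      calc f = f * proj R b * proj R b' := by rw [hfb', hb2]
        _ = f * proj R (b * b') := by
          rw [mul_assoc, ← proj_mul hpR (hinvR ((hB b).1 hb).1.mem)
            (hinvR ((hB b').1 hb1).1.mem)]
        _ = 0 := by rw [h, proj_zero', mul_zero]

/-- the number of irreducible representations is additive over the blocks -/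
theorem card_irr_sum [Fact p.Prime] [CharP k p] [IsAlgClosed k] [Fintype A] {H : Subgroup A}
    {c : MonoidAlgebra k A} (hc : c ∈ fixAlg k H H) (hcc : c * c = c)
    (B : Finset (MonoidAlgebra k A)) (hB : ∀ b, b ∈ B ↔ IsBlock H b ∧ b * c ≠ 0) :
    Nat.card (Quotient (irrInvSetoid H ⊥ c))
      = ∑ b ∈ B, Nat.card (Quotient (irrInvSetoid H ⊥ b)) := by
  classical
  have hmul : ∀ b ∈ B, b * c = b := by
    intro b hb
    obtain ⟨h1, h2⟩ := (hB b).1 hb
    rcases h1.mul_eq hc hcc with h | h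
    · exact absurd (by rw [commute_of h1.suppIn (mem_fixAlg.1 hc).2, h]) h2
    · rw [commute_of h1.suppIn (mem_fixAlg.1 hc).2, h]
  have hsum := sum_blocks (p := p) hc hcc B hB
  have hup : ∀ b ∈ B, ∀ (n : ℕ) (ρ : Rp k H n), ρ.IsIrreducible → InBlock b ρ →
      InBlock c ρ := by
    intro b hb n ρ hρ hbρ
    have h1 := act_iff.2 hbρ
    have hb' := ((hB b).1 hb).1
    apply act_iff.1
    have h2 : act ρ (b * c) = act ρ b * act ρ c := act_mul ρ hb'.suppIn
    rw [hmul b hb, h1, one_mul] at h2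
    exact h2.symm
  have key : Nat.card (Quotient (irrInvSetoid H ⊥ c))
      = Nat.card (Set.univ : Set (Quotient (irrInvSetoid H ⊥ c))) :=
    (Nat.card_congr (Equiv.Set.univ _)).symm
  rw [key, card_partition (Set.univ : Set (Quotient (irrInvSetoid H ⊥ c))) B
    (fun b x => ∃ ρ : IrrInv H ⊥ c, Quotient.mk _ ρ = x ∧ InBlock b ρ.ρ)]
  · refine Finset.sum_congr rfl (fun b hb => ?_)
    rw [card_irr_sub (hup b hb)]
    congr 2
    ext x
    exact ⟨fun h => h.2, fun h => ⟨trivial, h⟩⟩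
  · intro b _
    have : Finite (Quotient (irrInvSetoid H ⊥ c)) := finite_classes H ⊥ c
    exact Set.toFinite _
  · intro x _
    induction x using Quotient.inductionOn with
    | _ ρ =>
    have hirr : Irr' ρ.ρ := irr_iff.1 ρ.irr
    have hρc : act ρ.ρ c = 1 := act_iff.2 ρ.blk
    have h01 : ∀ b ∈ B, act ρ.ρ b = 0 ∨ act ρ.ρ b = 1 := fun b hb =>
      act_zero_or_one hirr ((hB b).1 hb).1.suppIn ((hB b).1 hb).1.invBy ((hB b).1 hb).1.idem
    have hnt := hirr.nontriv
    have h10 : (1 : (Fin ρ.n → k) →ₗ[k] (Fin ρ.n → k)) ≠ 0 := one_ne_zero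
    obtain ⟨b, hb, hρb⟩ : ∃ b ∈ B, act ρ.ρ b ≠ 0 := by
      by_contra hcon
      push Not at hcon
      apply h10
      have h3 := act_sum ρ.ρ B (fun b => b)
      rw [hsum, hρc, Finset.sum_eq_zero hcon] at h3
      exact h3
    have hρb' : act ρ.ρ b = 1 := by
      rcases h01 b hb with h | h
      · exact absurd h hρb
      · exact h
    refine ⟨b, ⟨hb, ρ, rfl, act_iff.1 hρb'⟩, ?_⟩
    rintro b' ⟨hb1, σ, hσ, hσb⟩
    have h1 : act ρ.ρ b' = 1 :=
      act_iso (iso_iff.2 (Quotient.exact hσ)) (act_iff.2 hσb)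
    rcases ((hB b).1 hb).1.eq_or_mul_eq_zero ((hB b').1 hb1).1 with h | h
    · exact h.symm
    · exfalso
      apply h10
      have h2 : act ρ.ρ (b * b') = act ρ.ρ b * act ρ.ρ b' :=
        act_mul ρ.ρ ((hB b).1 hb).1.suppIn
      rw [h, hρb', h1, one_mul, act_zero'] at h2
      exact h2.symm

/-- the weighted sum for one block -/
theorem sum_DZ [Fact p.Prime] [CharP k p] [IsAlgClosed k] [Fintype A] {H : Subgroup A}
    {b : MonoidAlgebra k A} (hb : IsBlock H b) (T : Finset (Subgroup A))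
    (hT1 : ↑T ⊆ Theta p H H b) (hT2 : ∀ Q ∈ Theta p H H b,
      ∃! Q', Q' ∈ T ∧ ∃ h ∈ H, Q' = Q.map (MulAut.conj h).toMonoidHom)
    (D : Finset (Subgroup A)) (hD : ∀ R, R ∈ D ↔ R ≤ H ∧ IsPGroup p R) :
    Nat.card H * ∑ Q ∈ T, Nat.card (DZ p H b Q)
      = ∑ R ∈ D, Nat.card ↥(H ⊓ Subgroup.normalizer (R : Set A))
          * Nat.card {f : MonoidAlgebra k (NQ R) | IsDZ p (sec H R) f ∧ f * proj R b = f} := by
  classical
  have hS : ∀ Q, Q ∈ D ↔ Q ≤ H ∧ IsPGroup p Q ∧ H ⊔ Q = H := by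
    intro Q
    rw [hD]
    exact ⟨fun h => ⟨h.1, h.2, sup_eq_left.2 h.1⟩, fun h => ⟨h.1, h.2.1⟩⟩
  let w : Subgroup A → ℕ := fun Q =>
    Nat.card {f : MonoidAlgebra k (NQ Q) | IsDZ p (sec H Q) f ∧ f * proj Q b = f}
  have hwc : ∀ Q, ∀ h ∈ H, w (cg h Q) = w Q := fun Q h hh =>
    card_cg_eq hb.suppIn hb.invBy hh
  have hw : ∀ Q ∈ D, w Q ≠ 0 → Q ∈ Theta p H H b := by
    intro Q hQ hwQ
    obtain ⟨h1, h2, h3⟩ := (hS Q).1 hQ
    obtain ⟨⟨f, hf1, hf2⟩⟩ : Nonempty
        {f : MonoidAlgebra k (NQ Q) | IsDZ p (sec H Q) f ∧ f * proj Q b = f} := by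
      by_contra hemp
      rw [not_nonempty_iff] at hemp
      exact hwQ Nat.card_of_isEmpty
    have h4 : proj Q b ≠ 0 := by
      intro h
      rw [h, mul_zero] at hf2
      exact hf1.blk.ne_zero hf2.symm
    have h5 : HasBr Q b := hasBr_of_proj (p := p) h2 (hb.invBy.mono h1) h4
    obtain ⟨E, hE, hQE⟩ := exists_defect (p := p) (N := H) (P := Q) h1 h2 h5
    exact ⟨h1, h2, h3, E, hE, inf_le_left.trans hQE⟩
  have h6 := sum_transversal (p := p) (e := b) Subgroup.le_normalizer T hT1 hT2 D hS w hw hwc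
  have h8 : ∑ Q ∈ T, Nat.card (DZ p H b Q) = ∑ Q ∈ T, w Q := by
    refine Finset.sum_congr rfl (fun Q hQ => ?_)
    obtain ⟨h1, h2, _, _⟩ := hT1 hQ
    rw [DZ_eq h1 h2 hb]
  rw [h8]
  exact h6.symm

/-- the case of one block -/
theorem card_block [Fact p.Prime] [CharP k p] [IsAlgClosed k] [Fintype A] {H : Subgroup A}
    {b : MonoidAlgebra k A} (hb : IsBlock H b) (hN : NavarroEq p H H b)
    (D : Finset (Subgroup A)) (hD : ∀ R, R ∈ D ↔ R ≤ H ∧ IsPGroup p R) :
    Nat.card H * Nat.card (Quotient (irrInvSetoid H ⊥ b))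
      = ∑ R ∈ D, Nat.card ↥(H ⊓ Subgroup.normalizer (R : Set A))
          * Nat.card {f : MonoidAlgebra k (NQ R) | IsDZ p (sec H R) f ∧ f * proj R b = f} := by
  obtain ⟨T, hT1, hT2⟩ := exists_transversal H (Theta p H H b)
  rw [← card_irr_eq, hN T hT1 hT2]
  exact sum_DZ hb T hT1 hT2 D hD

end WSumAux

theorem card_irX_blocks [Fact p.Prime] [CharP k p] [IsAlgClosed k] [Fintype A] {H : Subgroup A}
    {c : MonoidAlgebra k A} (hc : SuppIn H c) (hc' : InvBy H c) (hcc : c * c = c)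
    (Bl : Finset (MonoidAlgebra k A)) (hBl : ∀ b, b ∈ Bl ↔ IsBlock H b ∧ b * c ≠ 0) :
    Nat.card (Quotient (irrInvSetoid H ⊥ c))
      = ∑ b ∈ Bl, Nat.card (Quotient (irrInvSetoid H ⊥ b)) :=
  WSumAux.card_irr_sum (p := p) (mem_fixAlg.2 ⟨hc, hc'⟩) hcc Bl hBl

theorem card_dz_blocks [Fact p.Prime] [CharP k p] [IsAlgClosed k] [Fintype A] {H : Subgroup A}
    {c : MonoidAlgebra k A} (hc : SuppIn H c) (hc' : InvBy H c) (hcc : c * c = c)
    (Bl : Finset (MonoidAlgebra k A)) (hBl : ∀ b, b ∈ Bl ↔ IsBlock H b ∧ b * c ≠ 0)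
    {R : Subgroup A} (hR : R ≤ H) (hpR : IsPGroup p R) :
    Nat.card {f : MonoidAlgebra k (NQ R) | IsDZ p (sec H R) f ∧ f * proj R c = f}
      = ∑ b ∈ Bl, Nat.card {f : MonoidAlgebra k (NQ R) | IsDZ p (sec H R) f ∧
          f * proj R b = f} :=
  WSumAux.card_dz_sum (mem_fixAlg.2 ⟨hc, hc'⟩) hcc Bl hBl hR hpR

theorem sum_DZ_eq [Fact p.Prime] [CharP k p] [IsAlgClosed k] [Fintype A] {H : Subgroup A}
    {b : MonoidAlgebra k A} (hb : IsBlock H b) (T : Finset (Subgroup A))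
    (hT1 : ↑T ⊆ Theta p H H b) (hT2 : ∀ Q ∈ Theta p H H b,
      ∃! Q', Q' ∈ T ∧ ∃ h ∈ H, Q' = Q.map (MulAut.conj h).toMonoidHom)
    (D : Finset (Subgroup A)) (hD : ∀ R, R ∈ D ↔ R ≤ H ∧ IsPGroup p R) :
    Nat.card H * ∑ Q ∈ T, Nat.card (DZ p H b Q)
      = ∑ R ∈ D, Nat.card ↥(H ⊓ Subgroup.normalizer (R : Set A))
          * Nat.card {f : MonoidAlgebra k (NQ R) | IsDZ p (sec H R) f ∧ f * proj R b = f} :=
  WSumAux.sum_DZ hb T hT1 hT2 D hD

theorem card_irr_eq_sum [Fact p.Prime] [CharP k p] [IsAlgClosed k] [Fintype A] {H : Subgroup A}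
    {c : MonoidAlgebra k A} (hc : SuppIn H c) (hc' : InvBy H c) (hcc : c * c = c)
    (hb : ∀ b : MonoidAlgebra k A, IsBlock H b → b * c ≠ 0 → NavarroEq p H H b)
    (D : Finset (Subgroup A)) (hD : ∀ R, R ∈ D ↔ R ≤ H ∧ IsPGroup p R) :
    Nat.card H * Nat.card (Quotient (irrInvSetoid H ⊥ c))
      = ∑ R ∈ D, Nat.card ↥(H ⊓ Subgroup.normalizer (R : Set A))
          * Nat.card {f : MonoidAlgebra k (NQ R) | IsDZ p (sec H R) f ∧ f * proj R c = f} := by
  classical
  have hmem : c ∈ fixAlg k H H := mem_fixAlg.2 ⟨hc, hc'⟩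
  have hfin : {b : MonoidAlgebra k A | IsBlock H b ∧ b * c ≠ 0}.Finite :=
    (finite_isBlock (k := k) H).subset (fun b hb => hb.1)
  have hB : ∀ b, b ∈ hfin.toFinset ↔ IsBlock H b ∧ b * c ≠ 0 := by
    intro b
    rw [Set.Finite.mem_toFinset]
    rfl
  rw [WSumAux.card_irr_sum (p := p) hmem hcc hfin.toFinset hB, Finset.mul_sum,
    Finset.sum_congr rfl (fun b hb' => WSumAux.card_block ((hB b).1 hb').1
      (hb b ((hB b).1 hb').1 ((hB b).1 hb').2) D hD), Finset.sum_comm]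
  refine Finset.sum_congr rfl (fun R hR => ?_)
  obtain ⟨h1, h2⟩ := (hD R).1 hR
  rw [WSumAux.card_dz_sum hmem hcc hfin.toFinset hB h1 h2, Finset.mul_sum]

end Pool.Agent.Lib.P0c8ca5
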