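import Mathlib
import Pool.Agent.Lib.P0c8ca5N.ChA

/-!
# Module ChC: the irreducible characters span the class functions constant on p-sections

`≤` is `chi_mem_XH`.  For `≥` let `f ∈ XH p k H` and `R = MonoidAlgebra k H` with its Jacobson
radical `J` (nilpotent, as `R` is artinian), `F : R → k` the linear extension of `f`.
1. `F (a b) = F (b a)`: class function.
2. `F` vanishes on `J`: in `R` (characteristic `p`) one has
   `a ^ p ^ N ≡ ∑ (a g) ^ p ^ N • g ^ p ^ N` modulo the span `C` of the commutators `a b - b a`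
   (standard: `(a + b) ^ p ≡ a ^ p + b ^ p` mod `C`, and `C ^ p ⊆ C`); it may be quicker to argue
   with `(∑ a_g g) ^ (p ^ N)` expanded over tuples `(g_1, …, g_q)`, `q = p ^ N`, and the cyclic group
   of order `q` rotating the tuples (`sum_eq_sum_fixed` of P0c8ca5.Basic: only the constant tuples
   survive in a sum of a rotation invariant function, e.g. of
   `φ (g_1 ⋯ g_q) * ∏ a_{g_i}` for a class function `φ`).  Take `q = (uexp p A) ^ s` with
   `a ^ q = 0` for `a ∈ J`; then for every class function `φ`: `0 = ∑ a_g ^ q φ (g ^ q)`, where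
   `g ^ q = pr p g`.  With `φ` the indicator of the class `C` of a p-regular element:
   `0 = (∑_{pr g ∈ C} a_g) ^ q`, so `∑_{pr g ∈ C} a_g = 0`, and
   `F a = ∑ a_g f (pr g) = ∑_C f(C) ∑_{pr g ∈ C} a_g = 0`.
3. `R/J` is semisimple, `R/J ≃ ∏ M_{n_i}(k)`
   (`IsSemisimpleRing.exists_algEquiv_pi_matrix_of_isAlgClosed`), `n_i ≥ 1`.  The functional induced
   by `F` vanishes on commutators, hence is `∑ c_i tr_i` (a functional on `M_n(k)` vanishing on
   commutators is a multiple of the trace: evaluate on matrix units; e.g.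
   `Matrix.single i j` with `i ≠ j` and `single i i - single j j` are commutators).
4. The components `R → M_{n_i}(k)` are surjective, so they give irreducible representations `ρ_i` of
   `H` on `Fin n_i → k` with character `tr_i`, and `f = ∑ c_i chi ρ_i`.
-/

namespace Pool.Agent.Lib.P0c8ca5

open MonoidAlgebra

set_option linter.unusedSectionVars false

namespace ChC

section
variable {k : Type*} [Field k] {G : Type*} [Group G] [Fintype G]

/-- linear extension of a function on the group -/
noncomputable def Fl (φ : G → k) : MonoidAlgebra k G →ₗ[k] k where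
  toFun a := ∑ x, a.coeff x * φ x
  map_add' a b := by
    rw [← Finset.sum_add_distrib]
    refine Finset.sum_congr rfl fun x _ => ?_
    rw [coeff_add, Finsupp.add_apply, add_mul]
  map_smul' c a := by
    rw [RingHom.id_apply, smul_eq_mul, Finset.mul_sum]
    refine Finset.sum_congr rfl fun x _ => ?_
    rw [coeff_smul_apply, smul_eq_mul, mul_assoc]

theorem Fl_apply (φ : G → k) (a : MonoidAlgebra k G) : Fl φ a = ∑ x, a.coeff x * φ x := rfl

theorem Fl_single (φ : G → k) (x : G) (c : k) : Fl φ (single x c) = c * φ x := by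
  classical
  rw [Fl_apply, Finset.sum_eq_single x]
  · rw [coeff_single, Finsupp.single_eq_same]
  · intro y _ hy
    rw [coeff_single, Finsupp.single_eq_of_ne hy, zero_mul]
  · intro h; exact absurd (Finset.mem_univ x) h

theorem eq_sum (a : MonoidAlgebra k G) : a = ∑ x, single x (a.coeff x) := by
  conv_lhs => rw [← sum_coeff_single a]
  rw [Finsupp.sum_fintype]
  intro i; exact single_zero i

theorem Fl_mul (φ : G → k) (a b : MonoidAlgebra k G) :
    Fl φ (a * b) = ∑ x, ∑ y, a.coeff x * b.coeff y * φ (x * y) := by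
  conv_lhs => rw [eq_sum a, eq_sum b, Finset.sum_mul_sum]
  rw [map_sum]
  refine Finset.sum_congr rfl fun x _ => ?_
  rw [map_sum]
  refine Finset.sum_congr rfl fun y _ => ?_
  rw [single_mul_single, Fl_single]

theorem Fl_comm (φ : G → k) (hφ : ∀ x y, φ (x * y) = φ (y * x)) (a b : MonoidAlgebra k G) :
    Fl φ (a * b) = Fl φ (b * a) := by
  rw [Fl_mul, Fl_mul, Finset.sum_comm]
  refine Finset.sum_congr rfl fun x _ => Finset.sum_congr rfl fun y _ => ?_
  rw [hφ, mul_comm (a.coeff y)]

theorem pow_expand (a : MonoidAlgebra k G) (n : ℕ) :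
    a ^ n = ∑ t : Fin n → G, single ((List.ofFn t).prod) (∏ i, a.coeff (t i)) := by
  induction n with
  | zero =>
    rw [pow_zero, one_def, Fintype.sum_unique]
    simp
  | succ n ih =>
    have h0 : a * (∑ t : Fin n → G, single ((List.ofFn t).prod) (∏ i, a.coeff (t i)))
        = (∑ x, single x (a.coeff x)) *
          (∑ t : Fin n → G, single ((List.ofFn t).prod) (∏ i, a.coeff (t i))) :=
      congrArg (· * (∑ t : Fin n → G, single ((List.ofFn t).prod) (∏ i, a.coeff (t i))))
        (eq_sum a)
    rw [pow_succ', ih, h0, Finset.sum_mul_sum, ← Finset.sum_product', Finset.univ_product_univ]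
    refine Fintype.sum_equiv (Fin.consEquiv (fun _ => G)) _ _ ?_
    rintro ⟨g, t⟩
    rw [single_mul_single]
    rw [List.ofFn_succ, List.prod_cons, Fin.prod_univ_succ]
    rfl

/-- rotation of tuples -/
def rot (G : Type*) (n : ℕ) : Equiv.Perm (Fin (n + 1) → G) :=
  Equiv.arrowCongr (finRotate (n + 1)).symm (Equiv.refl G)

omit [Group G] [Fintype G] in
theorem rot_apply (n : ℕ) (t : Fin (n + 1) → G) (i : Fin (n + 1)) :
    rot G n t i = t (i + 1) := by
  simp [rot, Equiv.arrowCongr_apply]

omit [Group G] [Fintype G] in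
theorem rot_pow_apply (n : ℕ) (j : ℕ) (t : Fin (n + 1) → G) (i : Fin (n + 1)) :
    (rot G n ^ j) t i = t (i + j • 1) := by
  induction j generalizing t with
  | zero => simp
  | succ j ih =>
    rw [pow_succ, Equiv.Perm.mul_apply, ih, rot_apply, add_assoc, succ_nsmul]

omit [Group G] [Fintype G] in
theorem rot_pow_eq_one (n : ℕ) : rot G n ^ (n + 1) = 1 := by
  ext t i
  rw [rot_pow_apply]
  have : (n + 1) • (1 : Fin (n + 1)) = 0 := by
    have := card_nsmul_eq_zero (x := (1 : Fin (n + 1)))
    rwa [Fintype.card_fin] at this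
  rw [this, add_zero, Equiv.Perm.one_apply]

omit [Fintype G] in
theorem prod_rot (n : ℕ) (φ : G → k) (hφ : ∀ x y, φ (x * y) = φ (y * x)) (t : Fin (n + 1) → G) :
    φ ((List.ofFn (rot G n t)).prod) = φ ((List.ofFn t).prod) := by
  rw [List.ofFn_succ', List.ofFn_succ (f := t), List.concat_eq_append, List.prod_append,
    List.prod_cons, List.prod_cons, List.prod_nil, mul_one, hφ]
  congr 2
  · rw [rot_apply, Fin.last_add_one]
  · congr 2
    funext i
    rw [rot_apply, Fin.coeSucc_eq_succ]

theorem Fl_pow {p : ℕ} [Fact p.Prime] [CharP k p] (φ : G → k)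
    (hφ : ∀ x y, φ (x * y) = φ (y * x)) (a : MonoidAlgebra k G) (s : ℕ) :
    Fl φ (a ^ (p ^ s)) = ∑ g, a.coeff g ^ (p ^ s) * φ (g ^ (p ^ s)) := by
  classical
  obtain ⟨n, hn⟩ : ∃ n, p ^ s = n + 1 := ⟨p ^ s - 1, by
    have : 0 < p ^ s := pow_pos (Fact.out : p.Prime).pos _
    omega⟩
  rw [hn, pow_expand, map_sum]
  simp only [Fl_single]
  set f : (Fin (n + 1) → G) → k := fun t => (∏ i, a.coeff (t i)) * φ ((List.ofFn t).prod) with hf
  have hf1 : ∀ t, f (rot G n t) = f t := by
    intro t
    rw [hf]
    simp only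
    rw [prod_rot n φ hφ]
    congr 1
    have : ∀ i, a.coeff (rot G n t i) = a.coeff (t (finRotate (n + 1) i)) := by
      intro i; rw [rot_apply, finRotate_apply]
    simp only [this]
    exact Equiv.prod_comp (finRotate (n + 1)) (fun i => a.coeff (t i))
  have hfj : ∀ j : ℕ, ∀ t, f ((rot G n ^ j) t) = f t := by
    intro j
    induction j with
    | zero => intro t; simp
    | succ j ih => intro t; rw [pow_succ, Equiv.Perm.mul_apply, ih, hf1]
  have hz : ∀ g : Subgroup.zpowers (rot G n), ∃ j : ℕ, (g : Equiv.Perm (Fin (n + 1) → G)) = rot G n ^ j := by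
    intro g
    obtain ⟨j, hj⟩ := (mem_powers_iff_mem_zpowers.mpr g.2)
    exact ⟨j, hj.symm⟩
  have hP : IsPGroup p (Subgroup.zpowers (rot G n)) := by
    intro g
    refine ⟨s, ?_⟩
    obtain ⟨j, hj⟩ := hz g
    apply Subtype.ext
    rw [SubmonoidClass.coe_pow, hj, hn, ← pow_mul, mul_comm, pow_mul, rot_pow_eq_one, one_pow]
    rfl
  have key := sum_eq_sum_fixed (p := p) hP (Subgroup.zpowers (rot G n)).subtype f
    (by
      intro g t
      obtain ⟨j, hj⟩ := hz g
      rw [Subgroup.subtype_apply, hj, hfj])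
    (Finset.univ.image (fun g : G => (fun _ : Fin (n + 1) => g)))
    (by
      intro t
      rw [Finset.mem_image]
      constructor
      · rintro ⟨g, _, rfl⟩ σ
        obtain ⟨j, hj⟩ := hz σ
        rw [Subgroup.subtype_apply, hj]
        funext i
        rw [rot_pow_apply]
      · intro h
        refine ⟨t 0, Finset.mem_univ _, ?_⟩
        have h1 := h ⟨rot G n, Subgroup.mem_zpowers _⟩
        rw [Subgroup.subtype_apply] at h1
        funext i
        refine Fin.induction ?_ (fun i ih => ?_) i
        · rfl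
        · have h2 := congrFun h1 (Fin.castSucc i)
          rw [rot_apply, Fin.coeSucc_eq_succ] at h2
          rw [h2]; exact ih)
  rw [key, Finset.sum_image]
  · refine Finset.sum_congr rfl fun g _ => ?_
    simp only [hf]
    rw [Finset.prod_const, Finset.card_univ, Fintype.card_fin, List.ofFn_const,
      List.prod_replicate]
  · intro x _ y _ h
    exact congrFun h 0

/-- a class function that is invariant under `g ↦ g ^ p ^ r` vanishes on nilpotent elements -/
theorem Fl_nilpotent {p : ℕ} [Fact p.Prime] [CharP k p] (f : G → k)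
    (hf : ∀ x y, f (x * y) = f (y * x)) (r : ℕ) (hr : 0 < r) (hfr : ∀ x, f (x ^ p ^ r) = f x)
    (a : MonoidAlgebra k G) (ha : IsNilpotent a) : Fl f a = 0 := by
  obtain ⟨m, hm⟩ := ha
  have hp : 1 < p := (Fact.out : p.Prime).one_lt
  have hle : m ≤ p ^ (r * m) := by
    calc m ≤ r * m := Nat.le_mul_of_pos_left _ hr
      _ ≤ p ^ (r * m) := (Nat.lt_pow_self hp).le
  have h0 : a ^ (p ^ (r * m)) = 0 := by
    obtain ⟨c, hc⟩ := Nat.exists_eq_add_of_le hle
    rw [hc, pow_add, hm, zero_mul]
  have hfm : ∀ m : ℕ, ∀ x, f (x ^ p ^ (r * m)) = f x := by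
    intro m
    induction m with
    | zero => intro x; simp
    | succ m ih =>
      intro x
      rw [mul_add, mul_one, pow_add, pow_mul, hfr, ih]
  have h1 := Fl_pow (p := p) (fun x => f x ^ (p ^ (r * m))) (fun x y => by rw [hf]) a (r * m)
  rw [h0, map_zero] at h1
  have h2 : ∑ g, a.coeff g ^ (p ^ (r * m)) * f (g ^ (p ^ (r * m))) ^ (p ^ (r * m))
      = (Fl f a) ^ (p ^ (r * m)) := by
    rw [Fl_apply, sum_pow_char_pow]
    refine Finset.sum_congr rfl fun g _ => ?_
    rw [hfm, mul_pow]
  rw [h2] at h1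
  exact eq_zero_of_pow_eq_zero h1.symm

end


section
variable {k : Type*} [Field k]

/-- a functional on matrices that vanishes on commutators is a multiple of the trace -/
theorem trace_func {d : ℕ} [NeZero d] (T : Matrix (Fin d) (Fin d) k →ₗ[k] k)
    (hT : ∀ X Y, T (X * Y) = T (Y * X)) : ∃ c : k, ∀ X, T X = c * X.trace := by
  refine ⟨T (Matrix.single 0 0 1), fun X => ?_⟩
  have h1 : ∀ r s : Fin d, r ≠ s → T (Matrix.single r s 1) = 0 := by
    intro r s hrs
    have e1 : Matrix.single r s (1 : k) = Matrix.single r r 1 * Matrix.single r s 1 := by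
      rw [Matrix.single_mul_single_same, one_mul]
    rw [e1, hT, Matrix.single_mul_single_of_ne, map_zero]
    exact hrs.symm
  have h2 : ∀ r : Fin d, T (Matrix.single r r 1) = T (Matrix.single 0 0 1) := by
    intro r
    have e1 : Matrix.single r r (1 : k) = Matrix.single r 0 1 * Matrix.single 0 r 1 := by
      rw [Matrix.single_mul_single_same, one_mul]
    rw [e1, hT, Matrix.single_mul_single_same, one_mul]
  have h3 : ∀ (r s : Fin d) (x : k), T (Matrix.single r s x) = x * T (Matrix.single r s 1) := by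
    intro r s x
    rw [← smul_eq_mul, ← map_smul, Matrix.smul_single, smul_eq_mul, mul_one]
  conv_lhs => rw [Matrix.matrix_eq_sum_single X]
  rw [map_sum, Matrix.trace, Finset.mul_sum]
  refine Finset.sum_congr rfl fun r _ => ?_
  rw [map_sum, Finset.sum_eq_single r]
  · rw [h3, h2, Matrix.diag_apply, mul_comm]
  · intro s _ hs
    rw [h3, h1 r s hs.symm, mul_zero]
  · intro h; exact absurd (Finset.mem_univ r) h

theorem func_pi {R : Type*} [Ring R] [Algebra k R] {n : ℕ} {d : Fin n → ℕ}
    (hd : ∀ i, NeZero (d i))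
    (π : R →ₐ[k] ((i : Fin n) → Matrix (Fin (d i)) (Fin (d i)) k))
    (hπ : Function.Surjective π) (F : R →ₗ[k] k) (hF : ∀ a b, F (a * b) = F (b * a))
    (h0 : ∀ a, π a = 0 → F a = 0) :
    ∃ c : Fin n → k, ∀ a, F a = ∑ i, c i * (π a i).trace := by
  classical
  obtain ⟨s, hs⟩ : ∃ s : ((i : Fin n) → Matrix (Fin (d i)) (Fin (d i)) k) → R, ∀ x, π (s x) = x :=
    ⟨Function.surjInv hπ, Function.surjInv_eq hπ⟩
  have hw : ∀ a b, π a = π b → F a = F b := by
    intro a b h
    have := h0 (a - b) (by rw [map_sub, h, sub_self])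
    rwa [map_sub, sub_eq_zero] at this
  let T : ∀ i : Fin n, Matrix (Fin (d i)) (Fin (d i)) k →ₗ[k] k := fun i =>
    { toFun := fun X => F (s (Pi.single i X))
      map_add' := fun X Y => by
        rw [← map_add]
        apply hw
        rw [map_add, hs, hs, hs, Pi.single_add]
      map_smul' := fun c X => by
        rw [← map_smul]
        apply hw
        rw [map_smul, hs, hs, Pi.single_smul, RingHom.id_apply] }
  have hT : ∀ i X, T i X = F (s (Pi.single i X)) := fun _ _ => rfl
  have h1 : ∀ i, ∃ c : k, ∀ X, T i X = c * X.trace := by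
    intro i
    have := hd i
    apply trace_func
    intro X Y
    rw [hT, hT]
    have e1 : F (s (Pi.single i (X * Y))) = F (s (Pi.single i X) * s (Pi.single i Y)) := by
      apply hw
      rw [map_mul, hs, hs, hs, Pi.single_mul]
    have e2 : F (s (Pi.single i (Y * X))) = F (s (Pi.single i Y) * s (Pi.single i X)) := by
      apply hw
      rw [map_mul, hs, hs, hs, Pi.single_mul]
    rw [e1, e2, hF]
  choose c hc using h1
  refine ⟨c, fun a => ?_⟩
  have h2 : F a = F (∑ i, s (Pi.single i (π a i))) := by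
    apply hw
    rw [map_sum]
    simp only [hs]
    exact (Finset.univ_sum_single (π a)).symm
  rw [h2, map_sum]
  refine Finset.sum_congr rfl fun i _ => ?_
  rw [← hT, hc]

end

section
variable {k : Type*} [Field k] {G : Type*} [Group G] [Finite G]

/-- a homomorphism from the group algebra to matrices gives a representation -/
noncomputable def repOf {d : ℕ} (τ : MonoidAlgebra k G →ₐ[k] Matrix (Fin d) (Fin d) k) :
    Representation k G (Fin d → k) where
  toFun g := Matrix.toLinAlgEquiv' (τ (single g 1))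
  map_one' := by
    rw [← one_def, map_one, map_one]
  map_mul' x y := by
    rw [← map_mul, ← map_mul, single_mul_single, one_mul]

theorem repOf_apply {d : ℕ} (τ : MonoidAlgebra k G →ₐ[k] Matrix (Fin d) (Fin d) k) (g : G)
    (v : Fin d → k) : repOf τ g v = (τ (single g 1)).mulVec v := rfl

theorem trace_repOf {d : ℕ} (τ : MonoidAlgebra k G →ₐ[k] Matrix (Fin d) (Fin d) k) (g : G) :
    LinearMap.trace k (Fin d → k) (repOf τ g) = (τ (single g 1)).trace :=
  Matrix.trace_toLin'_eq _

theorem repOf_irr {d : ℕ} [NeZero d] (τ : MonoidAlgebra k G →ₐ[k] Matrix (Fin d) (Fin d) k)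
    (hτ : Function.Surjective τ) : (repOf τ).IsIrreducible := by
  classical
  have := Fintype.ofFinite G
  rw [irr_iff]
  refine ⟨inferInstance, fun W hW => ?_⟩
  have h1 : ∀ a : MonoidAlgebra k G, ∀ w ∈ W, (τ a).mulVec w ∈ W := by
    intro a w hw
    have e1 : (τ a).mulVec w = ∑ x, a.coeff x • (τ (single x 1)).mulVec w := by
      conv_lhs => rw [eq_sum a]
      rw [map_sum, Matrix.sum_mulVec]
      refine Finset.sum_congr rfl fun x _ => ?_
      rw [← Matrix.smul_mulVec, ← map_smul, smul_single, smul_eq_mul, mul_one]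
    rw [e1]
    exact W.sum_mem fun x _ => W.smul_mem _ (hW x w hw)
  by_cases h : W = ⊥
  · exact Or.inl h
  · right
    obtain ⟨w, hw, hw0⟩ := W.ne_bot_iff.mp h
    obtain ⟨j, hj⟩ : ∃ j, w j ≠ 0 := by
      by_contra hcon
      push Not at hcon
      exact hw0 (funext hcon)
    rw [eq_top_iff]
    intro v _
    obtain ⟨a, ha⟩ := hτ (Matrix.vecMulVec v (Pi.single j (w j)⁻¹))
    have h2 := h1 a w hw
    rw [ha, Matrix.vecMulVec_mulVec, single_dotProduct, inv_mul_cancel₀ hj] at h2
    simpa using h2

/-- the irreducible characters span (form for an abstract finite group) -/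
theorem exists_combination [IsAlgClosed k] {p : ℕ} [Fact p.Prime] [CharP k p] (f : G → k)
    (hf : ∀ x y, f (x * y) = f (y * x)) (r : ℕ) (hr : 0 < r) (hfr : ∀ x, f (x ^ p ^ r) = f x) :
    ∃ (n : ℕ) (d : Fin n → ℕ) (ρ : ∀ i, Representation k G (Fin (d i) → k)) (c : Fin n → k),
      (∀ i, (ρ i).IsIrreducible) ∧
      ∀ x, f x = ∑ i, c i * LinearMap.trace k (Fin (d i) → k) (ρ i x) := by
  classical
  have := Fintype.ofFinite G
  have : Module.Finite k (MonoidAlgebra k G) := inferInstance
  have : IsArtinianRing (MonoidAlgebra k G) := IsArtinianRing.of_finite k _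
  have : Module.Finite k (MonoidAlgebra k G ⧸ Ring.jacobson (MonoidAlgebra k G)) := inferInstance
  obtain ⟨n, d, hd, ⟨e⟩⟩ := IsSemisimpleRing.exists_algEquiv_pi_matrix_of_isAlgClosed k
    (MonoidAlgebra k G ⧸ Ring.jacobson (MonoidAlgebra k G))
  let π : MonoidAlgebra k G →ₐ[k] ((i : Fin n) → Matrix (Fin (d i)) (Fin (d i)) k) :=
    e.toAlgHom.comp (Ideal.Quotient.mkₐ k (Ring.jacobson (MonoidAlgebra k G)))
  have hπ : Function.Surjective π :=
    e.surjective.comp (Ideal.Quotient.mkₐ_surjective k _)
  have hker : ∀ a, π a = 0 → IsNilpotent a := by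
    intro a ha
    have h1 : Ideal.Quotient.mkₐ k (Ring.jacobson (MonoidAlgebra k G)) a = 0 := by
      apply e.injective
      rw [map_zero]; exact ha
    have h2 : a ∈ Ring.jacobson (MonoidAlgebra k G) := Ideal.Quotient.eq_zero_iff_mem.mp h1
    obtain ⟨m, hm⟩ := IsSemiprimaryRing.isNilpotent (R := MonoidAlgebra k G)
    refine ⟨m, ?_⟩
    have h3 := Ideal.pow_mem_pow h2 m
    rw [hm] at h3
    exact h3
  obtain ⟨c, hc⟩ := func_pi hd π hπ (Fl f) (Fl_comm f hf)
    (fun a ha => Fl_nilpotent f hf r hr hfr a (hker a ha))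
  let τ : ∀ i, MonoidAlgebra k G →ₐ[k] Matrix (Fin (d i)) (Fin (d i)) k := fun i =>
    (Pi.evalAlgHom k (fun i => Matrix (Fin (d i)) (Fin (d i)) k) i).comp π
  have hτ : ∀ i, Function.Surjective (τ i) := fun i =>
    (Function.surjective_eval i).comp hπ
  refine ⟨n, d, fun i => repOf (τ i), c, fun i => ?_, fun x => ?_⟩
  · have := hd i
    exact repOf_irr (τ i) (hτ i)
  · have h1 := hc (single x 1)
    rw [Fl_single, one_mul] at h1
    rw [h1]
    refine Finset.sum_congr rfl fun i _ => ?_
    rw [trace_repOf]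
    rfl

end

end ChC

variable {p : ℕ} {k : Type*} [Field k] [IsAlgClosed k] {A : Type*} [Group A] [Finite A]

theorem span_IrrCh [Fact p.Prime] [CharP k p] (H : Subgroup A) :
    Submodule.span k (IrrCh k H) = XH p k H := by
  apply le_antisymm
  · rw [Submodule.span_le]
    rintro f ⟨n, ρ, -, rfl⟩
    exact chi_mem_XH ρ
  · intro f hf
    rw [mem_XH] at hf
    obtain ⟨h1, h2, h3⟩ := hf
    obtain ⟨n, d, ρ, c, hirr, hsum⟩ := ChC.exists_combination (p := p) (fun x : H => f x)
      (by
        intro x y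
        have := h2 (y : A) y.2 ((x : A) * y)
        rw [Subgroup.coe_mul, Subgroup.coe_mul, ← this]
        congr 1
        group)
      (Nat.card A * Nat.totient (ordCompl[p] (Nat.card A)))
      (by
        have hA : 0 < Nat.card A := Nat.card_pos
        exact Nat.mul_pos hA (Nat.totient_pos.mpr (Nat.ordCompl_pos p hA.ne')))
      (by
        intro x
        exact h3 x x.2)
    have hf : f = ∑ i, c i • chi (ρ i) := by
      funext x
      rw [Finset.sum_apply]
      by_cases hx : x ∈ H
      · have := hsum ⟨x, hx⟩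
        simp only at this
        rw [this]
        refine Finset.sum_congr rfl fun i _ => ?_
        rw [Pi.smul_apply, chi_of_mem _ hx, smul_eq_mul]
      · rw [h1 x hx]
        symm
        apply Finset.sum_eq_zero
        intro i _
        rw [Pi.smul_apply, chi_of_notMem _ hx, smul_zero]
    rw [hf]
    exact Submodule.sum_mem _ fun i _ => Submodule.smul_mem _ _
      (Submodule.subset_span ⟨d i, ρ i, hirr i, rfl⟩)

end Pool.Agent.Lib.P0c8ca5
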