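import Mathlib
import Pool.Agent.Lib.P0c8ca5N.ChA

/-!
# Module ChB: the irreducible characters are linearly independent

`k` is algebraically closed (any characteristic).  Let `ρ₁, …, ρ_r` be pairwise non-isomorphic
irreducible representations of `H`.  Claim: for every `j` there is `a : H → k` with
`∑ a h • ρ_i h = 0` for `i ≠ j` and `trace (∑ a h • ρ_j h) = 1`.  Proof: apply the Jacobson
density theorem (`jacobson_density`, Mathlib.RingTheory.SimpleModule.Basic; a version for
modules finite over their endomorphism ring is there as well) to the semisimple `k[H]`-module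
`M = ⊕ V_i` (`MonoidAlgebra k H`-module via `ρ.asModule`), with the `k`-linear map `f` that is 0 on
`V_i`, `i ≠ j`, and a rank one map of trace 1 on `V_j`; it commutes with
`End_{k[H]} M = ∏ k` (Schur's lemma, algebraically closed).  Alternatively: use the surjection
`k[H] → ∏ M_{n_i}(k)` of Wedderburn-Artin
(`IsSemisimpleRing.exists_algEquiv_pi_matrix_of_isAlgClosed` for `k[H]/J`), see module ChC.
Alternatively, by hand: induction on `r` with the left ideals `ker (evl ρ v)` of
`P0c8ca5.CliffC` (`iso_of_inf`) shows that `k[H] → ⊕ V_i ^ (d)` is surjective.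
Linear independence: apply the functional `f ↦ ∑ a h * f h` to a relation.
`chi_inj`: if `ρ` and `σ` are not isomorphic then the claim gives `a` with value 1 on `chi ρ` and 0
on `chi σ`.
-/

namespace Pool.Agent.Lib.P0c8ca5

open MonoidAlgebra

set_option linter.unusedSectionVars false

variable {k : Type*} [Field k] [IsAlgClosed k] {A : Type*} [Group A] [Finite A]

namespace ChBAux

theorem hom_zero {H : Subgroup A} {n m : ℕ} {ρ : Rp k H n} {σ : Rp k H m}
    (hρ : ρ.IsIrreducible) (hσ : σ.IsIrreducible) (hne : IsEmpty (ρ.Equiv σ))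
    (f : ρ.asModule →ₗ[MonoidAlgebra k H] σ.asModule) : f = 0 := by
  have := hρ
  have := hσ
  have h1 : (Representation.IntertwiningMap.equivLinearMapAsModule ρ σ).symm f = 0 :=
    Subsingleton.elim _ _
  exact (LinearEquiv.map_eq_zero_iff _).1 h1

theorem end_scalar {H : Subgroup A} {n : ℕ} {ρ : Rp k H n}
    (hρ : ρ.IsIrreducible) (f : ρ.asModule →ₗ[MonoidAlgebra k H] ρ.asModule) :
    ∃ c : k, ∀ x, f x = c • x := by
  have := (Representation.irreducible_iff_isSimpleModule_asModule ρ).1 hρ
  obtain ⟨c, hc⟩ := (IsSimpleModule.algebraMap_end_bijective_of_isAlgClosed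
    (A := MonoidAlgebra k H) (V := ρ.asModule) k).2 f
  exact ⟨c, fun x => by rw [← hc]; rfl⟩

/-- density for pairwise non-isomorphic irreducible representations -/
theorem density {H : Subgroup A} {ι : Type*} [Fintype ι] [DecidableEq ι] (n : ι → ℕ)
    (ρ : ∀ i, Rp k H (n i)) (hirr : ∀ i, (ρ i).IsIrreducible)
    (hne : ∀ i j, i ≠ j → IsEmpty ((ρ i).Equiv (ρ j)))
    (j : ι) (T : (Fin (n j) → k) →ₗ[k] (Fin (n j) → k)) :
    ∃ a : MonoidAlgebra k H, (∀ i, i ≠ j → (ρ i).asAlgebraHom a = 0) ∧
      (ρ j).asAlgebraHom a = T := by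
  classical
  have hs : ∀ i, IsSimpleModule (MonoidAlgebra k H) (ρ i).asModule := fun i =>
    (Representation.irreducible_iff_isSimpleModule_asModule _).1 (hirr i)
  let M := ∀ i, (ρ i).asModule
  have hg : ∀ g : Module.End (MonoidAlgebra k H) M, ∃ c : k,
      (∀ m : M, g m j = c • m j) ∧ ∀ w : (ρ j).asModule, g (Pi.single j w) = Pi.single j (c • w) := by
    intro g
    have key1 : ∀ i i' : ι, i ≠ i' → ∀ w : (ρ i').asModule, g (Pi.single i' w) i = 0 := by
      intro i i' hii w
      have := hom_zero (hirr i') (hirr i) (hne i' i (Ne.symm hii))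
        (LinearMap.proj i ∘ₗ g ∘ₗ
          LinearMap.single (MonoidAlgebra k H) (fun i => (ρ i).asModule) i')
      exact congrArg (fun f => f w) this
    obtain ⟨c, hc⟩ := end_scalar (hirr j) (LinearMap.proj j ∘ₗ g ∘ₗ
      LinearMap.single (MonoidAlgebra k H) (fun i => (ρ i).asModule) j)
    have hc' : ∀ w : (ρ j).asModule, g (Pi.single j w) j = c • w := hc
    refine ⟨c, fun m => ?_, fun w => ?_⟩
    · have e : m = ∑ i, Pi.single i (m i) := (Finset.univ_sum_single m).symm
      conv_lhs => rw [e, map_sum, Finset.sum_apply]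
      rw [Finset.sum_eq_single j]
      · exact hc' _
      · intro i _ hij
        exact key1 j i (Ne.symm hij) _
      · intro h; exact absurd (Finset.mem_univ j) h
    · funext i
      by_cases hij : i = j
      · subst hij
        rw [hc', Pi.single_eq_same]
      · rw [key1 i j hij, Pi.single_eq_of_ne hij]
  let T' : (ρ j).asModule →ₗ[k] (ρ j).asModule := T
  let f : Module.End (Module.End (MonoidAlgebra k H) M) M :=
    { toFun := fun m => Pi.single j (T' (m j))
      map_add' := fun m m' => by
        rw [Pi.add_apply, map_add, Pi.single_add]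
      map_smul' := fun g m => by
        obtain ⟨c, hc1, hc2⟩ := hg g
        change Pi.single j (T' (g m j)) = g (Pi.single j (T' (m j)))
        rw [hc1, hc2, map_smul] }
  let b : (Σ i, Fin (n i)) → M := fun q =>
    Pi.single q.1 (show (ρ q.1).asModule from (Pi.single q.2 1 : Fin (n q.1) → k))
  obtain ⟨r, hr⟩ := jacobson_density (R := MonoidAlgebra k H) (M := M) f
    (Finset.univ.image b)
  have hr' : ∀ (i : ι) (a : Fin (n i)), (ρ i).asAlgebraHom r (Pi.single a 1) =
      (f (b ⟨i, a⟩) : M) i := by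
    intro i a
    have h1 := hr (b ⟨i, a⟩) (Finset.mem_image_of_mem b (Finset.mem_univ _))
    rw [h1]
    change _ = r • (b ⟨i, a⟩ i)
    have h2 : b ⟨i, a⟩ i = (show (ρ i).asModule from (Pi.single a 1 : Fin (n i) → k)) :=
      Pi.single_eq_same _ _
    rw [h2]
    rfl
  refine ⟨r, fun i hij => ?_, ?_⟩
  · refine (Pi.basisFun k (Fin (n i))).ext fun a => ?_
    rw [Pi.basisFun_apply, hr']
    change (Pi.single j (T' (b ⟨i, a⟩ j)) : M) i = 0
    rw [Pi.single_eq_of_ne hij]
  · refine (Pi.basisFun k (Fin (n j))).ext fun a => ?_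
    rw [Pi.basisFun_apply, hr']
    change (Pi.single j (T' (b ⟨j, a⟩ j)) : M) j = T (Pi.single a 1)
    rw [Pi.single_eq_same]
    have h2 : b ⟨j, a⟩ j = (show (ρ j).asModule from (Pi.single a 1 : Fin (n j) → k)) :=
      Pi.single_eq_same _ _
    rw [h2]
    rfl

theorem exists_trace_one {H : Subgroup A} {n : ℕ} {ρ : Rp k H n} (hρ : ρ.IsIrreducible) :
    ∃ T : (Fin n → k) →ₗ[k] (Fin n → k), LinearMap.trace k (Fin n → k) T = 1 := by
  have h1 := (irr_iff.1 hρ).nontriv
  obtain ⟨v, hv⟩ := exists_ne (0 : Fin n → k)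
  have h2 : ∃ a, v a ≠ 0 := by
    by_contra h
    push Not at h
    exact hv (funext h)
  obtain ⟨a, -⟩ := h2
  refine ⟨(LinearMap.proj a).smulRight (Pi.single a 1), ?_⟩
  rw [LinearMap.trace_smulRight]
  simp

/-- the functional attached to an element of the group algebra -/
noncomputable def fnl [Fintype A] {H : Subgroup A} (a : MonoidAlgebra k H) :
    (A → k) →ₗ[k] k := by
  classical
  exact
  { toFun := fun f => ∑ h : H, a.coeff h * f h
    map_add' := fun f g => by
      rw [← Finset.sum_add_distrib]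
      exact Finset.sum_congr rfl fun h _ => by rw [Pi.add_apply, mul_add]
    map_smul' := fun c f => by
      rw [RingHom.id_apply, smul_eq_mul, Finset.mul_sum]
      exact Finset.sum_congr rfl fun h _ => by rw [Pi.smul_apply, smul_eq_mul]; ring }

theorem fnl_chi [Fintype A] {H : Subgroup A} (a : MonoidAlgebra k H) {n : ℕ} (ρ : Rp k H n) :
    fnl a (chi ρ) = LinearMap.trace k (Fin n → k) (ρ.asAlgebraHom a) := by
  classical
  have h1 : ρ.asAlgebraHom a = ∑ h : H, a.coeff h • ρ h := by
    rw [Representation.asAlgebraHom_def, MonoidAlgebra.lift_apply]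
    exact Finsupp.sum_fintype _ _ (fun h => zero_smul _ _)
  rw [h1, map_sum]
  change ∑ h : H, a.coeff h * chi ρ h = _
  refine Finset.sum_congr rfl fun h _ => ?_
  rw [chi_of_mem ρ h.2, map_smul, smul_eq_mul]

end ChBAux

open ChBAux in
theorem chi_inj {H : Subgroup A} {n m : ℕ} {ρ : Rp k H n} {σ : Rp k H m}
    (hρ : ρ.IsIrreducible) (hσ : σ.IsIrreducible) (h : chi ρ = chi σ) :
    Nonempty (ρ.Equiv σ) := by
  classical
  by_contra hne
  rw [not_nonempty_iff] at hne
  have := Fintype.ofFinite A
  let nn : Bool → ℕ := fun b => Bool.rec m n b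
  let rr : ∀ b, Rp k H (nn b) := fun b => Bool.rec σ ρ b
  obtain ⟨T, hT⟩ := exists_trace_one hρ
  obtain ⟨a, ha1, ha2⟩ := density nn rr (fun b => by cases b; exacts [hσ, hρ])
    (fun i j hij => by
      cases i <;> cases j
      · exact absurd rfl hij
      · exact ⟨fun e => hne.false e.symm⟩
      · exact hne
      · exact absurd rfl hij) true T
  have h1 : fnl a (chi ρ) = 1 := by
    rw [fnl_chi]
    have : ρ.asAlgebraHom a = T := ha2
    rw [this, hT]
  have h2 : fnl a (chi σ) = 0 := by
    rw [fnl_chi]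
    have : σ.asAlgebraHom a = 0 := ha1 false (by decide)
    rw [this, map_zero]
  rw [h, h2] at h1
  exact zero_ne_one h1

open ChBAux in
theorem chi_linearIndependent (H : Subgroup A) :
    LinearIndependent k (fun χ : IrrCh k H => (χ : A → k)) := by
  classical
  have := Fintype.ofFinite A
  have hex : ∀ χ : IrrCh k H, ∃ (n : ℕ) (ρ : Rp k H n), ρ.IsIrreducible ∧ (χ : A → k) = chi ρ :=
    fun χ => χ.2
  choose n ρ hirr hchi using hex
  rw [linearIndependent_iff']
  intro s g hsum j hj
  obtain ⟨T, hT⟩ := exists_trace_one (hirr j)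
  obtain ⟨a, ha1, ha2⟩ := density (ι := s) (fun i => n i.1) (fun i => ρ i.1)
    (fun i => hirr i.1) (fun i i' hii => ⟨fun e => hii (by
      apply Subtype.ext
      apply Subtype.ext
      rw [hchi, hchi]
      exact chi_equiv ⟨e⟩)⟩) ⟨j, hj⟩ T
  have h1 := congrArg (fnl a) hsum
  rw [map_sum, map_zero, Finset.sum_eq_single j] at h1
  · rw [map_smul, hchi, fnl_chi, ha2, hT, smul_eq_mul, mul_one] at h1
    exact h1
  · intro i hi hij
    rw [map_smul, hchi, fnl_chi, ha1 ⟨i, hi⟩ (fun h => hij (congrArg Subtype.val h)), map_zero,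
      smul_zero]
  · intro h; exact absurd hj h

instance finite_IrrCh (H : Subgroup A) : Finite (IrrCh k H) :=
  (chi_linearIndependent (k := k) H).finite_of_isNoetherian

end Pool.Agent.Lib.P0c8ca5
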