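import Mathlib
import Pool.Agent.Lib.P0c8ca5N.ChB

/-!
# Module ChD: counting invariant irreducible representations by characters

`card_irr_inv`: the map `[ρ] ↦ chi ρ` is a bijection from the equivalence classes of
`IrrInv N X e` onto the set of `χ ∈ IrrCh k N` with `conv e χ = χ` that are invariant under
conjugation by `X`.  Well defined and injective: `chi_equiv`, `chi_inj`.  Invariance: for
`h ∈ X` the conjugate `σ` of `ρ` by `h` exists (`tw`, `cjN` in P0c8ca5.CliffB, or define it directly)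
and `chi σ (h x h⁻¹) = chi ρ x` (`chi_conj`), so `chi σ = chi ρ` iff `chi ρ` is invariant under `h`,
and by `chi_inj` this is `ρ ≃ σ`.  Block: `InBlock e ρ → conv e χ = χ`, and
`¬ InBlock e ρ → conv e χ = 0 ≠ χ` (`conv_chi_of_inBlock`, `conv_chi_of_not`; `χ ≠ 0` by
`chi_linearIndependent`, `LinearIndependent.ne_zero`).
-/

namespace Pool.Agent.Lib.P0c8ca5

open MonoidAlgebra

set_option linter.unusedSectionVars false

variable {k : Type*} [Field k] [IsAlgClosed k] {A : Type*} [Group A] [Fintype A]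

namespace ChDAux

theorem isConj_tw {N : Subgroup A} {n : ℕ} {h : A}
    (hN : h ∈ Subgroup.normalizer (N : Set A)) (ρ : Rp k N n) :
    IsConjRep h ρ (tw hN ρ) := by
  intro x y v hxy
  change tw hN ρ y v = ρ x v
  rw [tw_apply]
  have e1 : cjN hN y = x := by
    apply Subtype.ext
    rw [coe_cjN, hxy]
    group
  rw [e1]

theorem eq_tw_of_isConj {N : Subgroup A} {n : ℕ} {h : A}
    (hN : h ∈ Subgroup.normalizer (N : Set A)) {ρ σ : Rp k N n} (hc : IsConjRep h ρ σ) :
    σ = tw hN ρ := by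
  ext y v i
  have h1 := hc (cjN hN y) y
  have e1 : (y : A) = h * (cjN hN y : A) * h⁻¹ := by
    rw [coe_cjN]; group
  have h2 := fun v => h1 v e1
  simp only [app] at h2
  have h3 : σ y = tw hN ρ y := by
    apply LinearMap.ext
    intro w
    rw [h2 w, tw_apply]
  rw [h3]

theorem chi_ne_zero {N : Subgroup A} {n : ℕ} {ρ : Rp k N n} (hρ : ρ.IsIrreducible) :
    chi ρ ≠ 0 :=
  (chi_linearIndependent (k := k) N).ne_zero (⟨chi ρ, n, ρ, hρ, rfl⟩ : IrrCh k N)

end ChDAux

theorem conv_eq_zero_of_ne {N : Subgroup A} {e : MonoidAlgebra k A} (he : SuppIn N e)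
    (hinv : InvBy N e) (hee : e * e = e) (χ : IrrCh k N)
    (h : conv e (χ : A → k) ≠ (χ : A → k)) : conv e (χ : A → k) = 0 := by
  obtain ⟨f, n, ρ, hρ, rfl⟩ := χ
  by_cases hb : InBlock e ρ
  · exact absurd (conv_chi_of_inBlock he hb) h
  · exact conv_chi_of_not hρ he hinv hee hb

theorem card_irr_inv {N X : Subgroup A} (hX : X ≤ Subgroup.normalizer (N : Set A))
    {e : MonoidAlgebra k A} (he : SuppIn N e) (hinv : InvBy N e) (hee : e * e = e) :
    Nat.card (Quotient (irrInvSetoid N X e))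
      = Nat.card {χ : IrrCh k N // conv e (χ : A → k) = (χ : A → k) ∧
          ∀ h ∈ X, ∀ x, (χ : A → k) (h * x * h⁻¹) = (χ : A → k) x} := by
  let F : Quotient (irrInvSetoid N X e) → {χ : IrrCh k N // conv e (χ : A → k) = (χ : A → k) ∧
          ∀ h ∈ X, ∀ x, (χ : A → k) (h * x * h⁻¹) = (χ : A → k) x} :=
    Quotient.lift (fun a : IrrInv N X e =>
      ⟨⟨chi a.ρ, a.n, a.ρ, a.irr, rfl⟩, conv_chi_of_inBlock he a.blk, fun h hh x => by
        have h1 := ChDAux.isConj_tw (hX hh) a.ρ
        have h2 := chi_equiv (a.inv h hh _ h1)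
        have h3 := chi_conj (hX hh) h1 x
        change chi a.ρ (h * x * h⁻¹) = chi a.ρ x
        rw [← h3, h2]⟩)
      (fun a b hab => Subtype.ext (Subtype.ext (chi_equiv hab)))
  refine Nat.card_congr (Equiv.ofBijective F ⟨?_, ?_⟩)
  · intro q r
    induction q using Quotient.inductionOn with
    | h a =>
      induction r using Quotient.inductionOn with
      | h b =>
        intro hab
        have h1 : chi a.ρ = chi b.ρ := congrArg (fun z => ((z.1 : IrrCh k N) : A → k)) hab
        exact Quotient.sound (chi_inj a.irr b.irr h1)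
  · rintro ⟨⟨f, n, ρ, hρ, rfl⟩, h1, h2⟩
    have hb : InBlock e ρ := by
      by_contra hb
      have h3 := conv_chi_of_not hρ he hinv hee hb
      exact ChDAux.chi_ne_zero hρ (h1.symm.trans h3)
    have hi : ∀ h ∈ X, ∀ σ : Rp k N n, IsConjRep h ρ σ → Nonempty (ρ.Equiv σ) := by
      intro h hh σ hc
      have h3 : σ = tw (hX hh) ρ := ChDAux.eq_tw_of_isConj (hX hh) hc
      have h4 : σ.IsIrreducible := by
        rw [h3]
        exact irr_iff.2 ((irr_iff.1 hρ).tw _)
      apply chi_inj hρ h4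
      funext y
      have h5 := chi_conj (hX hh) hc (h⁻¹ * y * h)
      have h6 := h2 h hh (h⁻¹ * y * h)
      have e1 : h * (h⁻¹ * y * h) * h⁻¹ = y := by group
      rw [e1] at h5 h6
      change chi ρ y = chi ρ (h⁻¹ * y * h) at h6
      rw [h6, h5]
    exact ⟨Quotient.mk _ ⟨n, ρ, hρ, hb, hi⟩, rfl⟩

end Pool.Agent.Lib.P0c8ca5
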