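import Mathlib
import Pool.Agent.Lib.P0c8ca5N.Mv
import Pool.Agent.Lib.P0c8ca5N.ChC
import Pool.Agent.Lib.P0c8ca5N.ChD

/-!
# Module FB1: the invariant irreducible characters on the invariant p-regular classes

`G ≤ X ≤ N(G)`, `X / G` a p-group.  `PY x`: `x ∈ G` is p-regular and every `X`-conjugate of `x` is
`G`-conjugate to `x`.  `IX` = the set of the `X`-invariant irreducible characters of `G`.
Claim: the functions `Y ↦ χ (Y.out)`, `χ ∈ IX`, on the classes `Cl X PY` form a basis.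

SPAN.  Let `φ` be a function on `Cl X PY` and `f : A → k`, `f x = φ (class of pr x)` if
`x ∈ G` and `PY (pr x)`, else `0`.  Then `f ∈ XH p k G` and `f` is invariant under `X`, so
`f = ∑ a_χ χ` (`span_IrrCh`), and `a` is constant on the `X`-orbits of `IrrCh k G`
(`IrrCh_conj`, `chi_linearIndependent`).  At `y = Y.out`: `χ (h y h⁻¹) = χ y` for all `h ∈ X`, so the
function `χ ↦ a_χ * χ y` on `IrrCh k G` is invariant under the action of `X` by conjugation, in
particular under a Sylow p-subgroup `D` of `X`; by `sum_eq_sum_fixed` (Basic) the sum is the sum over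
the `χ` fixed by `D`; as `X = G D` (`IsSyl.sup_eq`) and `G` acts trivially, these are the
`χ ∈ IX`.  So `φ Y = ∑_{χ ∈ IX} a_χ χ y`.

INDEPENDENCE.  Let `∑_{χ ∈ IX} a_χ χ y = 0` for all `y` with `PY y`, and `f = ∑_{IX} a_χ χ`, an
`X`-invariant element of `XH p k G` that vanishes at all `x ∈ G` with `PY (pr x)`.  Fix
`χ₀ ∈ IX` and let `λ : XH p k G → k` be the coefficient of `χ₀` (basis `IrrCh k G`), which is
invariant under conjugation by `X`.  `f = ∑_L f(L) 1_L` over the classes `L` of p-regular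
elements of `G` (`Cl G (· ∈ G ∧ Preg p ·)`; `1_L` is the function `x ↦ 1` if `pr x ∈ L`), so
`a_{χ₀} = λ f = ∑_L f(L) λ(1_L)`.  The function `L ↦ f(L) λ(1_L)` is invariant under `D` acting on
the classes; by `sum_eq_sum_fixed` the sum is over the `D`-fixed classes, i.e. those with `PY`, where
`f(L) = 0`.  So `a_{χ₀} = 0`.
-/

namespace Pool.Agent.Lib.P0c8ca5

open MonoidAlgebra

set_option linter.unusedSectionVars false

variable {p : ℕ} {k : Type*} [Field k] {A : Type*} [Group A]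

/-- p-regular elements of `G` whose class is invariant under `X` -/
def PY (p : ℕ) (G X : Subgroup A) (x : A) : Prop :=
  x ∈ G ∧ Preg p x ∧ ∀ g ∈ X, ∃ h ∈ G, g * x * g⁻¹ = h * x * h⁻¹

/-- the `X`-invariant irreducible characters of `G` -/
def IX (k : Type*) [Field k] (G X : Subgroup A) : Set (A → k) :=
  {f | f ∈ IrrCh k G ∧ ∀ h ∈ X, ∀ x, f (h * x * h⁻¹) = f x}

namespace FB1X

theorem PY_conj {G X : Subgroup A} (hn : X ≤ Subgroup.normalizer (G : Set A)) :
    ∀ g ∈ X, ∀ x, PY p G X x → PY p G X (g * x * g⁻¹) := by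
  rintro g hg x ⟨h1, h2, h3⟩
  refine ⟨?_, (preg_conj g x).2 h2, ?_⟩
  · exact (Subgroup.mem_normalizer_iff.1 (hn hg) x).1 h1
  · intro h hh
    obtain ⟨u, hu, eu⟩ := h3 (h * g) (X.mul_mem hh hg)
    obtain ⟨v, hv, ev⟩ := h3 g hg
    refine ⟨u * v⁻¹, G.mul_mem hu (G.inv_mem hv), ?_⟩
    have e1 : h * (g * x * g⁻¹) * h⁻¹ = u * x * u⁻¹ := by rw [← eu]; group
    rw [e1, ev]; group

theorem PY_conj_iff {G X : Subgroup A} (hn : X ≤ Subgroup.normalizer (G : Set A))
    {g : A} (hg : g ∈ X) (x : A) : PY p G X (g * x * g⁻¹) ↔ PY p G X x := by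
  refine ⟨fun h => ?_, PY_conj hn g hg x⟩
  have := PY_conj hn g⁻¹ (X.inv_mem hg) _ h
  have e : g⁻¹ * (g * x * g⁻¹) * g⁻¹⁻¹ = x := by group
  rwa [e] at this

open Classical in
/-- the class function attached to a function on the classes -/
noncomputable def exf (p : ℕ) (G X : Subgroup A) (φ : Cl X (PY p G X) → k) : A → k := fun x =>
  if h : x ∈ G ∧ PY p G X (pr p x) then φ (Quotient.mk (clSetoid X (PY p G X)) ⟨pr p x, h.2⟩)
    else 0

theorem exf_conj {G X : Subgroup A} (hn : X ≤ Subgroup.normalizer (G : Set A))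
    (φ : Cl X (PY p G X) → k) : ∀ h ∈ X, ∀ x, exf p G X φ (h * x * h⁻¹) = exf p G X φ x := by
  intro h hh x
  have hG : h * x * h⁻¹ ∈ G ↔ x ∈ G := (Subgroup.mem_normalizer_iff.1 (hn hh) x).symm
  have hP : PY p G X (pr p (h * x * h⁻¹)) ↔ PY p G X (pr p x) := by
    rw [pr_conj]; exact PY_conj_iff hn hh _
  unfold exf
  by_cases hc : x ∈ G ∧ PY p G X (pr p x)
  · have hc' : h * x * h⁻¹ ∈ G ∧ PY p G X (pr p (h * x * h⁻¹)) := ⟨hG.2 hc.1, hP.2 hc.2⟩
    rw [dif_pos hc, dif_pos hc']
    congr 1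
    refine Quotient.sound ?_
    refine ⟨h⁻¹, X.inv_mem hh, ?_⟩
    change pr p x = h⁻¹ * pr p (h * x * h⁻¹) * h⁻¹⁻¹
    rw [pr_conj]; group
  · have hc' : ¬ (h * x * h⁻¹ ∈ G ∧ PY p G X (pr p (h * x * h⁻¹))) := by
      rw [hG, hP]; exact hc
    rw [dif_neg hc, dif_neg hc']

theorem exf_mem [Fact p.Prime] [Finite A] {G X : Subgroup A} (hGX : G ≤ X)
    (hn : X ≤ Subgroup.normalizer (G : Set A))
    (φ : Cl X (PY p G X) → k) : exf p G X φ ∈ XH p k G := by
  rw [mem_XH]
  refine ⟨fun x hx => ?_, fun h hh x => exf_conj hn φ h (hGX hh) x, fun x hx => ?_⟩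
  · unfold exf
    rw [dif_neg (fun h => hx h.1)]
  · unfold exf
    by_cases hc : x ∈ G ∧ PY p G X (pr p x)
    · have hc' : pr p x ∈ G ∧ PY p G X (pr p (pr p x)) := ⟨pr_mem hx, by rw [pr_pr]; exact hc.2⟩
      rw [dif_pos hc, dif_pos hc']
      congr 2
      exact Subtype.ext (pr_pr x)
    · have hc' : ¬ (pr p x ∈ G ∧ PY p G X (pr p (pr p x))) := by
        rw [pr_pr]; exact fun h => hc ⟨hx, h.2⟩
      rw [dif_neg hc, dif_neg hc']

theorem exf_out [Fact p.Prime] [Finite A] {G X : Subgroup A}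
    (φ : Cl X (PY p G X) → k) (Y : Cl X (PY p G X)) : exf p G X φ (Y.out : A) = φ Y := by
  have h1 : PY p G X (Y.out : A) := Y.out.2
  have h2 : pr p (Y.out : A) = (Y.out : A) := pr_eq_self h1.2.1
  unfold exf
  rw [dif_pos ⟨h1.1, by rw [h2]; exact h1⟩]
  congr 1
  have : (⟨pr p (Y.out : A), by rw [h2]; exact h1⟩ : {x : A // PY p G X x}) = Y.out :=
    Subtype.ext h2
  rw [this]
  exact Quotient.out_eq Y

/-- the action of the normalizer on the irreducible characters -/
@[reducible] noncomputable def cact {G X : Subgroup A} (hn : X ≤ Subgroup.normalizer (G : Set A)) :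
    MulAction X (IrrCh k G) where
  smul g χ := ⟨fun x => (χ : A → k) ((g : A)⁻¹ * x * (g : A)⁻¹⁻¹),
    IrrCh_conj (hn (X.inv_mem g.2)) χ.2⟩
  one_smul χ := by
    refine Subtype.ext (funext fun x => ?_)
    change (χ : A → k) (((1 : X) : A)⁻¹ * x * ((1 : X) : A)⁻¹⁻¹) = (χ : A → k) x
    simp
  mul_smul g h χ := by
    refine Subtype.ext (funext fun x => ?_)
    change (χ : A → k) (((g * h : X) : A)⁻¹ * x * ((g * h : X) : A)⁻¹⁻¹)
      = (χ : A → k) ((h : A)⁻¹ * ((g : A)⁻¹ * x * (g : A)⁻¹⁻¹) * (h : A)⁻¹⁻¹)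
    push_cast
    group

/-- the same as a homomorphism into the permutations -/
noncomputable def ahom (k : Type*) [Field k] {G X : Subgroup A}
    (hn : X ≤ Subgroup.normalizer (G : Set A)) :
    X →* Equiv.Perm (IrrCh k G) :=
  letI := cact (k := k) hn
  MulAction.toPermHom X (IrrCh k G)

theorem ahom_apply {G X : Subgroup A} (hn : X ≤ Subgroup.normalizer (G : Set A)) (g : X)
    (χ : IrrCh k G) (x : A) :
    (ahom k hn g χ : A → k) x = (χ : A → k) ((g : A)⁻¹ * x * (g : A)⁻¹⁻¹) := rfl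

/-- the stabilizer of a function under conjugation -/
def stf (f : A → k) : Subgroup A where
  carrier := {h | ∀ x, f (h * x * h⁻¹) = f x}
  mul_mem' := by
    intro a b ha hb x
    have e : a * b * x * (a * b)⁻¹ = a * (b * x * b⁻¹) * a⁻¹ := by group
    rw [e, ha, hb]
  one_mem' := by intro x; simp
  inv_mem' := by
    intro a ha x
    have := ha (a⁻¹ * x * a⁻¹⁻¹)
    rw [← this]; congr 1; group

theorem mem_stf {f : A → k} {h : A} : h ∈ stf f ↔ ∀ x, f (h * x * h⁻¹) = f x := Iff.rfl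

end FB1X

open FB1X in
theorem IX_span [Fact p.Prime] [CharP k p] [IsAlgClosed k] [Fintype A] {G X : Subgroup A}
    (hGX : G ≤ X) (hn : X ≤ Subgroup.normalizer (G : Set A))
    (hp : ∀ x ∈ X, ∃ n : ℕ, x ^ p ^ n ∈ G) :
    ⊤ ≤ Submodule.span k (Set.range
      (fun χ : IX k G X => (fun Y : Cl X (PY p G X) => (χ : A → k) (Y.out : A)))) := by
  classical
  intro φ _
  have : Fintype (IrrCh k G) := Fintype.ofFinite _
  obtain ⟨D, hD⟩ := exists_isSyl (p := p) X
  have hXD : G ⊔ D = X := hD.sup_eq hGX hn hp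
  -- the expansion of the extended function
  have hf : exf p G X φ ∈ Submodule.span k (Set.range (fun χ : IrrCh k G => (χ : A → k))) := by
    have : Set.range (fun χ : IrrCh k G => (χ : A → k)) = IrrCh k G := Subtype.range_coe
    rw [this, span_IrrCh (p := p)]
    exact exf_mem hGX hn φ
  obtain ⟨a, ha⟩ := (Submodule.mem_span_range_iff_exists_fun k).1 hf
  -- invariance of the coefficients
  have hinv : ∀ (g : X) (χ : IrrCh k G), a (ahom k hn g χ) = a χ := by
    intro g
    have h1 : ∑ χ : IrrCh k G, a (ahom k hn g χ) • (χ : A → k) = ∑ χ : IrrCh k G, a χ • (χ : A → k) := by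
      funext x
      have e1 : (∑ χ : IrrCh k G, a (ahom k hn g χ) • (χ : A → k)) x
          = exf p G X φ ((g : A) * x * (g : A)⁻¹) := by
        rw [← ha, Finset.sum_apply, Finset.sum_apply]
        rw [← Equiv.sum_comp (ahom k hn g) (fun χ => (a χ • (χ : A → k)) ((g : A) * x * (g : A)⁻¹))]
        refine Finset.sum_congr rfl (fun χ _ => ?_)
        rw [Pi.smul_apply, Pi.smul_apply, ahom_apply]
        congr 2
        group
      rw [e1, ha, exf_conj hn φ g g.2 x]
    have h2 := linearIndependent_iff_injective_fintypeLinearCombination.1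
      (chi_linearIndependent (k := k) G)
    have h3 := @h2 (fun χ => a (ahom k hn g χ)) a (by
      rw [Fintype.linearCombination_apply, Fintype.linearCombination_apply]
      exact h1)
    intro χ
    exact congrFun h3 χ
  -- the fixed characters
  let ψ : D →* Equiv.Perm (IrrCh k G) := (ahom k hn).comp (Subgroup.inclusion hD.le)
  let S : Finset (IrrCh k G) := Finset.univ.filter (fun χ => ∀ d, ψ d χ = χ)
  have hS : ∀ χ ∈ S, (χ : A → k) ∈ IX k G X := by
    intro χ hχ
    refine ⟨χ.2, ?_⟩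
    have h1 : G ≤ stf (χ : A → k) := by
      intro h hh
      have : (χ : A → k) ∈ XH p k G := by
        rw [← span_IrrCh (p := p)]; exact Submodule.subset_span χ.2
      exact (mem_XH.1 this).2.1 h hh
    have h2 : D ≤ stf (χ : A → k) := by
      intro d hd x
      have := (Finset.mem_filter.1 hχ).2 ⟨d⁻¹, D.inv_mem hd⟩
      have h3 := congrFun (congrArg (Subtype.val) this) x
      change (χ : A → k) ((d⁻¹)⁻¹ * x * (d⁻¹)⁻¹⁻¹) = (χ : A → k) x at h3
      rwa [inv_inv] at h3
    have h3 : X ≤ stf (χ : A → k) := by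
      rw [← hXD]; exact sup_le h1 h2
    exact fun h hh => h3 hh
  -- the values
  have hval : φ = ∑ χ ∈ S, a χ • (fun Y : Cl X (PY p G X) => (χ : A → k) (Y.out : A)) := by
    funext Y
    have hY : PY p G X (Y.out : A) := Y.out.2
    have hYi : ∀ (g : X) (χ : IrrCh k G), (ahom k hn g χ : A → k) (Y.out : A)
        = (χ : A → k) (Y.out : A) := by
      intro g χ
      rw [ahom_apply]
      obtain ⟨u, hu, eu⟩ := hY.2.2 (g : A)⁻¹ (X.inv_mem g.2)
      rw [eu]
      have : (χ : A → k) ∈ XH p k G := by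
        rw [← span_IrrCh (p := p)]; exact Submodule.subset_span χ.2
      exact (mem_XH.1 this).2.1 u hu _
    have e1 : φ Y = ∑ χ : IrrCh k G, a χ * (χ : A → k) (Y.out : A) := by
      rw [← exf_out φ Y, ← ha, Finset.sum_apply]
      rfl
    rw [e1, Finset.sum_apply]
    exact sum_eq_sum_fixed (p := p) hD.isPGroup ψ
      (fun χ : IrrCh k G => a χ * (χ : A → k) (Y.out : A))
      (fun g χ => by
        change a (ahom k hn (Subgroup.inclusion hD.le g) χ)
          * (ahom k hn (Subgroup.inclusion hD.le g) χ : A → k) (Y.out : A) = _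
        rw [hinv, hYi]) S (fun χ => by simp [S])
  rw [hval]
  refine Submodule.sum_mem _ (fun χ hχ => Submodule.smul_mem _ _ (Submodule.subset_span ?_))
  exact ⟨⟨χ, hS χ hχ⟩, rfl⟩

end Pool.Agent.Lib.P0c8ca5
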