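import Mathlib
import Pool.Agent.Lib.P0c8ca5N.FB1

/-!
# Module FB2: independence of the invariant irreducible characters on the invariant classes

See the header of FB1 (INDEPENDENCE).
-/

namespace Pool.Agent.Lib.P0c8ca5

open MonoidAlgebra

set_option linter.unusedSectionVars false

variable {p : ℕ} {k : Type*} [Field k] {A : Type*} [Group A]

namespace FB2Aux

/-- p-regular elements of `G` -/
def PG (p : ℕ) (G : Subgroup A) (x : A) : Prop := x ∈ G ∧ Preg p x

theorem PG_conj {G : Subgroup A} {g : A} (hg : g ∈ Subgroup.normalizer (G : Set A)) {x : A}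
    (hx : PG p G x) : PG p G (g * x * g⁻¹) :=
  ⟨(Subgroup.mem_normalizer_iff.1 hg x).1 hx.1, (preg_conj g x).2 hx.2⟩

/-- conjugation of classes -/
def clMap {G : Subgroup A} (g : A) (hg : g ∈ Subgroup.normalizer (G : Set A)) :
    Cl G (PG p G) → Cl G (PG p G) :=
  Quotient.map (fun x => ⟨g * x * g⁻¹, PG_conj hg x.2⟩) (by
    rintro x y ⟨h, hh, e⟩
    refine ⟨g * h * g⁻¹, (Subgroup.mem_normalizer_iff.1 hg h).1 hh, ?_⟩
    simp only
    rw [e]; group)

/-- the action of a subgroup of the normalizer on classes -/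
@[reducible] def clAct (p : ℕ) {G : Subgroup A} (D : Subgroup A) (hD : D ≤ Subgroup.normalizer (G : Set A)) :
    MulAction D (Cl G (PG p G)) where
  smul d Y := clMap (d : A) (hD d.2) Y
  one_smul Y := by
    induction Y using Quotient.inductionOn with
    | h x =>
      apply Quotient.sound
      refine ⟨1, G.one_mem, ?_⟩
      simp
  mul_smul a b Y := by
    induction Y using Quotient.inductionOn with
    | h x =>
      apply Quotient.sound
      refine ⟨1, G.one_mem, ?_⟩
      simp only [Subgroup.coe_mul]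
      group

theorem InCl_clMap {G : Subgroup A} {g : A} (hg : g ∈ Subgroup.normalizer (G : Set A))
    {Y : Cl G (PG p G)} {x : A} (h : InCl G (PG p G) Y x) :
    InCl G (PG p G) (clMap g hg Y) (g * x * g⁻¹) := by
  obtain ⟨hx, rfl⟩ := h
  exact ⟨PG_conj hg hx, rfl⟩

theorem InCl_exists {G : Subgroup A} {Y : Cl G (PG p G)} {x y : A} (h : InCl G (PG p G) Y x)
    (h' : InCl G (PG p G) Y y) : ∃ g ∈ G, y = g * x * g⁻¹ := by
  obtain ⟨hx, rfl⟩ := h
  obtain ⟨hy, h'⟩ := h'
  exact Quotient.exact h'.symm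

theorem exists_coef [IsAlgClosed k] [Finite A] (G : Subgroup A) {χ₀ : A → k}
    (h₀ : χ₀ ∈ IrrCh k G) :
    ∃ φ : (A → k) →ₗ[k] k, φ χ₀ = 1 ∧ ∀ χ ∈ IrrCh k G, χ ≠ χ₀ → φ χ = 0 := by
  have hli : LinearIndepOn k id (IrrCh k G) := chi_linearIndependent G
  let b := Module.Basis.extend hli
  have hsub : IrrCh k G ⊆ hli.extend (Set.subset_univ _) := hli.subset_extend _
  have hb : ∀ χ (h : χ ∈ IrrCh k G), b ⟨χ, hsub h⟩ = χ := fun χ h =>
    Module.Basis.extend_apply_self hli _
  let j : hli.extend (Set.subset_univ _) := ⟨χ₀, hsub h₀⟩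
  have hj : b j = χ₀ := hb χ₀ h₀
  have h1 : b.coord j (b j) = 1 := by
    rw [Module.Basis.coord_apply, Module.Basis.repr_self, Finsupp.single_eq_same]
  rw [hj] at h1
  refine ⟨b.coord j, h1, ?_⟩
  intro χ h hne
  let i : hli.extend (Set.subset_univ _) := ⟨χ, hsub h⟩
  have hi : b i = χ := hb χ h
  have hij : j ≠ i := fun h' => hne (congrArg Subtype.val h').symm
  have h2 : b.coord j (b i) = 0 := by
    rw [Module.Basis.coord_apply, Module.Basis.repr_self, Finsupp.single_eq_of_ne hij]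
  rw [hi] at h2
  exact h2

theorem coef_inv [IsAlgClosed k] [Finite A] {G : Subgroup A} {g : A}
    (hg : g ∈ Subgroup.normalizer (G : Set A)) {χ₀ : A → k}
    (hinv : ∀ x, χ₀ (g * x * g⁻¹) = χ₀ x) {φ : (A → k) →ₗ[k] k}
    (h1 : ∀ χ ∈ IrrCh k G, χ ≠ χ₀ → φ χ = 0) {u : A → k}
    (hu : u ∈ Submodule.span k (IrrCh k G)) : φ (fun x => u (g * x * g⁻¹)) = φ u := by
  let T : (A → k) →ₗ[k] (A → k) := LinearMap.funLeft k k (fun x => g * x * g⁻¹)
  have key : Set.EqOn (φ.comp T) φ (IrrCh k G) := by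
    intro χ hχ
    have hT : T χ = fun x => χ (g * x * g⁻¹) := rfl
    rw [LinearMap.comp_apply]
    by_cases h : χ = χ₀
    · subst h
      congr 1
      rw [hT]; funext x; exact hinv x
    · rw [h1 χ hχ h]
      apply h1
      · rw [hT]; exact IrrCh_conj hg hχ
      · intro h'
        apply h
        funext x
        have h2 := congrFun h' (g⁻¹ * x * g)
        rw [hT] at h2
        have e : g * (g⁻¹ * x * g) * g⁻¹ = x := by group
        simp only [e] at h2
        rw [h2, ← hinv, e]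
  exact LinearMap.eqOn_span key hu

open Classical in
/-- indicator function of the p-section of a class -/
noncomputable def ind (p : ℕ) (k : Type*) [Field k] {A : Type*} [Group A] {G : Subgroup A}
    (Y : Cl G (PG p G)) : A → k := fun x => if x ∈ G ∧ InCl G (PG p G) Y (pr p x) then 1 else 0

theorem ind_mem [Fact p.Prime] [Finite A] {G : Subgroup A} (Y : Cl G (PG p G)) :
    ind p k Y ∈ XH p k G := by
  classical
  rw [mem_XH]
  refine ⟨fun x hx => ?_, fun h hh x => ?_, fun x hx => ?_⟩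
  · unfold ind
    rw [if_neg (fun h => hx h.1)]
  · unfold ind
    have h1 : h * x * h⁻¹ ∈ G ↔ x ∈ G :=
      (Subgroup.mem_normalizer_iff.1 (Subgroup.le_normalizer hh) x).symm
    have h2 : InCl G (PG p G) Y (pr p (h * x * h⁻¹)) ↔ InCl G (PG p G) Y (pr p x) := by
      rw [pr_conj]
      exact InCl_conj (fun g hg x hx => PG_conj (Subgroup.le_normalizer hg) hx) hh
    exact if_congr (and_congr h1 h2) rfl rfl
  · unfold ind
    have h1 : pr p x ∈ G ↔ x ∈ G := ⟨fun _ => hx, fun _ => pr_mem hx⟩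
    have h2 : InCl G (PG p G) Y (pr p (pr p x)) ↔ InCl G (PG p G) Y (pr p x) := by rw [pr_pr]
    exact if_congr (and_congr h1 h2) rfl rfl

theorem ind_clMap {G : Subgroup A} {g : A} (hg : g ∈ Subgroup.normalizer (G : Set A))
    (Y : Cl G (PG p G)) (x : A) : ind p k (clMap g hg Y) (g * x * g⁻¹) = ind p k Y x := by
  classical
  unfold ind
  have h1 : g * x * g⁻¹ ∈ G ↔ x ∈ G := (Subgroup.mem_normalizer_iff.1 hg x).symm
  have h2 : InCl G (PG p G) (clMap g hg Y) (pr p (g * x * g⁻¹)) ↔ InCl G (PG p G) Y (pr p x) := by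
    rw [pr_conj]
    constructor
    · rintro ⟨h, h'⟩
      induction Y using Quotient.inductionOn with
      | h y =>
        obtain ⟨m, hm, hm'⟩ := Quotient.exact h'
        simp only at hm'
        have hx : PG p G (pr p x) := by
          have := PG_conj (Subgroup.inv_mem _ hg) h
          have e : g⁻¹ * (g * pr p x * g⁻¹) * g⁻¹⁻¹ = pr p x := by group
          rwa [e] at this
        refine ⟨hx, Quotient.sound ⟨g⁻¹ * m * g, ?_, ?_⟩⟩
        · have := (Subgroup.mem_normalizer_iff.1 (Subgroup.inv_mem _ hg) m).1 hm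
          rwa [inv_inv] at this
        · simp only
          calc (y : A) = g⁻¹ * (g * y * g⁻¹) * g := by group
            _ = g⁻¹ * (m * (g * pr p x * g⁻¹) * m⁻¹) * g := by rw [hm']
            _ = _ := by group
    · intro h
      exact InCl_clMap hg h
  exact if_congr (and_congr h1 h2) rfl rfl

end FB2Aux

open FB2Aux in
theorem IX_linearIndependent [Fact p.Prime] [CharP k p] [IsAlgClosed k] [Fintype A]
    {G X : Subgroup A} (hGX : G ≤ X) (hn : X ≤ Subgroup.normalizer (G : Set A))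
    (hp : ∀ x ∈ X, ∃ n : ℕ, x ^ p ^ n ∈ G) :
    LinearIndependent k
      (fun χ : IX k G X => (fun Y : Cl X (PY p G X) => (χ : A → k) (Y.out : A))) := by
  classical
  rw [linearIndependent_iff']
  intro s a ha χ₀ hχ₀
  set f : A → k := ∑ χ ∈ s, a χ • (χ : A → k) with hf
  have hfX : f ∈ XH p k G := by
    rw [hf]
    refine Submodule.sum_mem _ fun χ _ => Submodule.smul_mem _ _ ?_
    rw [← span_IrrCh]
    exact Submodule.subset_span χ.2.1
  have hfinv : ∀ g ∈ X, ∀ x, f (g * x * g⁻¹) = f x := by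
    intro g hg x
    rw [hf, Finset.sum_apply, Finset.sum_apply]
    refine Finset.sum_congr rfl fun χ _ => ?_
    rw [Pi.smul_apply, Pi.smul_apply, χ.2.2 g hg x]
  obtain ⟨-, -, hfpr⟩ := mem_XH.1 hfX
  have hf0 : ∀ x, PY p G X x → f x = 0 := by
    intro x hx
    let Y : Cl X (PY p G X) := Quotient.mk _ ⟨x, hx⟩
    have h1 : InCl X (PY p G X) Y (Y.out : A) := InCl_out Y
    obtain ⟨h2, h3⟩ := h1
    obtain ⟨g, hg, hg'⟩ := Quotient.exact h3
    simp only at hg'
    have h4 := congrFun ha Y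
    rw [Finset.sum_apply, Pi.zero_apply] at h4
    have h5 : f (Y.out : A) = 0 := by
      rw [hf, Finset.sum_apply]
      exact h4
    rw [hg', hfinv g hg, h5]
  obtain ⟨φ, hφ1, hφ0⟩ := exists_coef G χ₀.2.1
  have hφf : φ f = a χ₀ := by
    rw [hf, map_sum]
    rw [Finset.sum_eq_single χ₀]
    · rw [map_smul, hφ1, smul_eq_mul, mul_one]
    · intro χ _ hne
      rw [map_smul, hφ0 χ χ.2.1 (fun h => hne (Subtype.ext h)), smul_zero]
    · intro h; exact absurd hχ₀ h
  rw [← hφf]
  have : Fintype (Cl G (PG p G)) := Fintype.ofFinite _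
  have hdec : f = ∑ Y : Cl G (PG p G), f (Y.out : A) • ind p k Y := by
    funext x
    rw [Finset.sum_apply]
    by_cases hx : x ∈ G
    · have hPx : PG p G (pr p x) := ⟨pr_mem hx, preg_pr x⟩
      rw [Finset.sum_eq_single (Quotient.mk _ ⟨pr p x, hPx⟩)]
      · have h1 : ind p k (Quotient.mk (clSetoid G (PG p G)) ⟨pr p x, hPx⟩) x = 1 := by
          unfold ind
          rw [if_pos ⟨hx, hPx, rfl⟩]
        rw [Pi.smul_apply, h1, smul_eq_mul, mul_one, ← hfpr x hx]
        obtain ⟨h2, h3⟩ := InCl_out (Quotient.mk (clSetoid G (PG p G)) ⟨pr p x, hPx⟩)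
        obtain ⟨g, hg, hg'⟩ := Quotient.exact h3
        simp only at hg'
        exact (congrArg f hg').trans (hfinv g (hGX hg) _)
      · intro Y _ hne
        have h1 : ind p k Y x = 0 := by
          unfold ind
          rw [if_neg]
          rintro ⟨_, h2, h3⟩
          exact hne h3.symm
        rw [Pi.smul_apply, h1, smul_zero]
      · intro h; exact absurd (Finset.mem_univ _) h
    · have h1 : f x = 0 := (mem_XH.1 hfX).1 x hx
      rw [h1]
      symm
      apply Finset.sum_eq_zero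
      intro Y _
      have h1 : ind p k Y x = 0 := by
        unfold ind
        rw [if_neg (fun h => hx h.1)]
      rw [Pi.smul_apply, h1, smul_zero]
  obtain ⟨D, hD⟩ := exists_isSyl (p := p) X
  have hGD : G ⊔ D = X := hD.sup_eq hGX hn hp
  have hDn : D ≤ Subgroup.normalizer (G : Set A) := hD.le.trans hn
  let act : MulAction D (Cl G (PG p G)) := clAct p D hDn
  let F : Cl G (PG p G) → k := fun Y => f (Y.out : A) * φ (ind p k Y)
  have hφF : φ f = ∑ Y, F Y := by
    conv_lhs => rw [hdec]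
    rw [map_sum]
    refine Finset.sum_congr rfl fun Y _ => ?_
    rw [map_smul, smul_eq_mul]
  rw [hφF, sum_eq_sum_fixed (p := p) hD.isPGroup (MulAction.toPermHom D (Cl G (PG p G))) F ?_
    (Finset.univ.filter (fun Y => ∀ g, MulAction.toPermHom D (Cl G (PG p G)) g Y = Y))
    (fun Y => by simp)]
  · apply Finset.sum_eq_zero
    intro Y hY
    rw [Finset.mem_filter] at hY
    have h1 : PY p G X (Y.out : A) := by
      refine ⟨Y.out.2.1, Y.out.2.2, fun g hg => ?_⟩
      rw [← hGD] at hg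
      obtain ⟨l, hl, d, hd, rfl⟩ := (mem_sup_norm hDn).1 hg
      have h2 : clMap d (hDn hd) Y = Y := hY.2 ⟨d, hd⟩
      have h3 := InCl_clMap (hDn hd) (InCl_out Y)
      rw [h2] at h3
      obtain ⟨m, hm, hm'⟩ := InCl_exists (InCl_out Y) h3
      refine ⟨l * m, G.mul_mem hl hm, ?_⟩
      calc l * d * (Y.out : A) * (l * d)⁻¹ = l * (d * (Y.out : A) * d⁻¹) * l⁻¹ := by group
        _ = l * (m * (Y.out : A) * m⁻¹) * l⁻¹ := by rw [hm']
        _ = _ := by group
    simp only [F]
    rw [hf0 _ h1, zero_mul]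
  · intro d Y
    have hY : MulAction.toPermHom D (Cl G (PG p G)) d Y = clMap (d : A) (hDn d.2) Y := rfl
    rw [hY]
    simp only [F]
    have h3 := InCl_clMap (hDn d.2) (InCl_out Y)
    obtain ⟨m, hm, hm'⟩ := InCl_exists h3 (InCl_out (clMap (d : A) (hDn d.2) Y))
    have h4 : f ((clMap (d : A) (hDn d.2) Y).out : A) = f (Y.out : A) := by
      rw [hm', hfinv m (hGX hm), hfinv d (hD.le d.2)]
    have h5 : φ (ind p k (clMap (d : A) (hDn d.2) Y)) = φ (ind p k Y) := by
      have h6 := coef_inv (hDn d.2) (fun x => χ₀.2.2 d (hD.le d.2) x) hφ0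
        (u := ind p k (clMap (d : A) (hDn d.2) Y)) (by rw [span_IrrCh (p := p)]; exact ind_mem _)
      rw [← h6]
      congr 1
      funext x
      exact ind_clMap (hDn d.2) Y x
    rw [h4, h5]

end Pool.Agent.Lib.P0c8ca5
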