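import Mathlib
import Pool.Agent.Lib.P0c8ca5N.FB2

/-!
# Module FB3: the number of invariant irreducible representations

`card_irr_inv` turns the left side into the number of `χ ∈ IX k G X` with `conv e χ = χ`.  Apply
`mult1_eigen` with `J = IX k G X`, `v χ Y = χ (Y.out)`, `ω χ = 1` if `conv e χ = χ`, else `0`
(`conv_eq_zero_of_ne`), and `IX_span`, `IX_linearIndependent`.  Eigenvector property: by
`EM_mulVec` (the functions `χ ∈ IX` are `X`-class functions), with `x = Y.out`,
`(EM v χ) Y = ∑_h [PY (pr (h x))] e h * χ (pr (h x))`.  The terms with `¬ PY (pr (h x))` add up to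
zero in `∑_h e h * χ (h x) = conv e χ x = ω χ * χ x`: let `D` be a Sylow p-subgroup of
`C = X ⊓ C(x)` (`exists_isSyl`).  As `PY x`, `G C = X`, and `G ⊔ D = X` (`IsSyl.sup_eq` for
`L = G ⊓ C`, `M = C`).  The function `h ↦ [¬ PY (pr (h x))] e h * χ (h x)` is invariant under
conjugation by `D` (`D` centralizes `x`, `pr_conj`, `PY` is `X`-invariant); by `sum_conj_eq` only `h`
in the centralizer of `D` contribute, but then `pr (h x)` commutes with `D`; if `e h ≠ 0` then
`h ∈ G`, and `pr (h x) ∈ G` is p-regular and commutes with `D`, `G ⊔ D = X`, so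
`PY (pr (h x))` holds.  Finally `χ (pr (h x)) = χ (h x)` for `h ∈ G`.
-/

namespace Pool.Agent.Lib.P0c8ca5

open MonoidAlgebra
open scoped Pointwise

set_option linter.unusedSectionVars false

variable {p : ℕ} {k : Type*} [Field k] {A : Type*} [Group A]

theorem fb3_PY_conj {G X : Subgroup A} (hn : X ≤ Subgroup.normalizer (G : Set A)) {g x : A}
    (hg : g ∈ X) (hx : PY p G X x) : PY p G X (g * x * g⁻¹) := by
  obtain ⟨h1, h2, h3⟩ := hx
  refine ⟨(Subgroup.mem_normalizer_iff.1 (hn hg) _).1 h1, (preg_conj g x).2 h2, fun a ha => ?_⟩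
  obtain ⟨h, hh, e1⟩ := h3 (a * g) (X.mul_mem ha hg)
  obtain ⟨h', hh', e2⟩ := h3 g hg
  refine ⟨h * h'⁻¹, G.mul_mem hh (G.inv_mem hh'), ?_⟩
  calc a * (g * x * g⁻¹) * a⁻¹ = (a * g) * x * (a * g)⁻¹ := by group
    _ = h * x * h⁻¹ := e1
    _ = h * h'⁻¹ * (h' * x * h'⁻¹) * (h * h'⁻¹)⁻¹ := by group
    _ = h * h'⁻¹ * (g * x * g⁻¹) * (h * h'⁻¹)⁻¹ := by rw [e2]

theorem fb3_PY_conj_iff {G X : Subgroup A} (hn : X ≤ Subgroup.normalizer (G : Set A)) {g x : A}
    (hg : g ∈ X) : PY p G X (g * x * g⁻¹) ↔ PY p G X x := by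
  refine ⟨fun h => ?_, fb3_PY_conj hn hg⟩
  have h2 := fb3_PY_conj hn (X.inv_mem hg) h
  have e : g⁻¹ * (g * x * g⁻¹) * g⁻¹⁻¹ = x := by group
  rwa [e] at h2

open Classical in
theorem fb3_sum_PY_eq [Fact p.Prime] [CharP k p] [Fintype A]
    {G X : Subgroup A} (hGX : G ≤ X) (hn : X ≤ Subgroup.normalizer (G : Set A))
    (hp : ∀ x ∈ X, ∃ n : ℕ, x ^ p ^ n ∈ G) {e : MonoidAlgebra k A} (he : SuppIn G e)
    (hinv : InvBy X e) {χ : A → k} (hχ : χ ∈ XH p k G)
    (hχX : ∀ h ∈ X, ∀ x, χ (h * x * h⁻¹) = χ x) {x : A} (hx : PY p G X x) :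
    (∑ h : A, if PY p G X (pr p (h * x)) then e.coeff h * χ (pr p (h * x)) else 0)
      = ∑ h : A, e.coeff h * χ (h * x) := by
  obtain ⟨D, hD⟩ := exists_isSyl (p := p) (X ⊓ Subgroup.centralizer ({x} : Set A))
  have hDX : D ≤ X := hD.le.trans inf_le_left
  have hDx : ∀ d ∈ D, d * x = x * d := by
    intro d hd
    have h1 := (hD.le.trans inf_le_right) hd
    rw [Subgroup.mem_centralizer_iff] at h1
    exact (h1 x rfl).symm
  have hsup : G ⊔ D = X := by
    refine sup_of_class hGX hn hp ?_ hD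
    intro m hm
    obtain ⟨h, hh, e1⟩ := hx.2.2 m hm
    exact mem_cls.2 ⟨h, hh, e1⟩
  have hconj : ∀ d ∈ D, ∀ h : A, d * h * d⁻¹ * x = d * (h * x) * d⁻¹ := by
    intro d hd h
    have h1 : d⁻¹ * x = x * d⁻¹ := by
      have := hDx d⁻¹ (D.inv_mem hd)
      exact this
    calc d * h * d⁻¹ * x = d * h * (d⁻¹ * x) := by group
      _ = d * h * (x * d⁻¹) := by rw [h1]
      _ = d * (h * x) * d⁻¹ := by group
  rw [sum_conj_eq (p := p) hD.isPGroup
      (fun h => if PY p G X (pr p (h * x)) then e.coeff h * χ (pr p (h * x)) else 0) ?_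
      (Finset.univ.filter (fun a => a ∈ Subgroup.centralizer (D : Set A))) (by simp),
    sum_conj_eq (p := p) hD.isPGroup (fun h => e.coeff h * χ (h * x)) ?_
      (Finset.univ.filter (fun a => a ∈ Subgroup.centralizer (D : Set A))) (by simp)]
  · refine Finset.sum_congr rfl (fun h hh => ?_)
    rw [Finset.mem_filter] at hh
    have hc := hh.2
    rw [Subgroup.mem_centralizer_iff] at hc
    by_cases h0 : e.coeff h = 0
    · simp [h0]
    · have hG : h ∈ G := he h h0
      have hhx : h * x ∈ G := G.mul_mem hG hx.1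
      have hcom : ∀ d ∈ D, Commute d (h * x) := by
        intro d hd
        exact (show Commute d h from hc d hd).mul_right (hDx d hd)
      have hPY : PY p G X (pr p (h * x)) := by
        refine ⟨pr_mem hhx, preg_pr _, fun g hg => ?_⟩
        rw [← hsup] at hg
        obtain ⟨a, ha, d, hd, rfl⟩ : ∃ a ∈ G, ∃ d ∈ D, a * d = g := by
          have h1 : g ∈ ((G ⊔ D : Subgroup A) : Set A) := hg
          rw [Subgroup.coe_mul_of_right_le_normalizer_left G D (hDX.trans hn)] at h1
          exact Set.mem_mul.1 h1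
        refine ⟨a, ha, ?_⟩
        have h1 : d * pr p (h * x) = pr p (h * x) * d := commute_pr (hcom d hd)
        change a * d * pr p (h * x) * (a * d)⁻¹ = a * pr p (h * x) * a⁻¹
        calc a * d * pr p (h * x) * (a * d)⁻¹ = a * (d * pr p (h * x)) * d⁻¹ * a⁻¹ := by group
          _ = a * (pr p (h * x) * d) * d⁻¹ * a⁻¹ := by rw [h1]
          _ = a * pr p (h * x) * a⁻¹ := by group
      rw [if_pos hPY, (mem_XH.1 hχ).2.2 _ hhx]
  · intro d hd h
    change e.coeff (d * h * d⁻¹) * χ (d * h * d⁻¹ * x) = e.coeff h * χ (h * x)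
    rw [hinv d (hDX hd), hconj d hd, hχX d (hDX hd)]
  · intro d hd h
    change (if PY p G X (pr p (d * h * d⁻¹ * x)) then
      e.coeff (d * h * d⁻¹) * χ (pr p (d * h * d⁻¹ * x)) else 0) =
      if PY p G X (pr p (h * x)) then e.coeff h * χ (pr p (h * x)) else 0
    rw [hinv d (hDX hd), hconj d hd, pr_conj, hχX d (hDX hd)]
    by_cases hP : PY p G X (pr p (h * x))
    · rw [if_pos hP, if_pos (fb3_PY_conj hn (hDX hd) hP)]
    · rw [if_neg hP, if_neg (fun h' => hP ((fb3_PY_conj_iff hn (hDX hd)).1 h'))]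

instance fb3_finite_IX [IsAlgClosed k] [Finite A] (G X : Subgroup A) : Finite (IX k G X) :=
  Set.Finite.subset (Set.toFinite (IrrCh k G)) (fun _ h => h.1)

theorem card_inv_eq [Fact p.Prime] [CharP k p] [IsAlgClosed k] [Fintype A]
    {G X : Subgroup A} (hGX : G ≤ X) (hn : X ≤ Subgroup.normalizer (G : Set A))
    (hp : ∀ x ∈ X, ∃ n : ℕ, x ^ p ^ n ∈ G) {e : MonoidAlgebra k A} (he : SuppIn G e)
    (hinv : InvBy X e) (hee : e * e = e) :
    Nat.card (Quotient (irrInvSetoid G X e)) = mult1 (EM p X (PY p G X) e) := by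
  classical
  have hinvG : InvBy G e := fun g hg x => hinv g (hGX hg) x
  let _ : Fintype (Cl X (PY p G X)) := Fintype.ofFinite _
  rw [card_irr_inv hn he hinvG hee]
  have hXH : ∀ χ : IX k G X, (χ : A → k) ∈ XH p k G := by
    intro χ
    rw [← span_IrrCh (p := p) G]
    exact Submodule.subset_span χ.2.1
  rw [mult1_eigen (EM p X (PY p G X) e)
    (fun χ : IX k G X => (fun Y : Cl X (PY p G X) => (χ : A → k) (Y.out : A)))
    (IX_linearIndependent hGX hn hp) (IX_span hGX hn hp)
    (fun χ => if conv e (χ : A → k) = (χ : A → k) then 1 else 0) ?_]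
  · apply Nat.card_congr
    refine
      { toFun := fun c => ⟨⟨c.1.1, c.1.2, c.2.2⟩, by
          show (if conv e (c.1.1 : A → k) = (c.1.1 : A → k) then (1 : k) else 0) = 1
          rw [if_pos c.2.1]⟩
        invFun := fun c => ⟨⟨c.1.1, c.1.2.1⟩, by
          have h := c.2
          by_contra hne
          have h1 : conv e (c.1.1 : A → k) ≠ (c.1.1 : A → k) := hne
          change (if conv e (c.1.1 : A → k) = (c.1.1 : A → k) then (1 : k) else 0) = 1 at h
          rw [if_neg h1] at h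
          exact zero_ne_one h, c.1.2.2⟩
        left_inv := fun c => rfl
        right_inv := fun c => rfl }
  · intro χ
    funext Y
    rw [EM_mulVec χ.2.2 Y]
    have hY : PY p G X (Y.out : A) := Y.out.2
    rw [fb3_sum_PY_eq hGX hn hp he hinv (hXH χ) χ.2.2 hY]
    change conv e (χ : A → k) (Y.out : A) = _
    by_cases h1 : conv e (χ : A → k) = (χ : A → k)
    · rw [if_pos h1, one_smul, h1]
    · rw [if_neg h1, zero_smul,
        conv_eq_zero_of_ne he hinvG hee ⟨χ.1, χ.2.1⟩ h1]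
      rfl

end Pool.Agent.Lib.P0c8ca5
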