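import Mathlib
import Pool.Agent.Lib.P0c8ca5N.Blk0

/-!
# Module Blk1: the diagonal block of a label

`block_mult`.  Let `M = H ⊓ N(T)`.
The map `Cl M (PD p M T) → {Y : Cl H (Pdef p H F) // lab Y = T}`, class of `x` ↦ class of `x`:
* well defined: `PD p M T x` gives `x ∈ H`, p-regular, and `T` is Sylow in `H ⊓ C(x)`
  (`isSyl_inf_normalizer`; note `(H ⊓ N(T)) ⊓ C(x) = (H ⊓ C(x)) ⊓ N(T)`), so `Pdef p H F x`, and
  the label is `crep H T = T` by `lab_spec`;
* injective (`fusion`): `x, y ∈ PD`, `y = h x h⁻¹`, `h ∈ H`: `T` and `cg h T` are Sylow in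
  `H ⊓ C(y)`, so `cg z (cg h T) = T` with `z ∈ H ⊓ C(y)`, `z h ∈ M` and `(z h) x (z h)⁻¹ = y`;
* surjective: take `x = Y.out` and `T'` Sylow in `H ⊓ C(x)`, `crep H T' = T` so `T = cg h T'`
  with `h ∈ H` (`crep_spec`), and `h x h⁻¹` satisfies `PD`.
Use `mult1_reindex` with the inverse of this bijection.  Entries: for `z ∈ PD` in the class `Z` (row)
and `Z'` (column) with images `Y`, `Y'`: by `EM_apply_of_mem` at `x = z`,
`EM_H Y Y' = ∑_a [pr (a z) ∈ Y'] (cS S e) a = ∑_a [pr (a z) ∈ Y'] (cS (S ⊔ T) e) a` (`row_eq`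
with `Q = InCl H _ Y'`).  If `(cS (S ⊔ T) e) a ≠ 0` then `a ∈ X ⊓ C(S ⊔ T)`, so `a ∈ H`, `a`
commutes with `T`, and `w = pr (a z) ∈ H ⊓ C(T)` is p-regular; then `w ∈ Y' ↔ w ∈ Z'`:
if `w ∈ Y'` then a Sylow subgroup of `H ⊓ C(w)` is conjugate to `T`, and `T ≤ H ⊓ C(w)`, so `T` is
Sylow (`IsSyl.of_card`), `PD p M T w`, and `w` is `M`-conjugate to the elements of `Z'` by the
fusion argument.
-/

namespace Pool.Agent.Lib.P0c8ca5

open MonoidAlgebra

set_option linter.unusedSectionVars false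

variable {p : ℕ} {k : Type*} [Field k] {A : Type*} [Group A] [Fintype A]

namespace Blk1Aux

section
variable {A : Type*} [Group A] [Finite A] {p : ℕ}

theorem cg_inf' (g : A) (P Q : Subgroup A) : cg g (P ⊓ Q) = cg g P ⊓ cg g Q := by
  ext x
  simp only [Subgroup.mem_inf, mem_cg]

theorem cg_mem_self {H : Subgroup A} {g : A} (hg : g ∈ H) : cg g H = H :=
  cg_eq_self_iff.2 (Subgroup.le_normalizer hg)

theorem cg_cent (g x : A) : cg g (Subgroup.centralizer ({x} : Set A))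
    = Subgroup.centralizer ({g * x * g⁻¹} : Set A) := by
  ext y
  rw [mem_cg, Subgroup.mem_centralizer_singleton_iff, Subgroup.mem_centralizer_singleton_iff]
  constructor
  · intro h
    calc y * (g * x * g⁻¹) = g * ((g⁻¹ * y * g) * x) * g⁻¹ := by group
      _ = g * (x * (g⁻¹ * y * g)) * g⁻¹ := by rw [h]
      _ = _ := by group
  · intro h
    calc g⁻¹ * y * g * x = g⁻¹ * (y * (g * x * g⁻¹)) * g := by group
      _ = g⁻¹ * (g * x * g⁻¹ * y) * g := by rw [h]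
      _ = _ := by group

theorem isSyl_cg [Fact p.Prime] {H T : Subgroup A} {x g : A} (hg : g ∈ H)
    (h : IsSyl p (H ⊓ Subgroup.centralizer ({x} : Set A)) T) :
    IsSyl p (H ⊓ Subgroup.centralizer ({g * x * g⁻¹} : Set A)) (cg g T) := by
  have := h.cg g
  rw [cg_inf', cg_mem_self hg, cg_cent] at this
  exact this

theorem fusion [Fact p.Prime] {H T : Subgroup A} {x y h : A} (hh : h ∈ H)
    (hx : IsSyl p (H ⊓ Subgroup.centralizer ({x} : Set A)) T)
    (hy : IsSyl p (H ⊓ Subgroup.centralizer ({y} : Set A)) T) (he : y = h * x * h⁻¹) :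
    ∃ m ∈ H ⊓ Subgroup.normalizer (T : Set A), y = m * x * m⁻¹ := by
  have h1 := isSyl_cg hh hx
  rw [← he] at h1
  obtain ⟨z, hz, hz'⟩ := h1.conj_eq hy
  rw [cg_cg] at hz'
  obtain ⟨hz1, hz2⟩ := Subgroup.mem_inf.1 hz
  rw [Subgroup.mem_centralizer_singleton_iff] at hz2
  refine ⟨z * h, Subgroup.mem_inf.2 ⟨H.mul_mem hz1 hh, cg_eq_self_iff.1 hz'.symm⟩, ?_⟩
  calc y = z * y * z⁻¹ := by rw [hz2]; group
    _ = z * (h * x * h⁻¹) * z⁻¹ := by rw [← he]
    _ = _ := by group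

theorem PD_iff [Fact p.Prime] {H T : Subgroup A} {x : A} :
    PD p (H ⊓ Subgroup.normalizer (T : Set A)) T x ↔
      x ∈ H ∧ Preg p x ∧ IsSyl p (H ⊓ Subgroup.centralizer ({x} : Set A)) T := by
  have e : H ⊓ Subgroup.normalizer (T : Set A) ⊓ Subgroup.centralizer ({x} : Set A)
      = H ⊓ Subgroup.centralizer ({x} : Set A) ⊓ Subgroup.normalizer (T : Set A) := by
    rw [inf_assoc, inf_assoc, inf_comm (Subgroup.normalizer (T : Set A))]
  unfold PD
  rw [e, isSyl_inf_normalizer]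
  constructor
  · rintro ⟨h1, _, h3, h4⟩
    exact ⟨(Subgroup.mem_inf.1 h1).1, h3, h4⟩
  · rintro ⟨h1, h2, h3⟩
    have h4 : x ∈ Subgroup.centralizer (T : Set A) := by
      rw [Subgroup.mem_centralizer_iff]
      intro t ht
      exact (Subgroup.mem_centralizer_singleton_iff.1 (Subgroup.mem_inf.1 (h3.le ht)).2)
    exact ⟨Subgroup.mem_inf.2 ⟨h1, Subgroup.centralizer_le_normalizer _ h4⟩, h4, h2, h3⟩

theorem toPdef [Fact p.Prime] {H T : Subgroup A} {F : Set (Subgroup A)} (hTF : T ∈ F) {x : A}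
    (hx : PD p (H ⊓ Subgroup.normalizer (T : Set A)) T x) : Pdef p H F x := by
  obtain ⟨h1, h2, h3⟩ := PD_iff.1 hx
  exact ⟨h1, h2, T, hTF, h3⟩

/-- the map on classes -/
def cmap [Fact p.Prime] {H T : Subgroup A} {F : Set (Subgroup A)} (hTF : T ∈ F) :
    Cl (H ⊓ Subgroup.normalizer (T : Set A)) (PD p (H ⊓ Subgroup.normalizer (T : Set A)) T) →
      Cl H (Pdef p H F) :=
  Quotient.map (fun x => ⟨x, toPdef hTF x.2⟩) (by
    rintro x y ⟨m, hm, e⟩
    exact ⟨m, (Subgroup.mem_inf.1 hm).1, e⟩)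

theorem InCl_cmap [Fact p.Prime] {H T : Subgroup A} {F : Set (Subgroup A)} (hTF : T ∈ F)
    {Y : Cl (H ⊓ Subgroup.normalizer (T : Set A)) (PD p (H ⊓ Subgroup.normalizer (T : Set A)) T)}
    {x : A} (h : InCl _ _ Y x) : InCl H (Pdef p H F) (cmap hTF Y) x := by
  obtain ⟨hx, rfl⟩ := h
  exact ⟨toPdef hTF hx, rfl⟩

theorem exists_conj {M : Subgroup A} {P : A → Prop} {Y : Cl M P} {x y : A} (h : InCl M P Y x)
    (h' : InCl M P Y y) : ∃ g ∈ M, y = g * x * g⁻¹ := by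
  obtain ⟨hx, rfl⟩ := h
  obtain ⟨hy, h'⟩ := h'
  exact Quotient.exact h'.symm

theorem InCl_of_cmap [Fact p.Prime] {H T : Subgroup A} {F : Set (Subgroup A)} (hT : T ≤ H)
    (hpT : IsPGroup p T) (hTF : T ∈ F)
    {Y : Cl (H ⊓ Subgroup.normalizer (T : Set A)) (PD p (H ⊓ Subgroup.normalizer (T : Set A)) T)}
    {w : A} (h : InCl H (Pdef p H F) (cmap hTF Y) w)
    (hwT : w ∈ Subgroup.centralizer (T : Set A)) : InCl _ _ Y w := by
  have h1 := InCl_out Y
  have h2 := InCl_cmap hTF h1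
  obtain ⟨g, hg, he⟩ := exists_conj h2 h
  obtain ⟨h3, h4, h5⟩ := PD_iff.1 Y.out.2
  have h6 := isSyl_cg hg h5
  rw [← he] at h6
  have h7 : T ≤ H ⊓ Subgroup.centralizer ({w} : Set A) := by
    intro t ht
    rw [Subgroup.mem_inf, Subgroup.mem_centralizer_singleton_iff]
    exact ⟨hT ht, Subgroup.mem_centralizer_iff.1 hwT t ht⟩
  have h8 : IsSyl p (H ⊓ Subgroup.centralizer ({w} : Set A)) T :=
    h6.of_card h7 hpT (by rw [card_cg])
  obtain ⟨m, hm, hm'⟩ := fusion hg h5 h8 he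
  have hPD : PD p (H ⊓ Subgroup.normalizer (T : Set A)) T w :=
    PD_iff.2 ⟨h.1.1, h.1.2.1, h8⟩
  obtain ⟨h9, h10⟩ := h1
  refine ⟨hPD, ?_⟩
  rw [← h10]
  exact (Quotient.sound (s := clSetoid _ _) ⟨m, hm, hm'⟩).symm

theorem lab_cmap [Fact p.Prime] {H T : Subgroup A} {F : Set (Subgroup A)}
    (hF : ∀ T ∈ F, ∀ h ∈ H, cg h T ∈ F) (hTF : T ∈ F) (hrep : crep H T = T)
    (Y : Cl (H ⊓ Subgroup.normalizer (T : Set A)) (PD p (H ⊓ Subgroup.normalizer (T : Set A)) T)) :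
    lab p H F (cmap hTF Y) = T := by
  have h2 := InCl_cmap hTF (InCl_out Y)
  obtain ⟨h3, h4, h5⟩ := PD_iff.1 Y.out.2
  have := (lab_spec hF h2 h5).2
  rw [← this, hrep]

/-- the map on classes with the given label -/
def lmap [Fact p.Prime] {H T : Subgroup A} {F : Set (Subgroup A)}
    (hF : ∀ T ∈ F, ∀ h ∈ H, cg h T ∈ F) (hTF : T ∈ F) (hrep : crep H T = T)
    (Y : Cl (H ⊓ Subgroup.normalizer (T : Set A)) (PD p (H ⊓ Subgroup.normalizer (T : Set A)) T)) :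
    {Y : Cl H (Pdef p H F) // lab p H F Y = T} := ⟨cmap hTF Y, lab_cmap hF hTF hrep Y⟩

theorem lmap_bijective [Fact p.Prime] {H T : Subgroup A} {F : Set (Subgroup A)}
    (hF : ∀ T ∈ F, ∀ h ∈ H, cg h T ∈ F) (hT : T ≤ H) (hpT : IsPGroup p T) (hTF : T ∈ F)
    (hrep : crep H T = T) : Function.Bijective (lmap (p := p) hF hTF hrep) := by
  constructor
  · intro Y Y' h
    have h1 : cmap hTF Y = cmap hTF Y' := congrArg Subtype.val h
    have h2 := InCl_cmap hTF (InCl_out Y)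
    rw [h1] at h2
    have h3 := InCl_of_cmap hT hpT hTF h2 Y.out.2.2.1
    exact InCl_unique (InCl_out Y) h3
  · rintro ⟨Y, hY⟩
    have h0 := InCl_out Y
    obtain ⟨h1, h2, T', hT', hS⟩ := Y.out.2
    have h3 := (lab_spec hF h0 hS).2
    rw [hY] at h3
    obtain ⟨g, hg, hg'⟩ := crep_spec H T'
    rw [h3] at hg'
    have h4 := isSyl_cg hg hS
    rw [← hg'] at h4
    have h5 : PD p (H ⊓ Subgroup.normalizer (T : Set A)) T (g * (Y.out : A) * g⁻¹) :=
      PD_iff.2 ⟨H.mul_mem (H.mul_mem hg h1) (H.inv_mem hg), (preg_conj _ _).2 h2, h4⟩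
    refine ⟨Quotient.mk _ ⟨_, h5⟩, Subtype.ext ?_⟩
    obtain ⟨h6, h7⟩ := h0
    change Quotient.mk (clSetoid H (Pdef p H F)) ⟨g * (Y.out : A) * g⁻¹, toPdef hTF h5⟩ = Y
    refine Eq.trans ?_ h7
    exact (Quotient.sound (s := clSetoid _ _) ⟨g, hg, rfl⟩).symm

end

end Blk1Aux

open Blk1Aux in
theorem block_mult [Fact p.Prime] [CharP k p] {X H S : Subgroup A} {e : MonoidAlgebra k A}
    (h : Ctx p X H S e) {F : Set (Subgroup A)} (hF : ∀ T ∈ F, ∀ h ∈ H, cg h T ∈ F)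
    {T : Subgroup A} (hT : T ≤ H) (hpT : IsPGroup p T) (hTF : T ∈ F) (hrep : crep H T = T) :
    mult1 (fun i j : {Y : Cl H (Pdef p H F) // lab p H F Y = T} =>
        EM p H (Pdef p H F) (cS S e) i.1 j.1)
      = mD p (H ⊓ Subgroup.normalizer (T : Set A)) T (S ⊔ T) e := by
  classical
  symm
  unfold mD
  apply mult1_reindex (Equiv.ofBijective _ (lmap_bijective hF hT hpT hTF hrep))
  intro i j
  change EM p _ _ _ i j = EM p H (Pdef p H F) (cS S e) (cmap hTF i) (cmap hTF j)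
  obtain ⟨hz1, hz2, hz3⟩ := PD_iff.1 i.out.2
  have hzT : (i.out : A) ∈ Subgroup.centralizer (T : Set A) := i.out.2.2.1
  have hin := InCl_cmap hTF (InCl_out i)
  rw [EM_apply_of_mem (fun g hg x hx => Pdef_conj hF hg hx) h.cS_inv hin,
    row_eq h hT hpT hz1 hzT (InCl H (Pdef p H F) (cmap hTF j))
      (fun g hg a => InCl_conj (fun g hg x hx => Pdef_conj hF hg hx) hg)]
  unfold EM
  refine Finset.sum_congr rfl fun a _ => ?_
  by_cases ha : (cS (S ⊔ T) e).coeff a = 0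
  · rw [ha]
    simp only [ite_self]
  · have haC : a ∈ Subgroup.centralizer ((S ⊔ T : Subgroup A) : Set A) := by
      by_contra hc
      exact ha (coeff_resS_of_notMem e hc)
    have haX : a ∈ X := by
      apply h.supp
      rwa [coeff_resS_of_mem e haC] at ha
    have haS : a ∈ Subgroup.centralizer (S : Set A) :=
      Subgroup.centralizer_le (le_sup_left : S ≤ S ⊔ T) haC
    have haT : a ∈ Subgroup.centralizer (T : Set A) :=
      Subgroup.centralizer_le (le_sup_right : T ≤ S ⊔ T) haC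
    have hwT : pr p (a * (i.out : A)) ∈ Subgroup.centralizer (T : Set A) :=
      pr_mem (Subgroup.mul_mem _ haT hzT)
    have hiff : InCl _ _ j (pr p (a * (i.out : A))) ↔
        InCl H (Pdef p H F) (cmap hTF j) (pr p (a * (i.out : A))) :=
      ⟨fun h => InCl_cmap hTF h, fun h => InCl_of_cmap hT hpT hTF h hwT⟩
    exact if_congr hiff rfl rfl

end Pool.Agent.Lib.P0c8ca5
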