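import Mathlib
import Pool.Agent.Lib.P0c8ca5N.Blk0

/-!
# Module Blk2: triangularity, and conjugation invariance of `mD`

`triang`.  Let `x = Y.out`, `T` Sylow in `H ⊓ C(x)`; `EM Y Y' = ∑_a [pr (a x) ∈ Y'] (cS S e) a`
`= ∑_a [pr (a x) ∈ Y'] (cS (S ⊔ T) e) a` (`row_eq`).  If this is not zero then there is `a` in
`X ⊓ C(S ⊔ T) ≤ H` with `w = pr (a x) ∈ Y'`; `w ∈ H` commutes with `T`.  Let `T'` be Sylow in
`H ⊓ C(w)` with `T ≤ T'` up to conjugation: `|T| ≤ |T'|` (`IsSyl.card_le`), `lab Y' = crep H T'`,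
`lab Y = crep H T` (`lab_spec`), cardinalities are those of `T`, `T'` (`crep_spec`, `card_cg`).
If `|T| = |T'|` then `T` is itself Sylow in `H ⊓ C(w)` (`IsSyl.of_card`), so `lab Y' = crep H T`.

`mD_cg`.  `g ∈ H` normalizes `S` and `H`, so all the data for `cg g T` are the conjugates of the
data for `T`, `cj g e = e`: `EM_cong` with `M = H ⊓ N(T)`, `c = cS (S ⊔ T) e`, and
`cj g (cS (S ⊔ T) e) = cS (S ⊔ cg g T) e`.
-/

namespace Pool.Agent.Lib.P0c8ca5

open MonoidAlgebra

set_option linter.unusedSectionVars false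

variable {p : ℕ} {k : Type*} [Field k] {A : Type*} [Group A] [Fintype A]

namespace Blk2A

omit [Fintype A] in
theorem conj_mem_iff {M : Subgroup A} {g : A} (hg : g ∈ M) (x : A) : g⁻¹ * x * g ∈ M ↔ x ∈ M := by
  constructor
  · intro h
    have := M.mul_mem (M.mul_mem hg h) (M.inv_mem hg)
    have e : g * (g⁻¹ * x * g) * g⁻¹ = x := by group
    rwa [e] at this
  · intro h
    exact M.mul_mem (M.mul_mem (M.inv_mem hg) h) hg

omit [Fintype A] in
theorem cg_inf (g : A) (P Q : Subgroup A) : cg g (P ⊓ Q) = cg g P ⊓ cg g Q := by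
  ext x
  simp only [mem_cg, Subgroup.mem_inf]

omit [Fintype A] in
theorem cg_normalizer (g : A) (T : Subgroup A) :
    cg g (Subgroup.normalizer (T : Set A)) = Subgroup.normalizer (cg g T : Set A) := by
  ext x
  rw [mem_cg, ← cg_eq_self_iff, ← cg_eq_self_iff, cg_cg]
  constructor
  · intro h
    have h1 := congrArg (cg g) h
    rw [cg_cg] at h1
    have e : g * (g⁻¹ * x * g) = x * g := by group
    rwa [e] at h1
  · intro h
    have h1 := congrArg (cg g⁻¹) h
    rw [cg_cg, cg_cg, inv_mul_cancel, cg_one] at h1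
    have e : g⁻¹ * (x * g) = g⁻¹ * x * g := by group
    rwa [e] at h1

omit [Fintype A] in
theorem cg_centralizer (g : A) (T : Subgroup A) :
    cg g (Subgroup.centralizer (T : Set A)) = Subgroup.centralizer (cg g T : Set A) := by
  ext x
  rw [mem_cg, Subgroup.mem_centralizer_iff, Subgroup.mem_centralizer_iff]
  constructor
  · intro h y hy
    have h1 := h _ (mem_cg.1 hy)
    calc y * x = g * (g⁻¹ * y * g * (g⁻¹ * x * g)) * g⁻¹ := by group
      _ = g * (g⁻¹ * x * g * (g⁻¹ * y * g)) * g⁻¹ := by rw [h1]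
      _ = x * y := by group
  · intro h y hy
    have h0 : g * y * g⁻¹ ∈ cg g T := by
      rw [mem_cg]
      have e : g⁻¹ * (g * y * g⁻¹) * g = y := by group
      rw [e]
      exact hy
    have h1 := h _ h0
    calc y * (g⁻¹ * x * g) = g⁻¹ * (g * y * g⁻¹ * x) * g := by group
      _ = g⁻¹ * (x * (g * y * g⁻¹)) * g := by rw [h1]
      _ = g⁻¹ * x * g * y := by group

omit [Fintype A] in
theorem mem_cent {x g : A} : g ∈ Subgroup.centralizer ({x} : Set A) ↔ x * g = g * x := by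
  rw [Subgroup.mem_centralizer_iff]
  simp

omit [Fintype A] in
theorem cg_cent_single (g x : A) :
    cg g (Subgroup.centralizer ({x} : Set A)) = Subgroup.centralizer ({g * x * g⁻¹} : Set A) := by
  ext y
  rw [mem_cg, mem_cent, mem_cent]
  constructor
  · intro h
    calc g * x * g⁻¹ * y = g * (x * (g⁻¹ * y * g)) * g⁻¹ := by group
      _ = g * (g⁻¹ * y * g * x) * g⁻¹ := by rw [h]
      _ = y * (g * x * g⁻¹) := by group
  · intro h
    calc x * (g⁻¹ * y * g) = g⁻¹ * (g * x * g⁻¹ * y) * g := by group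
      _ = g⁻¹ * (y * (g * x * g⁻¹)) * g := by rw [h]
      _ = g⁻¹ * y * g * x := by group

theorem PD_cg_of [Fact p.Prime] {M T : Subgroup A} {x : A} (g : A) (h : PD p M T x) :
    PD p (cg g M) (cg g T) (g * x * g⁻¹) := by
  obtain ⟨h1, h2, h3, h4⟩ := h
  have e : g⁻¹ * (g * x * g⁻¹) * g = x := by group
  refine ⟨mem_cg.2 (by rwa [e]), ?_, (preg_conj g x).2 h3, ?_⟩
  · rw [← cg_centralizer, mem_cg, e]
    exact h2
  · rw [← cg_cent_single, ← cg_inf]
    exact h4.cg g

theorem PD_cg [Fact p.Prime] {M T : Subgroup A} {x : A} (g : A) :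
    PD p (cg g M) (cg g T) (g * x * g⁻¹) ↔ PD p M T x := by
  refine ⟨fun h => ?_, PD_cg_of g⟩
  have h1 := PD_cg_of g⁻¹ h
  rw [cg_cg, cg_cg, inv_mul_cancel, cg_one, cg_one] at h1
  have e : g⁻¹ * (g * x * g⁻¹) * g⁻¹⁻¹ = x := by group
  rwa [e] at h1

omit [Fintype A] in
theorem mem_cent_sup {S T : Subgroup A} {x : A} :
    x ∈ Subgroup.centralizer ((S ⊔ T : Subgroup A) : Set A) ↔
      x ∈ Subgroup.centralizer (S : Set A) ∧ x ∈ Subgroup.centralizer (T : Set A) := by
  constructor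
  · intro h
    exact ⟨Subgroup.centralizer_le (SetLike.coe_subset_coe.2 le_sup_left) h,
      Subgroup.centralizer_le (SetLike.coe_subset_coe.2 le_sup_right) h⟩
  · rintro ⟨h1, h2⟩
    have h3 : S ⊔ T ≤ Subgroup.centralizer ({x} : Set A) := by
      apply sup_le
      · intro y hy
        exact mem_cent.2 ((Subgroup.mem_centralizer_iff.1 h1 y hy).symm)
      · intro y hy
        exact mem_cent.2 ((Subgroup.mem_centralizer_iff.1 h2 y hy).symm)
    rw [Subgroup.mem_centralizer_iff]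
    intro y hy
    exact (mem_cent.1 (h3 hy)).symm

end Blk2A

open Blk2A in
theorem triang [Fact p.Prime] [CharP k p] {X H S : Subgroup A} {e : MonoidAlgebra k A}
    (h : Ctx p X H S e) {F : Set (Subgroup A)} (hF : ∀ T ∈ F, ∀ h ∈ H, cg h T ∈ F)
    (Y Y' : Cl H (Pdef p H F)) (hY : EM p H (Pdef p H F) (cS S e) Y Y' ≠ 0) :
    Nat.card (lab p H F Y) < Nat.card (lab p H F Y') ∨ lab p H F Y = lab p H F Y' := by
  classical
  obtain ⟨hxH, hxp, T, hTF, hT⟩ := Y.out.2
  set x : A := (Y.out : A) with hx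
  have hTH : T ≤ H := hT.le.trans inf_le_left
  have hxT : x ∈ Subgroup.centralizer (T : Set A) := by
    rw [Subgroup.mem_centralizer_iff]
    intro y hy
    exact (mem_cent.1 (Subgroup.mem_inf.1 (hT.le hy)).2).symm
  have hP : ∀ g ∈ H, ∀ a, Pdef p H F a → Pdef p H F (g * a * g⁻¹) := fun g hg a ha =>
    Pdef_conj hF hg ha
  have h1 := row_eq h hTH hT.isPGroup hxH hxT (InCl H (Pdef p H F) Y')
    (fun g hg a => InCl_conj hP hg)
  have h2 : ∑ a : A, (if InCl H (Pdef p H F) Y' (pr p (a * x)) then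
      (cS (S ⊔ T) e).coeff a else 0) ≠ 0 := by
    rw [← h1]
    exact hY
  obtain ⟨a, -, ha⟩ := Finset.exists_ne_zero_of_sum_ne_zero h2
  have hin : InCl H (Pdef p H F) Y' (pr p (a * x)) := by
    by_contra hcon
    rw [if_neg hcon] at ha
    exact ha rfl
  rw [if_pos hin] at ha
  have haC : a ∈ Subgroup.centralizer ((S ⊔ T : Subgroup A) : Set A) := by
    by_contra hcon
    exact ha (coeff_resS_of_notMem _ hcon)
  have hae : e.coeff a ≠ 0 := by
    rwa [coeff_resS_of_mem _ (SetLike.mem_coe.2 haC)] at ha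
  obtain ⟨haS, haT⟩ := mem_cent_sup.1 haC
  have haH : a ∈ H := h.hCS (Subgroup.mem_inf.2 ⟨h.supp a hae, haS⟩)
  set w : A := pr p (a * x) with hw
  have hwT : w ∈ Subgroup.centralizer (T : Set A) := pr_mem (Subgroup.mul_mem _ haT hxT)
  obtain ⟨T', hT'⟩ := exists_isSyl (p := p) (H ⊓ Subgroup.centralizer ({w} : Set A))
  have hTw : T ≤ H ⊓ Subgroup.centralizer ({w} : Set A) := by
    refine le_inf hTH ?_
    intro y hy
    exact mem_cent.2 (Subgroup.mem_centralizer_iff.1 hwT y hy).symm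
  have hlab' := lab_spec hF hin hT'
  have hlab := lab_spec hF (InCl_out Y) hT
  have hcard : ∀ Q : Subgroup A, Nat.card (crep H Q) = Nat.card Q := by
    intro Q
    obtain ⟨g, _, e1⟩ := crep_spec H Q
    rw [e1, card_cg]
  have hle := hT'.card_le hTw hT.isPGroup
  rcases lt_or_eq_of_le hle with hlt | heq
  · left
    rw [← hlab.2, ← hlab'.2, hcard, hcard]
    exact hlt
  · right
    have h3 := hT'.of_card hTw hT.isPGroup heq.ge
    rw [← hlab.2, ← (lab_spec hF hin h3).2]

open Blk2A in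
theorem mD_cg [Fact p.Prime] [CharP k p] {X H S : Subgroup A} {e : MonoidAlgebra k A}
    (h : Ctx p X H S e) {T : Subgroup A} (hT : T ≤ H) {g : A} (hg : g ∈ H) :
    mD p (H ⊓ Subgroup.normalizer (cg g T : Set A)) (cg g T) (S ⊔ cg g T) e
      = mD p (H ⊓ Subgroup.normalizer (T : Set A)) T (S ⊔ T) e := by
  have hgS : cg g S = S := cg_eq_self_iff.2 (h.hHS hg)
  have hgH : cg g H = H := cg_eq_self_iff.2 (Subgroup.le_normalizer hg)
  have hM : H ⊓ Subgroup.normalizer (cg g T : Set A) =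
      cg g (H ⊓ Subgroup.normalizer (T : Set A)) := by
    rw [cg_inf, hgH, cg_normalizer]
  set M : Subgroup A := H ⊓ Subgroup.normalizer (T : Set A) with hMdef
  have hsup : cg g (S ⊔ T) = S ⊔ cg g T := by
    have h1 : cg g (S ⊔ T) = cg g S ⊔ cg g T := Subgroup.map_sup _ _ _
    rw [h1, hgS]
  have hc : cS (S ⊔ cg g T) e = cj g (cS (S ⊔ T) e) := by
    ext x
    rw [coeff_cj]
    have hiff : x ∈ Subgroup.centralizer ((S ⊔ cg g T : Subgroup A) : Set A) ↔
        g⁻¹ * x * g ∈ Subgroup.centralizer ((S ⊔ T : Subgroup A) : Set A) := by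
      rw [← hsup, ← cg_centralizer, mem_cg]
    have hinv : e.coeff (g⁻¹ * x * g) = e.coeff x := by
      have := h.inv g⁻¹ (X.inv_mem (h.hHX hg)) x
      rwa [inv_inv] at this
    by_cases hx : x ∈ Subgroup.centralizer ((S ⊔ cg g T : Subgroup A) : Set A)
    · rw [coeff_resS_of_mem _ (SetLike.mem_coe.2 hx),
        coeff_resS_of_mem _ (SetLike.mem_coe.2 (hiff.1 hx)), hinv]
    · rw [coeff_resS_of_notMem _ (fun h' => hx (SetLike.mem_coe.1 h')),
        coeff_resS_of_notMem _ (fun h' => hx (hiff.2 (SetLike.mem_coe.1 h')))]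
  have hMN : M ≤ Subgroup.normalizer
      ((Subgroup.centralizer ((S ⊔ T : Subgroup A) : Set A) : Subgroup A) : Set A) := by
    intro m hm
    have hmH := (Subgroup.mem_inf.1 hm).1
    have hmT := (Subgroup.mem_inf.1 hm).2
    rw [← cg_eq_self_iff, cg_centralizer]
    have h1 : cg m (S ⊔ T) = cg m S ⊔ cg m T := Subgroup.map_sup _ _ _
    rw [h1, cg_eq_self_iff.2 (h.hHS hmH), cg_eq_self_iff.2 hmT]
  have hcM : InvBy M (cS (S ⊔ T) e) :=
    resS_invBy hMN (h.inv.mono (inf_le_left.trans h.hHX))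
  have hPM : ∀ m ∈ M, ∀ x, PD p M T x → PD p M T (m * x * m⁻¹) := by
    intro m hm x hx
    have h1 := PD_cg_of m hx
    rwa [cg_eq_self_iff.2 (Subgroup.le_normalizer hm),
      cg_eq_self_iff.2 (Subgroup.mem_inf.1 hm).2] at h1
  unfold mD
  rw [hM]
  have := EM_cong (p := p) (P' := PD p (cg g M) (cg g T)) hPM hcM g (fun x => PD_cg g)
  rw [← hc] at this
  exact this

end Pool.Agent.Lib.P0c8ca5
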