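import Mathlib
import Pool.Agent.Lib.P0c8ca5N.Blk1
import Pool.Agent.Lib.P0c8ca5N.Blk2

/-! # Module Blk3: the decomposition of the multiplicity by defect groups (assembly) -/

namespace Pool.Agent.Lib.P0c8ca5

open MonoidAlgebra

set_option linter.unusedSectionVars false

variable {p : ℕ} {k : Type*} [Field k] {A : Type*} [Group A] [Fintype A]

theorem defect_sum [Fact p.Prime] [CharP k p] {X H S : Subgroup A} {e : MonoidAlgebra k A}
    (h : Ctx p X H S e) {F : Set (Subgroup A)} (hF : ∀ T ∈ F, ∀ h ∈ H, cg h T ∈ F)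
    (D : Finset (Subgroup A)) (hD : ∀ T, T ∈ D ↔ T ≤ H ∧ IsPGroup p T ∧ T ∈ F) :
    Nat.card H * mult1 (EM p H (Pdef p H F) (cS S e))
      = ∑ T ∈ D, Nat.card ↥(H ⊓ Subgroup.normalizer (T : Set A))
          * mD p (H ⊓ Subgroup.normalizer (T : Set A)) T (S ⊔ T) e := by
  classical
  have : Fintype (Subgroup A) := Fintype.ofFinite _
  have h1 := mult1_blocks (fun Y => lab p H F Y) (fun T : Subgroup A => Nat.card T)
    (EM p H (Pdef p H F) (cS S e)) (fun Y Y' hY => triang h hF Y Y' hY)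
  have h2 := sum_crep H D (fun T hT g hg => by
      rw [hD] at hT ⊢
      refine ⟨?_, isPGroup_cg hT.2.1, hF T hT.2.2 g hg⟩
      have := cg_le_cg (g := g) hT.1
      rwa [cg_of_mem hg] at this)
    (fun T => mD p (H ⊓ Subgroup.normalizer (T : Set A)) T (S ⊔ T) e)
    (fun T hT g hg => mD_cg h ((hD T).1 hT).1 hg)
  rw [h1, h2]
  congr 1
  rw [← Finset.sum_filter_add_sum_filter_not Finset.univ
    (fun T => T ∈ D.filter (fun T => crep H T = T))]
  have h3 : ∑ T ∈ Finset.univ.filter (fun T => ¬ T ∈ D.filter (fun T => crep H T = T)),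
      mult1 (fun i j : {Y : Cl H (Pdef p H F) // lab p H F Y = T} =>
        EM p H (Pdef p H F) (cS S e) i.1 j.1) = 0 := by
    apply Finset.sum_eq_zero
    intro T hT
    rw [Finset.mem_filter] at hT
    have : IsEmpty {Y : Cl H (Pdef p H F) // lab p H F Y = T} := by
      constructor
      rintro ⟨Y, rfl⟩
      obtain ⟨h4, h5, h6, h7⟩ := lab_le hF Y
      exact hT.2 (Finset.mem_filter.2 ⟨(hD _).2 ⟨h4, h5, h6⟩, h7⟩)
    exact mult1_isEmpty _
  rw [h3, add_zero]
  have h4 : Finset.univ.filter (fun T => T ∈ D.filter (fun T => crep H T = T))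
      = D.filter (fun T => crep H T = T) := by ext T; simp
  rw [h4]
  refine Finset.sum_congr rfl (fun T hT => ?_)
  rw [Finset.mem_filter, hD] at hT
  exact block_mult h hF hT.1.1 hT.1.2.1 hT.1.2.2 hT.2

end Pool.Agent.Lib.P0c8ca5
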