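import Mathlib
import Pool.Agent.Lib.P0c8ca5N.RegP

/-!
# Module CopA: a coprime action lemma

Let `B` be a finite group, `U` a normal p-subgroup, `x` p-regular and `q` such that
`q⁻¹ * (x⁻¹ * q * x) ∈ U`.  Then there is `r ∈ U` such that `q * r` commutes with `x`.
-/

namespace Pool.Agent.Lib.P0c8ca5

set_option linter.unusedSectionVars false

universe u

/-- The cohomological computation in the abelian case. -/
theorem coprime_abelian {Z : Type*} [CommGroup Z] [Finite Z] (c : Z →* Z) (z : Z) (f : ℕ → Z)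
    (h0 : f 0 = 1) (hs : ∀ i, f (i + 1) = z * c (f i)) (m : ℕ) (hm : f m = 1)
    (hcop : Nat.Coprime (Nat.card Z) m) : ∃ r : Z, c r = z⁻¹ * r := by
  set w := ∏ i ∈ Finset.range m, f i with hw
  have h1 : ∏ i ∈ Finset.range m, f (i + 1) = w := by
    have h2 := Finset.prod_range_succ' f m
    rw [Finset.prod_range_succ, hm, h0, mul_one, mul_one] at h2
    rw [hw, ← h2]
  have h2 : ∏ i ∈ Finset.range m, f (i + 1) = z ^ m * c w := by
    rw [hw, map_prod, ← Finset.card_range m, ← Finset.prod_const, Finset.card_range,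
      ← Finset.prod_mul_distrib]
    exact Finset.prod_congr rfl fun i _ => hs i
  obtain ⟨r, hr⟩ := (Nat.Coprime.pow_left_bijective hcop).2 w
  simp only at hr
  refine ⟨r, (Nat.Coprime.pow_left_bijective hcop).1 ?_⟩
  simp only
  rw [← map_pow, hr, mul_pow, hr, inv_pow, eq_inv_mul_iff_mul_eq, ← h2, h1]

theorem coprime_fix_aux {p : ℕ} [Fact p.Prime] (n : ℕ) : ∀ (B : Type u) [Group B] [Finite B],
    Nat.card B = n → ∀ (U : Subgroup B) [U.Normal], IsPGroup p U → ∀ x : B, Preg p x →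
    ∀ q : B, q⁻¹ * (x⁻¹ * q * x) ∈ U → ∃ r ∈ U, Commute (q * r) x := by
  induction n using Nat.strong_induction_on with
  | _ n ih =>
  intro B _ _ hn U _ hU x hx q hq
  by_cases hbot : U = ⊥
  · subst hbot
    rw [Subgroup.mem_bot] at hq
    refine ⟨1, Subgroup.one_mem _, ?_⟩
    rw [mul_one]
    have h1 : x⁻¹ * q * x = q := by
      rw [inv_mul_eq_one] at hq
      exact hq.symm
    have h2 : q * x = x * q := by
      calc q * x = x * (x⁻¹ * q * x) := by group
        _ = x * q := by rw [h1]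
    exact h2
  have hnt : Nontrivial U := by
    rw [Subgroup.nontrivial_iff_ne_bot]
    exact hbot
  have hcn := hU.center_nontrivial
  set Z : Subgroup B := (Subgroup.center U).map U.subtype with hZ
  have hZn : Z.Normal := by
    rw [hZ]; infer_instance
  have hZU : Z ≤ U := by
    rw [hZ]
    exact Subgroup.map_subtype_le _
  have hZcomm : ∀ a ∈ Z, ∀ b ∈ Z, a * b = b * a := by
    rintro _ ⟨a, ha, rfl⟩ _ ⟨b, _, rfl⟩
    have := (Subgroup.mem_center_iff.mp ha) b
    have h2 := congrArg (U.subtype) this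
    rw [map_mul, map_mul] at h2
    exact h2.symm
  have hZ1 : 1 < Nat.card Z := by
    have h1 : Nat.card Z = Nat.card (Subgroup.center U) := by
      rw [hZ]
      exact Subgroup.card_map_of_injective U.subtype_injective
    rw [h1]
    exact Finite.one_lt_card
  -- the quotient
  obtain ⟨r0, hr0, hq0⟩ : ∃ r0 ∈ U, (q * r0)⁻¹ * (x⁻¹ * (q * r0) * x) ∈ Z := by
    have hcard : Nat.card (B ⧸ Z) < n := by
      have h1 := Subgroup.card_eq_card_quotient_mul_card_subgroup Z
      rw [hn] at h1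
      have h2 : 0 < Nat.card (B ⧸ Z) := Nat.card_pos
      rw [h1]
      calc Nat.card (B ⧸ Z) = Nat.card (B ⧸ Z) * 1 := (mul_one _).symm
        _ < _ := Nat.mul_lt_mul_of_pos_left hZ1 h2
    have hUn : (U.map (QuotientGroup.mk' Z)).Normal :=
      Subgroup.Normal.map inferInstance _ (QuotientGroup.mk'_surjective Z)
    have hxr : Preg p (QuotientGroup.mk' Z x) := by
      intro hd
      exact hx (hd.trans (orderOf_map_dvd _ _))
    obtain ⟨r, hr, hcom⟩ := ih _ hcard (B ⧸ Z) rfl (U.map (QuotientGroup.mk' Z)) (hU.map _)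
      (QuotientGroup.mk' Z x) hxr (QuotientGroup.mk' Z q)
      ⟨_, hq, by simp only [map_mul, map_inv]⟩
    obtain ⟨r0, hr0, rfl⟩ := hr
    refine ⟨r0, hr0, ?_⟩
    rw [← QuotientGroup.eq_one_iff]
    have h3 : ((QuotientGroup.mk' Z q) * (QuotientGroup.mk' Z r0)) * (QuotientGroup.mk' Z x) =
        (QuotientGroup.mk' Z x) * ((QuotientGroup.mk' Z q) * (QuotientGroup.mk' Z r0)) := hcom
    have key : ∀ a y : B ⧸ Z, a * y = y * a → a⁻¹ * (y⁻¹ * a * y) = 1 := by
      intro a y h
      rw [mul_assoc y⁻¹, h]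
      group
    have h4 := key _ _ h3
    rw [← map_mul, ← map_inv, ← map_inv, ← map_mul, ← map_mul, ← map_mul] at h4
    exact h4
  set q1 := q * r0 with hq1
  -- the abelian case
  have hxm : x ^ orderOf x = 1 := pow_orderOf_eq_one x
  let _ : CommGroup Z := { (inferInstance : Group Z) with
    mul_comm := fun a b => Subtype.ext (hZcomm a a.2 b b.2) }
  let c : Z →* Z := (MulAut.conjNormal x⁻¹ : MulAut Z).toMonoidHom
  have hc : ∀ a : Z, ((c a : Z) : B) = x⁻¹ * a * x := by
    intro a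
    change ((MulAut.conjNormal x⁻¹ a : Z) : B) = _
    rw [MulAut.conjNormal_apply, inv_inv]
  have hmem : ∀ i : ℕ, q1⁻¹ * ((x ^ i)⁻¹ * q1 * x ^ i) ∈ Z := by
    intro i
    induction i with
    | zero => simp [Z.one_mem]
    | succ i ihi =>
      have h1 : q1⁻¹ * ((x ^ (i + 1))⁻¹ * q1 * x ^ (i + 1)) =
          (q1⁻¹ * (x⁻¹ * q1 * x)) * (x⁻¹ * (q1⁻¹ * ((x ^ i)⁻¹ * q1 * x ^ i)) * x) := by
        rw [pow_succ]; group
      rw [h1]
      refine Z.mul_mem hq0 ?_
      have := hZn.conj_mem _ ihi x⁻¹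
      rwa [inv_inv] at this
  obtain ⟨r, hr⟩ := coprime_abelian c ⟨_, hq0⟩ (fun i => ⟨_, hmem i⟩)
    (by apply Subtype.ext; simp) (by
      intro i
      apply Subtype.ext
      rw [Subgroup.coe_mul, hc]
      simp only
      rw [pow_succ]; group) (orderOf x) (by
      apply Subtype.ext
      simp only [hxm]
      simp) (by
      have hZp : IsPGroup p Z := hU.to_le hZU
      obtain ⟨k, hk⟩ := IsPGroup.iff_card.mp hZp
      rw [hk]
      apply Nat.Coprime.pow_left
      rw [Nat.Prime.coprime_iff_not_dvd (Fact.out : p.Prime)]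
      exact hx)
  refine ⟨r0 * r, U.mul_mem hr0 (hZU r.2), ?_⟩
  rw [← mul_assoc, ← hq1]
  have h1 := congrArg (Subtype.val) hr
  rw [hc, Subgroup.coe_mul, Subgroup.coe_inv] at h1
  simp only at h1
  have h2 : x⁻¹ * (q1 * r) * x = q1 * r := by
    calc x⁻¹ * (q1 * r) * x = (x⁻¹ * q1 * x) * (x⁻¹ * r * x) := by group
      _ = (x⁻¹ * q1 * x) * ((q1⁻¹ * (x⁻¹ * q1 * x))⁻¹ * r) := by rw [h1]
      _ = q1 * r := by group
  change q1 * r * x = x * (q1 * r)
  calc q1 * r * x = x * (x⁻¹ * (q1 * r) * x) := by group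
    _ = x * (q1 * r) := by rw [h2]

theorem coprime_fix {p : ℕ} [Fact p.Prime] {B : Type*} [Group B] [Finite B] (U : Subgroup B)
    [U.Normal] (hU : IsPGroup p U) {x : B} (hx : Preg p x) {q : B}
    (hq : q⁻¹ * (x⁻¹ * q * x) ∈ U) : ∃ r ∈ U, Commute (q * r) x :=
  coprime_fix_aux (Nat.card B) B rfl U hU x hx q hq

end Pool.Agent.Lib.P0c8ca5
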