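import Mathlib
import Pool.Agent.Lib.P0c8ca5N.CopA
import Pool.Agent.Lib.P0c8ca5N.FB1

/-!
# Module CopB: supplements and centralizers of p-regular elements

`G ≤ X ≤ N(G)`, `X / G` a p-group, `Supp p G X` = the p-subgroups `Q` of `X` with `G ⊔ Q = X`.
* `supp_centralizer`: for `x ∈ G` p-regular normalizing `Q ∈ Supp`: `Q ⊓ C(x) ∈ Supp`.  It suffices
  that every `q ∈ Q` lies in `G ⊔ (Q ⊓ C(x))`: apply `coprime_fix` in the group
  `B = ↥(Q ⊔ zpowers x)` (or in `↥(X ⊓ N(Q) ⊓ N(Q ⊓ G))`) with `U = Q ⊓ G`: `q⁻¹ (x⁻¹ q x)` lies in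
  `Q` (as `x` normalizes `Q`) and in `G` (as `q⁻¹ x⁻¹ q ∈ G`, `x ∈ G`).  So `q r ∈ Q ⊓ C(x)` with
  `r ∈ Q ⊓ G`.
* `pdef_iff`: if `Q ∈ Supp`, `Q ≤ H ≤ X ⊓ N(Q)` then
  `Pdef p H (Supp p G X) x ↔ x ∈ H ∧ Preg p x`: `x ∈ G` by `mem_of_preg`; let `T` be Sylow in
  `C = H ⊓ C(x)` (`exists_isSyl`); `D = Q ⊓ C(x)` is a p-subgroup of `C` normalized by `C`, so
  `D ≤ T` (by `IsSyl.conj` `D ≤ cg g T`, conjugate back); so `G ⊔ T = X`.
* `pdef_top_iff`: `Pdef p X (Supp p G X) x ↔ PY p G X x`.  `→`: `T ≤ C(x)`, `G ⊔ T = X`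
  (`mem_sup_norm`).  `←`: `T` Sylow in `C = X ⊓ C(x)`; `PY` says `G ⊔ C = X`; by `IsSyl.sup_eq` for
  `L = G ⊓ C`, `M = C`: `L ⊔ T = C`, so `G ⊔ T = X`.
* `conj_in`: for `x ∈ H` p-regular, `h ∈ H`, there is `c ∈ G ⊓ H` with `h x h⁻¹ = c x c⁻¹`:
  `h = g t` with `g ∈ G`, `t ∈ Q ⊓ C(x) ≤ H`.
-/

namespace Pool.Agent.Lib.P0c8ca5

set_option linter.unusedSectionVars false

variable {p : ℕ} {A : Type*} [Group A] [Finite A] [Fact p.Prime] {G X : Subgroup A}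

namespace CopB46

omit [Finite A] [Fact p.Prime] in
theorem normalizer_inf {P Q M : Subgroup A} (hP : M ≤ Subgroup.normalizer (P : Set A))
    (hQ : M ≤ Subgroup.normalizer (Q : Set A)) :
    M ≤ Subgroup.normalizer ((P ⊓ Q : Subgroup A) : Set A) := by
  intro g hg
  rw [Subgroup.mem_normalizer_iff]
  intro x
  have h1 := Subgroup.mem_normalizer_iff.1 (hP hg) x
  have h2 := Subgroup.mem_normalizer_iff.1 (hQ hg) x
  rw [Subgroup.mem_inf, Subgroup.mem_inf]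
  exact and_congr h1 h2

omit [Finite A] [Fact p.Prime] in
theorem mem_cent {x g : A} : g ∈ Subgroup.centralizer ({x} : Set A) ↔ x * g = g * x := by
  rw [Subgroup.mem_centralizer_iff]
  simp

omit [Finite A] [Fact p.Prime] in
theorem conj_eq_of_cent {x g : A} (hg : g ∈ Subgroup.centralizer ({x} : Set A)) :
    g * x * g⁻¹ = x := by
  rw [← mem_cent.1 hg, mul_inv_cancel_right]

end CopB46

open CopB46 in
theorem supp_centralizer (hGX : G ≤ X) (hn : X ≤ Subgroup.normalizer (G : Set A)) {Q : Subgroup A}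
    (hQ : Q ∈ Supp p G X) {x : A} (hxG : x ∈ G) (hx : Preg p x)
    (hxQ : x ∈ Subgroup.normalizer (Q : Set A)) :
    Q ⊓ Subgroup.centralizer ({x} : Set A) ∈ Supp p G X := by
  obtain ⟨hQX, hQp, hsup⟩ := hQ
  refine ⟨inf_le_left.trans hQX, hQp.to_le inf_le_left, ?_⟩
  apply le_antisymm (sup_le hGX (inf_le_left.trans hQX))
  conv_lhs => rw [← hsup]
  refine sup_le le_sup_left ?_
  intro q hq
  set B : Subgroup A := X ⊓ Subgroup.normalizer (Q : Set A) with hB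
  have hQB : Q ≤ B := le_inf hQX Subgroup.le_normalizer
  have hBN : B ≤ Subgroup.normalizer ((Q ⊓ G : Subgroup A) : Set A) :=
    normalizer_inf inf_le_right (inf_le_left.trans hn)
  have hnorm : ((Q ⊓ G).subgroupOf B).Normal :=
    (Subgroup.normal_subgroupOf_iff_le_normalizer (inf_le_left.trans hQB)).2 hBN
  have hUp : IsPGroup p ((Q ⊓ G).subgroupOf B) :=
    (hQp.to_le (inf_le_left : Q ⊓ G ≤ Q)).comap_of_injective _ B.subtype_injective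
  have hxB : x ∈ B := Subgroup.mem_inf.2 ⟨hGX hxG, hxQ⟩
  have hxp : Preg p (⟨x, hxB⟩ : B) := by
    unfold Preg
    rw [Subgroup.orderOf_mk]
    exact hx
  have hmem : (⟨q, hQB hq⟩ : B)⁻¹ * ((⟨x, hxB⟩ : B)⁻¹ * ⟨q, hQB hq⟩ * ⟨x, hxB⟩) ∈
      (Q ⊓ G).subgroupOf B := by
    rw [Subgroup.mem_subgroupOf]
    change q⁻¹ * (x⁻¹ * q * x) ∈ Q ⊓ G
    refine Subgroup.mem_inf.2 ⟨?_, ?_⟩
    · refine Q.mul_mem (Q.inv_mem hq) ?_
      have := (Subgroup.mem_normalizer_iff.1 (Subgroup.inv_mem _ hxQ) q).1 hq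
      rwa [inv_inv] at this
    · have h1 := (Subgroup.mem_normalizer_iff.1 (Subgroup.inv_mem _ (hn (hQX hq))) x⁻¹).1
        (G.inv_mem hxG)
      have h2 := G.mul_mem h1 hxG
      have e : q⁻¹ * x⁻¹ * q⁻¹⁻¹ * x = q⁻¹ * (x⁻¹ * q * x) := by group
      rwa [e] at h2
  obtain ⟨r, hr, hc⟩ := coprime_fix ((Q ⊓ G).subgroupOf B) hUp hxp hmem
  rw [Subgroup.mem_subgroupOf] at hr
  have hr1 := (Subgroup.mem_inf.1 hr)
  have hc' : q * (r : A) * x = x * (q * (r : A)) := congrArg Subtype.val hc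
  have h3 : q * (r : A) ∈ Q ⊓ Subgroup.centralizer ({x} : Set A) :=
    Subgroup.mem_inf.2 ⟨Q.mul_mem hq hr1.1, mem_cent.2 hc'.symm⟩
  have e : q = q * (r : A) * (r : A)⁻¹ := by group
  rw [e]
  exact Subgroup.mul_mem _ ((le_sup_right : _ ≤ G ⊔ _) h3)
    ((le_sup_left : G ≤ _) (G.inv_mem hr1.2))

theorem supp_conj (hGX : G ≤ X) (hn : X ≤ Subgroup.normalizer (G : Set A)) {Q : Subgroup A}
    (hQ : Q ∈ Supp p G X) {g : A} (hg : g ∈ X) : cg g Q ∈ Supp p G X := by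
  obtain ⟨hQX, hQp, hsup⟩ := hQ
  have hX : cg g X = X := cg_eq_self_iff.2 (Subgroup.le_normalizer hg)
  have hG : cg g G = G := cg_eq_self_iff.2 (hn hg)
  refine ⟨?_, isPGroup_cg hQp, ?_⟩
  · have := cg_le_cg (g := g) hQX
    rwa [hX] at this
  · have h1 : cg g (G ⊔ Q) = cg g G ⊔ cg g Q := Subgroup.map_sup _ _ _
    rw [hsup, hX, hG] at h1
    exact h1.symm

open CopB46 in
theorem pdef_iff (hGX : G ≤ X) (hn : X ≤ Subgroup.normalizer (G : Set A))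
    (hp : ∀ x ∈ X, ∃ n : ℕ, x ^ p ^ n ∈ G) {H Q : Subgroup A} (hQ : Q ∈ Supp p G X)
    (hQH : Q ≤ H) (hHX : H ≤ X) (hHQ : H ≤ Subgroup.normalizer (Q : Set A)) (x : A) :
    Pdef p H (Supp p G X) x ↔ x ∈ H ∧ Preg p x := by
  constructor
  · rintro ⟨h1, h2, -⟩
    exact ⟨h1, h2⟩
  rintro ⟨hxH, hx⟩
  refine ⟨hxH, hx, ?_⟩
  obtain ⟨n, hn'⟩ := hp x (hHX hxH)
  have hxG : x ∈ G := mem_of_preg hx hn'
  obtain ⟨T, hT⟩ := exists_isSyl (p := p) (H ⊓ Subgroup.centralizer ({x} : Set A))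
  refine ⟨T, ⟨(hT.le.trans inf_le_left).trans hHX, hT.isPGroup, ?_⟩, hT⟩
  apply le_antisymm (sup_le hGX ((hT.le.trans inf_le_left).trans hHX))
  have hD := supp_centralizer hGX hn hQ hxG hx (hHQ hxH)
  have hDC : Q ⊓ Subgroup.centralizer ({x} : Set A) ≤ H ⊓ Subgroup.centralizer ({x} : Set A) :=
    inf_le_inf_right _ hQH
  obtain ⟨g, hg, hle⟩ := hT.conj _ hDC hD.2.1
  have hCN : H ⊓ Subgroup.centralizer ({x} : Set A) ≤ Subgroup.normalizer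
      ((Q ⊓ Subgroup.centralizer ({x} : Set A) : Subgroup A) : Set A) :=
    normalizer_inf (inf_le_left.trans hHQ) (inf_le_right.trans Subgroup.le_normalizer)
  have hDg : cg g⁻¹ (Q ⊓ Subgroup.centralizer ({x} : Set A)) =
      Q ⊓ Subgroup.centralizer ({x} : Set A) := cg_eq_self_iff.2 (Subgroup.inv_mem _ (hCN hg))
  have hDT : Q ⊓ Subgroup.centralizer ({x} : Set A) ≤ T := by
    have h1 := cg_le_cg (g := g⁻¹) hle
    rwa [cg_cg, inv_mul_cancel, cg_one, hDg] at h1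
  calc X = G ⊔ Q ⊓ Subgroup.centralizer ({x} : Set A) := hD.2.2.symm
    _ ≤ G ⊔ T := sup_le_sup_left hDT G

open CopB46 in
theorem pdef_top_iff (hGX : G ≤ X) (hn : X ≤ Subgroup.normalizer (G : Set A))
    (hp : ∀ x ∈ X, ∃ n : ℕ, x ^ p ^ n ∈ G) (x : A) :
    Pdef p X (Supp p G X) x ↔ PY p G X x := by
  constructor
  · rintro ⟨hxX, hx, T, hTS, hT⟩
    obtain ⟨n, hn'⟩ := hp x hxX
    refine ⟨mem_of_preg hx hn', hx, ?_⟩
    intro g hg
    rw [← hTS.2.2, mem_sup_norm (hTS.1.trans hn)] at hg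
    obtain ⟨l, hl, d, hd, rfl⟩ := hg
    refine ⟨l, hl, ?_⟩
    have h1 := conj_eq_of_cent (Subgroup.mem_inf.1 (hT.le hd)).2
    calc l * d * x * (l * d)⁻¹ = l * (d * x * d⁻¹) * l⁻¹ := by group
      _ = l * x * l⁻¹ := by rw [h1]
  · rintro ⟨hxG, hx, hcl⟩
    obtain ⟨T, hT⟩ := exists_isSyl (p := p) (X ⊓ Subgroup.centralizer ({x} : Set A))
    set C : Subgroup A := X ⊓ Subgroup.centralizer ({x} : Set A) with hC
    have hTX : T ≤ X := hT.le.trans inf_le_left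
    refine ⟨hGX hxG, hx, T, ⟨hTX, hT.isPGroup, le_antisymm (sup_le hGX hTX) ?_⟩, hT⟩
    have h1 : (G ⊓ C) ⊔ T = C := by
      apply hT.sup_eq inf_le_right
      · exact normalizer_inf (inf_le_left.trans hn) Subgroup.le_normalizer
      · intro y hy
        obtain ⟨n, hn'⟩ := hp y (Subgroup.mem_inf.1 hy).1
        exact ⟨n, Subgroup.mem_inf.2 ⟨hn', C.pow_mem hy _⟩⟩
    intro g hg
    obtain ⟨h, hh, e⟩ := hcl g hg
    have h2 : h⁻¹ * g ∈ C := by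
      refine Subgroup.mem_inf.2 ⟨X.mul_mem (X.inv_mem (hGX hh)) hg, mem_cent.2 ?_⟩
      calc x * (h⁻¹ * g) = h⁻¹ * (h * x * h⁻¹) * g := by group
        _ = h⁻¹ * (g * x * g⁻¹) * g := by rw [e]
        _ = h⁻¹ * g * x := by group
    have h3 : C ≤ G ⊔ T := by
      rw [← h1]
      exact sup_le_sup_right inf_le_left T
    have e2 : g = h * (h⁻¹ * g) := by group
    rw [e2]
    exact Subgroup.mul_mem _ ((le_sup_left : G ≤ G ⊔ T) hh) (h3 h2)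

open CopB46 in
theorem conj_in (hGX : G ≤ X) (hn : X ≤ Subgroup.normalizer (G : Set A))
    (hp : ∀ x ∈ X, ∃ n : ℕ, x ^ p ^ n ∈ G) {H Q : Subgroup A} (hQ : Q ∈ Supp p G X)
    (hQH : Q ≤ H) (hHX : H ≤ X) (hHQ : H ≤ Subgroup.normalizer (Q : Set A)) {x : A} (hxH : x ∈ H)
    (hx : Preg p x) {h : A} (hh : h ∈ H) : ∃ c ∈ G ⊓ H, h * x * h⁻¹ = c * x * c⁻¹ := by
  obtain ⟨n, hn'⟩ := hp x (hHX hxH)
  have hxG : x ∈ G := mem_of_preg hx hn'
  have hD := supp_centralizer hGX hn hQ hxG hx (hHQ hxH)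
  have h1 : h ∈ G ⊔ Q ⊓ Subgroup.centralizer ({x} : Set A) := by
    rw [hD.2.2]
    exact hHX hh
  rw [mem_sup_norm (hD.1.trans hn)] at h1
  obtain ⟨l, hl, d, hd, rfl⟩ := h1
  have hdH : d ∈ H := hQH (Subgroup.mem_inf.1 hd).1
  have hlH : l ∈ H := by
    have := H.mul_mem hh (H.inv_mem hdH)
    rwa [mul_inv_cancel_right] at this
  refine ⟨l, Subgroup.mem_inf.2 ⟨hl, hlH⟩, ?_⟩
  have h2 := conj_eq_of_cent (Subgroup.mem_inf.1 hd).2
  calc l * d * x * (l * d)⁻¹ = l * (d * x * d⁻¹) * l⁻¹ := by group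
    _ = l * x * l⁻¹ := by rw [h2]

end Pool.Agent.Lib.P0c8ca5
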