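import Mathlib
import Pool.Agent.Lib.P0c8ca5N.Mv
import Pool.Agent.Lib.P0c8ca5N.ChC
import Pool.Agent.Lib.P0c8ca5N.ChD

/-!
# Module FA: the number of irreducible representations in a central idempotent
-/

namespace Pool.Agent.Lib.P0c8ca5

open MonoidAlgebra

set_option linter.unusedSectionVars false

variable {p : ℕ} {k : Type*} [Field k] {A : Type*} [Group A]

theorem card_irX_eq [Fact p.Prime] [CharP k p] [IsAlgClosed k] [Fintype A] {H : Subgroup A}
    {c : MonoidAlgebra k A} (hc : SuppIn H c) (hc' : InvBy H c) (hcc : c * c = c) :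
    Nat.card (Quotient (irrInvSetoid H ⊥ c))
      = mult1 (EM p H (fun x => x ∈ H ∧ Preg p x) c) := by
  classical
  rw [card_irr_inv (X := ⊥) bot_le hc hc' hcc]
  set P : A → Prop := fun x => x ∈ H ∧ Preg p x with hP
  let _ : Fintype (Cl H P) := Fintype.ofFinite _
  have hmem : ∀ χ : IrrCh k H, (χ : A → k) ∈ XH p k H := by
    intro χ
    rw [← span_IrrCh]
    exact Submodule.subset_span χ.2
  set v : IrrCh k H → Cl H P → k := fun χ Y => (χ : A → k) (Y.out : A) with hv
  set ω : IrrCh k H → k := fun χ => if conv c (χ : A → k) = (χ : A → k) then 1 else 0 with hω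
  have hconv : ∀ χ : IrrCh k H, conv c (χ : A → k) = ω χ • (χ : A → k) := by
    intro χ
    by_cases h : conv c (χ : A → k) = (χ : A → k)
    · simp only [hω, if_pos h, one_smul]
      exact h
    · simp only [hω, if_neg h, zero_smul]
      exact conv_eq_zero_of_ne hc hc' hcc χ h
  -- the functions in `XH` are determined by the values at the representatives
  have hdet : ∀ f ∈ XH p k H, (∀ Y : Cl H P, f (Y.out : A) = 0) → f = 0 := by
    intro f hf h0
    obtain ⟨h1, h2, h3⟩ := mem_XH.1 hf
    funext x
    by_cases hx : x ∈ H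
    · have hPx : P (pr p x) := ⟨pr_mem hx, preg_pr x⟩
      obtain ⟨g, hg, e⟩ := InCl_out_conj
        (show InCl H P (Quotient.mk (clSetoid H P) ⟨pr p x, hPx⟩) (pr p x) from ⟨hPx, rfl⟩)
      have h4 := h0 (Quotient.mk (clSetoid H P) ⟨pr p x, hPx⟩)
      rw [e, h2 g hg, h3 x hx] at h4
      exact h4
    · exact h1 x hx
  have hli : LinearIndependent k v := by
    rw [linearIndependent_iff]
    intro l hl
    have h1 := (linearIndependent_iff.1 (chi_linearIndependent (k := k) H)) l
    apply h1
    have hXH : Finsupp.linearCombination k (fun χ : IrrCh k H => (χ : A → k)) l ∈ XH p k H := by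
      rw [Finsupp.linearCombination_apply]
      exact Submodule.sum_mem _ fun χ _ => Submodule.smul_mem _ _ (hmem χ)
    apply hdet _ hXH
    intro Y
    have h2 := congrFun hl Y
    rw [Finsupp.linearCombination_apply, Finsupp.sum, Finset.sum_apply] at h2 ⊢
    exact h2
  have hsp : ⊤ ≤ Submodule.span k (Set.range v) := by
    intro φ _
    -- the extension of `φ`
    set f : A → k := fun x => if h : x ∈ H then
      φ (Quotient.mk (clSetoid H P) ⟨pr p x, pr_mem h, preg_pr x⟩) else 0 with hf
    have hfX : f ∈ XH p k H := by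
      rw [mem_XH]
      refine ⟨fun x hx => dif_neg hx, ?_, ?_⟩
      · intro h hh x
        by_cases hx : x ∈ H
        · have hx' : h * x * h⁻¹ ∈ H := H.mul_mem (H.mul_mem hh hx) (H.inv_mem hh)
          simp only [hf]
          rw [dif_pos hx, dif_pos hx']
          congr 1
          apply Quotient.sound
          refine ⟨h⁻¹, H.inv_mem hh, ?_⟩
          change pr p x = h⁻¹ * pr p (h * x * h⁻¹) * h⁻¹⁻¹
          rw [pr_conj]
          group
        · have hx' : h * x * h⁻¹ ∉ H := by
            intro h1
            apply hx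
            have := H.mul_mem (H.mul_mem (H.inv_mem hh) h1) hh
            have e : h⁻¹ * (h * x * h⁻¹) * h = x := by group
            rwa [e] at this
          simp only [hf]
          rw [dif_neg hx, dif_neg hx']
      · intro x hx
        simp only [hf]
        rw [dif_pos hx, dif_pos (pr_mem hx)]
        congr 2
        apply Subtype.ext
        exact pr_pr x
    have hfY : (fun Y : Cl H P => f (Y.out : A)) = φ := by
      funext Y
      simp only [hf]
      rw [dif_pos (Y.out.2.1)]
      congr 1
      have : (⟨pr p (Y.out : A), pr_mem Y.out.2.1, preg_pr _⟩ : {x : A // P x}) = Y.out :=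
        Subtype.ext (pr_eq_self Y.out.2.2)
      rw [this, Quotient.out_eq]
    rw [← span_IrrCh] at hfX
    rw [← hfY]
    have key : ∀ g ∈ Submodule.span k (IrrCh k H),
        (fun Y : Cl H P => g (Y.out : A)) ∈ Submodule.span k (Set.range v) := by
      intro g hg
      induction hg using Submodule.span_induction with
      | mem x hx => exact Submodule.subset_span ⟨⟨x, hx⟩, rfl⟩
      | zero => exact Submodule.zero_mem _
      | add x y _ _ hx hy => exact Submodule.add_mem _ hx hy
      | smul a x _ hx => exact Submodule.smul_mem _ a hx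
    exact key f hfX
  have heig : ∀ χ : IrrCh k H, (EM p H P c).mulVec (v χ) = ω χ • v χ := by
    intro χ
    obtain ⟨h1, h2, h3⟩ := mem_XH.1 (hmem χ)
    funext X
    have h4 := EM_mulVec (p := p) (M := H) (P := P) (c := c) (f := (χ : A → k)) h2 X
    rw [show (v χ) = (fun Y : Cl H P => (χ : A → k) (Y.out : A)) from rfl, h4]
    have h5 : ∑ h : A, (if P (pr p (h * (X.out : A))) then
        c.coeff h * (χ : A → k) (pr p (h * (X.out : A))) else 0)
        = conv c (χ : A → k) (X.out : A) := by
      unfold conv
      refine Finset.sum_congr rfl fun h _ => ?_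
      by_cases hh : c.coeff h = 0
      · rw [hh, zero_mul, zero_mul, ite_self]
      · have hhH : h ∈ H := hc h hh
        have hhx : h * (X.out : A) ∈ H := H.mul_mem hhH X.out.2.1
        rw [if_pos ⟨pr_mem hhx, preg_pr _⟩, h3 _ hhx]
    have h7 : conv c (χ : A → k) (X.out : A) =
        (ω χ • (fun Y : Cl H P => (χ : A → k) (Y.out : A))) X := by
      rw [hconv χ]
      rfl
    rw [← h7, ← h5]
    congr!
  rw [mult1_eigen (EM p H P c) v hli hsp ω heig]
  have hequiv : ∀ χ : IrrCh k H, (conv c (χ : A → k) = (χ : A → k) ∧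
      ∀ h ∈ (⊥ : Subgroup A), ∀ x, (χ : A → k) (h * x * h⁻¹) = (χ : A → k) x) ↔ ω χ = 1 := by
    intro χ
    constructor
    · rintro ⟨h1, _⟩
      simp only [hω, if_pos h1]
    · intro h1
      refine ⟨?_, ?_⟩
      · by_contra h2
        simp only [hω, if_neg h2] at h1
        exact zero_ne_one h1
      · intro h hh x
        rw [Subgroup.mem_bot] at hh
        rw [hh]
        simp
  exact Nat.card_congr (Equiv.subtypeEquivRight hequiv)

end Pool.Agent.Lib.P0c8ca5
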