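import Mathlib
import Pool.Agent.Lib.P0c8ca5N.Defs

/-!
# Module Inv: the sign reversing involution

`Ch D` = the finsets `σ ⊆ D` that are chains (including the empty one).  The pairs `(σ, T)`,
`σ ∈ Ch D`, `T ∈ D`, `T ≤ stab X σ`, carry the sign-reversing involution
`(σ, T) ↦ (σ ∆ {t}, T)`, `t = (sup {Q ∈ σ | ¬ T ≤ Q}) ⊔ T` (`sup ∅ = ⊥`).  Facts:
* `B = {Q ∈ σ | ¬ T ≤ Q}` is an initial segment of the chain `σ`, and `T ≤ t`, so `B` is the same
  for `σ ∆ {t}`, hence `t` is the same.
* If `B` is not empty, `sup B = Q₀ ∈ B` (largest element), normalized by `T`, so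
  `t = Q₀ T` is a p-group (`IsPGroup.to_sup_of_normal_left` or similar; `mem_sup_norm`) in `X`,
  and contains `T ∈ D`, so `t ∈ D` (`hup`); if `B` is empty then `t = T`.
* `t` is comparable with the members of `σ`: those in `B` are `≤ sup B`; those containing `T` contain
  all members of `B`, hence `t`.
* `stab X (insert t σ) ⊓ N(T) = stab X σ ⊓ N(T)`: elements normalizing `T` and `Q₀` normalize `t`.
  In particular `T ≤ stab X (insert t σ)`.
* `(insert t σ).sup id ⊔ T = σ.sup id ⊔ T`.
* the cardinality changes by one.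
-/

namespace Pool.Agent.Lib.P0c8ca5

set_option linter.unusedSectionVars false

variable {p : ℕ} {A : Type*} [Group A]

open Classical in
/-- the chains of members of `D`, including the empty chain -/
noncomputable def Ch (D : Finset (Subgroup A)) : Finset (Finset (Subgroup A)) :=
  D.powerset.filter (fun σ => IsChain (· ≤ ·) (σ : Set (Subgroup A)))

namespace InvAux

open Classical in
/-- the supremum of the members of `σ` not containing `T` -/
noncomputable def ss (σ : Finset (Subgroup A)) (T : Subgroup A) : Subgroup A :=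
  (σ.filter (fun Q => ¬ T ≤ Q)).sup id

/-- the member to be toggled -/
noncomputable def tt (σ : Finset (Subgroup A)) (T : Subgroup A) : Subgroup A := ss σ T ⊔ T

theorem le_tt (σ : Finset (Subgroup A)) (T : Subgroup A) : T ≤ tt σ T := le_sup_right

open Classical in
theorem tt_insert (σ : Finset (Subgroup A)) (T : Subgroup A) :
    tt (insert (tt σ T) σ) T = tt σ T := by
  unfold tt ss
  rw [Finset.filter_insert, if_neg]
  exact fun h => h le_sup_right

open Classical in
theorem tt_erase (σ : Finset (Subgroup A)) (T : Subgroup A) :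
    tt (σ.erase (tt σ T)) T = tt σ T := by
  have h : (σ.erase (tt σ T)).filter (fun Q => ¬ T ≤ Q) = σ.filter (fun Q => ¬ T ≤ Q) := by
    ext Q
    simp only [Finset.mem_filter, Finset.mem_erase]
    constructor
    · rintro ⟨⟨_, h1⟩, h2⟩
      exact ⟨h1, h2⟩
    · rintro ⟨h1, h2⟩
      refine ⟨⟨fun h => h2 ?_, h1⟩, h2⟩
      rw [h]
      exact le_tt σ T
  unfold tt ss at h ⊢
  rw [h]

theorem mem_Ch {D σ : Finset (Subgroup A)} :
    σ ∈ Ch D ↔ σ ⊆ D ∧ IsChain (· ≤ ·) (σ : Set (Subgroup A)) := by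
  classical
  unfold Ch
  rw [Finset.mem_filter, Finset.mem_powerset]

theorem chain_le {σ : Finset (Subgroup A)} (hc : IsChain (· ≤ ·) (σ : Set (Subgroup A)))
    {P Q : Subgroup A} (hP : P ∈ σ) (hQ : Q ∈ σ) : P ≤ Q ∨ Q ≤ P := by
  by_cases h : P = Q
  · left
    rw [h]
  · exact hc (Finset.mem_coe.2 hP) (Finset.mem_coe.2 hQ) h

theorem ss_le {σ : Finset (Subgroup A)} (hc : IsChain (· ≤ ·) (σ : Set (Subgroup A)))
    {T Q : Subgroup A} (hQ : Q ∈ σ) (hT : T ≤ Q) : ss σ T ≤ Q := by
  classical
  unfold ss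
  refine Finset.sup_le fun P hP => ?_
  rw [Finset.mem_filter] at hP
  rcases chain_le hc hP.1 hQ with h | h
  · exact h
  · exact absurd (hT.trans h) hP.2

theorem le_ss {σ : Finset (Subgroup A)} {T Q : Subgroup A} (hQ : Q ∈ σ) (hT : ¬ T ≤ Q) :
    Q ≤ ss σ T := by
  classical
  unfold ss
  exact Finset.le_sup (f := id) (Finset.mem_filter.2 ⟨hQ, hT⟩)

theorem ss_mem {σ : Finset (Subgroup A)} (hc : IsChain (· ≤ ·) (σ : Set (Subgroup A)))
    (T : Subgroup A) : ss σ T = ⊥ ∨ ss σ T ∈ σ := by
  classical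
  have h : ss σ T ∈ ({⊥} ∪ (σ : Set (Subgroup A)) : Set (Subgroup A)) := by
    unfold ss
    refine Finset.sup_mem ({⊥} ∪ (σ : Set (Subgroup A)) : Set (Subgroup A))
      (Or.inl rfl) ?_ _ id fun Q hQ => Or.inr ?_
    · rintro x hx y hy
      rcases hx with hx | hx
      · rw [Set.mem_singleton_iff] at hx
        rw [hx, bot_sup_eq]
        exact hy
      · rcases hy with hy | hy
        · rw [Set.mem_singleton_iff] at hy
          rw [hy, sup_bot_eq]
          exact Or.inr hx
        · rcases chain_le hc (Finset.mem_coe.1 hx) (Finset.mem_coe.1 hy) with h | h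
          · rw [sup_eq_right.2 h]
            exact Or.inr hy
          · rw [sup_eq_left.2 h]
            exact Or.inr hx
    · exact Finset.mem_coe.2 (Finset.mem_filter.1 hQ).1
  rcases h with h | h
  · exact Or.inl h
  · exact Or.inr h

theorem stab_le {X : Subgroup A} {σ : Finset (Subgroup A)} {Q : Subgroup A} (hQ : Q ∈ σ) :
    stab X σ ≤ Subgroup.normalizer (Q : Set A) := by
  unfold stab
  exact inf_le_right.trans (iInf₂_le Q hQ)

theorem stab_norm_ss {X : Subgroup A} {σ : Finset (Subgroup A)}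
    (hc : IsChain (· ≤ ·) (σ : Set (Subgroup A))) (T : Subgroup A) :
    stab X σ ≤ Subgroup.normalizer (ss σ T : Set A) := by
  rcases ss_mem hc T with h | h
  · rw [h]
    have : Subgroup.normalizer ((⊥ : Subgroup A) : Set A) = ⊤ :=
      Subgroup.normalizer_eq_top_iff.2 inferInstance
    rw [this]
    exact le_top
  · exact stab_le h

open Classical in
theorem stab_insert {X : Subgroup A} (σ : Finset (Subgroup A)) (t : Subgroup A) :
    stab X (insert t σ) = stab X σ ⊓ Subgroup.normalizer (t : Set A) := by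
  unfold stab
  rw [Finset.iInf_insert, inf_assoc, inf_comm (⨅ Q ∈ σ, _) _]

open Classical in
theorem stab_inf {X : Subgroup A} {σ : Finset (Subgroup A)}
    (hc : IsChain (· ≤ ·) (σ : Set (Subgroup A))) (T : Subgroup A) :
    stab X (insert (tt σ T) σ) ⊓ Subgroup.normalizer (T : Set A) =
      stab X σ ⊓ Subgroup.normalizer (T : Set A) := by
  rw [stab_insert]
  apply le_antisymm
  · exact inf_le_inf_right _ inf_le_left
  · refine le_inf (le_inf inf_le_left ?_) inf_le_right
    refine (inf_le_inf_right _ (stab_norm_ss hc T)).trans ?_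
    exact Subgroup.normalizer_inf_normalizer_le_normalizer_sup _ _

theorem sup_T {σ : Finset (Subgroup A)} (T : Subgroup A) : ss σ T ≤ σ.sup id := by
  classical
  unfold ss
  exact Finset.sup_mono (Finset.filter_subset _ _)

open Classical in
theorem sup_insert' (σ : Finset (Subgroup A)) (T : Subgroup A) :
    (insert (tt σ T) σ).sup id ⊔ T = σ.sup id ⊔ T := by
  rw [Finset.sup_insert]
  unfold tt
  apply le_antisymm
  · refine sup_le (sup_le (sup_le ((sup_T T).trans le_sup_left) le_sup_right) le_sup_left)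
      le_sup_right
  · exact sup_le (le_sup_right.trans le_sup_left) le_sup_right

theorem tt_mem [Fact p.Prime] {X : Subgroup A} {D : Finset (Subgroup A)}
    (hD : ∀ Q ∈ D, Q ≤ X ∧ IsPGroup p Q)
    (hup : ∀ Q ∈ D, ∀ R : Subgroup A, R ≤ X → IsPGroup p R → Q ≤ R → R ∈ D)
    {σ : Finset (Subgroup A)} (hσ : σ ∈ Ch D) {T : Subgroup A} (hT : T ∈ D)
    (hTs : T ≤ stab X σ) : tt σ T ∈ D := by
  rw [mem_Ch] at hσ
  have hn : T ≤ Subgroup.normalizer (ss σ T : Set A) := hTs.trans (stab_norm_ss hσ.2 T)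
  have hs : ss σ T ≤ X ∧ IsPGroup p (ss σ T) := by
    rcases ss_mem hσ.2 T with h | h
    · rw [h]
      exact ⟨bot_le, IsPGroup.of_bot⟩
    · exact hD _ (hσ.1 h)
  refine hup T hT _ (sup_le hs.1 (hD T hT).1) ?_ (le_tt σ T)
  exact IsPGroup.to_sup_of_normal_left' hs.2 (hD T hT).2 hn

open Classical in
theorem chain_insert {σ : Finset (Subgroup A)}
    (hc : IsChain (· ≤ ·) (σ : Set (Subgroup A))) (T : Subgroup A) :
    IsChain (· ≤ ·) ((insert (tt σ T) σ : Finset (Subgroup A)) : Set (Subgroup A)) := by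
  rw [Finset.coe_insert]
  refine hc.insert fun Q hQ _ => ?_
  have hQ' : Q ∈ σ := Finset.mem_coe.1 hQ
  by_cases h : T ≤ Q
  · exact Or.inl (sup_le (ss_le hc hQ' h) h)
  · exact Or.inr ((le_ss hQ' h).trans le_sup_left)

open Classical in
/-- toggle a member -/
noncomputable def tog (σ : Finset (Subgroup A)) (t : Subgroup A) : Finset (Subgroup A) :=
  if t ∈ σ then σ.erase t else insert t σ

theorem tog_mem {σ : Finset (Subgroup A)} {t : Subgroup A} (h : t ∈ σ) [DecidableEq (Subgroup A)] :
    tog σ t = σ.erase t := by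
  classical
  unfold tog
  rw [if_pos h]
  exact congrArg (fun i : DecidableEq (Subgroup A) => @Finset.erase (Subgroup A) i σ t)
    (Subsingleton.elim _ _)

theorem tog_not_mem {σ : Finset (Subgroup A)} {t : Subgroup A} (h : t ∉ σ)
    [DecidableEq (Subgroup A)] : tog σ t = insert t σ := by
  classical
  unfold tog
  rw [if_neg h]
  exact congrArg (fun i : DecidableEq (Subgroup A) =>
    @Insert.insert (Subgroup A) (Finset (Subgroup A)) (@Finset.instInsert (Subgroup A) i) t σ)
    (Subsingleton.elim _ _)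

end InvAux

open InvAux in
open Classical in
theorem involution [Fact p.Prime] [Finite A] (X : Subgroup A) (D : Finset (Subgroup A))
    (hD : ∀ Q ∈ D, Q ≤ X ∧ IsPGroup p Q)
    (hup : ∀ Q ∈ D, ∀ R : Subgroup A, R ≤ X → IsPGroup p R → Q ≤ R → R ∈ D)
    (W : Subgroup A → Subgroup A → Subgroup A → ℤ) :
    ∑ σ ∈ Ch D, (-1) ^ σ.card * ∑ T ∈ D.filter (fun T => T ≤ stab X σ),
      W (stab X σ ⊓ Subgroup.normalizer (T : Set A)) T (σ.sup id ⊔ T) = 0 := by
  simp_rw [Finset.mul_sum]
  have hcomm : ∀ F : Finset (Subgroup A) → Subgroup A → ℤ,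
      ∑ σ ∈ Ch D, ∑ T ∈ D.filter (fun T => T ≤ stab X σ), F σ T =
      ∑ T ∈ D, ∑ σ ∈ (Ch D).filter (fun σ => T ≤ stab X σ), F σ T := by
    intro F
    refine Finset.sum_comm' fun σ T => ?_
    simp only [Finset.mem_filter]
    tauto
  rw [hcomm]
  refine Finset.sum_eq_zero fun T hT => ?_
  refine Finset.sum_involution (fun σ _ => tog σ (tt σ T)) ?_ ?_ ?_ ?_
  · intro σ hσ
    obtain ⟨hσ, hTs⟩ := Finset.mem_filter.1 hσ
    have hc := (mem_Ch.1 hσ).2
    by_cases h : tt σ T ∈ σ
    · rw [tog_mem h]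
      have hc' : IsChain (· ≤ ·) ((σ.erase (tt σ T) : Finset (Subgroup A)) : Set (Subgroup A)) :=
        hc.mono (Finset.coe_subset.2 (Finset.erase_subset _ _))
      have e1 := stab_inf (X := X) hc' T
      have e2 := sup_insert' (σ.erase (tt σ T)) T
      rw [tt_erase, Finset.insert_erase h] at e1 e2
      rw [← e1, ← e2, ← Finset.card_erase_add_one h, pow_succ]
      ring
    · rw [tog_not_mem h, stab_inf hc T, sup_insert', Finset.card_insert_of_notMem h, pow_succ]
      ring
  · intro σ hσ _ he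
    by_cases h : tt σ T ∈ σ
    · rw [tog_mem h, Finset.erase_eq_self] at he
      exact he h
    · rw [tog_not_mem h, Finset.insert_eq_self] at he
      exact h he
  · intro σ hσ
    obtain ⟨hσ, hTs⟩ := Finset.mem_filter.1 hσ
    have hc := mem_Ch.1 hσ
    rw [Finset.mem_filter]
    by_cases h : tt σ T ∈ σ
    · rw [tog_mem h]
      have hc' : IsChain (· ≤ ·) ((σ.erase (tt σ T) : Finset (Subgroup A)) : Set (Subgroup A)) :=
        hc.2.mono (Finset.coe_subset.2 (Finset.erase_subset _ _))
      refine ⟨mem_Ch.2 ⟨(Finset.erase_subset _ _).trans hc.1, hc'⟩, ?_⟩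
      have e1 := stab_inf (X := X) hc' T
      rw [tt_erase, Finset.insert_erase h] at e1
      have h3 : T ≤ stab X σ ⊓ Subgroup.normalizer (T : Set A) :=
        le_inf hTs Subgroup.le_normalizer
      rw [e1] at h3
      exact h3.trans inf_le_left
    · rw [tog_not_mem h]
      refine ⟨mem_Ch.2 ⟨?_, chain_insert hc.2 T⟩, ?_⟩
      · rw [Finset.insert_subset_iff]
        exact ⟨tt_mem hD hup hσ hT hTs, hc.1⟩
      · have h3 : T ≤ stab X σ ⊓ Subgroup.normalizer (T : Set A) :=
          le_inf hTs Subgroup.le_normalizer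
        rw [← stab_inf hc.2 T] at h3
        exact h3.trans inf_le_left
  · intro σ hσ
    by_cases h : tt σ T ∈ σ
    · simp only [tog_mem h]
      rw [tt_erase, tog_not_mem (Finset.notMem_erase _ _), Finset.insert_erase h]
    · simp only [tog_not_mem h]
      rw [tt_insert, tog_mem (Finset.mem_insert_self _ _), Finset.erase_insert h]

end Pool.Agent.Lib.P0c8ca5
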