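import Mathlib
import Pool.Agent.Lib.P0c8ca5N.WInv

/-! # Module Rad: radical subgroups (see `radical` in the header of WInv) -/

namespace Pool.Agent.Lib.P0c8ca5

open MonoidAlgebra

set_option linter.unusedSectionVars false

variable {p : ℕ} {k : Type*} [Field k] {A : Type*} [Group A]

/-- left multiplication with group elements -/
noncomputable def radMul (V : Subgroup A) : V →* Module.End k (MonoidAlgebra k A) where
  toFun v := LinearMap.mulLeft k (single (v : A) (1 : k))
  map_one' := by
    apply LinearMap.ext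
    intro a
    rw [LinearMap.mulLeft_apply, OneMemClass.coe_one, ← MonoidAlgebra.one_def, one_mul]
    rfl
  map_mul' v w := by
    apply LinearMap.ext
    intro a
    rw [Module.End.mul_apply, LinearMap.mulLeft_apply, LinearMap.mulLeft_apply,
      LinearMap.mulLeft_apply, ← mul_assoc, single_mul_single, one_mul]
    rfl

theorem radMul_apply (V : Subgroup A) (v : V) (a : MonoidAlgebra k A) :
    radMul V v a = single (v : A) (1 : k) * a := rfl

/-- block idempotents are not killed by the Brauer map of a normal p-subgroup -/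
theorem hasBr_of_normal [Fact p.Prime] [CharP k p] [Fintype A] {K V : Subgroup A} (hVK : V ≤ K)
    (hKV : K ≤ Subgroup.normalizer (V : Set A)) (hV : IsPGroup p V) {f : MonoidAlgebra k A}
    (hf : IsBlock K f) : HasBr V f := by
  classical
  by_contra hcon
  obtain ⟨w, hw0, hwV, hwc⟩ := exists_fixed (k := k) hV (radMul (k := k) V) f hf.ne_zero
  have hcomm : ∀ g ∈ K, Commute (single g (1 : k)) f := fun g hg => hf.mem.2 g hg
  -- `f * w = w`
  have hfw : f * w = w := by
    clear hw0 hwV
    induction hwc using AddSubgroup.closure_induction with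
    | mem w hw =>
      obtain ⟨v, rfl⟩ := hw
      change f * radMul V v f = radMul V v f
      rw [radMul_apply, ← mul_assoc, ← (hcomm v (hVK v.2)).eq, mul_assoc, hf.idem]
    | zero => rw [mul_zero]
    | add a b _ _ ha hb => rw [mul_add, ha, hb]
    | neg a _ ha => rw [mul_neg, ha]
  -- the coefficients of `w` are invariant under left multiplication with `V`
  have hinv : ∀ v ∈ V, ∀ x, w.coeff (v * x) = w.coeff x := by
    intro v hv x
    have h1 := hwV ⟨v⁻¹, V.inv_mem hv⟩
    rw [radMul_apply] at h1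
    have h2 := congrArg (fun a : MonoidAlgebra k A => a.coeff x) h1
    simp only [coeff_single_mul_apply, one_mul, inv_inv] at h2
    exact h2
  apply hw0
  rw [← hfw]
  ext y
  change (f * w).coeff y = 0
  rw [coeff_mul_fin]
  rw [sum_conj_eq (p := p) hV (fun x => f.coeff x * w.coeff (x⁻¹ * y)) ?_
    (Finset.univ.filter (fun x => x ∈ Subgroup.centralizer (V : Set A))) (fun x => by simp)]
  · apply Finset.sum_eq_zero
    intro x hx
    rw [Finset.mem_filter] at hx
    have : f.coeff x = 0 := by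
      by_contra h0
      exact hcon ⟨x, hx.2, h0⟩
    rw [this, zero_mul]
  · intro d hd x
    have h1 : f.coeff (d * x * d⁻¹) = f.coeff x := hf.invBy d (hVK hd) x
    by_cases hx : x ∈ K
    · have h2 : (d * x * d⁻¹)⁻¹ * y = d * ((x⁻¹ * d⁻¹ * x) * (x⁻¹ * y)) := by group
      have h3 : x⁻¹ * d⁻¹ * x ∈ V := by
        have h4 := (Subgroup.mem_normalizer_iff.1 (hKV (K.inv_mem hx)) d⁻¹).1 (V.inv_mem hd)
        rwa [inv_inv] at h4
      rw [h1, h2, hinv d hd, hinv _ h3]
    · have h4 : f.coeff x = 0 := by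
        by_contra h0
        exact hx (hf.suppIn x h0)
      rw [h1, h4, zero_mul, zero_mul]

theorem radical [Fact p.Prime] [CharP k p] [Fintype A] {H Q R : Subgroup A} (hQH : Q ≤ H)
    (hHQ : H ≤ Subgroup.normalizer (Q : Set A)) (hQ : IsPGroup p Q) (hR : R ≤ H)
    (hpR : IsPGroup p R) {f : MonoidAlgebra k (NQ R)} (hf : IsDZ p (sec H R) f) : Q ≤ R := by
  classical
  by_contra hcon
  have hRQ : R ≤ Subgroup.normalizer (Q : Set A) := hR.trans hHQ
  have hP : IsPGroup p (Q ⊔ R : Subgroup A) := by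
    intro x
    obtain ⟨n, hn⟩ := pquot_sup hRQ hpR x x.2
    obtain ⟨m, hm⟩ := hQ ⟨(x : A) ^ p ^ n, hn⟩
    refine ⟨n + m, Subtype.ext ?_⟩
    have h2 : ((x : A) ^ p ^ n) ^ p ^ m = 1 := congrArg Subtype.val hm
    change (x : A) ^ p ^ (n + m) = 1
    rw [pow_add, pow_mul, h2]
  have hne : R ≠ Q ⊔ R := by
    intro h
    apply hcon
    rw [h]
    exact le_sup_left
  obtain ⟨x, hx, hxN, hxR⟩ := exists_norm_growth hP le_sup_right hne
  obtain ⟨q, hq, r, hr, rfl⟩ := (mem_sup_norm hRQ).1 hx
  have hqN : q ∈ Subgroup.normalizer (R : Set A) := by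
    have h1 := (Subgroup.normalizer (R : Set A)).mul_mem hxN
      ((Subgroup.normalizer (R : Set A)).inv_mem (Subgroup.le_normalizer hr))
    have e1 : q * r * r⁻¹ = q := by group
    rwa [e1] at h1
  have hqR : q ∉ R := fun h => hxR (R.mul_mem h hr)
  have hVK : sec Q R ≤ sec H R := sec_mono hQH
  have key : ∀ u ∈ sec H R, ∀ v ∈ sec Q R, u * v * u⁻¹ ∈ sec Q R := by
    intro u hu v hv
    obtain ⟨h, hh, hh', rfl⟩ := mem_sec.1 hu
    obtain ⟨z, hz, hz', rfl⟩ := mem_sec.1 hv
    exact qm_mem_sec (x := h * z * h⁻¹) ((Subgroup.normalizer (R : Set A)).mul_mem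
        ((Subgroup.normalizer (R : Set A)).mul_mem hh' hz')
        ((Subgroup.normalizer (R : Set A)).inv_mem hh'))
        ((Subgroup.mem_normalizer_iff.1 (hHQ hh) z).1 hz)
  have hKV : sec H R ≤ Subgroup.normalizer (sec Q R : Set (NQ R)) := by
    intro u hu
    rw [Subgroup.mem_normalizer_iff]
    intro v
    constructor
    · exact key u hu v
    · intro h1
      have h2 := key u⁻¹ ((sec H R).inv_mem hu) _ h1
      have e1 : u⁻¹ * (u * v * u⁻¹) * u⁻¹⁻¹ = v := by group
      rwa [e1] at h2
  have hbr : HasBr (sec Q R) f := hasBr_of_normal hVK hKV (isPGroup_sec hQ) hf.blk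
  have hbot := hf.dz (sec Q R) hVK (isPGroup_sec hQ) hbr
  have h1 : qm R q hqN ∈ sec Q R := qm_mem_sec hqN hq
  rw [hbot, Subgroup.mem_bot, qm_eq_one_iff] at h1
  exact hqR h1

end Pool.Agent.Lib.P0c8ca5
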