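import Mathlib
import Pool.Agent.Lib.P0c8ca5N.Rad

/-!
# Module SecIso: weights of `H = K Q` and of `K`, `Q` a normal p-subgroup of `H`

`K ≤ H ≤ N(K)`, `Q ≤ H ≤ N(Q)` a p-group, `K ⊔ Q = H`, `c ∈ Z(kH)` supported in `K`.
By `radical` only the `R` with `Q ≤ R` contribute on the left and only the `R'` with
`Q ⊓ K ≤ R'` on the right (apply it to `H` and to `K`).  The maps `R ↦ R ⊓ K`, `R' ↦ R' ⊔ Q` are
inverse bijections between `{R : Q ≤ R ≤ H p-group}` and `{R' : Q ⊓ K ≤ R' ≤ K p-group}` (modular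
law, elements of `H` are `y q`).  For corresponding `R`, `R'`:
* `H ⊓ N(R) = (K ⊓ N(R')) ⊔ Q`, hence `|K| |H ⊓ N(R)| = |H| |K ⊓ N(R')|`
  (`|Y ⊔ Q| |Y ⊓ Q| = |Y| |Q|` for `Y` normalizing `Q`, for `Y = K` and `Y = K ⊓ N(R')`, both with
  `Y ⊓ Q = K ⊓ Q`; e.g. `Subgroup.relIndex_sup_right`, `Subgroup.relIndex_inf_mul_relIndex`).
* `w(H, R) = w(K, R')`: with `K₀ = K ⊓ N(R') ≤ N(R)`, the maps `K₀ → NQ R'`, `K₀ → NQ R` have the
  same kernel `R'` and ranges `sec K R'`, `sec H R`; `exists_iso_of_ker` (P0c8ca5.Transport)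
  gives `ψ : sec K R' ≃ sec H R`; `tr ψ` maps blocks of defect zero to such (`tr_isDZ`, and for
  `ψ.symm`), is multiplicative (`tr_mul`) and `tr ψ (proj R' c) = proj R c`, because the coset
  `n R`, `n ∈ K₀`, meets `K` in `n R'` (`coeff_proj`).  Compare `exists_iso`, `tr_proj` in
  P0c8ca5.Weights, P0c8ca5.WeightsB.
-/

namespace Pool.Agent.Lib.P0c8ca5

open MonoidAlgebra

set_option linter.unusedSectionVars false

variable {p : ℕ} {k : Type*} [Field k] {A : Type*} [Group A]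

namespace SecIso

section grp
variable {H K Q R R' Y : Subgroup A}

theorem exists_mul_of_mem (hYQ : Y ≤ Subgroup.normalizer (Q : Set A))
    {x : A} (hx : x ∈ Y ⊔ Q) : ∃ y ∈ Y, ∃ q ∈ Q, x = y * q := by
  have h2 := Subgroup.coe_mul_of_left_le_normalizer_right Y Q hYQ
  have h3 : x ∈ (↑(Y ⊔ Q) : Set A) := hx
  rw [h2, Set.mem_mul] at h3
  obtain ⟨y, hy, q, hq, h4⟩ := h3
  exact ⟨y, hy, q, hq, h4.symm⟩

theorem card_sup_mul_card_inf [Finite A] (hYQ : Y ≤ Subgroup.normalizer (Q : Set A)) :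
    Nat.card ↥(Y ⊔ Q) * Nat.card ↥(Y ⊓ Q) = Nat.card Y * Nat.card Q := by
  have h1 : (Q.subgroupOf Y).index = (Q.subgroupOf (Y ⊔ Q)).index := by
    haveI := Subgroup.normal_subgroupOf_of_le_normalizer hYQ
    haveI := Subgroup.normal_subgroupOf_sup_of_le_normalizer hYQ
    exact Nat.card_congr (QuotientGroup.quotientInfEquivProdNormalizerQuotient Y Q hYQ).toEquiv
  have h2 := Subgroup.card_mul_index (Q.subgroupOf (Y ⊔ Q))
  have h3 := Subgroup.card_mul_index (Q.subgroupOf Y)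
  have h4 : Nat.card ↥(Q.subgroupOf (Y ⊔ Q)) = Nat.card Q :=
    Nat.card_congr (Subgroup.subgroupOfEquivOfLe le_sup_right).toEquiv
  have h5 : Nat.card ↥(Q.subgroupOf Y) = Nat.card ↥(Y ⊓ Q) := by
    rw [← Subgroup.inf_subgroupOf_left]
    exact Nat.card_congr (Subgroup.subgroupOfEquivOfLe inf_le_left).toEquiv
  rw [← h2, ← h3, h4, h5, h1]
  ring

/-- conjugating by an element of both normalizers normalizes the join -/
theorem mem_normalizer_sup {x : A} (h1 : x ∈ Subgroup.normalizer (R' : Set A))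
    (h2 : x ∈ Subgroup.normalizer (Q : Set A)) :
    x ∈ Subgroup.normalizer ((R' ⊔ Q : Subgroup A) : Set A) := by
  have key : ∀ x : A, x ∈ Subgroup.normalizer (R' : Set A) →
      x ∈ Subgroup.normalizer (Q : Set A) → ∀ y ∈ R' ⊔ Q, x * y * x⁻¹ ∈ R' ⊔ Q := by
    intro x h1 h2 y hy
    have h3 : (R' ⊔ Q).map (MulAut.conj x).toMonoidHom = R' ⊔ Q := by
      rw [Subgroup.map_sup]
      congr 1
      · ext z
        constructor
        · rintro ⟨w, hw, rfl⟩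
          exact (Subgroup.mem_normalizer_iff.1 h1 w).1 hw
        · intro hz
          refine ⟨x⁻¹ * z * x, ?_, ?_⟩
          · apply (Subgroup.mem_normalizer_iff.1 h1 _).2
            have e1 : x * (x⁻¹ * z * x) * x⁻¹ = z := by group
            rw [e1]; exact hz
          · change x * (x⁻¹ * z * x) * x⁻¹ = z
            group
      · ext z
        constructor
        · rintro ⟨w, hw, rfl⟩
          exact (Subgroup.mem_normalizer_iff.1 h2 w).1 hw
        · intro hz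
          refine ⟨x⁻¹ * z * x, ?_, ?_⟩
          · apply (Subgroup.mem_normalizer_iff.1 h2 _).2
            have e1 : x * (x⁻¹ * z * x) * x⁻¹ = z := by group
            rw [e1]; exact hz
          · change x * (x⁻¹ * z * x) * x⁻¹ = z
            group
    rw [← h3]
    exact ⟨y, hy, rfl⟩
  rw [Subgroup.mem_normalizer_iff]
  intro y
  constructor
  · exact key x h1 h2 y
  · intro hy
    have h3 := key x⁻¹ ((Subgroup.normalizer (R' : Set A)).inv_mem h1)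
      ((Subgroup.normalizer (Q : Set A)).inv_mem h2) _ hy
    have e1 : x⁻¹ * (x * y * x⁻¹) * x⁻¹⁻¹ = y := by group
    rwa [e1] at h3

theorem mem_normalizer_inf {x : A} (h1 : x ∈ Subgroup.normalizer (R : Set A))
    (h2 : x ∈ Subgroup.normalizer (K : Set A)) :
    x ∈ Subgroup.normalizer ((R ⊓ K : Subgroup A) : Set A) := by
  rw [Subgroup.mem_normalizer_iff] at h1 h2 ⊢
  intro y
  rw [Subgroup.mem_inf, Subgroup.mem_inf, h1 y, h2 y]

theorem inf_sup_eq (hKH : K ≤ H) (hHQ : H ≤ Subgroup.normalizer (Q : Set A)) (hKQ : K ⊔ Q = H)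
    (hQR : Q ≤ R) (hRH : R ≤ H) : R ⊓ K ⊔ Q = R := by
  apply le_antisymm (sup_le inf_le_left hQR)
  intro x hx
  have h1 : x ∈ K ⊔ Q := by rw [hKQ]; exact hRH hx
  obtain ⟨y, hy, q, hq, rfl⟩ := exists_mul_of_mem (hKH.trans hHQ) h1
  have h2 : y ∈ R := by
    have := R.mul_mem hx (R.inv_mem (hQR hq))
    have e1 : y * q * q⁻¹ = y := by group
    rwa [e1] at this
  exact Subgroup.mul_mem _ (Subgroup.mem_sup_left (Subgroup.mem_inf.2 ⟨h2, hy⟩))
    (Subgroup.mem_sup_right hq)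

theorem sup_inf_eq (hKH : K ≤ H) (hHQ : H ≤ Subgroup.normalizer (Q : Set A))
    (hQR : Q ⊓ K ≤ R') (hRK : R' ≤ K) : (R' ⊔ Q) ⊓ K = R' := by
  apply le_antisymm _ (le_inf le_sup_left hRK)
  intro x hx
  obtain ⟨h1, h2⟩ := Subgroup.mem_inf.1 hx
  obtain ⟨y, hy, q, hq, rfl⟩ := exists_mul_of_mem (hRK.trans (hKH.trans hHQ)) h1
  have h3 : q ∈ K := by
    have := K.mul_mem (K.inv_mem (hRK hy)) h2
    have e1 : y⁻¹ * (y * q) = q := by group
    rwa [e1] at this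
  exact R'.mul_mem hy (hQR (Subgroup.mem_inf.2 ⟨hq, h3⟩))

theorem normalizer_eq (hKH : K ≤ H) (hHK : H ≤ Subgroup.normalizer (K : Set A)) (hQH : Q ≤ H)
    (hHQ : H ≤ Subgroup.normalizer (Q : Set A)) (hKQ : K ⊔ Q = H)
    (hQR : Q ≤ R) (hRH : R ≤ H) :
    H ⊓ Subgroup.normalizer (R : Set A)
      = (K ⊓ Subgroup.normalizer ((R ⊓ K : Subgroup A) : Set A)) ⊔ Q := by
  apply le_antisymm
  · intro x hx
    obtain ⟨h1, h2⟩ := Subgroup.mem_inf.1 hx
    rw [← hKQ] at h1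
    obtain ⟨y, hy, q, hq, rfl⟩ := exists_mul_of_mem (hKH.trans hHQ) h1
    have h3 : y ∈ Subgroup.normalizer (R : Set A) := by
      have := (Subgroup.normalizer (R : Set A)).mul_mem h2
        ((Subgroup.normalizer (R : Set A)).inv_mem (Subgroup.le_normalizer (hQR hq)))
      have e1 : y * q * q⁻¹ = y := by group
      rwa [e1] at this
    exact Subgroup.mul_mem _ (Subgroup.mem_sup_left (Subgroup.mem_inf.2
      ⟨hy, mem_normalizer_inf h3 (hHK (hKH hy))⟩)) (Subgroup.mem_sup_right hq)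
  · apply sup_le
    · intro x hx
      obtain ⟨h1, h2⟩ := Subgroup.mem_inf.1 hx
      refine Subgroup.mem_inf.2 ⟨hKH h1, ?_⟩
      have h3 := mem_normalizer_sup h2 (hHQ (hKH h1))
      rwa [inf_sup_eq hKH hHQ hKQ hQR hRH] at h3
    · exact le_inf hQH (hQR.trans Subgroup.le_normalizer)

theorem card_eq [Finite A] (hKH : K ≤ H) (hHK : H ≤ Subgroup.normalizer (K : Set A)) (hQH : Q ≤ H)
    (hHQ : H ≤ Subgroup.normalizer (Q : Set A)) (hKQ : K ⊔ Q = H)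
    (hQR : Q ≤ R) (hRH : R ≤ H) :
    Nat.card K * Nat.card ↥(H ⊓ Subgroup.normalizer (R : Set A))
      = Nat.card H * Nat.card ↥(K ⊓ Subgroup.normalizer ((R ⊓ K : Subgroup A) : Set A)) := by
  have h1 := card_sup_mul_card_inf (Y := K) (Q := Q) (hKH.trans hHQ)
  have h2 := card_sup_mul_card_inf
    (Y := K ⊓ Subgroup.normalizer ((R ⊓ K : Subgroup A) : Set A)) (Q := Q)
    (inf_le_left.trans (hKH.trans hHQ))
  rw [← normalizer_eq hKH hHK hQH hHQ hKQ hQR hRH] at h2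
  have h3 : K ⊓ Subgroup.normalizer ((R ⊓ K : Subgroup A) : Set A) ⊓ Q = K ⊓ Q := by
    apply le_antisymm
    · exact inf_le_inf inf_le_left le_rfl
    · intro x hx
      obtain ⟨hx1, hx2⟩ := Subgroup.mem_inf.1 hx
      refine Subgroup.mem_inf.2 ⟨Subgroup.mem_inf.2 ⟨hx1, ?_⟩, hx2⟩
      exact Subgroup.le_normalizer (Subgroup.mem_inf.2 ⟨hQR hx2, hx1⟩)
  rw [h3] at h2
  rw [hKQ] at h1
  have h4 : 0 < Nat.card ↥(K ⊓ Q) := Nat.card_pos
  apply Nat.eq_of_mul_eq_mul_right h4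
  calc Nat.card K * Nat.card ↥(H ⊓ Subgroup.normalizer (R : Set A)) * Nat.card ↥(K ⊓ Q)
      = Nat.card K * (Nat.card ↥(H ⊓ Subgroup.normalizer (R : Set A)) * Nat.card ↥(K ⊓ Q)) := by
        ring
    _ = (Nat.card K * Nat.card Q)
        * Nat.card ↥(K ⊓ Subgroup.normalizer ((R ⊓ K : Subgroup A) : Set A)) := by rw [h2]; ring
    _ = _ := by rw [← h1]; ring

end grp

section wt
variable {H K Q R : Subgroup A}

theorem exists_iso_sec (hKH : K ≤ H) (hHQ : H ≤ Subgroup.normalizer (Q : Set A))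
    (hKQ : K ⊔ Q = H) (hHK : H ≤ Subgroup.normalizer (K : Set A)) (hQH : Q ≤ H)
    (hQR : Q ≤ R) (hRH : R ≤ H) :
    ∃ ψ : ↥(sec K (R ⊓ K)) ≃* ↥(sec H R),
      ∀ (n : A) (hn : n ∈ Subgroup.normalizer ((R ⊓ K : Subgroup A) : Set A))
        (hnR : n ∈ Subgroup.normalizer (R : Set A)) (_ : n ∈ K) (c : ↥(sec K (R ⊓ K))),
        (c : NQ (R ⊓ K)) = qm (R ⊓ K) n hn → ((ψ c : ↥(sec H R)) : NQ R) = qm R n hnR := by
  have hle : K ⊓ Subgroup.normalizer ((R ⊓ K : Subgroup A) : Set A)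
      ≤ Subgroup.normalizer (R : Set A) := by
    have h1 := normalizer_eq hKH hHK hQH hHQ hKQ hQR hRH
    have h2 : K ⊓ Subgroup.normalizer ((R ⊓ K : Subgroup A) : Set A)
      ≤ H ⊓ Subgroup.normalizer (R : Set A) := by rw [h1]; exact le_sup_left
    exact h2.trans inf_le_right
  let α : ↥(K ⊓ Subgroup.normalizer ((R ⊓ K : Subgroup A) : Set A)) →* NQ (R ⊓ K) :=
    (QuotientGroup.mk' _).comp (Subgroup.inclusion inf_le_right)
  let β : ↥(K ⊓ Subgroup.normalizer ((R ⊓ K : Subgroup A) : Set A)) →* NQ R :=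
    (QuotientGroup.mk' _).comp (Subgroup.inclusion hle)
  have hα : ∀ x, α x = qm (R ⊓ K) x (Subgroup.mem_inf.1 x.2).2 := fun x => rfl
  have hβ : ∀ x, β x = qm R x (hle x.2) := fun x => rfl
  obtain ⟨ψ, hψ⟩ := exists_iso_of_ker (C₁ := sec K (R ⊓ K)) (C₂ := sec H R) α β
    (fun x => by
      rw [hα, hβ, qm_eq_one_iff, qm_eq_one_iff, Subgroup.mem_inf]
      exact ⟨fun h => h.1, fun h => ⟨h, (Subgroup.mem_inf.1 x.2).1⟩⟩)
    (by
      ext w
      rw [MonoidHom.mem_range, mem_sec]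
      constructor
      · rintro ⟨x, rfl⟩
        exact ⟨x, (Subgroup.mem_inf.1 x.2).1, (Subgroup.mem_inf.1 x.2).2, rfl⟩
      · rintro ⟨g, hg, hg', rfl⟩
        exact ⟨⟨g, Subgroup.mem_inf.2 ⟨hg, hg'⟩⟩, rfl⟩)
    (by
      ext w
      rw [MonoidHom.mem_range, mem_sec]
      constructor
      · rintro ⟨x, rfl⟩
        exact ⟨x, hKH (Subgroup.mem_inf.1 x.2).1, hle x.2, rfl⟩
      · rintro ⟨g, hg, hg', rfl⟩
        have h1 : g ∈ (K ⊓ Subgroup.normalizer ((R ⊓ K : Subgroup A) : Set A)) ⊔ Q := by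
          rw [← normalizer_eq hKH hHK hQH hHQ hKQ hQR hRH]
          exact Subgroup.mem_inf.2 ⟨hg, hg'⟩
        obtain ⟨y, hy, q, hq, rfl⟩ := exists_mul_of_mem (inf_le_left.trans (hKH.trans hHQ)) h1
        refine ⟨⟨y, hy⟩, ?_⟩
        rw [hβ, qm_eq_iff]
        have e1 : y⁻¹ * (y * q) = q := by group
        change y⁻¹ * (y * q) ∈ R
        rw [e1]
        exact hQR hq)
  exact ⟨ψ, fun n hn hnR hnK c hc => hψ ⟨n, Subgroup.mem_inf.2 ⟨hnK, hn⟩⟩ c hc⟩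

theorem tr_proj [Fintype A] (hKH : K ≤ H) (hHQ : H ≤ Subgroup.normalizer (Q : Set A))
    (hKQ : K ⊔ Q = H) (hHK : H ≤ Subgroup.normalizer (K : Set A)) (hQH : Q ≤ H)
    (hQR : Q ≤ R) (hRH : R ≤ H) {c : MonoidAlgebra k A} (hc : SuppIn K c)
    {ψ : ↥(sec K (R ⊓ K)) ≃* ↥(sec H R)}
    (hψ : ∀ (n : A) (hn : n ∈ Subgroup.normalizer ((R ⊓ K : Subgroup A) : Set A))
        (hnR : n ∈ Subgroup.normalizer (R : Set A)) (_ : n ∈ K) (c : ↥(sec K (R ⊓ K))),
        (c : NQ (R ⊓ K)) = qm (R ⊓ K) n hn → ((ψ c : ↥(sec H R)) : NQ R) = qm R n hnR) :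
    tr ψ (proj (R ⊓ K) c) = proj R c := by
  classical
  ext y
  by_cases hy : y ∈ sec H R
  · obtain ⟨g, hg, hg', rfl⟩ := mem_sec.1 hy
    have h1 : g ∈ (K ⊓ Subgroup.normalizer ((R ⊓ K : Subgroup A) : Set A)) ⊔ Q := by
      rw [← normalizer_eq hKH hHK hQH hHQ hKQ hQR hRH]
      exact Subgroup.mem_inf.2 ⟨hg, hg'⟩
    obtain ⟨n, hn, q, hq, rfl⟩ := exists_mul_of_mem (inf_le_left.trans (hKH.trans hHQ)) h1
    have hnR : n ∈ Subgroup.normalizer (R : Set A) := by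
      have := (Subgroup.normalizer (R : Set A)).mul_mem hg'
        ((Subgroup.normalizer (R : Set A)).inv_mem (Subgroup.le_normalizer (hQR hq)))
      have e1 : n * q * q⁻¹ = n := by group
      rwa [e1] at this
    have e2 : qm R (n * q) hg' = qm R n hnR := by
      rw [qm_eq_iff]
      have e1 : (n * q)⁻¹ * n = q⁻¹ := by group
      rw [e1]
      exact R.inv_mem (hQR hq)
    obtain ⟨hnK, hnN⟩ := Subgroup.mem_inf.1 hn
    have h2 := hψ n hnN hnR hnK ⟨qm (R ⊓ K) n hnN, qm_mem_sec _ hnK⟩ rfl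
    rw [e2, ← h2, coeff_tr, h2, coeff_proj, coeff_proj]
    refine Finset.sum_congr rfl (fun x _ => ?_)
    by_cases hx : x ∈ K
    · have : n⁻¹ * x ∈ R ⊓ K ↔ n⁻¹ * x ∈ R := by
        rw [Subgroup.mem_inf]
        exact ⟨fun h => h.1, fun h => ⟨h, K.mul_mem (K.inv_mem hnK) hx⟩⟩
      simp only [this]
    · have : c.coeff x = 0 := by
        by_contra h; exact hx (hc x h)
      rw [this]; simp
  · rw [coeff_tr_of_notMem _ _ hy]
    by_contra h
    exact hy (proj_suppIn (hc.mono hKH) R y (Ne.symm h))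

theorem weights_eq [Fintype A] (hKH : K ≤ H) (hHQ : H ≤ Subgroup.normalizer (Q : Set A))
    (hKQ : K ⊔ Q = H) (hHK : H ≤ Subgroup.normalizer (K : Set A)) (hQH : Q ≤ H)
    (hQR : Q ≤ R) (hRH : R ≤ H) {c : MonoidAlgebra k A} (hc : SuppIn K c) :
    Nat.card {f : MonoidAlgebra k (NQ R) | IsDZ p (sec H R) f ∧ f * proj R c = f}
      = Nat.card {f : MonoidAlgebra k (NQ (R ⊓ K)) |
          IsDZ p (sec K (R ⊓ K)) f ∧ f * proj (R ⊓ K) c = f} := by
  obtain ⟨ψ, hψ⟩ := exists_iso_sec hKH hHQ hKQ hHK hQH hQR hRH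
  have htr := tr_proj hKH hHQ hKQ hHK hQH hQR hRH hc hψ
  have hs1 : SuppIn (sec K (R ⊓ K)) (proj (R ⊓ K) c) := proj_suppIn hc _
  have hs2 : SuppIn (sec H R) (proj R c) := proj_suppIn (hc.mono hKH) _
  have htr' : tr ψ.symm (proj R c) = proj (R ⊓ K) c := by
    rw [← htr, tr_symm_tr ψ hs1]
  symm
  refine Nat.card_congr
    { toFun := fun f => ⟨tr ψ f.1, tr_isDZ ψ f.2.1, ?_⟩
      invFun := fun f => ⟨tr ψ.symm f.1, tr_isDZ ψ.symm f.2.1, ?_⟩
      left_inv := ?_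
      right_inv := ?_ }
  · rw [← htr, ← tr_mul ψ f.2.1.blk.suppIn hs1, f.2.2]
  · rw [← htr', ← tr_mul ψ.symm f.2.1.blk.suppIn hs2, f.2.2]
  · intro f
    exact Subtype.ext (tr_symm_tr ψ f.2.1.blk.suppIn)
  · intro f
    exact Subtype.ext (tr_tr_symm ψ f.2.1.blk.suppIn)

end wt

end SecIso

theorem sum_weights_eq [Fact p.Prime] [CharP k p] [IsAlgClosed k] [Fintype A]
    {H K Q : Subgroup A} (hKH : K ≤ H) (hHK : H ≤ Subgroup.normalizer (K : Set A))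
    (hQH : Q ≤ H) (hHQ : H ≤ Subgroup.normalizer (Q : Set A)) (hQ : IsPGroup p Q)
    (hKQ : K ⊔ Q = H) {c : MonoidAlgebra k A} (hc : SuppIn K c) (hc' : InvBy H c)
    (hcc : c * c = c)
    (DH : Finset (Subgroup A)) (hDH : ∀ R, R ∈ DH ↔ R ≤ H ∧ IsPGroup p R)
    (DK : Finset (Subgroup A)) (hDK : ∀ R, R ∈ DK ↔ R ≤ K ∧ IsPGroup p R) :
    Nat.card K * ∑ R ∈ DH, Nat.card ↥(H ⊓ Subgroup.normalizer (R : Set A))
          * Nat.card {f : MonoidAlgebra k (NQ R) | IsDZ p (sec H R) f ∧ f * proj R c = f}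
      = Nat.card H * ∑ R ∈ DK, Nat.card ↥(K ⊓ Subgroup.normalizer (R : Set A))
          * Nat.card {f : MonoidAlgebra k (NQ R) | IsDZ p (sec K R) f ∧ f * proj R c = f} := by
  classical
  have hz1 : ∀ R ∈ DH, R ∉ DH.filter (fun R => Q ≤ R) →
      Nat.card ↥(H ⊓ Subgroup.normalizer (R : Set A))
          * Nat.card {f : MonoidAlgebra k (NQ R) | IsDZ p (sec H R) f ∧ f * proj R c = f} = 0 := by
    intro R hR hR'
    have h1 : ¬ Q ≤ R := fun h => hR' (Finset.mem_filter.2 ⟨hR, h⟩)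
    obtain ⟨h2, h3⟩ := (hDH R).1 hR
    have h4 : {f : MonoidAlgebra k (NQ R) | IsDZ p (sec H R) f ∧ f * proj R c = f} = ∅ := by
      rw [Set.eq_empty_iff_forall_notMem]
      rintro f ⟨hf, _⟩
      exact h1 (radical hQH hHQ hQ h2 h3 hf)
    rw [h4]
    simp
  have hKQn : K ≤ Subgroup.normalizer ((Q ⊓ K : Subgroup A) : Set A) := fun x hx =>
    SecIso.mem_normalizer_inf (hHQ (hKH hx)) (hHK (hKH hx))
  have hQKp : IsPGroup p ↥(Q ⊓ K) := hQ.to_le inf_le_left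
  have hz2 : ∀ R ∈ DK, R ∉ DK.filter (fun R => Q ⊓ K ≤ R) →
      Nat.card ↥(K ⊓ Subgroup.normalizer (R : Set A))
          * Nat.card {f : MonoidAlgebra k (NQ R) | IsDZ p (sec K R) f ∧ f * proj R c = f} = 0 := by
    intro R hR hR'
    have h1 : ¬ Q ⊓ K ≤ R := fun h => hR' (Finset.mem_filter.2 ⟨hR, h⟩)
    obtain ⟨h2, h3⟩ := (hDK R).1 hR
    have h4 : {f : MonoidAlgebra k (NQ R) | IsDZ p (sec K R) f ∧ f * proj R c = f} = ∅ := by
      rw [Set.eq_empty_iff_forall_notMem]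
      rintro f ⟨hf, _⟩
      exact h1 (radical inf_le_right hKQn hQKp h2 h3 hf)
    rw [h4]
    simp
  rw [← Finset.sum_subset (Finset.filter_subset _ _) hz1,
    ← Finset.sum_subset (Finset.filter_subset _ _) hz2, Finset.mul_sum, Finset.mul_sum]
  refine Finset.sum_bij' (fun R _ => R ⊓ K) (fun R' _ => R' ⊔ Q) ?_ ?_ ?_ ?_ ?_
  · intro R hR
    obtain ⟨hR1, hR2⟩ := Finset.mem_filter.1 hR
    obtain ⟨h2, h3⟩ := (hDH R).1 hR1
    rw [Finset.mem_filter, hDK]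
    exact ⟨⟨inf_le_right, h3.to_le inf_le_left⟩, inf_le_inf hR2 le_rfl⟩
  · intro R' hR'
    obtain ⟨hR1, hR2⟩ := Finset.mem_filter.1 hR'
    obtain ⟨h2, h3⟩ := (hDK R').1 hR1
    rw [Finset.mem_filter, hDH]
    exact ⟨⟨sup_le (h2.trans hKH) hQH,
      h3.to_sup_of_normal_right' hQ (h2.trans (hKH.trans hHQ))⟩, le_sup_right⟩
  · intro R hR
    obtain ⟨hR1, hR2⟩ := Finset.mem_filter.1 hR
    exact SecIso.inf_sup_eq hKH hHQ hKQ hR2 ((hDH R).1 hR1).1
  · intro R' hR'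
    obtain ⟨hR1, hR2⟩ := Finset.mem_filter.1 hR'
    exact SecIso.sup_inf_eq hKH hHQ hR2 ((hDK R').1 hR1).1
  · intro R hR
    obtain ⟨hR1, hR2⟩ := Finset.mem_filter.1 hR
    obtain ⟨h2, h3⟩ := (hDH R).1 hR1
    rw [SecIso.weights_eq hKH hHQ hKQ hHK hQH hR2 h2 hc, ← mul_assoc, ← mul_assoc,
      SecIso.card_eq hKH hHK hQH hHQ hKQ hR2 h2]

end Pool.Agent.Lib.P0c8ca5
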