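import Mathlib
import Pool.Agent.Lib.P0c8ca5N.FA
import Pool.Agent.Lib.P0c8ca5N.FB3
import Pool.Agent.Lib.P0c8ca5N.Blk3
import Pool.Agent.Lib.P0c8ca5N.CopB
import Pool.Agent.Lib.P0c8ca5N.Inv
import Pool.Agent.Lib.P0c8ca5N.WSum
import Pool.Agent.Lib.P0c8ca5N.SecIso

/-! # Preliminaries of the assembly -/

namespace Pool.Agent.Lib.P0c8ca5

open MonoidAlgebra

set_option linter.unusedSectionVars false

variable {p : ℕ} {k : Type*} [Field k] {A : Type*} [Group A]

theorem stab_empty (X : Subgroup A) : stab X ∅ = X := by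
  simp [stab]

theorem mem_stab {X : Subgroup A} {σ : Finset (Subgroup A)} {x : A} :
    x ∈ stab X σ ↔ x ∈ X ∧ ∀ Q ∈ σ, x ∈ Subgroup.normalizer (Q : Set A) := by
  simp [stab, Subgroup.mem_inf, Subgroup.mem_iInf]

theorem cS_bot (e : MonoidAlgebra k A) : cS (⊥ : Subgroup A) e = e := by
  ext x
  rw [coeff_resS_of_mem]
  rw [SetLike.mem_coe, Subgroup.mem_centralizer_iff]
  intro y hy
  rw [SetLike.mem_coe, Subgroup.mem_bot] at hy
  rw [hy, one_mul, mul_one]

/-- a nonempty finite chain contains its supremum -/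
theorem sup_mem_chain {σ : Finset (Subgroup A)} (hne : σ.Nonempty)
    (hσ : IsChain (· ≤ ·) (σ : Set (Subgroup A))) : σ.sup id ∈ σ := by
  obtain ⟨Q, hQ⟩ := σ.exists_maximal hne
  have : σ.sup id = Q := by
    apply le_antisymm
    · apply Finset.sup_le
      intro R hR
      rcases eq_or_ne R Q with h | h
      · exact h.le
      · rcases hσ hR hQ.prop h with h1 | h1
        · exact h1
        · exact (hQ.eq_of_le hR h1).symm.le
    · exact Finset.le_sup (f := id) hQ.prop
  rw [this]; exact hQ.prop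

/-- a nonempty finite chain has a least element -/
theorem exists_least {σ : Finset (Subgroup A)} (hne : σ.Nonempty)
    (hσ : IsChain (· ≤ ·) (σ : Set (Subgroup A))) : ∃ Q ∈ σ, ∀ R ∈ σ, Q ≤ R := by
  obtain ⟨Q, hQ⟩ := σ.exists_minimal hne
  refine ⟨Q, hQ.prop, fun R hR => ?_⟩
  rcases eq_or_ne R Q with h | h
  · exact h.symm.le
  · rcases hσ hR hQ.prop h with h1 | h1
    · exact (hQ.eq_of_ge hR h1).symm.ge
    · exact h1

end Pool.Agent.Lib.P0c8ca5
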