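import Mathlib
import Pool.Agent.Lib.P0c8ca5N.Final

/-! # The exact formula for the difference of the two sides of Navarro's equality -/

namespace Pool.Agent.Lib.P0c8ca5

open MonoidAlgebra

set_option linter.unusedSectionVars false

variable {p : ℕ} {k : Type*} [Field k] {A : Type*} [Group A]

/-- The left side minus the right side of Navarro's equality for `N ≤ H` and the block `e` of `N`:
`|IBr_H(B)| - Σ |dz(N_H(Q)/Q | B)|`, the sum over the `H`-classes in `Θ_B`; it is written as a sum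
over all `Q` in `Θ_B` with weights `|N_H(Q)| / |H|`. -/
noncomputable def gap (p : ℕ) (N H : Subgroup A) (e : MonoidAlgebra k A) : ℚ :=
  (Nat.card (Quotient (irrInvSetoid N H e)) : ℚ) -
    ∑ᶠ (Q : Subgroup A) (_ : Q ∈ Theta p N H e),
      (Nat.card ↥(H ⊓ Subgroup.normalizer (Q : Set A)) : ℚ) / (Nat.card H : ℚ)
        * (Nat.card (DZ p H e Q) : ℚ)

section
variable [Fact p.Prime] [CharP k p] [IsAlgClosed k] [Fintype A]

theorem isBlock_up' {G X : Subgroup A} (hGX : G ≤ X)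
    (hn : X ≤ Subgroup.normalizer (G : Set A)) (hp : ∀ x ∈ X, ∃ n : ℕ, x ^ p ^ n ∈ G)
    {e : MonoidAlgebra k A} (he : IsBlock G e) (hinv : InvBy X e) : IsBlock X e :=
  { mem := mem_fixAlg.2 ⟨he.suppIn.mono hGX, hinv⟩
    idem := he.idem
    ne_zero := he.ne_zero
    prim := fun f hf hff hfe => by
      have h1 : SuppIn G f := supp_in_of_pQuotient hGX hn hp hf hff
      exact he.prim f (mem_fixAlg.2 ⟨h1, (mem_fixAlg.1 hf).2.mono hGX⟩) hff hfe }

theorem mem_Theta_of_ne {G X : Subgroup A} (hGX : G ≤ X) {e : MonoidAlgebra k A}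
    (hinv : InvBy X e) {Q : Subgroup A} (hQ : Q ∈ Supp p G X)
    (hw : Nat.card {f : MonoidAlgebra k (NQ Q) | IsDZ p (sec X Q) f ∧ f * proj Q e = f} ≠ 0) :
    Q ∈ Theta p G X e := by
  obtain ⟨h1, h2, h3⟩ := hQ
  obtain ⟨⟨f, hf1, hf2⟩⟩ : Nonempty
      {f : MonoidAlgebra k (NQ Q) | IsDZ p (sec X Q) f ∧ f * proj Q e = f} := by
    by_contra hemp
    rw [not_nonempty_iff] at hemp
    exact hw Nat.card_of_isEmpty
  have h4 : proj Q e ≠ 0 := by
    intro h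
    rw [h, mul_zero] at hf2
    exact hf1.blk.ne_zero hf2.symm
  have h5 : HasBr Q e := hasBr_of_proj (p := p) h2 (hinv.mono h1) h4
  have h6 : HasBr (Q ⊓ G) e := by
    obtain ⟨x, hx, hx'⟩ := h5
    exact ⟨x, Subgroup.centralizer_le (inf_le_left : Q ⊓ G ≤ Q) hx, hx'⟩
  obtain ⟨D', hD', hQD⟩ := exists_defect (p := p) (N := G) (P := Q ⊓ G) inf_le_right
    (h2.to_le inf_le_left) h6
  exact ⟨h1, h2, h3, D', hD', hQD⟩

/-- the right side of Navarro's equality as a weighted sum -/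
theorem sum_DZ_supp {G X : Subgroup A} (hGX : G ≤ X)
    (hn : X ≤ Subgroup.normalizer (G : Set A)) (hp : ∀ x ∈ X, ∃ n : ℕ, x ^ p ^ n ∈ G)
    {e : MonoidAlgebra k A} (he : IsBlock G e) (hinv : InvBy X e) (T : Finset (Subgroup A))
    (hT1 : ↑T ⊆ Theta p G X e) (hT2 : ∀ Q ∈ Theta p G X e,
      ∃! Q', Q' ∈ T ∧ ∃ h ∈ X, Q' = Q.map (MulAut.conj h).toMonoidHom)
    (D : Finset (Subgroup A)) (hD : ∀ Q, Q ∈ D ↔ Q ∈ Supp p G X) :
    Nat.card X * ∑ Q ∈ T, Nat.card (DZ p X e Q)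
      = ∑ Q ∈ D, Nat.card ↥(X ⊓ Subgroup.normalizer (Q : Set A))
          * Nat.card {f : MonoidAlgebra k (NQ Q) | IsDZ p (sec X Q) f ∧ f * proj Q e = f} := by
  have heX := isBlock_up' hGX hn hp he hinv
  let w : Subgroup A → ℕ := fun Q =>
    Nat.card {f : MonoidAlgebra k (NQ Q) | IsDZ p (sec X Q) f ∧ f * proj Q e = f}
  have hwc : ∀ Q, ∀ h ∈ X, w (cg h Q) = w Q := fun Q h hh =>
    card_cg_eq heX.suppIn heX.invBy hh
  have h3 := sum_transversal hn T hT1 hT2 D (fun Q => by rw [hD]; exact Iff.rfl) w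
    (fun Q hQ hwQ => mem_Theta_of_ne hGX hinv ((hD Q).1 hQ) hwQ) hwc
  have h4 : ∑ Q ∈ T, Nat.card (DZ p X e Q) = ∑ Q ∈ T, w Q := by
    refine Finset.sum_congr rfl (fun Q hQ => ?_)
    obtain ⟨h5, h6, _⟩ := hT1 hQ
    rw [DZ_eq h5 h6 heX]
  rw [h4, ← h3]

/-- the same for the sum in the definition of `gap` -/
theorem finsum_DZ_supp {G X : Subgroup A} (hGX : G ≤ X)
    (hn : X ≤ Subgroup.normalizer (G : Set A)) (hp : ∀ x ∈ X, ∃ n : ℕ, x ^ p ^ n ∈ G)
    {e : MonoidAlgebra k A} (he : IsBlock G e) (hinv : InvBy X e)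
    (D : Finset (Subgroup A)) (hD : ∀ Q, Q ∈ D ↔ Q ∈ Supp p G X) :
    (Nat.card X : ℚ) * ∑ᶠ (Q : Subgroup A) (_ : Q ∈ Theta p G X e),
      (Nat.card ↥(X ⊓ Subgroup.normalizer (Q : Set A)) : ℚ) / (Nat.card X : ℚ)
        * (Nat.card (DZ p X e Q) : ℚ)
      = ((∑ Q ∈ D, Nat.card ↥(X ⊓ Subgroup.normalizer (Q : Set A))
          * Nat.card {f : MonoidAlgebra k (NQ Q) | IsDZ p (sec X Q) f ∧
            f * proj Q e = f} : ℕ) : ℚ) := by
  classical
  have heX := isBlock_up' hGX hn hp he hinv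
  have h1 : ∑ᶠ (Q : Subgroup A) (_ : Q ∈ Theta p G X e),
      (Nat.card ↥(X ⊓ Subgroup.normalizer (Q : Set A)) : ℚ) / (Nat.card X : ℚ)
        * (Nat.card (DZ p X e Q) : ℚ)
      = ∑ Q ∈ D.filter (fun Q => Q ∈ Theta p G X e),
      (Nat.card ↥(X ⊓ Subgroup.normalizer (Q : Set A)) : ℚ) / (Nat.card X : ℚ)
        * (Nat.card (DZ p X e Q) : ℚ) := by
    rw [finsum_mem_eq_sum_of_inter_support_eq]
    ext Q
    constructor
    · rintro ⟨h1, h2⟩
      refine ⟨?_, h2⟩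
      rw [Finset.mem_coe, Finset.mem_filter, hD]
      exact ⟨⟨h1.1, h1.2.1, h1.2.2.1⟩, h1⟩
    · rintro ⟨h1, h2⟩
      rw [Finset.mem_coe, Finset.mem_filter] at h1
      exact ⟨h1.2, h2⟩
  rw [h1, Finset.mul_sum, Nat.cast_sum, Finset.sum_filter]
  refine Finset.sum_congr rfl (fun Q hQ => ?_)
  have hpos : (Nat.card X : ℚ) ≠ 0 := by
    exact_mod_cast (Nat.card_pos (α := X)).ne'
  by_cases hQT : Q ∈ Theta p G X e
  · rw [if_pos hQT, DZ_eq hQT.1 hQT.2.1 heX]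
    push_cast
    field_simp
  · rw [if_neg hQT]
    have h2 : Nat.card {f : MonoidAlgebra k (NQ Q) | IsDZ p (sec X Q) f ∧
        f * proj Q e = f} = 0 := by
      by_contra h
      exact hQT (mem_Theta_of_ne hGX hinv ((hD Q).1 hQ) h)
    rw [h2]
    simp

/-- `gap` is the difference of the two sides for any choice of representatives -/
theorem gap_eq {G X : Subgroup A} (hGX : G ≤ X)
    (hn : X ≤ Subgroup.normalizer (G : Set A)) (hp : ∀ x ∈ X, ∃ n : ℕ, x ^ p ^ n ∈ G)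
    {e : MonoidAlgebra k A} (he : IsBlock G e) (hinv : InvBy X e) (T : Finset (Subgroup A))
    (hT1 : ↑T ⊆ Theta p G X e) (hT2 : ∀ Q ∈ Theta p G X e,
      ∃! Q', Q' ∈ T ∧ ∃ h ∈ X, Q' = Q.map (MulAut.conj h).toMonoidHom) :
    gap p G X e = (Nat.card (Quotient (irrInvSetoid G X e)) : ℚ)
      - ((∑ Q ∈ T, Nat.card (DZ p X e Q) : ℕ) : ℚ) := by
  classical
  have : Fintype (Subgroup A) := Fintype.ofFinite _
  let D : Finset (Subgroup A) := Finset.univ.filter (fun Q => Q ∈ Supp p G X)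
  have hD : ∀ Q, Q ∈ D ↔ Q ∈ Supp p G X := by intro Q; simp [D]
  have h1 := sum_DZ_supp hGX hn hp he hinv T hT1 hT2 D hD
  have h2 := finsum_DZ_supp hGX hn hp he hinv D hD
  rw [← h1, Nat.cast_mul] at h2
  have hpos : (Nat.card X : ℚ) ≠ 0 := by
    exact_mod_cast (Nat.card_pos (α := X)).ne'
  rw [gap, mul_left_cancel₀ hpos h2]

theorem navarroEq_iff_gap {G X : Subgroup A} (hGX : G ≤ X)
    (hn : X ≤ Subgroup.normalizer (G : Set A)) (hp : ∀ x ∈ X, ∃ n : ℕ, x ^ p ^ n ∈ G)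
    {e : MonoidAlgebra k A} (he : IsBlock G e) (hinv : InvBy X e) :
    NavarroEq p G X e ↔ gap p G X e = 0 := by
  constructor
  · intro h
    obtain ⟨T, hT1, hT2⟩ := exists_transversal X (Theta p G X e)
    rw [gap_eq hGX hn hp he hinv T hT1 hT2, h T hT1 hT2, sub_self]
  · intro h T hT1 hT2
    rw [gap_eq hGX hn hp he hinv T hT1 hT2, sub_eq_zero] at h
    exact_mod_cast h

/-- the difference of the two local sums at a nonempty chain -/
theorem chain_formula {G X : Subgroup A} (hGX : G ≤ X)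
    (hn : X ≤ Subgroup.normalizer (G : Set A))
    (hp : ∀ x ∈ X, ∃ n : ℕ, x ^ p ^ n ∈ G) {e : MonoidAlgebra k A} (he : SuppIn G e)
    (hinv : InvBy X e) (hee : e * e = e) {σ : Finset (Subgroup A)} (hne : σ.Nonempty)
    (hσ : IsChain (· ≤ ·) (σ : Set (Subgroup A))) (hσS : ∀ Q ∈ σ, Q ∈ Supp p G X)
    (D : Finset (Subgroup A)) (hD : ∀ Q, Q ∈ D ↔ Q ≤ stab X σ ∧ IsPGroup p Q ∧ Q ∈ Supp p G X)
    (Bl : Finset (MonoidAlgebra k A))
    (hBl : ∀ b, b ∈ Bl ↔ IsBlock (G ⊓ stab X σ) b ∧ b * cS (σ.sup id) e ≠ 0) :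
    ((∑ T ∈ D, Nat.card ↥(stab X σ ⊓ Subgroup.normalizer (T : Set A))
          * mD p (stab X σ ⊓ Subgroup.normalizer (T : Set A)) T (σ.sup id ⊔ T) e : ℕ) : ℚ)
      - ((∑ T ∈ D, Nat.card ↥(stab X σ ⊓ Subgroup.normalizer (T : Set A))
          * wD p (stab X σ ⊓ Subgroup.normalizer (T : Set A)) T (σ.sup id ⊔ T) e : ℕ) : ℚ)
      = (Nat.card ↥(stab X σ) : ℚ) *
        ∑ b ∈ Bl, gap p (G ⊓ stab X σ) (G ⊓ stab X σ) b := by
  classical
  have : Fintype (Subgroup A) := Fintype.ofFinite _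
  set H := stab X σ with hH
  set S := σ.sup id with hSdef
  set K := G ⊓ H with hK
  have hSσ : S ∈ σ := sup_mem_chain hne hσ
  obtain ⟨Q, hQσ, hQmin⟩ := exists_least hne hσ
  have hQS := hσS Q hQσ
  have hHX : H ≤ X := inf_le_left
  have hHn : ∀ R ∈ σ, H ≤ Subgroup.normalizer (R : Set A) := fun R hR x hx =>
    (mem_stab.1 hx).2 R hR
  have hQH : Q ≤ H := by
    intro x hx
    rw [hH, mem_stab]
    exact ⟨hQS.1 hx, fun R hR => Subgroup.le_normalizer (hQmin R hR hx)⟩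
  have hctx : Ctx p X H S e :=
    { hHX := hHX
      hS := (hσS S hSσ).2.1
      hHS := hHn S hSσ
      hCS := by
        intro x hx
        rw [hH, mem_stab]
        refine ⟨hx.1, fun R hR => ?_⟩
        have hRS : R ≤ S := Finset.le_sup (f := id) hR
        exact Subgroup.centralizer_le_normalizer _ (Subgroup.centralizer_le hRS hx.2)
      supp := he.mono hGX
      inv := hinv }
  have hKH : K ≤ H := inf_le_right
  have hHK : H ≤ Subgroup.normalizer (K : Set A) := by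
    intro x hx
    rw [← cg_eq_self_iff, hK, cg_inf, cg_eq_self_iff.2 (hn (hHX hx)), cg_of_mem hx]
  have hKQ : K ⊔ Q = H := by
    apply le_antisymm (sup_le hKH hQH)
    intro x hx
    have h1 : x ∈ G ⊔ Q := by rw [hQS.2.2]; exact hHX hx
    obtain ⟨g, hg, q, hq, rfl⟩ := (mem_sup_norm (hQS.1.trans hn)).1 h1
    have h2 : g ∈ H := by
      have := H.mul_mem hx (H.inv_mem (hQH hq))
      rwa [mul_inv_cancel_right] at this
    exact Subgroup.mul_mem_sup (Subgroup.mem_inf.2 ⟨hg, h2⟩) hq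
  set c := cS S e with hc
  have hcH : SuppIn H c := hctx.cS_supp
  have hcK : SuppIn K c := by
    intro x hx
    refine Subgroup.mem_inf.2 ⟨?_, hcH x hx⟩
    apply he
    intro h0
    apply hx
    rw [hc, coeff_resS]
    split_ifs
    · exact h0
    · rfl
  have hcinv : InvBy H c := hctx.cS_inv
  have hcc : c * c = c := hctx.cS_idem (hσS S hSσ).1 hee
  have hcinvK : InvBy K c := hcinv.mono hKH
  have hFinv : ∀ T ∈ Supp p G X, ∀ h ∈ H, cg h T ∈ Supp p G X := fun T hT h hh =>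
    supp_conj hGX hn hT (hHX hh)
  -- the left side
  have hL1 := defect_sum hctx hFinv D (fun T => hD T)
  have hP : Pdef p H (Supp p G X) = fun x => x ∈ H ∧ Preg p x := by
    funext x
    exact propext (pdef_iff hGX hn hp hQS hQH hHX (hHn Q hQσ) x)
  have hL2 : mult1 (EM p H (Pdef p H (Supp p G X)) c)
      = Nat.card (Quotient (irrInvSetoid K ⊥ c)) := by
    rw [hP, card_irX_eq hcK hcinvK hcc]
    have hPK : (fun x => x ∈ K ∧ Preg p x) = fun x => x ∈ H ∧ Preg p x := by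
      funext x
      apply propext
      constructor
      · rintro ⟨h1, h2⟩; exact ⟨hKH h1, h2⟩
      · rintro ⟨h1, h2⟩
        obtain ⟨n, hn'⟩ := hp x (hHX h1)
        exact ⟨Subgroup.mem_inf.2 ⟨mem_of_preg h2 hn', h1⟩, h2⟩
    rw [hPK]
    apply mult1_EM_eq
    rintro x y ⟨hx, hx'⟩ ⟨hy, hy'⟩
    constructor
    · rintro ⟨g, hg, rfl⟩
      obtain ⟨d, hd, hd'⟩ := conj_in hGX hn hp hQS hQH hHX (hHn Q hQσ) hx hx' hg
      exact ⟨d, hd, hd'⟩
    · rintro ⟨g, hg, rfl⟩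
      exact ⟨g, hKH hg, rfl⟩
  -- the right side
  let DH : Finset (Subgroup A) := Finset.univ.filter (fun R => R ≤ H ∧ IsPGroup p R)
  let DK : Finset (Subgroup A) := Finset.univ.filter (fun R => R ≤ K ∧ IsPGroup p R)
  have hDH : ∀ R, R ∈ DH ↔ R ≤ H ∧ IsPGroup p R := by intro R; simp [DH]
  have hDK : ∀ R, R ∈ DK ↔ R ≤ K ∧ IsPGroup p R := by intro R; simp [DK]
  have hR2 := sum_weights_eq hKH hHK hQH (hHn Q hQσ) hQS.2.1 hKQ hcK hcinv hcc DH hDH DK hDK
  have hR4 : ∑ R ∈ DH, Nat.card ↥(H ⊓ Subgroup.normalizer (R : Set A))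
          * Nat.card {f : MonoidAlgebra k (NQ R) | IsDZ p (sec H R) f ∧ f * proj R c = f}
      = ∑ R ∈ D, Nat.card ↥(H ⊓ Subgroup.normalizer (R : Set A))
          * wD p (H ⊓ Subgroup.normalizer (R : Set A)) R (S ⊔ R) e := by
    have h1 : ∑ R ∈ D, Nat.card ↥(H ⊓ Subgroup.normalizer (R : Set A))
          * wD p (H ⊓ Subgroup.normalizer (R : Set A)) R (S ⊔ R) e
        = ∑ R ∈ D, Nat.card ↥(H ⊓ Subgroup.normalizer (R : Set A))
          * Nat.card {f : MonoidAlgebra k (NQ R) | IsDZ p (sec H R) f ∧ f * proj R c = f} := by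
      refine Finset.sum_congr rfl (fun R hR => ?_)
      obtain ⟨h1, h2, _⟩ := (hD R).1 hR
      rw [wD_local hctx h1 h2]
    rw [h1]
    symm
    apply Finset.sum_subset
    · intro R hR
      obtain ⟨h1, h2, _⟩ := (hD R).1 hR
      exact (hDH R).2 ⟨h1, h2⟩
    · intro R hR hRD
      obtain ⟨h1, h2⟩ := (hDH R).1 hR
      have hemp : IsEmpty {f : MonoidAlgebra k (NQ R) | IsDZ p (sec H R) f ∧
          f * proj R c = f} := by
        constructor
        rintro ⟨f, hf, _⟩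
        have hQR := radical hQH (hHn Q hQσ) hQS.2.1 h1 h2 hf
        apply hRD
        rw [hD]
        refine ⟨h1, h2, h1.trans hHX, h2, ?_⟩
        apply le_antisymm (sup_le hGX (h1.trans hHX))
        rw [← hQS.2.2]
        exact sup_le_sup_left hQR G
      rw [Nat.card_of_isEmpty (α := {f : MonoidAlgebra k (NQ R) | IsDZ p (sec H R) f ∧
          f * proj R c = f}), mul_zero]
  -- the blocks of K
  have hKK : ∀ b ∈ Bl, ∃ T : Finset (Subgroup A), ↑T ⊆ Theta p K K b ∧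
      (∀ Q ∈ Theta p K K b, ∃! Q', Q' ∈ T ∧ ∃ h ∈ K, Q' = Q.map (MulAut.conj h).toMonoidHom) :=
    fun b _ => exists_transversal K (Theta p K K b)
  choose! Tr hTr1 hTr2 using hKK
  have hgap : ∀ b ∈ Bl, gap p K K b = (Nat.card (Quotient (irrInvSetoid K ⊥ b)) : ℚ)
      - ((∑ Q ∈ Tr b, Nat.card (DZ p K b Q) : ℕ) : ℚ) := by
    intro b hb
    have h1 := gap_eq (le_refl K) Subgroup.le_normalizer
      (fun x hx => ⟨0, by simpa using hx⟩) ((hBl b).1 hb).1 ((hBl b).1 hb).1.invBy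
      (Tr b) (hTr1 b hb) (hTr2 b hb)
    rw [h1, card_irr_eq]
  have hDZ : ∀ b ∈ Bl, Nat.card K * ∑ Q ∈ Tr b, Nat.card (DZ p K b Q)
      = ∑ R ∈ DK, Nat.card ↥(K ⊓ Subgroup.normalizer (R : Set A))
          * Nat.card {f : MonoidAlgebra k (NQ R) | IsDZ p (sec K R) f ∧ f * proj R b = f} :=
    fun b hb => sum_DZ_eq ((hBl b).1 hb).1 (Tr b) (hTr1 b hb) (hTr2 b hb) DK hDK
  have hsum : ∑ R ∈ DK, Nat.card ↥(K ⊓ Subgroup.normalizer (R : Set A))
          * Nat.card {f : MonoidAlgebra k (NQ R) | IsDZ p (sec K R) f ∧ f * proj R c = f}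
      = Nat.card K * ∑ b ∈ Bl, ∑ Q ∈ Tr b, Nat.card (DZ p K b Q) := by
    rw [Finset.mul_sum, Finset.sum_congr rfl hDZ, Finset.sum_comm]
    refine Finset.sum_congr rfl (fun R hR => ?_)
    obtain ⟨h1, h2⟩ := (hDK R).1 hR
    rw [card_dz_blocks hcK hcinvK hcc Bl hBl h1 h2, Finset.mul_sum]
  rw [hsum] at hR2
  have hpos : 0 < Nat.card K := Nat.card_pos
  have hR5 : ∑ R ∈ DH, Nat.card ↥(H ⊓ Subgroup.normalizer (R : Set A))
          * Nat.card {f : MonoidAlgebra k (NQ R) | IsDZ p (sec H R) f ∧ f * proj R c = f}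
      = Nat.card H * ∑ b ∈ Bl, ∑ Q ∈ Tr b, Nat.card (DZ p K b Q) := by
    apply Nat.eq_of_mul_eq_mul_left hpos
    rw [hR2]; ring
  rw [← hL1, hL2, ← hR4, hR5, card_irX_blocks hcK hcinvK hcc Bl hBl,
    Finset.sum_congr rfl hgap, Finset.sum_sub_distrib]
  push_cast
  ring

/-- **The exact formula.** -/
theorem formula {G X : Subgroup A} (hGX : G ≤ X)
    (hn : X ≤ Subgroup.normalizer (G : Set A)) (hp : ∀ x ∈ X, ∃ n : ℕ, x ^ p ^ n ∈ G)
    {e : MonoidAlgebra k A} (he : IsBlock G e) (hinv : InvBy X e)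
    (D : Finset (Subgroup A)) (hD : ∀ Q, Q ∈ D ↔ Q ∈ Supp p G X)
    (Bl : Finset (Subgroup A) → Finset (MonoidAlgebra k A))
    (hBl : ∀ σ, ∀ b, b ∈ Bl σ ↔ IsBlock (G ⊓ stab X σ) b ∧ b * cS (σ.sup id) e ≠ 0) :
    (Nat.card X : ℚ) * gap p G X e
      = ∑ σ ∈ (Ch D).filter (fun σ => σ.Nonempty), (-1) ^ (σ.card + 1) *
        ((Nat.card ↥(stab X σ) : ℚ) * ∑ b ∈ Bl σ, gap p (G ⊓ stab X σ) (G ⊓ stab X σ) b) := by
  classical
  have : Fintype (Subgroup A) := Fintype.ofFinite _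
  have hup : ∀ Q ∈ D, ∀ R : Subgroup A, R ≤ X → IsPGroup p R → Q ≤ R → R ∈ D := by
    intro Q hQ R h1 h2 h3
    rw [hD] at hQ ⊢
    refine ⟨h1, h2, le_antisymm (sup_le hGX h1) ?_⟩
    rw [← hQ.2.2]
    exact sup_le_sup_left h3 G
  have inv := fun W => involution X D (fun Q hQ => ⟨((hD Q).1 hQ).1, ((hD Q).1 hQ).2.1⟩) hup W
  let a : Finset (Subgroup A) → ℕ := fun σ => ∑ T ∈ D.filter (fun T => T ≤ stab X σ),
    (Nat.card ↥(stab X σ ⊓ Subgroup.normalizer (T : Set A))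
      * mD p (stab X σ ⊓ Subgroup.normalizer (T : Set A)) T (σ.sup id ⊔ T) e)
  let b : Finset (Subgroup A) → ℕ := fun σ => ∑ T ∈ D.filter (fun T => T ≤ stab X σ),
    (Nat.card ↥(stab X σ ⊓ Subgroup.normalizer (T : Set A))
      * wD p (stab X σ ⊓ Subgroup.normalizer (T : Set A)) T (σ.sup id ⊔ T) e)
  have ha0 : ∑ σ ∈ Ch D, (-1 : ℤ) ^ σ.card * (a σ : ℤ) = 0 := by
    have := inv (fun M T S => ((Nat.card M * mD p M T S e : ℕ) : ℤ))
    simpa only [a, Nat.cast_sum] using this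
  have hb0 : ∑ σ ∈ Ch D, (-1 : ℤ) ^ σ.card * (b σ : ℤ) = 0 := by
    have := inv (fun M T S => ((Nat.card M * wD p M T S e : ℕ) : ℤ))
    simpa only [b, Nat.cast_sum] using this
  have ha : ∑ σ ∈ Ch D, (-1 : ℚ) ^ σ.card * (a σ : ℚ) = 0 := by exact_mod_cast ha0
  have hb : ∑ σ ∈ Ch D, (-1 : ℚ) ^ σ.card * (b σ : ℚ) = 0 := by exact_mod_cast hb0
  have hab : ∀ σ ∈ Ch D, σ.Nonempty → (a σ : ℚ) - (b σ : ℚ) = (Nat.card ↥(stab X σ) : ℚ) *
      ∑ b ∈ Bl σ, gap p (G ⊓ stab X σ) (G ⊓ stab X σ) b := by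
    intro σ hσ hne
    rw [Ch, Finset.mem_filter, Finset.mem_powerset] at hσ
    have hσS : ∀ Q ∈ σ, Q ∈ Supp p G X := fun Q hQ => (hD Q).1 (hσ.1 hQ)
    exact chain_formula hGX hn hp he.suppIn hinv he.idem hne hσ.2 hσS
      (D.filter (fun T => T ≤ stab X σ)) (by
        intro Q
        rw [Finset.mem_filter, hD]
        constructor
        · rintro ⟨h1, h2⟩; exact ⟨h2, h1.2.1, h1⟩
        · rintro ⟨h1, _, h2⟩; exact ⟨h2, h1⟩) (Bl σ) (hBl σ)
  have hmem : (∅ : Finset (Subgroup A)) ∈ Ch D := by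
    rw [Ch, Finset.mem_filter]
    exact ⟨Finset.empty_mem_powerset _, by simp⟩
  have herase : (Ch D).filter (fun σ => σ.Nonempty) = (Ch D).erase ∅ := by
    ext σ
    rw [Finset.mem_filter, Finset.mem_erase, Finset.nonempty_iff_ne_empty]
    tauto
  have h0 : (a ∅ : ℚ) - (b ∅ : ℚ)
      = ∑ σ ∈ (Ch D).filter (fun σ => σ.Nonempty), (-1) ^ (σ.card + 1) *
        ((Nat.card ↥(stab X σ) : ℚ) * ∑ b ∈ Bl σ, gap p (G ⊓ stab X σ) (G ⊓ stab X σ) b) := by
    rw [← Finset.add_sum_erase _ _ hmem] at ha hb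
    simp only [Finset.card_empty, pow_zero, one_mul] at ha hb
    have h1 : ∑ σ ∈ (Ch D).filter (fun σ => σ.Nonempty), (-1 : ℚ) ^ (σ.card + 1) *
        ((Nat.card ↥(stab X σ) : ℚ) * ∑ b ∈ Bl σ, gap p (G ⊓ stab X σ) (G ⊓ stab X σ) b)
        = ∑ σ ∈ (Ch D).erase ∅, (-((-1 : ℚ) ^ σ.card * (a σ : ℚ))
          + (-1 : ℚ) ^ σ.card * (b σ : ℚ)) := by
      rw [← herase]
      refine Finset.sum_congr rfl (fun σ hσ => ?_)
      rw [Finset.mem_filter] at hσ
      rw [← hab σ hσ.1 hσ.2, pow_succ]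
      ring
    rw [h1, Finset.sum_add_distrib, Finset.sum_neg_distrib]
    linarith
  have hctx : Ctx p X X ⊥ e :=
    { hHX := le_refl X
      hS := IsPGroup.of_bot
      hHS := by
        intro x _
        rw [Subgroup.mem_normalizer_iff]
        intro y
        simp
      hCS := inf_le_left
      supp := he.suppIn.mono hGX
      inv := hinv }
  have hfil : D.filter (fun T => T ≤ stab X ∅) = D := by
    apply Finset.filter_true_of_mem
    intro Q hQ
    rw [stab_empty]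
    exact ((hD Q).1 hQ).1
  have h1 : a ∅ = Nat.card X * Nat.card (Quotient (irrInvSetoid G X e)) := by
    simp only [a]
    rw [hfil]
    simp only [stab_empty, Finset.sup_empty]
    have h2 := defect_sum hctx (F := Supp p G X)
      (fun T hT h hh => supp_conj hGX hn hT hh) D (by
        intro Q
        rw [hD]
        exact ⟨fun h => ⟨h.1, h.2.1, h⟩, fun h => h.2.2⟩)
    rw [← h2, cS_bot]
    have hP : Pdef p X (Supp p G X) = PY p G X := by
      funext x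
      exact propext (pdef_top_iff hGX hn hp x)
    rw [hP, card_inv_eq hGX hn hp he.suppIn hinv he.idem]
  have h2 : b ∅ = ∑ Q ∈ D, Nat.card ↥(X ⊓ Subgroup.normalizer (Q : Set A))
          * Nat.card {f : MonoidAlgebra k (NQ Q) | IsDZ p (sec X Q) f ∧ f * proj Q e = f} := by
    simp only [b]
    rw [hfil]
    simp only [stab_empty, Finset.sup_empty]
    refine Finset.sum_congr rfl (fun Q hQ => ?_)
    obtain ⟨h5, h6, _⟩ := (hD Q).1 hQ
    have h7 := wD_local hctx h5 h6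
    rw [cS_bot] at h7
    rw [h7]
  rw [← h0, h1, h2, ← finsum_DZ_supp hGX hn hp he hinv D hD, gap]
  push_cast
  ring

theorem navarro_of_baw {G X : Subgroup A} (hGX : G ≤ X)
    (hn : X ≤ Subgroup.normalizer (G : Set A)) (hp : ∀ x ∈ X, ∃ n : ℕ, x ^ p ^ n ∈ G)
    {e : MonoidAlgebra k A} (he : IsBlock G e) (hinv : InvBy X e)
    (hbaw : ∀ σ : Finset (Subgroup A), σ.Nonempty → IsChain (· ≤ ·) (σ : Set (Subgroup A)) →
      (∀ Q ∈ σ, Q ∈ Supp p G X) → ∀ b : MonoidAlgebra k A, IsBlock (G ⊓ stab X σ) b →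
      b * cS (σ.sup id) e ≠ 0 → NavarroEq p (G ⊓ stab X σ) (G ⊓ stab X σ) b) :
    NavarroEq p G X e := by
  classical
  have : Fintype (Subgroup A) := Fintype.ofFinite _
  let D : Finset (Subgroup A) := Finset.univ.filter (fun Q => Q ∈ Supp p G X)
  have hD : ∀ Q, Q ∈ D ↔ Q ∈ Supp p G X := by intro Q; simp [D]
  have hfin : ∀ σ : Finset (Subgroup A),
      {b : MonoidAlgebra k A | IsBlock (G ⊓ stab X σ) b ∧ b * cS (σ.sup id) e ≠ 0}.Finite :=
    fun σ => (finite_isBlock (k := k) (G ⊓ stab X σ)).subset (fun b hb => hb.1)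
  have h := formula hGX hn hp he hinv D hD (fun σ => (hfin σ).toFinset) (by
    intro σ b
    rw [Set.Finite.mem_toFinset]
    exact Iff.rfl)
  have h0 : ∑ σ ∈ (Ch D).filter (fun σ => σ.Nonempty), (-1 : ℚ) ^ (σ.card + 1) *
        ((Nat.card ↥(stab X σ) : ℚ) * ∑ b ∈ (hfin σ).toFinset,
          gap p (G ⊓ stab X σ) (G ⊓ stab X σ) b) = 0 := by
    apply Finset.sum_eq_zero
    intro σ hσ
    rw [Finset.mem_filter, Ch, Finset.mem_filter, Finset.mem_powerset] at hσ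
    have h1 : ∑ b ∈ (hfin σ).toFinset, gap p (G ⊓ stab X σ) (G ⊓ stab X σ) b = 0 := by
      apply Finset.sum_eq_zero
      intro b hb
      rw [Set.Finite.mem_toFinset] at hb
      exact (navarroEq_iff_gap (le_refl _) Subgroup.le_normalizer
        (fun x hx => ⟨0, by simpa using hx⟩) hb.1 hb.1.invBy).1
        (hbaw σ hσ.2 hσ.1.2 (fun Q hQ => (hD Q).1 (hσ.1.1 hQ)) b hb.1 hb.2)
    rw [h1, mul_zero, mul_zero]
  rw [h0] at h
  rw [navarroEq_iff_gap hGX hn hp he hinv]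
  have hpos : (Nat.card X : ℚ) ≠ 0 := by
    exact_mod_cast (Nat.card_pos (α := X)).ne'
  exact (mul_eq_zero.1 h).resolve_left hpos

end

end Pool.Agent.Lib.P0c8ca5
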