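import Mathlib
import Pool.Agent.Lib.P0c8ca5.WtEquiv
import Pool.Agent.Lib.P0c8ca5N.Gap

/-! # Blocks of a group whose proper subgroups satisfy the blockwise weight conjecture -/

namespace Pool.Agent.Lib.P0c8ca5

open MonoidAlgebra

set_option linter.unusedSectionVars false

variable {p : ℕ} {k : Type*} [Field k] {A : Type*} [Group A]

/-- `O_p(G)`, generated by the normal `p`-subgroups of `G` -/
def Op (p : ℕ) (G : Subgroup A) : Subgroup A :=
  sSup {Q | Q ≤ G ∧ IsPGroup p Q ∧ G ≤ Subgroup.normalizer (Q : Set A)}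

theorem normalizer_sup_le {P Q G : Subgroup A} (h : G ≤ Subgroup.normalizer (P : Set A))
    (h' : G ≤ Subgroup.normalizer (Q : Set A)) :
    G ≤ Subgroup.normalizer ((P ⊔ Q : Subgroup A) : Set A) := by
  intro x hx
  rw [← cg_eq_self_iff, cg_sup, cg_eq_self_iff.2 (h hx), cg_eq_self_iff.2 (h' hx)]

theorem isPGroup_sup {P Q : Subgroup A} (hP : IsPGroup p P) (hQ : IsPGroup p Q)
    (h : P ≤ Subgroup.normalizer (Q : Set A)) : IsPGroup p (P ⊔ Q : Subgroup A) := by
  rw [sup_comm]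
  intro x
  obtain ⟨n, hn⟩ := pquot_sup h hP x x.2
  obtain ⟨m, hm⟩ := hQ ⟨(x : A) ^ p ^ n, hn⟩
  refine ⟨n + m, Subtype.ext ?_⟩
  have h2 : ((x : A) ^ p ^ n) ^ p ^ m = 1 := congrArg Subtype.val hm
  change (x : A) ^ p ^ (n + m) = 1
  rw [pow_add, pow_mul, h2]

theorem Op_mem [Finite A] (p : ℕ) (G : Subgroup A) :
    Op p G ∈ {Q : Subgroup A | Q ≤ G ∧ IsPGroup p Q ∧ G ≤ Subgroup.normalizer (Q : Set A)} := by
  classical
  have hne : {Q : Subgroup A | Q ≤ G ∧ IsPGroup p Q ∧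
      G ≤ Subgroup.normalizer (Q : Set A)}.Nonempty := by
    refine ⟨⊥, bot_le, IsPGroup.of_bot, ?_⟩
    intro x _
    rw [Subgroup.mem_normalizer_iff]
    intro y
    simp
  obtain ⟨M, hM⟩ := Set.Finite.exists_maximal (Set.toFinite _) hne
  have hMS := hM.1
  have hle : ∀ Q : Subgroup A, (Q ≤ G ∧ IsPGroup p Q ∧
      G ≤ Subgroup.normalizer (Q : Set A)) → Q ≤ M := by
    intro Q hQ
    have h1 : (M ⊔ Q ≤ G ∧ IsPGroup p (M ⊔ Q : Subgroup A) ∧
        G ≤ Subgroup.normalizer ((M ⊔ Q : Subgroup A) : Set A)) :=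
      ⟨sup_le hMS.1 hQ.1, isPGroup_sup hMS.2.1 hQ.2.1 (hMS.1.trans hQ.2.2),
        normalizer_sup_le hMS.2.2 hQ.2.2⟩
    exact le_sup_right.trans (hM.2 h1 le_sup_left)
  have h : Op p G = M := le_antisymm (sSup_le hle) (le_sSup hMS)
  rw [h]
  exact hMS

theorem le_Op {Q G : Subgroup A} (h1 : Q ≤ G) (h2 : IsPGroup p Q)
    (h3 : G ≤ Subgroup.normalizer (Q : Set A)) : Q ≤ Op p G := le_sSup ⟨h1, h2, h3⟩

theorem Op_le (p : ℕ) (G : Subgroup A) : Op p G ≤ G := sSup_le (fun _ h => h.1)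

theorem cg_Op (p : ℕ) (G : Subgroup A) [hG : G.Normal] (a : A) : cg a (Op p G) = Op p G := by
  have hle : ∀ a : A, cg a (Op p G) ≤ Op p G := by
    intro a
    rw [cg_le_iff]
    apply sSup_le
    intro Q hQ
    rw [← cg_le_iff]
    have hGa : cg a G = G := cg_eq_self_iff.2 (mem_norm_of_normal G a)
    refine le_Op ?_ (isPGroup_cg hQ.2.1) ?_
    · rw [← hGa]; exact cg_le_cg hQ.1
    · intro x hx
      rw [← cg_eq_self_iff, cg_cg]
      have h1 : a⁻¹ * x * a ∈ G := by
        have := hG.conj_mem x hx a⁻¹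
        rwa [inv_inv] at this
      have h2 := cg_eq_self_iff.2 (hQ.2.2 h1)
      have e1 : x * a = a * (a⁻¹ * x * a) := by group
      rw [e1, ← cg_cg, h2]
  apply le_antisymm (hle a)
  have := cg_le_cg (g := a) (hle a⁻¹)
  rwa [cg_cg, mul_inv_cancel, cg_one] at this

theorem conj_mem_Op {G : Subgroup A} [hG : G.Normal] {r : A} (a : A) (hr : r ∈ Op p G) :
    a * r * a⁻¹ ∈ Op p G := by
  rw [← cg_Op p G a, mem_cg]
  have e1 : a⁻¹ * (a * r * a⁻¹) * a = r := by group
  rwa [e1]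

/-- the elements that induce inner automorphisms on `G/O_p(G)` -/
def InnK (p : ℕ) (G : Subgroup A) [hG : G.Normal] : Subgroup A where
  carrier := {x | ∃ g ∈ G, ∀ y ∈ G, x * y * x⁻¹ * (g * y * g⁻¹)⁻¹ ∈ Op p G}
  one_mem' := ⟨1, G.one_mem, fun y _ => by
    have e1 : (1 : A) * y * 1⁻¹ * (1 * y * 1⁻¹)⁻¹ = 1 := by group
    rw [e1]; exact (Op p G).one_mem⟩
  mul_mem' := by
    rintro a b ⟨g, hg, h⟩ ⟨g', hg', h'⟩
    refine ⟨g * g', G.mul_mem hg hg', fun y hy => ?_⟩
    have h1 := conj_mem_Op a (h' y hy)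
    have h2 := h (g' * y * g'⁻¹) (G.mul_mem (G.mul_mem hg' hy) (G.inv_mem hg'))
    have e1 : a * b * y * (a * b)⁻¹ * (g * g' * y * (g * g')⁻¹)⁻¹
        = (a * (b * y * b⁻¹ * (g' * y * g'⁻¹)⁻¹) * a⁻¹)
          * (a * (g' * y * g'⁻¹) * a⁻¹ * (g * (g' * y * g'⁻¹) * g⁻¹)⁻¹) := by group
    rw [e1]
    exact (Op p G).mul_mem h1 h2
  inv_mem' := by
    rintro a ⟨g, hg, h⟩
    refine ⟨g⁻¹, G.inv_mem hg, fun y hy => ?_⟩
    have h1 := conj_mem_Op a⁻¹ (h (g⁻¹ * y * g)
      (G.mul_mem (G.mul_mem (G.inv_mem hg) hy) hg))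
    have e1 : a⁻¹ * y * a⁻¹⁻¹ * (g⁻¹ * y * g⁻¹⁻¹)⁻¹
        = (a⁻¹ * (a * (g⁻¹ * y * g) * a⁻¹ * (g * (g⁻¹ * y * g) * g⁻¹)⁻¹) * a⁻¹⁻¹)⁻¹ := by group
    rw [e1]
    exact (Op p G).inv_mem h1

theorem mem_InnK {G : Subgroup A} [hG : G.Normal] {x : A} : x ∈ InnK p G ↔
    ∃ g ∈ G, ∀ y ∈ G, x * y * x⁻¹ * (g * y * g⁻¹)⁻¹ ∈ Op p G := Iff.rfl

theorem G_le_InnK (p : ℕ) (G : Subgroup A) [hG : G.Normal] : G ≤ InnK p G := by
  intro g hg
  refine ⟨g, hg, fun y _ => ?_⟩
  have e1 : g * y * g⁻¹ * (g * y * g⁻¹)⁻¹ = 1 := by group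
  rw [e1]
  exact (Op p G).one_mem

theorem le_InnK {G H Q : Subgroup A} [hG : G.Normal] (hQ : IsPGroup p Q) (hGQ : G ⊔ Q = H)
    (hn : G ≤ Subgroup.normalizer (Q : Set A)) : H ≤ InnK p G := by
  rw [← hGQ]
  apply sup_le (G_le_InnK p G)
  intro q hq
  refine ⟨1, G.one_mem, fun y hy => ?_⟩
  have h1 : Q ⊓ G ≤ Op p G := by
    refine le_Op inf_le_right (hQ.to_le inf_le_left) ?_
    intro x hx
    rw [← cg_eq_self_iff, cg_inf, cg_eq_self_iff.2 (hn hx),
      cg_eq_self_iff.2 (mem_norm_of_normal G x)]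
  apply h1
  have e1 : q * y * q⁻¹ * (1 * y * 1⁻¹)⁻¹ = q * (y * q⁻¹ * y⁻¹) := by group
  have e2 : q * y * q⁻¹ * (1 * y * 1⁻¹)⁻¹ = (q * y * q⁻¹) * y⁻¹ := by group
  refine Subgroup.mem_inf.2 ⟨?_, ?_⟩
  · rw [e1]
    exact Q.mul_mem hq ((Subgroup.mem_normalizer_iff.1 (hn hy) _).1 (Q.inv_mem hq))
  · rw [e2]
    exact G.mul_mem (hG.conj_mem y hy q) (G.inv_mem hy)

/-- an element of `InnK` is an element of `G` times an element acting trivially on `G/O_p(G)` -/
theorem exists_triv {G : Subgroup A} [hG : G.Normal] {x : A} (hx : x ∈ InnK p G) :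
    ∃ g ∈ G, ∃ z, x = g * z ∧ (∀ y ∈ G, z⁻¹ * y * z * y⁻¹ ∈ Op p G) ∧
      ∀ y ∈ G, z * y * z⁻¹ * y⁻¹ ∈ Op p G := by
  obtain ⟨g, hg, h⟩ := hx
  have key : ∀ y ∈ G, (g⁻¹ * x) * y * (g⁻¹ * x)⁻¹ * y⁻¹ ∈ Op p G := by
    intro y hy
    have h1 := conj_mem_Op g⁻¹ (h y hy)
    have e1 : g⁻¹ * (x * y * x⁻¹ * (g * y * g⁻¹)⁻¹) * g⁻¹⁻¹
        = (g⁻¹ * x) * y * (g⁻¹ * x)⁻¹ * y⁻¹ := by group
    rwa [e1] at h1
  refine ⟨g, hg, g⁻¹ * x, by group, fun y hy => ?_, key⟩
  have h2 := key ((g⁻¹ * x)⁻¹ * y * (g⁻¹ * x)) (by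
    have := hG.conj_mem y hy (g⁻¹ * x)⁻¹
    rwa [inv_inv] at this)
  have h3 := (Op p G).inv_mem h2
  have e2 : (g⁻¹ * x * ((g⁻¹ * x)⁻¹ * y * (g⁻¹ * x)) * (g⁻¹ * x)⁻¹
      * ((g⁻¹ * x)⁻¹ * y * (g⁻¹ * x))⁻¹)⁻¹ = (g⁻¹ * x)⁻¹ * y * (g⁻¹ * x) * y⁻¹ := by group
  rwa [e2] at h3

section
variable [Fact p.Prime] [CharP k p]

/-- `O_p(G)` acts trivially on irreducible representations in characteristic `p` -/
theorem op_trivial [Finite A] {G : Subgroup A} {V : Type*} [AddCommGroup V] [Module k V]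
    {ρ : Representation k G V} (hρ : Irr' ρ) {r : A} (hr : r ∈ Op p G) (hrG : r ∈ G) (v : V) :
    ρ ⟨r, hrG⟩ v = v := by
  obtain ⟨h1, h2, h3⟩ := Op_mem p G
  let W : Submodule k V :=
    { carrier := {v | ∀ (s : A) (hs : s ∈ Op p G), ρ ⟨s, h1 hs⟩ v = v}
      add_mem' := fun {a b} ha hb s hs => by rw [map_add, ha s hs, hb s hs]
      zero_mem' := fun s hs => map_zero _
      smul_mem' := fun c a ha s hs => by rw [map_smul, ha s hs] }
  have hW : ∀ g, ∀ w ∈ W, ρ g w ∈ W := by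
    intro g w hw s hs
    have h4 : (g : A)⁻¹ * s * g ∈ Op p G := by
      have := (Subgroup.mem_normalizer_iff.1 (h3 (G.inv_mem g.2)) s).1 hs
      rwa [inv_inv] at this
    have h5 := hw _ h4
    have e1 : (⟨s, h1 hs⟩ : G) * g = g * ⟨(g : A)⁻¹ * s * g, h1 h4⟩ := by
      apply Subtype.ext
      change s * (g : A) = g * ((g : A)⁻¹ * s * g)
      group
    rw [← Module.End.mul_apply, ← map_mul, e1, map_mul, Module.End.mul_apply, h5]
  have := hρ.nontriv
  obtain ⟨x, hx⟩ := exists_ne (0 : V)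
  obtain ⟨y, hy, hy', _⟩ := exists_fixed (p := p) h2
    (ρ.comp (Subgroup.inclusion h1) : (Op p G : Subgroup A) →* Module.End k V) x hx
  rcases hρ.sub W hW with h | h
  · exfalso
    apply hy
    have : y ∈ W := fun s hs => hy' ⟨s, hs⟩
    rwa [h, Submodule.mem_bot] at this
  · have : v ∈ W := by rw [h]; trivial
    exact this r hr

variable [Fintype A] [IsAlgClosed k] {G : Subgroup A} [hG : G.Normal] {e : MonoidAlgebra k A}

theorem InnK_le_stX (hinv : InvBy ⊤ e) (x : IrX G e) : InnK p G ≤ stX (G := G) hinv x := by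
  intro a ha
  obtain ⟨g, hg, z, rfl, hz, -⟩ := exists_triv ha
  apply Subgroup.mul_mem _ (G_le_stX hinv x hg)
  let _ := actX (G := G) hinv
  change z • x = x
  induction x using Quotient.inductionOn with
  | _ σ =>
    apply mk_eq_mk.2
    change Iso (tw (mem_norm_of_normal G z) σ.ρ) σ.ρ
    have : tw (mem_norm_of_normal G z) σ.ρ = σ.ρ := by
      apply MonoidHom.ext
      intro y
      apply LinearMap.ext
      intro v
      rw [tw_apply]
      have h1 := hz y y.2
      have e1 : cjN (mem_norm_of_normal G z) y = ⟨z⁻¹ * y * z * (y : A)⁻¹, Op_le p G h1⟩ * y := by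
        apply Subtype.ext
        change z⁻¹ * (y : A) * z = z⁻¹ * y * z * (y : A)⁻¹ * y
        group
      rw [e1, map_mul, Module.End.mul_apply, op_trivial (irr_iff.1 σ.irr) h1]
    rw [this]
    exact Iso.refl _

theorem InnK_le_stZ (he : IsBlock G e) (hinv : InvBy ⊤ e) (x : WtC p G e) :
    InnK p G ≤ stZ (p := p) he hinv x := by
  intro a ha
  obtain ⟨g, hg, z, rfl, hz', hz⟩ := exists_triv ha
  apply Subgroup.mul_mem _ (G_le_stZ he hinv x hg)
  let _ := actZ (p := p) he hinv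
  change z • x = x
  induction x using Quotient.inductionOn with
  | _ w =>
    have hdz := w.dz
    rw [DZ_eq w.le w.pgrp he] at hdz
    obtain ⟨h1, h2, h3⟩ := Op_mem p G
    have hOR : Op p G ≤ w.R := radical h1 h3 h2 w.le w.pgrp hdz.1
    have hsub : w.R = w.R.map (MulAut.conj z).toMonoidHom := by
      change w.R = cg z w.R
      ext r
      rw [mem_cg]
      constructor
      · intro hr
        have h4 := w.R.mul_mem (hOR (hz' r (w.le hr))) hr
        have e1 : z⁻¹ * r * z * r⁻¹ * r = z⁻¹ * r * z := by group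
        rwa [e1] at h4
      · intro hr
        have h4 := w.R.mul_mem (hOR (hz _ (w.le hr))) hr
        have e1 : z * (z⁻¹ * r * z) * z⁻¹ * (z⁻¹ * r * z)⁻¹ * (z⁻¹ * r * z) = r := by group
        rwa [e1] at h4
    have hw : WConj z w w := by
      refine ⟨hsub, ?_⟩
      intro y hy hy'
      by_cases hyG : y ∈ G
      · have h4 : (QuotientGroup.mk ⟨z * y * z⁻¹, hy'⟩ : NQ w.R) = QuotientGroup.mk ⟨y, hy⟩ := by
          change qm w.R (z * y * z⁻¹) hy' = qm w.R y hy
          rw [qm_eq_iff]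
          have h5 := w.R.inv_mem (hOR (hz y hyG))
          have h6 := (Subgroup.mem_normalizer_iff.1 ((Subgroup.normalizer
            (w.R : Set A)).inv_mem hy) _).1 h5
          have e1 : y⁻¹ * (z * y * z⁻¹ * y⁻¹)⁻¹ * y⁻¹⁻¹ = (z * y * z⁻¹)⁻¹ * y := by group
          rwa [e1] at h6
        rw [h4]
      · have h4 : ∀ (u : A) (hu : u ∈ Subgroup.normalizer (w.R : Set A)), u ∉ G →
            w.φ.coeff (QuotientGroup.mk ⟨u, hu⟩) = 0 := by
          intro u hu huG
          by_contra h5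
          exact huG ((qm_mem_sec_iff w.le).1 (hdz.1.blk.suppIn _ h5))
        rw [h4 _ hy' (fun h => hyG (by
          have := hG.conj_mem _ h z⁻¹
          have e1 : z⁻¹ * (z * y * z⁻¹) * z⁻¹⁻¹ = y := by group
          rwa [e1] at this)), h4 y hy hyG]
    apply mkW_eq.2
    rw [cjW_eq he hinv hw]
    exact WSame.refl _ _

/-- if the proper subgroups of `G` satisfy the weight conjecture and no `p`-subgroup `Q` with
`G Q = H` is normalized by `G`, then Navarro's equality holds for `(G, H, B)` -/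
theorem navarro_of_proper (hp : ∀ x : A, ∃ n : ℕ, x ^ p ^ n ∈ G) (he : IsBlock G e)
    (hinv : InvBy ⊤ e)
    (hL : ∀ L : Subgroup A, L < G → ∀ b : MonoidAlgebra k A, IsBlock L b → NavarroEq p L L b)
    {H : Subgroup A} (hGH : G ≤ H) (hK : ¬ H ≤ InnK p G) : NavarroEq p G H e := by
  apply navarro_of_baw hGH (fun x _ => mem_norm_of_normal G x) (fun x _ => hp x) he
    (hinv.mono le_top)
  intro σ hne hσ hσS b hb _
  obtain ⟨Q, hQσ, hQmin⟩ := exists_least hne hσ
  have hlt : G ⊓ stab H σ < G := by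
    refine lt_of_le_of_ne inf_le_left (fun h => ?_)
    apply hK
    obtain ⟨_, h2, h3⟩ := hσS Q hQσ
    refine le_InnK h2 h3 ?_
    intro x hx
    have h4 : x ∈ G ⊓ stab H σ := by rw [h]; exact hx
    exact (mem_stab.1 (Subgroup.mem_inf.1 h4).2).2 Q hQσ
  exact hL _ hlt b hb

end

open Classical in
theorem card_le_sum {X : Type*} [Fintype X] [Fintype (Subgroup A)] (s : X → Subgroup A)
    (S : Subgroup A) : Nat.card {x : X // S ≤ s x}
      = Nat.card {x : X // s x = S}
        + ∑ S' ∈ Finset.univ.filter (fun S' => S < S'), Nat.card {x : X // s x = S'} := by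
  have h1 : ∀ P : X → Prop, Nat.card {x : X // P x} = ((Finset.univ : Finset X).filter P).card := by
    intro P
    rw [Nat.card_eq_fintype_card, Fintype.card_subtype]
  simp only [h1]
  have h2 : (Finset.univ : Finset X).filter (fun x => S ≤ s x)
      = (Finset.univ.filter (fun x => s x = S)) ∪ (Finset.univ.filter (fun x => S < s x)) := by
    ext x
    simp only [Finset.mem_filter, Finset.mem_univ, true_and, Finset.mem_union]
    constructor
    · intro h
      rcases h.eq_or_lt with h | h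
      · exact Or.inl h.symm
      · exact Or.inr h
    · rintro (h | h)
      · exact h.symm.le
      · exact h.le
  have h3 : Disjoint ((Finset.univ : Finset X).filter (fun x => s x = S))
      (Finset.univ.filter (fun x => S < s x)) := by
    rw [Finset.disjoint_filter]
    intro x _ h h'
    exact h'.ne h.symm
  rw [h2, Finset.card_union_of_disjoint h3]
  congr 1
  rw [Finset.card_eq_sum_card_fiberwise (f := s) (t := Finset.univ.filter (fun S' => S < S'))]
  · refine Finset.sum_congr rfl (fun S' hS' => ?_)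
    congr 1
    ext x
    simp only [Finset.mem_filter, Finset.mem_univ, true_and] at hS' ⊢
    constructor
    · exact fun h => h.2
    · rintro rfl
      exact ⟨hS', rfl⟩
  · intro x hx
    simpa using hx

theorem fiber_eq [Finite A] {X Y : Type*} [Fintype X] [Fintype Y] {s : X → Subgroup A}
    {t : Y → Subgroup A} {K : Subgroup A} (hs : ∀ x, K ≤ s x) (ht : ∀ y, K ≤ t y)
    (h : ∀ H : Subgroup A, K ≤ H → H ≠ K →
      Nat.card {x : X // H ≤ s x} = Nat.card {y : Y // H ≤ t y}) :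
    ∀ S : Subgroup A, S ≠ K → Nat.card {x : X // s x = S} = Nat.card {y : Y // t y = S} := by
  classical
  have : Fintype (Subgroup A) := Fintype.ofFinite _
  intro S
  induction S using WellFoundedGT.induction with
  | ind S ih =>
    intro hS
    by_cases hKS : K ≤ S
    · have h1 := h S hKS hS
      rw [card_le_sum s S, card_le_sum t S] at h1
      have h2 : ∑ S' ∈ Finset.univ.filter (fun S' => S < S'), Nat.card {x : X // s x = S'}
          = ∑ S' ∈ Finset.univ.filter (fun S' => S < S'), Nat.card {y : Y // t y = S'} := by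
        refine Finset.sum_congr rfl (fun S' hS' => ?_)
        rw [Finset.mem_filter] at hS'
        apply ih S' hS'.2
        rintro rfl
        exact hS'.2.not_ge hKS
      omega
    · have h1 : IsEmpty {x : X // s x = S} := ⟨fun x => hKS (x.2 ▸ hs x.1)⟩
      have h2 : IsEmpty {y : Y // t y = S} := ⟨fun y => hKS (y.2 ▸ ht y.1)⟩
      rw [Nat.card_of_isEmpty, Nat.card_of_isEmpty]

open Classical in
theorem sum_eq_sum_fiber {X : Type*} [Fintype X] [Fintype (Subgroup A)] (s : X → Subgroup A)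
    (F : Subgroup A → ℚ) : ∑ x, F (s x) = ∑ S, (Nat.card {x : X // s x = S} : ℚ) * F S := by
  rw [← Finset.sum_fiberwise (Finset.univ : Finset X) s (fun x => F (s x))]
  refine Finset.sum_congr rfl (fun S _ => ?_)
  rw [Nat.card_eq_fintype_card, Fintype.card_subtype, ← nsmul_eq_mul, ← Finset.sum_const]
  refine Finset.sum_congr rfl (fun x hx => ?_)
  rw [(Finset.mem_filter.1 hx).2]

theorem sum_diff [Finite A] {X Y : Type*} [Fintype X] [Fintype Y] {s : X → Subgroup A}
    {t : Y → Subgroup A} {K : Subgroup A} (hs : ∀ x, K ≤ s x) (ht : ∀ y, K ≤ t y)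
    (h : ∀ H : Subgroup A, K ≤ H → H ≠ K →
      Nat.card {x : X // H ≤ s x} = Nat.card {y : Y // H ≤ t y}) (F : Subgroup A → ℚ) :
    ∑ x, F (s x) - ∑ y, F (t y) = ((Fintype.card X : ℚ) - Fintype.card Y) * F K := by
  classical
  have : Fintype (Subgroup A) := Fintype.ofFinite _
  have h1 := fiber_eq hs ht h
  have key : ∀ F : Subgroup A → ℚ, ∑ x, F (s x) - ∑ y, F (t y)
      = ((Nat.card {x : X // s x = K} : ℚ) - Nat.card {y : Y // t y = K}) * F K := by
    intro F
    rw [sum_eq_sum_fiber, sum_eq_sum_fiber, ← Finset.sum_sub_distrib,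
      Finset.sum_eq_single K]
    · ring
    · intro S _ hS
      rw [h1 S hS, sub_self]
    · intro hK
      exact absurd (Finset.mem_univ K) hK
  have h2 := key (fun _ => 1)
  simp only [Finset.sum_const, Finset.card_univ, nsmul_eq_mul, mul_one] at h2
  rw [key F, h2]

section
variable [Fact p.Prime] [CharP k p] [Fintype A] [IsAlgClosed k] {G : Subgroup A} [hG : G.Normal]
  {e : MonoidAlgebra k A}

theorem gap_cnt {N H : Subgroup A} (hGN : G ≤ N) (hNH : N ≤ H)
    (hn : H ≤ Subgroup.normalizer (N : Set A)) (hp : ∀ x : A, ∃ n : ℕ, x ^ p ^ n ∈ G)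
    (he : IsBlock G e) (hinv : InvBy ⊤ e) [Fintype (IrX G e)] [Fintype (WtC p G e)] :
    (Nat.card H : ℚ) * gap p N H e
      = (cnt (stX (G := G) hinv) N H : ℚ) - cnt (stZ (p := p) he hinv) N H := by
  classical
  have : Fintype (PT p G e) := Fintype.ofFinite _
  have : Fintype (Subgroup A) := Fintype.ofFinite _
  obtain ⟨T, hT1, hT2⟩ := exists_transversal H (Theta p N H e)
  have heN : IsBlock N e := isBlock_up hGN hp he hinv
  rw [gap_eq hNH hn (fun x _ => by
    obtain ⟨n, hn⟩ := hp x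
    exact ⟨n, hGN hn⟩) heN (hinv.mono le_top) T hT1 hT2]
  have h1 := cnt_stP_trans hGN hNH hn hp he hinv T hT1 hT2
  have h2 := cnt_weights (p := p) hNH hn he hinv
  have h3 := cnt_stZ (p := p) hGN hNH hn he hinv
  have h4 := cnt_stX hGN hNH hn hp he.suppIn hinv he.idem
  rw [h4, h3, ← h2, h1]
  push_cast
  ring

/-- the difference for all sections above `G`, when the proper subgroups of `G` satisfy the
blockwise weight conjecture -/
theorem gap_section (hp : ∀ x : A, ∃ n : ℕ, x ^ p ^ n ∈ G) (he : IsBlock G e)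
    (hinv : InvBy ⊤ e)
    (hL : ∀ L : Subgroup A, L < G → ∀ b : MonoidAlgebra k A, IsBlock L b → NavarroEq p L L b)
    {N H : Subgroup A} (hGN : G ≤ N) (hNH : N ≤ H)
    (hn : H ≤ Subgroup.normalizer (N : Set A)) :
    (Nat.card H : ℚ) * gap p N H e = gap p G G e * (fc (InnK p G) N H : ℚ) := by
  classical
  have hfinW : Finite (Wt p G e) := finite_Wt he hinv
  have : Finite (IrX G e) := inferInstance
  have : Fintype (IrX G e) := Fintype.ofFinite _
  have : Fintype (WtC p G e) := Fintype.ofFinite _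
  have hfix : ∀ S : Subgroup A, InnK p G ≤ S → S ≠ InnK p G →
      Nat.card {x : IrX G e // S ≤ stX (G := G) hinv x}
        = Nat.card {y : WtC p G e // S ≤ stZ (p := p) he hinv y} := by
    intro S hKS hne
    have hGS : G ≤ S := (G_le_InnK p G).trans hKS
    have h1 := (navarroEq_iff_stZ (le_refl G) hGS
      (fun x _ => mem_norm_of_normal G x) hp he hinv).1
      (navarro_of_proper hp he hinv hL hGS (fun h => hne (le_antisymm h hKS)))
    rw [cnt_fixed hGS (fun x => G_le_stX hinv x),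
      cnt_fixed hGS (fun x => G_le_stZ he hinv x)] at h1
    exact Nat.eq_of_mul_eq_mul_left Nat.card_pos h1
  have hsum := sum_diff (s := stX (G := G) hinv) (t := stZ (p := p) he hinv) (K := InnK p G)
    (fun x => InnK_le_stX hinv x) (fun x => InnK_le_stZ he hinv x) hfix
  have key : ∀ N H : Subgroup A, (cnt (stX (G := G) hinv) N H : ℚ)
      - cnt (stZ (p := p) he hinv) N H
      = ((Fintype.card (IrX G e) : ℚ) - Fintype.card (WtC p G e)) * (fc (InnK p G) N H : ℚ) := by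
    intro N H
    rw [← hsum (fun S => (fc S N H : ℚ)), cnt_eq_sum_fc, cnt_eq_sum_fc]
    push_cast
    rfl
  have hGG := gap_cnt (le_refl G) (le_refl G) (fun x _ => mem_norm_of_normal G x) hp he hinv
  rw [key, fc_fixed (le_refl G) (G_le_InnK p G), if_pos (G_le_InnK p G)] at hGG
  have hpos : (Nat.card G : ℚ) ≠ 0 := by
    exact_mod_cast (Nat.card_pos (α := G)).ne'
  have h2 : gap p G G e = (Fintype.card (IrX G e) : ℚ) - Fintype.card (WtC p G e) := by
    apply mul_left_cancel₀ hpos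
    rw [hGG]
    ring
  rw [gap_cnt hGN hNH hn hp he hinv, key, h2]

end

end Pool.Agent.Lib.P0c8ca5
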