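import Mathlib
import Pool.Agent.Lib.P0c8ca5.MainB

/-! # Passing from a subgroup `H` of `A` to the group `↥H` as ambient group: definition -/

namespace Pool.Agent.Lib.P0c8ca5

variable {k : Type*} [Field k] {A : Type*} [Group A]

/-- the element of `k↥H` given by the part of `a` supported in `H` -/
noncomputable def dn (H : Subgroup A) (a : MonoidAlgebra k A) : MonoidAlgebra k ↥H :=
  MonoidAlgebra.comapDomain Subtype.val Subtype.val_injective a

theorem coeff_dn (H : Subgroup A) (a : MonoidAlgebra k A) (x : ↥H) :
    (dn H a).coeff x = a.coeff (x : A) := rfl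

end Pool.Agent.Lib.P0c8ca5
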