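import Mathlib
import Pool.Agent.Lib.P0c8ca5N.TrDef

/-!
# Module TrA: blocks and irreducible representations when `H` becomes the ambient group

* `dn_isBlock`: `dn H` restricts to an isomorphism of algebras from the elements supported in `H`
  onto `k↥H` (this is `tr ψ` of P0c8ca5.Transport for the obvious `ψ : H ≃* ⊤`, see `tr_isBlock`
  and `coeff_tr`).
* `dn_card_irr`: a representation of `↥H` is the same as a representation of
  `↥(⊤ : Subgroup ↥H)` (`Subgroup.topEquiv`); irreducibility (`irr_iff`), the block condition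
  (`InBlock`, a finsum over the group) and isomorphism correspond.  (The invariance condition with
  respect to `⊥` is trivial, see `mkIrr` and `card_irr_eq`.)
-/

namespace Pool.Agent.Lib.P0c8ca5

open MonoidAlgebra

set_option linter.unusedSectionVars false

variable {p : ℕ} {k : Type*} [Field k] {A : Type*} [Group A]

namespace TrAAux

/-- `H` as the whole group -/
def tq (H : Subgroup A) : ↥H ≃* ↥(⊤ : Subgroup ↥H) := Subgroup.topEquiv.symm

theorem coe_tq (H : Subgroup A) (x : ↥H) : ((tq H x : ↥(⊤ : Subgroup ↥H)) : ↥H) = x := rfl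

theorem dn_eq_tr (H : Subgroup A) (a : MonoidAlgebra k A) : dn H a = tr (tq H) a := by
  ext y
  rw [coeff_dn, coeff_tr' (tq H) a (Subgroup.mem_top y)]
  rfl

theorem irr_comp {N N' : Type*} [Group N] [Group N'] {V : Type*} [AddCommGroup V] [Module k V]
    (ψ : N ≃* N') {ρ : Representation k N' V} (h : Irr' ρ) :
    Irr' (ρ.comp ψ.toMonoidHom : Representation k N V) := by
  refine ⟨h.nontriv, fun W hW => h.sub W (fun g w hw => ?_)⟩
  have h1 := hW (ψ.symm g) w hw
  have h2 : (ρ.comp ψ.toMonoidHom : N →* (V →ₗ[k] V)) (ψ.symm g) = ρ g := by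
    change ρ (ψ (ψ.symm g)) = ρ g
    rw [MulEquiv.apply_symm_apply]
  rw [h2] at h1
  exact h1

theorem act_up [Finite A] (H : Subgroup A) {V : Type*} [AddCommGroup V] [Module k V]
    (ρ : Representation k ↥(⊤ : Subgroup ↥H) V) (b : MonoidAlgebra k A) :
    act (ρ.comp (tq H).toMonoidHom : Representation k ↥H V) b = act ρ (dn H b) := by
  have : Fintype H := Fintype.ofFinite H
  have : Fintype ↥(⊤ : Subgroup ↥H) := Fintype.ofFinite _
  apply LinearMap.ext
  intro v
  rw [act_apply, act_apply]
  exact Fintype.sum_equiv (tq H).toEquiv _ _ (fun x => rfl)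

theorem act_down [Finite A] (H : Subgroup A) {V : Type*} [AddCommGroup V] [Module k V]
    (ρ : Representation k ↥H V) (b : MonoidAlgebra k A) :
    act (ρ.comp (tq H).symm.toMonoidHom : Representation k ↥(⊤ : Subgroup ↥H) V) (dn H b)
      = act ρ b := by
  have : Fintype H := Fintype.ofFinite H
  have : Fintype ↥(⊤ : Subgroup ↥H) := Fintype.ofFinite _
  apply LinearMap.ext
  intro v
  rw [act_apply, act_apply]
  exact Fintype.sum_equiv (tq H).symm.toEquiv _ _ (fun x => rfl)

end TrAAux

open TrAAux

theorem dn_isBlock {H : Subgroup A} {b : MonoidAlgebra k A} (hb : IsBlock H b) :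
    IsBlock (⊤ : Subgroup ↥H) (dn H b) := by
  rw [dn_eq_tr]
  exact tr_isBlock _ hb

theorem dn_card_irr [Finite A] (H : Subgroup A) (b : MonoidAlgebra k A) :
    Nat.card (Quotient (irrInvSetoid (⊤ : Subgroup ↥H) ⊥ (dn H b)))
      = Nat.card (Quotient (irrInvSetoid H ⊥ b)) := by
  apply Nat.card_congr
  refine
    { toFun := Quotient.map (fun σ => mkIrr (σ.ρ.comp (tq H).toMonoidHom : Representation k ↥H _)
          (irr_comp (tq H) (irr_iff.1 σ.irr)) (by rw [act_up]; exact act_iff.2 σ.blk)) ?_
      invFun := Quotient.map (fun σ => mkIrr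
          (σ.ρ.comp (tq H).symm.toMonoidHom : Representation k ↥(⊤ : Subgroup ↥H) _)
          (irr_comp (tq H).symm (irr_iff.1 σ.irr)) (by rw [act_down]; exact act_iff.2 σ.blk)) ?_
      left_inv := ?_
      right_inv := ?_ }
  · rintro σ σ' h
    obtain ⟨P, hP⟩ := iso_iff.2 h
    exact iso_iff.1 ⟨P, fun x v => hP (tq H x) v⟩
  · rintro σ σ' h
    obtain ⟨P, hP⟩ := iso_iff.2 h
    exact iso_iff.1 ⟨P, fun x v => hP ((tq H).symm x) v⟩
  · intro x
    induction x using Quotient.inductionOn with
    | _ σ =>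
      apply mk_eq_mk.2
      exact ⟨LinearEquiv.refl k _, fun x v => rfl⟩
  · intro x
    induction x using Quotient.inductionOn with
    | _ σ =>
      apply mk_eq_mk.2
      exact ⟨LinearEquiv.refl k _, fun x v => rfl⟩

end Pool.Agent.Lib.P0c8ca5
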