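import Mathlib
import Pool.Agent.Lib.P0c8ca5N.TrDef

/-!
# Module TrB: sections when `H` becomes the ambient group

`Q'` a subgroup of `↥H`, `Q = Q'.map H.subtype` its image in `A`.
* `dn_normalizer`: `N_{↥H}(Q')` is mapped onto `H ⊓ N(Q)` by the inclusion.
* `dn_card_dz`: let `K₀ = ↥(N_{↥H}(Q'))`; the homomorphisms `K₀ → NQ Q'` and `K₀ → NQ Q` (via the
  inclusion) have the same kernel and ranges `sec ⊤ Q'`, `sec H Q`; `exists_iso_of_ker` of
  P0c8ca5.Transport gives `ψ`, and `tr ψ` is a bijection from the first set to the second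
  (`tr_isDZ` for `ψ` and `ψ.symm`, `tr_mul`, `tr_symm_tr`, `tr_injOn`), because
  `tr ψ (proj Q' (dn H b)) = proj Q b` for `b` supported in `H` (`coeff_proj`, `coeff_tr`): both sides
  have at the coset of `n ∈ K₀` the coefficient `∑_{x ∈ n Q} b x`.  Compare the module SecIso
  (P0c8ca5N.SecIso on main), which has the same argument for two subgroups of the same ambient group.
-/

namespace Pool.Agent.Lib.P0c8ca5

open MonoidAlgebra

set_option linter.unusedSectionVars false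

variable {p : ℕ} {k : Type*} [Field k] {A : Type*} [Group A]

namespace TrBAux

theorem mem_up {H : Subgroup A} {Q' : Subgroup ↥H} {x : ↥H} :
    (x : A) ∈ Q'.map H.subtype ↔ x ∈ Q' := by
  constructor
  · rintro ⟨y, hy, hyx⟩
    have : y = x := Subtype.ext hyx
    rw [← this]; exact hy
  · intro h
    exact ⟨x, h, rfl⟩

theorem up_le {H : Subgroup A} {Q' : Subgroup ↥H} : Q'.map H.subtype ≤ H := by
  rintro _ ⟨y, _, rfl⟩
  exact y.2

theorem mem_norm {H : Subgroup A} {Q' : Subgroup ↥H} {x : ↥H} :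
    (x : A) ∈ Subgroup.normalizer ((Q'.map H.subtype : Subgroup A) : Set A)
      ↔ x ∈ Subgroup.normalizer (Q' : Set ↥H) := by
  rw [Subgroup.mem_normalizer_iff, Subgroup.mem_normalizer_iff]
  constructor
  · intro h y
    have h1 := h (y : A)
    have e1 : (x : A) * (y : A) * (x : A)⁻¹ = ((x * y * x⁻¹ : ↥H) : A) := rfl
    rw [e1, mem_up, mem_up] at h1
    exact h1
  · intro h y
    by_cases hy : y ∈ H
    · have h1 := h ⟨y, hy⟩
      rw [← mem_up, ← mem_up] at h1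
      exact h1
    · constructor
      · intro h1
        exact absurd (up_le h1) hy
      · intro h1
        have h2 := up_le h1
        exfalso
        apply hy
        have h3 := H.mul_mem (H.mul_mem (H.inv_mem x.2) h2) x.2
        have e1 : (x : A)⁻¹ * ((x : A) * y * (x : A)⁻¹) * (x : A) = y := by group
        rwa [e1] at h3

theorem exists_iso_sec (H : Subgroup A) (Q' : Subgroup ↥H) :
    ∃ ψ : ↥(sec (⊤ : Subgroup ↥H) Q') ≃* ↥(sec H (Q'.map H.subtype)),
      ∀ (n : ↥H) (hn : n ∈ Subgroup.normalizer (Q' : Set ↥H)) (c : ↥(sec (⊤ : Subgroup ↥H) Q')),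
        (c : NQ Q') = qm Q' n hn →
          ((ψ c : ↥(sec H (Q'.map H.subtype))) : NQ (Q'.map H.subtype))
            = qm (Q'.map H.subtype) n (mem_norm.2 hn) := by
  let φ : ↥(Subgroup.normalizer (Q' : Set ↥H)) →*
      ↥(Subgroup.normalizer ((Q'.map H.subtype : Subgroup A) : Set A)) :=
    { toFun := fun x => ⟨((x : ↥H) : A), mem_norm.2 x.2⟩
      map_one' := rfl
      map_mul' := fun _ _ => rfl }
  let α : ↥(Subgroup.normalizer (Q' : Set ↥H)) →* NQ Q' := QuotientGroup.mk' _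
  let β : ↥(Subgroup.normalizer (Q' : Set ↥H)) →* NQ (Q'.map H.subtype) :=
    (QuotientGroup.mk' _).comp φ
  have hα : ∀ x, α x = qm Q' x x.2 := fun x => rfl
  have hβ : ∀ x, β x = qm (Q'.map H.subtype) ((x : ↥H) : A) (mem_norm.2 x.2) := fun x => rfl
  obtain ⟨ψ, hψ⟩ := exists_iso_of_ker (C₁ := sec (⊤ : Subgroup ↥H) Q')
    (C₂ := sec H (Q'.map H.subtype)) α β
    (fun x => by
      rw [hα, hβ, qm_eq_one_iff, qm_eq_one_iff, mem_up])
    (by
      ext w
      rw [MonoidHom.mem_range, mem_sec]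
      constructor
      · rintro ⟨x, rfl⟩
        exact ⟨x, Subgroup.mem_top _, x.2, rfl⟩
      · rintro ⟨g, hg, hg', rfl⟩
        exact ⟨⟨g, hg'⟩, rfl⟩)
    (by
      ext w
      rw [MonoidHom.mem_range, mem_sec]
      constructor
      · rintro ⟨x, rfl⟩
        exact ⟨((x : ↥H) : A), (x : ↥H).2, mem_norm.2 x.2, rfl⟩
      · rintro ⟨g, hg, hg', rfl⟩
        exact ⟨⟨⟨g, hg⟩, mem_norm.1 hg'⟩, rfl⟩)
  exact ⟨ψ, fun n hn c hc => hψ ⟨n, hn⟩ c hc⟩

theorem tr_proj [Fintype A] (H : Subgroup A) {b : MonoidAlgebra k A} (hb : SuppIn H b)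
    (Q' : Subgroup ↥H) {ψ : ↥(sec (⊤ : Subgroup ↥H) Q') ≃* ↥(sec H (Q'.map H.subtype))}
    (hψ : ∀ (n : ↥H) (hn : n ∈ Subgroup.normalizer (Q' : Set ↥H))
        (c : ↥(sec (⊤ : Subgroup ↥H) Q')),
        (c : NQ Q') = qm Q' n hn →
          ((ψ c : ↥(sec H (Q'.map H.subtype))) : NQ (Q'.map H.subtype))
            = qm (Q'.map H.subtype) n (mem_norm.2 hn)) :
    tr ψ (proj Q' (dn H b)) = proj (Q'.map H.subtype) b := by
  classical
  have : Fintype ↥H := Fintype.ofFinite _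
  ext y
  by_cases hy : y ∈ sec H (Q'.map H.subtype)
  · obtain ⟨g, hg, hg', rfl⟩ := mem_sec.1 hy
    have hx : (⟨g, hg⟩ : ↥H) ∈ Subgroup.normalizer (Q' : Set ↥H) := mem_norm.1 hg'
    have h2 := hψ ⟨g, hg⟩ hx ⟨qm Q' ⟨g, hg⟩ hx, qm_mem_sec _ (Subgroup.mem_top _)⟩ rfl
    have h3 : qm (Q'.map H.subtype) g hg' = qm (Q'.map H.subtype) ((⟨g, hg⟩ : ↥H) : A)
      (mem_norm.2 hx) := rfl
    rw [h3, ← h2, coeff_tr, h2, coeff_proj, coeff_proj]
    refine Fintype.sum_of_injective (fun z : ↥H => (z : A)) Subtype.val_injective _ _ ?_ ?_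
    · intro z hz
      have hzH : z ∉ H := fun h => hz ⟨⟨z, h⟩, rfl⟩
      have : b.coeff z = 0 := by
        by_contra h; exact hzH (hb z h)
      rw [this]; simp
    · intro z
      have e1 : (((⟨g, hg⟩ : ↥H) : A))⁻¹ * (z : A) = (((⟨g, hg⟩ : ↥H)⁻¹ * z : ↥H) : A) := rfl
      rw [e1]
      simp only [mem_up, coeff_dn]
  · rw [coeff_tr_of_notMem _ _ hy]
    by_contra h
    exact hy (proj_suppIn hb _ y (Ne.symm h))

end TrBAux

open TrBAux

theorem dn_normalizer (H : Subgroup A) (Q' : Subgroup ↥H) :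
    Nat.card ↥((⊤ : Subgroup ↥H) ⊓ Subgroup.normalizer (Q' : Set ↥H))
      = Nat.card ↥(H ⊓ Subgroup.normalizer ((Q'.map H.subtype : Subgroup A) : Set A)) := by
  refine Nat.card_congr
    { toFun := fun x => ⟨((x : ↥H) : A), Subgroup.mem_inf.2
        ⟨(x : ↥H).2, mem_norm.2 (Subgroup.mem_inf.1 x.2).2⟩⟩
      invFun := fun x => ⟨⟨(x : A), (Subgroup.mem_inf.1 x.2).1⟩, Subgroup.mem_inf.2
        ⟨Subgroup.mem_top _, mem_norm.1 (Subgroup.mem_inf.1 x.2).2⟩⟩
      left_inv := fun x => rfl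
      right_inv := fun x => rfl }

theorem dn_card_dz [Finite A] (H : Subgroup A) {b : MonoidAlgebra k A} (hb : SuppIn H b)
    (Q' : Subgroup ↥H) :
    Nat.card {f : MonoidAlgebra k (NQ Q') | IsDZ p (sec (⊤ : Subgroup ↥H) Q') f ∧
        f * proj Q' (dn H b) = f}
      = Nat.card {f : MonoidAlgebra k (NQ (Q'.map H.subtype)) |
        IsDZ p (sec H (Q'.map H.subtype)) f ∧ f * proj (Q'.map H.subtype) b = f} := by
  have : Fintype A := Fintype.ofFinite _
  have : Fintype ↥H := Fintype.ofFinite _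
  obtain ⟨ψ, hψ⟩ := TrBAux.exists_iso_sec H Q'
  have htr := TrBAux.tr_proj H hb Q' hψ
  have hb' : SuppIn (⊤ : Subgroup ↥H) (dn H b) := fun x _ => Subgroup.mem_top x
  have hs1 : SuppIn (sec (⊤ : Subgroup ↥H) Q') (proj Q' (dn H b)) := proj_suppIn hb' _
  have hs2 : SuppIn (sec H (Q'.map H.subtype)) (proj (Q'.map H.subtype) b) := proj_suppIn hb _
  have htr' : tr ψ.symm (proj (Q'.map H.subtype) b) = proj Q' (dn H b) := by
    rw [← htr, tr_symm_tr ψ hs1]
  refine Nat.card_congr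
    { toFun := fun f => ⟨tr ψ f.1, tr_isDZ ψ f.2.1, ?_⟩
      invFun := fun f => ⟨tr ψ.symm f.1, tr_isDZ ψ.symm f.2.1, ?_⟩
      left_inv := ?_
      right_inv := ?_ }
  · rw [← htr, ← tr_mul ψ f.2.1.blk.suppIn hs1, f.2.2]
  · rw [← htr', ← tr_mul ψ.symm f.2.1.blk.suppIn hs2, f.2.2]
  · intro f
    exact Subtype.ext (tr_symm_tr ψ f.2.1.blk.suppIn)
  · intro f
    exact Subtype.ext (tr_tr_symm ψ f.2.1.blk.suppIn)

end Pool.Agent.Lib.P0c8ca5
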