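import Mathlib
import Pool.Agent.Lib.P0c8ca5N.TrC

/-!
# Defect groups of the blocks in the chain formula

For a chain `σ` of `p`-subgroups `Q` of `X` with `G Q = X` and a block `b` of `N_G(σ)` with
`b * Br(e) ≠ 0`, every `p`-subgroup `R` of `N_G(σ)` with `Br_R(b) ≠ 0` satisfies `Br_R(e) ≠ 0`.
So the defect groups of `b` are contained in defect groups of `e`, and Navarro's equality for `e`
follows from the blockwise Alperin weight conjecture for the blocks of subgroups of `G` whose
defect groups are contained in defect groups of `e`.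
-/

namespace Pool.Agent.Lib.P0c8ca5

open MonoidAlgebra

set_option linter.unusedSectionVars false

variable {p : ℕ} {k : Type*} [Field k] {A : Type*} [Group A]

section
variable [Fact p.Prime] [CharP k p] [IsAlgClosed k] [Fintype A]

theorem hasBr_of_chain_block {G X : Subgroup A} (hGX : G ≤ X)
    {e : MonoidAlgebra k A} (he : IsBlock G e) (hinv : InvBy X e)
    {σ : Finset (Subgroup A)} (hne : σ.Nonempty) (hσ : IsChain (· ≤ ·) (σ : Set (Subgroup A)))
    (hσS : ∀ Q ∈ σ, Q ∈ Supp p G X) {b : MonoidAlgebra k A} (hb : IsBlock (G ⊓ stab X σ) b)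
    (hbe : b * cS (σ.sup id) e ≠ 0) {R : Subgroup A} (hR : IsPGroup p R)
    (hRN : R ≤ G ⊓ stab X σ) (hRb : HasBr R b) : HasBr R e := by
  classical
  set S := σ.sup id with hSdef
  have hSσ : S ∈ σ := sup_mem_chain hne hσ
  have hHn : ∀ Q ∈ σ, stab X σ ≤ Subgroup.normalizer (Q : Set A) := fun Q hQ x hx =>
    (mem_stab.1 hx).2 Q hQ
  have hctx : Ctx p X (stab X σ) S e :=
    { hHX := inf_le_left
      hS := (hσS S hSσ).2.1
      hHS := hHn S hSσ
      hCS := by
        intro x hx
        rw [mem_stab]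
        refine ⟨hx.1, fun Q hQ => ?_⟩
        have hQS : Q ≤ S := Finset.le_sup (f := id) hQ
        exact Subgroup.centralizer_le_normalizer _ (Subgroup.centralizer_le hQS hx.2)
      supp := he.suppIn.mono hGX
      inv := hinv }
  have hcH : SuppIn (stab X σ) (cS S e) := hctx.cS_supp
  have hcK : SuppIn (G ⊓ stab X σ) (cS S e) := by
    intro x hx
    refine Subgroup.mem_inf.2 ⟨?_, hcH x hx⟩
    apply he.suppIn
    intro h0
    apply hx
    rw [coeff_resS]
    split_ifs
    · exact h0
    · rfl
  have hcinvK : InvBy (G ⊓ stab X σ) (cS S e) := hctx.cS_inv.mono inf_le_right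
  have hcc : cS S e * cS S e = cS S e := hctx.cS_idem (hσS S hSσ).1 he.idem
  have hcmem : cS S e ∈ fixAlg k (G ⊓ stab X σ) (G ⊓ stab X σ) := mem_fixAlg.2 ⟨hcK, hcinvK⟩
  have hcomm : cS S e * b = b * cS S e := (commute_of hcK hb.invBy)
  have hmul : cS S e * b = b := by
    rcases hb.mul_eq hcmem hcc with h | h
    · rw [hcomm] at h; exact absurd h hbe
    · exact h
  have hres := resS_mul hR (hcinvK.mono hRN) (hb.invBy.mono hRN)
  rw [hmul] at hres
  obtain ⟨x, hx, hxb⟩ := hRb
  have h1 : resS (Subgroup.centralizer (R : Set A) : Set A) b ≠ 0 := by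
    intro h0
    apply hxb
    have h2 := coeff_resS_of_mem b (S := (Subgroup.centralizer (R : Set A) : Set A)) hx
    rw [h0] at h2
    simpa using h2.symm
  have h2 : resS (Subgroup.centralizer (R : Set A) : Set A) (cS S e) ≠ 0 := by
    intro h0
    rw [h0, zero_mul] at hres
    exact h1 hres
  by_contra hno
  apply h2
  ext y
  by_cases hy : y ∈ (Subgroup.centralizer (R : Set A) : Set A)
  · rw [coeff_resS_of_mem _ hy, coeff_resS]
    have h3 : e.coeff y = 0 := by
      by_contra h4
      exact hno ⟨y, hy, h4⟩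
    rw [h3]
    simp
  · rw [coeff_resS_of_notMem _ hy]
    simp

/-- the defect groups of the blocks `b` in the chain formula are contained in defect groups
of `e` -/
theorem defect_of_chain_block {G X : Subgroup A} (hGX : G ≤ X)
    {e : MonoidAlgebra k A} (he : IsBlock G e) (hinv : InvBy X e)
    {σ : Finset (Subgroup A)} (hne : σ.Nonempty) (hσ : IsChain (· ≤ ·) (σ : Set (Subgroup A)))
    (hσS : ∀ Q ∈ σ, Q ∈ Supp p G X) {b : MonoidAlgebra k A} (hb : IsBlock (G ⊓ stab X σ) b)
    (hbe : b * cS (σ.sup id) e ≠ 0) {R : Subgroup A}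
    (hR : IsDefectGroup p (G ⊓ stab X σ) b R) : ∃ D, IsDefectGroup p G e D ∧ R ≤ D :=
  exists_defect (hR.le.trans inf_le_left) hR.isPGroup
    (hasBr_of_chain_block hGX he hinv hne hσ hσS hb hbe hR.isPGroup hR.le hR.br)

end

end Pool.Agent.Lib.P0c8ca5
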